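import Pool.Agent.Lib.MP_e9c977_fv.Euler3

/-!
# Row E4: Euler's relation in dimension four
-/

namespace Pool.Agent.FV

open Module
open scoped Classical

variable {E : Type} [NormedAddCommGroup E] [InnerProductSpace ℝ E]

namespace E4Aux

open E3Aux

variable {V : Finset E} {u : E} (l : E →ₗ[ℝ] ℝ)

theorem chi_mid (hV : ConvPos V) (h4 : adim V = 4) (hl : Set.InjOn l (V : Set E))
    (hu : u ∈ V) (h1 : ∃ y ∈ V, l y < l u) (h2 : ∃ y ∈ V, l u < l y) :
    (1 : ℤ) - (tops l (faces V 1) u).card + (tops l (faces V 2) u).card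
      - (tops l (faces V 3) u).card = 0 := by
  obtain ⟨g, hg⟩ := exists_cuts hV hu
  have hU := convPos_vfig hV hu hg
  have hd := adim_vfig hV hu hg (by omega)
  have e1 := card_tops hV hu hg l hl 0
  have e2 := card_tops hV hu hg l hl 1
  have e3 := card_tops hV hu hg l hl 2
  rw [card_faces_zero_filter hU] at e1
  have e4 := euler_three_lower hU (by omega) l (vfig_ne_zero hu hg l hl)
    (vfig_exists_neg hV hu hg l h1) (vfig_exists_pos hV hu hg l h2)
  simp only [zero_add, Nat.reduceAdd] at e1 e2 e3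
  rw [e1, e2, e3]
  omega

theorem chi_max (hV : ConvPos V) (h4 : adim V = 4)
    (hu : u ∈ V) (h : ∀ y ∈ V, l y ≤ l u) :
    (1 : ℤ) - (tops l (faces V 1) u).card + (tops l (faces V 2) u).card
      - (tops l (faces V 3) u).card = -1 := by
  obtain ⟨g, hg⟩ := exists_cuts hV hu
  have hU := convPos_vfig hV hu hg
  have hd := adim_vfig hV hu hg (by omega)
  have e1 := card_tops_max hV hu hg l h 0
  have e2 := card_tops_max hV hu hg l h 1
  have e3 := card_tops_max hV hu hg l h 2
  have e4 := euler_three hU (by omega)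
  rw [card_faces_zero hU] at e1
  simp only [zero_add, Nat.reduceAdd] at e1 e2 e3
  rw [e1, e2, e3]
  omega

theorem chi_min (hl : Set.InjOn l (V : Set E))
    (hu : u ∈ V) (h : ∀ y ∈ V, l u ≤ l y) :
    (1 : ℤ) - (tops l (faces V 1) u).card + (tops l (faces V 2) u).card
      - (tops l (faces V 3) u).card = 1 := by
  have e1 := card_tops_min l hu hl h 0
  have e2 := card_tops_min l hu hl h 1
  have e3 := card_tops_min l hu hl h 2
  simp only [zero_add, Nat.reduceAdd] at e1 e2 e3
  rw [e1, e2, e3]
  norm_num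

end E4Aux

open E3Aux in
theorem euler_four {V : Finset E} (hV : ConvPos V) (h4 : adim V = 4) :
    (V.card : ℤ) - (faces V 1).card + (faces V 2).card - (faces V 3).card = 0 := by
  obtain ⟨l', hl', -⟩ := exists_generic V 0 0
  rw [card_eq_sum l' hl' _ (faces_nonempty_subset 1),
    card_eq_sum l' hl' _ (faces_nonempty_subset 2),
    card_eq_sum l' hl' _ (faces_nonempty_subset 3)]
  have hs := sum_all (V := V) (exists_two (by omega)) l' hl'
    (fun u => (1 : ℤ) - (tops l' (faces V 1) u).card + (tops l' (faces V 2) u).card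
      - (tops l' (faces V 3) u).card) 1 (-1)
    (fun x hx h => E4Aux.chi_min l' hl' hx h)
    (fun x hx h h' => E4Aux.chi_mid l' hV h4 hl' hx h h')
    (fun x hx h => E4Aux.chi_max l' hV h4 hx h)
  simp only [Finset.sum_add_distrib, Finset.sum_sub_distrib, Finset.sum_const, nsmul_eq_mul,
    mul_one] at hs
  push_cast
  linarith [hs]

end Pool.Agent.FV
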