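import Pool.Agent.Lib.MP_e9c977_fv.CardBars
import Pool.Agent.Lib.MP_e9c977_fv.Euler4

/-!
# Row DP: the inequality `4 f₀ + 6 f₃ ≤ f₁ + 3 f₂ + 10`
-/

namespace Pool.Agent.FV

open Module
open scoped Classical

noncomputable section

variable {E : Type} [NormedAddCommGroup E] [InnerProductSpace ℝ E]

private theorem dp_nonempty {V : Finset E} (h4 : adim V = 4) : V.Nonempty := by
  rcases V.eq_empty_or_nonempty with h | h
  · subst h
    rw [adim, Finset.coe_empty, vectorSpan_empty, finrank_bot] at h4
    omega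
  · exact h

/-- the two facets containing a 2-face -/
private theorem dp_two {V : Finset E} (h4 : adim V = 4) {R : Finset E} (hR : R ∈ faces V 2) :
    ((faces V 3).filter (fun F => R ⊆ F)).card = 2 := by
  have hR' := mem_faces.1 hR
  have h := diamond hR'.1 (FaceSet.self (dp_nonempty h4)) hR'.1.2.1 (by rw [h4, hR'.2])
  rw [hR'.2] at h
  rw [← h]
  congr 1
  apply Finset.filter_congr
  intro F hF
  have := (mem_faces.1 hF).1.2.1
  simp [this]

private theorem dp_swap {V : Finset E} (h4 : adim V = 4) (g : Finset E → ℕ) :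
    ∑ F ∈ faces V 3, ∑ R ∈ faces F 2, g R = 2 * ∑ R ∈ faces V 2, g R := by
  have h1 : ∀ F ∈ faces V 3, ∑ R ∈ faces F 2, g R
      = ∑ R ∈ faces V 2, if R ⊆ F then g R else 0 := by
    intro F hF
    rw [faces_face (mem_faces.1 hF).1 2, Finset.sum_filter]
  rw [Finset.sum_congr rfl h1, Finset.sum_comm, Finset.mul_sum]
  apply Finset.sum_congr rfl
  intro R hR
  rw [← Finset.sum_filter, Finset.sum_const, dp_two h4 hR, smul_eq_mul]

/-- Every 2-face is in two facets. -/
theorem sum_card_facets {V : Finset E} (h4 : adim V = 4) :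
    ∑ F ∈ faces V 3, (faces F 2).card = 2 * (faces V 2).card := by
  have h := dp_swap h4 (fun _ => 1)
  simpa using h

/-- `f₀₂ = ∑ e_F`. -/
theorem sum_edges_facets {V : Finset E} (hV : ConvPos V) (h4 : adim V = 4) :
    ∑ F ∈ faces V 3, (faces F 1).card = ∑ R ∈ faces V 2, R.card := by
  have h := dp_swap h4 (fun R => R.card)
  have h1 : ∀ F ∈ faces V 3, ∑ R ∈ faces F 2, R.card = 2 * (faces F 1).card := by
    intro F hF
    have hF' := mem_faces.1 hF
    exact sum_card_two_faces (hV.mono hF'.1.2.1) hF'.2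
  rw [Finset.sum_congr rfl h1, ← Finset.mul_sum] at h
  omega

/-- data of a three-dimensional configuration -/
private theorem dp_three {V : Finset E} (hV : ConvPos V) (h3 : adim V = 3) :
    (faces V 1).card + 6 ≤ 3 * (faces V 2).card := by
  have h1 : 3 * V.card ≤ 2 * (faces V 1).card := by
    rw [← sum_card_nbr hV]
    calc 3 * V.card = ∑ _x ∈ V, 3 := by simp [mul_comm]
      _ ≤ ∑ x ∈ V, (nbr V x).card := Finset.sum_le_sum fun x hx => by
          have := adim_le_card_nbr hV hx
          omega
  have h2 := euler_three hV h3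
  omega

private theorem dp_three_eq {V : Finset E} (hV : ConvPos V) (h3 : adim V = 3)
    (h : (faces V 1).card + 6 = 3 * (faces V 2).card) : ∀ x ∈ V, (nbr V x).card = 3 := by
  have h2 := euler_three hV h3
  have h1 : ∑ _x ∈ V, 3 = ∑ x ∈ V, (nbr V x).card := by
    rw [sum_card_nbr hV]
    simp only [Finset.sum_const, smul_eq_mul]
    omega
  have h4 : ∀ x ∈ V, 3 ≤ (nbr V x).card := fun x hx => by
    have := adim_le_card_nbr hV hx
    omega
  have h5 := (Finset.sum_eq_sum_iff_of_le h4).1 h1
  intro x hx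
  exact (h5 x hx).symm

/-- a choice of apexes -/
private theorem dp_apex (V : Finset E) : ∃ a : Finset E → E, ∀ R ∈ faces V 2, a R ∈ R := by
  have : ∀ R : Finset E, ∃ x : E, R ∈ faces V 2 → x ∈ R := by
    intro R
    by_cases h : R ∈ faces V 2
    · obtain ⟨x, hx⟩ := (mem_faces.1 h).1.1
      exact ⟨x, fun _ => hx⟩
    · exact ⟨0, fun h' => absurd h' h⟩
  choose a ha using this
  exact ⟨a, fun R hR => ha R hR⟩

/-- the sum over the facets -/
private theorem dp_sum {V : Finset E} (hV : ConvPos V) (h4 : adim V = 4) :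
    ∑ R ∈ faces V 2, R.card + 6 * (faces V 3).card ≤ 6 * (faces V 2).card := by
  have h : ∑ F ∈ faces V 3, ((faces F 1).card + 6) ≤ ∑ F ∈ faces V 3, 3 * (faces F 2).card :=
    Finset.sum_le_sum fun F hF =>
      dp_three (hV.mono (mem_faces.1 hF).1.2.1) (mem_faces.1 hF).2
  rw [Finset.sum_add_distrib, sum_edges_facets hV h4, ← Finset.mul_sum, sum_card_facets h4,
    Finset.sum_const, smul_eq_mul] at h
  omega

theorem dprime [FiniteDimensional ℝ E] (hE : finrank ℝ E = 4) {V : Finset E}
    (hV : ConvPos V) (h4 : adim V = 4) :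
    4 * V.card + 6 * (faces V 3).card ≤ (faces V 1).card + 3 * (faces V 2).card + 10 := by
  obtain ⟨a, ha⟩ := dp_apex V
  have h1 := four_mul_card_le hE hV h4 ha
  have h2 := card_bars hV ha
  have h3 := dp_sum hV h4
  omega

theorem ziegler_ineq [FiniteDimensional ℝ E] (hE : finrank ℝ E = 4) {V : Finset E}
    (hV : ConvPos V) (h4 : adim V = 4) :
    5 * (V.card + (faces V 3).card) ≤ 2 * ((faces V 1).card + (faces V 2).card) + 10 := by
  have h1 := dprime hE hV h4
  have h2 := euler_four hV h4
  omega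

/-- The face of the f-vector cone we describe. -/
def Tight (V : Finset E) : Prop :=
  2 * ((faces V 1).card + (faces V 2).card) + 10 = 5 * (V.card + (faces V 3).card)

theorem Tight.simpleFacets [FiniteDimensional ℝ E] (hE : finrank ℝ E = 4) {V : Finset E}
    (hV : ConvPos V) (h4 : adim V = 4) (h : Tight V) : SimpleFacets V := by
  obtain ⟨a, ha⟩ := dp_apex V
  have h1 := four_mul_card_le hE hV h4 ha
  have h2 := card_bars hV ha
  have h3 := dp_sum hV h4
  have h5 := euler_four hV h4
  unfold Tight at h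
  have h6 : ∑ R ∈ faces V 2, R.card + 6 * (faces V 3).card = 6 * (faces V 2).card := by
    omega
  have h7 : ∑ F ∈ faces V 3, ((faces F 1).card + 6) = ∑ F ∈ faces V 3, 3 * (faces F 2).card := by
    rw [Finset.sum_add_distrib, sum_edges_facets hV h4, ← Finset.mul_sum, sum_card_facets h4,
      Finset.sum_const, smul_eq_mul]
    omega
  have h8 := (Finset.sum_eq_sum_iff_of_le (fun F hF =>
      dp_three (hV.mono (mem_faces.1 hF).1.2.1) (mem_faces.1 hF).2)).1 h7
  intro F hF x hx
  exact dp_three_eq (hV.mono (mem_faces.1 hF).1.2.1) (mem_faces.1 hF).2 (h8 F hF) x hx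

theorem Tight.bars [FiniteDimensional ℝ E] (hE : finrank ℝ E = 4) {V : Finset E}
    (hV : ConvPos V) (h4 : adim V = 4) (h : Tight V) {a : Finset E → E}
    (ha : ∀ R ∈ faces V 2, a R ∈ R) : 4 * V.card = (bars V a).card + 10 := by
  have h1 := four_mul_card_le hE hV h4 ha
  have h2 := card_bars hV ha
  have h3 := dp_sum hV h4
  have h5 := euler_four hV h4
  unfold Tight at h
  omega

end

end Pool.Agent.FV
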