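import Pool.Agent.Lib.MP_e9c977_fv.Graph

/-!
# Row SK: stacking on a simplicial facet
-/

namespace Pool.Agent.FV

open Module Filter Topology
open scoped Classical

noncomputable section

variable {E : Type} [NormedAddCommGroup E] [InnerProductSpace ℝ E]

namespace SKAux

/-- The new point: a bit beyond the centroid `m`, seen from `v`. -/
def zpt (m v : E) (ε : ℝ) : E := m + ε • (m - v)

theorem apply_zpt (L : E →ₗ[ℝ] ℝ) (m v : E) (ε : ℝ) :
    L (zpt m v ε) = L m + ε * (L m - L v) := by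
  simp [zpt]

theorem ev_face {V T S : Finset E} (hTV : T ⊆ V) (hc : T.card = 4) (hS : FaceSet V S)
    (hTS : ¬ T ⊆ S) {m : E} (v : E) (hm : (4 : ℝ) • m = ∑ y ∈ T, y) :
    ∀ᶠ ε in 𝓝[>] (0 : ℝ), ∃ (L : E →ₗ[ℝ] ℝ) (C : ℝ), (∀ x ∈ V, L x ≤ C) ∧
      (∀ x ∈ V, (L x = C ↔ x ∈ S)) ∧ L (zpt m v ε) < C := by
  obtain ⟨hne, hSV, L, C, hL, hiff⟩ := hS
  have h1 : L m < C := by
    have h2 : (4 : ℝ) * L m = ∑ y ∈ T, L y := by
      have := congrArg L hm
      rwa [map_smul, map_sum, smul_eq_mul] at this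
    obtain ⟨x, hx, hxS⟩ := Finset.not_subset.1 hTS
    have h3 : ∑ y ∈ T, L y < ∑ _y ∈ T, C := by
      refine Finset.sum_lt_sum (fun y hy => hL y (hTV hy)) ⟨x, hx, ?_⟩
      exact lt_of_le_of_ne (hL x (hTV hx)) (fun h => hxS ((hiff x (hTV hx)).1 h))
    rw [Finset.sum_const, hc, nsmul_eq_mul] at h3
    push_cast at h3
    linarith
  have h2 : Tendsto (fun ε : ℝ => L m + ε * (L m - L v)) (𝓝[>] 0)
      (𝓝 (L m + 0 * (L m - L v))) :=
    (Continuous.tendsto (by fun_prop) 0).mono_left nhdsWithin_le_nhds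
  rw [zero_mul, add_zero] at h2
  filter_upwards [h2.eventually_lt_const h1] with ε hε
  exact ⟨L, C, hL, hiff, by rw [apply_zpt]; exact hε⟩

theorem exists_weights_of_mem {T : Finset E} {d : E} (hd : d ∈ vectorSpan ℝ (T : Set E)) :
    ∃ β : E → ℝ, ∑ y ∈ T, β y = 0 ∧ d = ∑ y ∈ T, β y • y := by
  rw [vectorSpan_def] at hd
  induction hd using Submodule.span_induction with
  | mem x hx =>
    obtain ⟨a, ha, b, hb, rfl⟩ := Set.mem_vsub.1 hx
    refine ⟨fun y => (if y = a then 1 else 0) - (if y = b then 1 else 0), ?_, ?_⟩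
    · rw [Finset.sum_sub_distrib, Finset.sum_ite_eq' T a, Finset.sum_ite_eq' T b]
      simp [Finset.mem_coe.1 ha, Finset.mem_coe.1 hb]
    · simp only [sub_smul, ite_smul, one_smul, zero_smul]
      rw [Finset.sum_sub_distrib, Finset.sum_ite_eq' T a, Finset.sum_ite_eq' T b]
      simp [Finset.mem_coe.1 ha, Finset.mem_coe.1 hb]
  | zero => exact ⟨0, by simp, by simp⟩
  | add x y _ _ hx hy =>
    obtain ⟨β, h1, rfl⟩ := hx
    obtain ⟨β', h1', rfl⟩ := hy
    refine ⟨β + β', ?_, ?_⟩
    · simp [Finset.sum_add_distrib, h1, h1']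
    · simp [Finset.sum_add_distrib, add_smul]
  | smul t x _ hx =>
    obtain ⟨β, h1, rfl⟩ := hx
    refine ⟨t • β, ?_, ?_⟩
    · simp [← Finset.mul_sum, h1]
    · simp [Finset.smul_sum, mul_smul]

theorem sub_mem_of_centroid {V T : Finset E} (hTV : T ⊆ V) (hc : T.card = 4) {m v : E}
    (hm : (4 : ℝ) • m = ∑ y ∈ T, y) (hv : v ∈ V) : m - v ∈ vectorSpan ℝ (V : Set E) := by
  have h : m - v = (4 : ℝ)⁻¹ • ∑ y ∈ T, (y - v) := by
    rw [Finset.sum_sub_distrib, ← hm, Finset.sum_const, hc, smul_sub, smul_smul]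
    norm_num
    rw [← Nat.cast_smul_eq_nsmul ℝ, smul_smul]
    norm_num
  rw [h]
  refine Submodule.smul_mem _ _ (Submodule.sum_mem _ ?_)
  intro y hy
  exact vsub_mem_vectorSpan ℝ (Finset.mem_coe.2 (hTV hy)) (Finset.mem_coe.2 hv)

theorem mem_vectorSpan_face {V T : Finset E} (hTV : T ⊆ V) (h : adim V = adim T + 1)
    {l : E →ₗ[ℝ] ℝ} {c : ℝ} (hT : ∀ x ∈ T, l x = c) {v : E} (hv : v ∈ V) (hvc : l v ≠ c)
    (hTne : T.Nonempty) {d : E} (hd : d ∈ vectorSpan ℝ (V : Set E)) (hld : l d = 0) :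
    d ∈ vectorSpan ℝ (T : Set E) := by
  have : FiniteDimensional ℝ (vectorSpan ℝ (V : Set E)) :=
    finiteDimensional_vectorSpan_of_finite ℝ V.finite_toSet
  have h1 : vectorSpan ℝ (T : Set E) ≤ vectorSpan ℝ (V : Set E) ⊓ LinearMap.ker l := by
    refine le_inf (vectorSpan_mono ℝ (Finset.coe_subset.2 hTV)) ?_
    rw [vectorSpan_def, Submodule.span_le]
    rintro _ ⟨a, ha, b, hb, rfl⟩
    simp only [vsub_eq_sub, SetLike.mem_coe, LinearMap.mem_ker, map_sub]
    rw [hT a ha, hT b hb, sub_self]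
  have h2 : vectorSpan ℝ (V : Set E) ⊓ LinearMap.ker l < vectorSpan ℝ (V : Set E) := by
    refine lt_of_le_of_ne inf_le_left ?_
    intro h3
    obtain ⟨t, ht⟩ := hTne
    have h4 : v - t ∈ vectorSpan ℝ (V : Set E) :=
      vsub_mem_vectorSpan ℝ (Finset.mem_coe.2 hv) (Finset.mem_coe.2 (hTV ht))
    rw [← h3] at h4
    have h5 : l (v - t) = 0 := h4.2
    rw [map_sub, hT t ht] at h5
    exact hvc (by linarith)
  have h3 := Submodule.finrank_lt_finrank_of_lt h2
  have : FiniteDimensional ℝ (vectorSpan ℝ (V : Set E) ⊓ LinearMap.ker l : Submodule ℝ E) :=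
    Submodule.finiteDimensional_of_le inf_le_left
  have h4 : vectorSpan ℝ (T : Set E) = vectorSpan ℝ (V : Set E) ⊓ LinearMap.ker l := by
    refine Submodule.eq_of_le_of_finrank_le h1 ?_
    unfold adim at h
    omega
  rw [h4]
  exact ⟨hd, hld⟩

theorem ev_line {V T : Finset E} (h4 : adim V = 4) (h3 : adim T = 3) (hc : T.card = 4)
    (hTV : T ⊆ V) {l : E →ₗ[ℝ] ℝ} {c : ℝ} (hl : ∀ x ∈ V, l x ≤ c)
    (hiff : ∀ x ∈ V, (l x = c ↔ x ∈ T)) {m v x : E} (hm : (4 : ℝ) • m = ∑ y ∈ T, y)
    (hv : v ∈ V) (hvT : v ∉ T) (hx : x ∈ V) (hxT : x ∉ T) :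
    ∀ᶠ ε in 𝓝[>] (0 : ℝ), ∃ (a : ℝ) (γ : E → ℝ), 0 < a ∧ (∀ y ∈ T, 0 < γ y) ∧
      ∑ y ∈ T, γ y = 1 + a ∧ zpt m v ε + a • x = ∑ y ∈ T, γ y • y := by
  have hlm : l m = c := by
    have h2 : (4 : ℝ) * l m = ∑ y ∈ T, l y := by
      have := congrArg l hm
      rwa [map_smul, map_sum, smul_eq_mul] at this
    rw [Finset.sum_congr rfl (fun y hy => (hiff y (hTV hy)).2 hy), Finset.sum_const, hc,
      nsmul_eq_mul] at h2
    push_cast at h2
    linarith
  have hδ : 0 < c - l v :=
    sub_pos.2 (lt_of_le_of_ne (hl v hv) (fun h => hvT ((hiff v hv).1 h)))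
  have hδx : 0 < c - l x :=
    sub_pos.2 (lt_of_le_of_ne (hl x hx) (fun h => hxT ((hiff x hx).1 h)))
  set δ := c - l v with hδdef
  set δx := c - l x with hδxdef
  set d : E := δ⁻¹ • (m - v) - δx⁻¹ • (m - x) with hd
  have hld : l d = 0 := by
    rw [hd]
    simp only [map_sub, map_smul, smul_eq_mul, hlm]
    rw [← hδdef, ← hδxdef, inv_mul_cancel₀ hδ.ne', inv_mul_cancel₀ hδx.ne', sub_self]
  have hdV : d ∈ vectorSpan ℝ (V : Set E) :=
    Submodule.sub_mem _ (Submodule.smul_mem _ _ (sub_mem_of_centroid hTV hc hm hv))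
      (Submodule.smul_mem _ _ (sub_mem_of_centroid hTV hc hm hx))
  have hTne : T.Nonempty := Finset.card_pos.1 (by omega)
  have hdT : d ∈ vectorSpan ℝ (T : Set E) :=
    mem_vectorSpan_face hTV (by omega) (fun y hy => (hiff y (hTV hy)).2 hy) hv
      (fun h => hvT ((hiff v hv).1 h)) hTne hdV hld
  obtain ⟨β, hβ0, hβ⟩ := exists_weights_of_mem hdT
  have hev : ∀ᶠ ε in 𝓝[>] (0 : ℝ), ∀ y ∈ T, 0 < (1 + ε * δ / δx) / 4 + ε * δ * β y := by
    rw [Filter.eventually_all_finset]
    intro y _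
    have h2 : Tendsto (fun ε : ℝ => (1 + ε * δ / δx) / 4 + ε * δ * β y) (𝓝[>] 0)
        (𝓝 ((1 + 0 * δ / δx) / 4 + 0 * δ * β y)) :=
      (Continuous.tendsto (by fun_prop) 0).mono_left nhdsWithin_le_nhds
    refine h2.eventually_const_lt ?_
    norm_num
  filter_upwards [hev, self_mem_nhdsWithin] with ε hε hε0
  have hε0 : 0 < ε := hε0
  refine ⟨ε * δ / δx, fun y => (1 + ε * δ / δx) / 4 + ε * δ * β y, by positivity, hε, ?_, ?_⟩
  · rw [Finset.sum_add_distrib, ← Finset.mul_sum, hβ0, Finset.sum_const, hc, nsmul_eq_mul]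
    push_cast
    ring
  · simp only [add_smul]
    rw [Finset.sum_add_distrib]
    have e1 : ∑ y ∈ T, (ε * δ * β y) • y = (ε * δ) • d := by
      rw [hβ, Finset.smul_sum]
      exact Finset.sum_congr rfl (fun y _ => by rw [mul_smul])
    have e2 : ∑ y ∈ T, ((1 + ε * δ / δx) / 4) • y = (1 + ε * δ / δx) • m := by
      rw [← Finset.smul_sum, ← hm, smul_smul]
      congr 1
      ring
    have e3 : ε * δ * δ⁻¹ = ε := by field_simp
    have e4 : ε * δ * δx⁻¹ = ε * δ / δx := by rw [div_eq_mul_inv]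
    have e5 : (ε * δ) • (δ⁻¹ • (m - v) - δx⁻¹ • (m - x))
        = ε • (m - v) - (ε * δ / δx) • (m - x) := by
      rw [smul_sub, smul_smul, smul_smul, e3, e4]
    rw [e1, e2, hd, e5, zpt]
    module

theorem adim_of_subset_simplex {W : Finset E} (hW : W.card = adim W + 1) :
    ∀ (n : ℕ) (S : Finset E), S ⊆ W → S.card = n + 1 → adim S = n := by
  intro n
  induction n with
  | zero =>
    intro S _ hS
    obtain ⟨x, rfl⟩ := Finset.card_eq_one.1 hS
    exact adim_singleton x
  | succ n ih =>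
    intro S hSW hS
    have hWne : W.Nonempty := Finset.card_pos.1 (by omega)
    have hSne : S.Nonempty := Finset.card_pos.1 (by omega)
    obtain ⟨x, hx⟩ := hSne
    have h1 : (S.erase x).card = n + 1 := by
      rw [Finset.card_erase_of_mem hx]
      omega
    have h2 := ih (S.erase x) ((Finset.erase_subset _ _).trans hSW) h1
    have h3 : FaceSet W (S.erase x) :=
      FaceSet.of_subset_simplex (FaceSet.self hWne) hW (Finset.card_pos.1 (by omega))
        ((Finset.erase_subset _ _).trans hSW)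
    have h4 := h3.adim_lt (Finset.erase_ssubset hx) hSW
    have h5 := adim_add_one_le_card ⟨x, hx⟩
    omega


/-- The properties of the new point. -/
structure Good (V T : Finset E) (v z : E) : Prop where
  hv : v ∈ V
  hvT : v ∉ T
  aff : z ∈ affineSpan ℝ (V : Set E)
  beyond : ∀ (L : E →ₗ[ℝ] ℝ) (C : ℝ), (∀ x ∈ T, L x = C) → L v < C → C < L z
  beneath : ∀ S, FaceSet V S → ¬ T ⊆ S → ∃ (L : E →ₗ[ℝ] ℝ) (C : ℝ), (∀ x ∈ V, L x ≤ C) ∧
      (∀ x ∈ V, (L x = C ↔ x ∈ S)) ∧ L z < C
  line : ∀ x ∈ V \ T, ∃ (a : ℝ) (γ : E → ℝ), 0 < a ∧ (∀ y ∈ T, 0 < γ y) ∧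
      ∑ y ∈ T, γ y = 1 + a ∧ z + a • x = ∑ y ∈ T, γ y • y

theorem exists_good {V T : Finset E} (h4 : adim V = 4) (hT : T ∈ faces V 3) (hc : T.card = 4) :
    ∃ v z, Good V T v z := by
  have hTF := (mem_faces.1 hT).1
  have hT3 := (mem_faces.1 hT).2
  obtain ⟨hTne, hTV, l, c, hl, hiff⟩ := hTF
  obtain ⟨v, hv, hvT⟩ : ∃ v ∈ V, v ∉ T := by
    by_contra h
    push Not at h
    have : V = T := Finset.Subset.antisymm h hTV
    rw [this] at h4
    omega
  set m : E := (4 : ℝ)⁻¹ • ∑ y ∈ T, y with hmdef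
  have hm : (4 : ℝ) • m = ∑ y ∈ T, y := by
    rw [hmdef, smul_smul]
    norm_num
  have ev1 : ∀ᶠ ε in 𝓝[>] (0 : ℝ), ∀ S ∈ V.powerset.filter (fun S => FaceSet V S ∧ ¬ T ⊆ S),
      ∃ (L : E →ₗ[ℝ] ℝ) (C : ℝ), (∀ x ∈ V, L x ≤ C) ∧
      (∀ x ∈ V, (L x = C ↔ x ∈ S)) ∧ L (zpt m v ε) < C := by
    rw [Filter.eventually_all_finset]
    intro S hS
    rw [Finset.mem_filter] at hS
    exact ev_face hTV hc hS.2.1 hS.2.2 v hm
  have ev2 : ∀ᶠ ε in 𝓝[>] (0 : ℝ), ∀ x ∈ V \ T, ∃ (a : ℝ) (γ : E → ℝ), 0 < a ∧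
      (∀ y ∈ T, 0 < γ y) ∧
      ∑ y ∈ T, γ y = 1 + a ∧ zpt m v ε + a • x = ∑ y ∈ T, γ y • y := by
    rw [Filter.eventually_all_finset]
    intro x hx
    rw [Finset.mem_sdiff] at hx
    exact ev_line h4 hT3 hc hTV hl hiff hm hv hvT hx.1 hx.2
  obtain ⟨ε, hε1, hε2, hε0⟩ := (ev1.and (ev2.and self_mem_nhdsWithin)).exists
  have hε0 : 0 < ε := hε0
  refine ⟨v, zpt m v ε, hv, hvT, ?_, ?_, ?_, hε2⟩
  · have h1 : zpt m v ε = (1 + ε) • (m - v) +ᵥ v := by
      simp only [zpt, vadd_eq_add]
      module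
    rw [h1]
    refine AffineSubspace.vadd_mem_of_mem_direction ?_ (mem_affineSpan ℝ (Finset.mem_coe.2 hv))
    rw [direction_affineSpan]
    exact Submodule.smul_mem _ _ (sub_mem_of_centroid hTV hc hm hv)
  · intro L C hLT hLv
    have h2 : (4 : ℝ) * L m = ∑ y ∈ T, L y := by
      have := congrArg L hm
      rwa [map_smul, map_sum, smul_eq_mul] at this
    rw [Finset.sum_congr rfl hLT, Finset.sum_const, hc, nsmul_eq_mul] at h2
    push_cast at h2
    have h3 : L m = C := by linarith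
    rw [apply_zpt, h3]
    have : 0 < ε * (C - L v) := mul_pos hε0 (by linarith)
    linarith
  · intro S hS hTS
    exact hε1 S (Finset.mem_filter.2 ⟨Finset.mem_powerset.2 hS.2.1, hS, hTS⟩)

section

variable {V T : Finset E} {v z : E} (G : Good V T v z) (h4 : adim V = 4) (hT : T ∈ faces V 3)
  (hc : T.card = 4)

include G h4 hT hc

theorem z_not_mem : z ∉ V := by
  intro hz
  obtain ⟨-, hTV, l, c, hl, hiff⟩ := (mem_faces.1 hT).1
  have h1 := G.beyond l c (fun x hx => (hiff x (hTV hx)).2 hx)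
    (lt_of_le_of_ne (hl v G.hv) (fun h => G.hvT ((hiff v G.hv).1 h)))
  linarith [hl z hz]

theorem adim_insert : adim (insert z V) = 4 := by
  rw [adim, Finset.coe_insert, vectorSpan_insert_eq_vectorSpan G.aff]
  exact h4

theorem face_of_face {S : Finset E} (hS : FaceSet V S) (hTS : ¬ T ⊆ S) :
    FaceSet (insert z V) S := by
  obtain ⟨L, C, h1, h2, h3⟩ := G.beneath S hS hTS
  refine ⟨hS.1, hS.2.1.trans (Finset.subset_insert _ _), L, C, ?_, ?_⟩
  · intro x hx
    rcases Finset.mem_insert.1 hx with rfl | hx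
    · exact h3.le
    · exact h1 x hx
  · intro x hx
    rcases Finset.mem_insert.1 hx with rfl | hx
    · constructor
      · intro h
        linarith
      · intro h
        exact absurd (hS.2.1 h) (z_not_mem G h4 hT hc)
    · exact h2 x hx

theorem face_of_not_mem {S : Finset E} (hS : FaceSet (insert z V) S) (hz : z ∉ S) :
    FaceSet V S ∧ ¬ T ⊆ S := by
  have hSV : S ⊆ V := by
    intro x hx
    rcases Finset.mem_insert.1 (hS.2.1 hx) with rfl | h
    · exact absurd hx hz
    · exact h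
  have hF : FaceSet V S := hS.of_subset (Finset.subset_insert _ _) hSV
  refine ⟨hF, ?_⟩
  intro hTS
  by_cases hvS : v ∈ S
  · have h1 : adim T < adim S :=
      (mem_faces.1 hT).1.adim_lt
        (Finset.ssubset_iff_subset_ne.2 ⟨hTS, fun h => G.hvT (h ▸ hvS)⟩) hSV
    have h2 := (mem_faces.1 hT).2
    have h3 : S = V := hF.eq_of_adim hSV (Finset.Subset.refl _) (by omega)
    have h4 := hS.mem_of_mem_affineSpan (Finset.mem_insert_self z V) (by rw [h3]; exact G.aff)
    exact hz h4
  · obtain ⟨_, _, L, C, hL, hiff⟩ := hS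
    have hvV : v ∈ insert z V := Finset.mem_insert_of_mem G.hv
    have h1 := G.beyond L C
      (fun x hx => (hiff x (Finset.mem_insert_of_mem ((mem_faces.1 hT).1.2.1 hx))).2 (hTS hx))
      (lt_of_le_of_ne (hL v hvV) (fun h => hvS ((hiff v hvV).1 h)))
    linarith [hL z (Finset.mem_insert_self z V)]

theorem adim_insert_T : adim (insert z T) = 4 := by
  obtain ⟨hTne, hTV, l, c, hl, hiff⟩ := (mem_faces.1 hT).1
  have hzc : c < l z := G.beyond l c (fun x hx => (hiff x (hTV hx)).2 hx)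
    (lt_of_le_of_ne (hl v G.hv) (fun h => G.hvT ((hiff v G.hv).1 h)))
  have hzT : z ∉ T := fun h => z_not_mem G h4 hT hc (hTV h)
  have h1 : FaceSet (insert z T) T := by
    refine ⟨hTne, Finset.subset_insert _ _, -l, -c, ?_, ?_⟩
    · intro x hx
      rcases Finset.mem_insert.1 hx with rfl | hx
      · simp only [LinearMap.neg_apply]
        linarith
      · simp only [LinearMap.neg_apply]
        rw [(hiff x (hTV hx)).2 hx]
    · intro x hx
      rcases Finset.mem_insert.1 hx with rfl | hx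
      · simp only [LinearMap.neg_apply]
        constructor
        · intro h
          linarith
        · intro h
          exact absurd h hzT
      · simp only [LinearMap.neg_apply]
        rw [(hiff x (hTV hx)).2 hx]
        simp [hx]
  have h2 := h1.adim_lt (Finset.ssubset_insert hzT) (Finset.Subset.refl _)
  have h3 := (mem_faces.1 hT).2
  have h5 : adim (insert z T) ≤ adim (insert z V) := adim_mono (Finset.insert_subset_insert _ hTV)
  rw [adim_insert G h4 hT hc] at h5
  omega

theorem eq_top_of_subset {S : Finset E} (hS : FaceSet (insert z V) S) (hz : z ∈ S) (hTS : T ⊆ S) :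
    S = insert z V := by
  refine hS.eq_of_adim hS.2.1 (Finset.Subset.refl _) ?_
  rw [adim_insert G h4 hT hc]
  have h1 : adim (insert z T) ≤ adim S := adim_mono (Finset.insert_subset hz hTS)
  rw [adim_insert_T G h4 hT hc] at h1
  exact h1

theorem exists_of_mem {S : Finset E} (hS : FaceSet (insert z V) S) (hz : z ∈ S)
    (hne : S ≠ insert z V) : ∃ S0, S0 ⊂ T ∧ S = insert z S0 := by
  have hnT : ¬ T ⊆ S := fun h => hne (eq_top_of_subset G h4 hT hc hS hz h)
  have hTV := (mem_faces.1 hT).1.2.1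
  refine ⟨S.erase z, ?_, (Finset.insert_erase hz).symm⟩
  have hsub : S.erase z ⊆ T := by
    intro x hx
    by_contra hxT
    rw [Finset.mem_erase] at hx
    have hxV : x ∈ V := (Finset.mem_insert.1 (hS.2.1 hx.2)).resolve_left hx.1
    obtain ⟨a, γ, ha, hγ, h1, h2⟩ := G.line x (Finset.mem_sdiff.2 ⟨hxV, hxT⟩)
    obtain ⟨_, _, L, C, hL, hiff⟩ := hS
    apply hnT
    have hLz : L z = C := (hiff z (Finset.mem_insert_self _ _)).2 hz
    have hLx : L x = C := (hiff x (Finset.mem_insert_of_mem hxV)).2 hx.2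
    have h3 : ∑ y ∈ T, γ y * (C - L y) = 0 := by
      have h4 := congrArg L h2
      rw [map_add, map_smul, map_sum, hLz, hLx, smul_eq_mul] at h4
      have h5 : ∑ y ∈ T, γ y * (C - L y) = (∑ y ∈ T, γ y) * C - ∑ y ∈ T, L (γ y • y) := by
        rw [Finset.sum_mul, ← Finset.sum_sub_distrib]
        refine Finset.sum_congr rfl (fun y _ => ?_)
        rw [map_smul, smul_eq_mul]
        ring
      rw [h5, h1, ← h4]
      ring
    rw [Finset.sum_eq_zero_iff_of_nonneg] at h3
    · intro y hy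
      have h4 := h3 y hy
      rw [mul_eq_zero] at h4
      rcases h4 with h4 | h4
      · exact absurd h4 (hγ y hy).ne'
      · exact (hiff y (Finset.mem_insert_of_mem (hTV hy))).1 (by linarith)
    · intro y hy
      exact mul_nonneg (hγ y hy).le (sub_nonneg.2 (hL y (Finset.mem_insert_of_mem (hTV hy))))
  refine Finset.ssubset_iff_subset_ne.2 ⟨hsub, ?_⟩
  intro h
  exact hnT (h ▸ Finset.erase_subset z S)

theorem card_insert_T : (insert z T).card = adim (insert z T) + 1 := by
  have hzT : z ∉ T := fun h => z_not_mem G h4 hT hc ((mem_faces.1 hT).1.2.1 h)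
  rw [adim_insert_T G h4 hT hc, Finset.card_insert_of_notMem hzT, hc]

theorem adim_insert_sub {S0 : Finset E} (hS0 : S0 ⊆ T) : adim (insert z S0) = S0.card := by
  have hzT : z ∉ T := fun h => z_not_mem G h4 hT hc ((mem_faces.1 hT).1.2.1 h)
  have hz0 : z ∉ S0 := fun h => hzT (hS0 h)
  exact adim_of_subset_simplex (card_insert_T G h4 hT hc) S0.card _
    (Finset.insert_subset_insert _ hS0) (Finset.card_insert_of_notMem hz0)

theorem face_insert_erase {x : E} (hx : x ∈ T) : FaceSet (insert z V) (insert z (T.erase x)) := by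
  have hTF := (mem_faces.1 hT).1
  have hzV := z_not_mem G h4 hT hc
  have hR : FaceSet V (T.erase x) := by
    refine hTF.of_subset_simplex (by rw [(mem_faces.1 hT).2, hc]) ?_ (Finset.erase_subset _ _)
    rw [← Finset.card_pos, Finset.card_erase_of_mem hx]
    omega
  have hnR : ¬ T ⊆ T.erase x := fun h => Finset.notMem_erase x T (h hx)
  obtain ⟨L, C, h1, h2, h3⟩ := G.beneath _ hR hnR
  obtain ⟨-, hTV, l, c, hl, hiff⟩ := hTF
  have hzc : c < l z := G.beyond l c (fun x hx => (hiff x (hTV hx)).2 hx)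
    (lt_of_le_of_ne (hl v G.hv) (fun h => G.hvT ((hiff v G.hv).1 h)))
  have hα : 0 < C - L z := by linarith
  have hβ : 0 < l z - c := by linarith
  have key : ∀ y : E, ((C - L z) • l + (l z - c) • L) y - ((C - L z) * c + (l z - c) * C)
      = (C - L z) * (l y - c) + (l z - c) * (L y - C) := by
    intro y
    simp only [LinearMap.add_apply, LinearMap.smul_apply, smul_eq_mul]
    ring
  refine ⟨Finset.insert_nonempty _ _,
    Finset.insert_subset_insert _ ((Finset.erase_subset _ _).trans hTV),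
    (C - L z) • l + (l z - c) • L, (C - L z) * c + (l z - c) * C, ?_, ?_⟩
  · intro y hy
    rw [← sub_nonpos, key]
    rcases Finset.mem_insert.1 hy with rfl | hy
    · apply le_of_eq
      ring
    · have e1 : (C - L z) * (l y - c) ≤ 0 :=
        mul_nonpos_of_nonneg_of_nonpos hα.le (by linarith [hl y hy])
      have e2 : (l z - c) * (L y - C) ≤ 0 :=
        mul_nonpos_of_nonneg_of_nonpos hβ.le (by linarith [h1 y hy])
      linarith
  · intro y hy
    rw [← sub_eq_zero, key]
    rcases Finset.mem_insert.1 hy with rfl | hy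
    · constructor
      · intro _
        exact Finset.mem_insert_self _ _
      · intro _
        ring
    · have e1 : (C - L z) * (l y - c) ≤ 0 :=
        mul_nonpos_of_nonneg_of_nonpos hα.le (by linarith [hl y hy])
      have e2 : (l z - c) * (L y - C) ≤ 0 :=
        mul_nonpos_of_nonneg_of_nonpos hβ.le (by linarith [h1 y hy])
      have hyz : y ≠ z := fun h => hzV (h ▸ hy)
      constructor
      · intro h
        have e3 : (l z - c) * (L y - C) = 0 := by linarith
        rw [mul_eq_zero] at e3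
        have e4 : L y = C := by
          rcases e3 with e3 | e3
          · linarith
          · linarith
        exact Finset.mem_insert_of_mem ((h2 y hy).1 e4)
      · intro h
        have h5 : y ∈ T.erase x := (Finset.mem_insert.1 h).resolve_left hyz
        rw [(h2 y hy).2 h5, (hiff y hy).2 (Finset.mem_of_mem_erase h5)]
        ring

theorem face_insert {S0 : Finset E} (hS0 : S0 ⊂ T) : FaceSet (insert z V) (insert z S0) := by
  obtain ⟨x, hx, hx0⟩ := Finset.exists_of_ssubset hS0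
  have hzT : z ∉ T := fun h => z_not_mem G h4 hT hc ((mem_faces.1 hT).1.2.1 h)
  have h1 := face_insert_erase G h4 hT hc hx
  refine h1.of_subset_simplex ?_ (Finset.insert_nonempty _ _) ?_
  · rw [adim_insert_sub G h4 hT hc (Finset.erase_subset _ _),
      Finset.card_insert_of_notMem (fun h => hzT (Finset.mem_of_mem_erase h))]
  · refine Finset.insert_subset_insert _ ?_
    intro y hy
    refine Finset.mem_erase.2 ⟨?_, hS0.1 hy⟩
    rintro rfl
    exact hx0 hy

theorem faces_eq {i : ℕ} (hi : i ≤ 3) : faces (insert z V) i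
    = (faces V i).erase T ∪ (T.powersetCard i).image (fun S => insert z S) := by
  ext S
  rw [Finset.mem_union, Finset.mem_erase, Finset.mem_image]
  constructor
  · intro hS
    rw [mem_faces] at hS
    by_cases hz : z ∈ S
    · right
      obtain ⟨S0, hS0, rfl⟩ := exists_of_mem G h4 hT hc hS.1 hz (by
        rintro rfl
        have := adim_insert G h4 hT hc
        omega)
      refine ⟨S0, ?_, rfl⟩
      rw [Finset.mem_powersetCard]
      exact ⟨hS0.1, by rw [← hS.2, adim_insert_sub G h4 hT hc hS0.1]⟩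
    · left
      obtain ⟨h1, h2⟩ := face_of_not_mem G h4 hT hc hS.1 hz
      exact ⟨fun h => h2 (h ▸ Finset.Subset.refl _), mem_faces.2 ⟨h1, hS.2⟩⟩
  · rintro (⟨h1, h2⟩ | ⟨S0, h1, rfl⟩)
    · rw [mem_faces] at h2 ⊢
      refine ⟨face_of_face G h4 hT hc h2.1 ?_, h2.2⟩
      intro hTS
      have h3 := (mem_faces.1 hT).1.adim_lt
        (Finset.ssubset_iff_subset_ne.2 ⟨hTS, fun h => h1 h.symm⟩) h2.1.2.1
      have h5 := (mem_faces.1 hT).2
      omega
    · rw [Finset.mem_powersetCard] at h1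
      rw [mem_faces]
      refine ⟨face_insert G h4 hT hc ?_, ?_⟩
      · refine Finset.ssubset_iff_subset_ne.2 ⟨h1.1, ?_⟩
        rintro rfl
        omega
      · rw [adim_insert_sub G h4 hT hc h1.1, h1.2]

theorem card_faces_insert {i : ℕ} (hi : i ≤ 3) : (faces (insert z V) i).card
    = ((faces V i).erase T).card + (4 : ℕ).choose i := by
  have hzV := z_not_mem G h4 hT hc
  have hzT : z ∉ T := fun h => hzV ((mem_faces.1 hT).1.2.1 h)
  rw [faces_eq G h4 hT hc hi, Finset.card_union_of_disjoint, Finset.card_image_of_injOn,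
    Finset.card_powersetCard, hc]
  · intro A hA B hB h
    have hA' := (Finset.mem_powersetCard.1 (Finset.mem_coe.1 hA)).1
    have hB' := (Finset.mem_powersetCard.1 (Finset.mem_coe.1 hB)).1
    have h1 : (insert z A).erase z = (insert z B).erase z := by
      simp only at h
      rw [h]
    rwa [Finset.erase_insert (fun h => hzT (hA' h)), Finset.erase_insert (fun h => hzT (hB' h))]
      at h1
  · rw [Finset.disjoint_left]
    intro S h1 h2
    obtain ⟨S0, _, rfl⟩ := Finset.mem_image.1 h2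
    have h3 := (mem_faces.1 (Finset.mem_of_mem_erase h1)).1.2.1
    exact hzV (h3 (Finset.mem_insert_self _ _))

theorem nbr_eq : nbr (insert z V) z = T := by
  have hzV := z_not_mem G h4 hT hc
  have hTV := (mem_faces.1 hT).1.2.1
  ext w
  rw [mem_nbr]
  constructor
  · rintro ⟨hwz, hF⟩
    obtain ⟨S0, hS0, h1⟩ := exists_of_mem G h4 hT hc hF (Finset.mem_insert_self _ _) (by
      intro h
      have h2 := adim_insert G h4 hT hc
      rw [← h, adim_pair (Ne.symm hwz)] at h2
      omega)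
    have h2 : w ∈ insert z S0 := by
      rw [← h1]
      simp
    exact hS0.1 ((Finset.mem_insert.1 h2).resolve_left hwz)
  · intro hw
    refine ⟨fun h => hzV (hTV (h ▸ hw)), ?_⟩
    refine face_insert G h4 hT hc (Finset.ssubset_iff_subset_ne.2 ⟨by simpa using hw, ?_⟩)
    intro h
    have := congrArg Finset.card h
    rw [hc, Finset.card_singleton] at this
    omega

end

end SKAux

open SKAux

/-- Stacking: a new vertex of degree four beyond a tetrahedral facet. -/
theorem exists_stack {V T : Finset E} (hV : ConvPos V) (h4 : adim V = 4)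
    (hT : T ∈ faces V 3) (hc : T.card = 4) :
    ∃ V' : Finset E, ConvPos V' ∧ adim V' = 4 ∧
      V'.card = V.card + 1 ∧ (faces V' 1).card = (faces V 1).card + 4 ∧
      (faces V' 2).card = (faces V 2).card + 6 ∧ (faces V' 3).card = (faces V 3).card + 3 ∧
      (∃ z ∈ V', (nbr V' z).card = 4) ∧ ∃ T' ∈ faces V' 3, T'.card = 4 := by
  obtain ⟨v, z, G⟩ := exists_good h4 hT hc
  have hzV := z_not_mem G h4 hT hc
  have hT3 := (mem_faces.1 hT).2
  have hTV := (mem_faces.1 hT).1.2.1
  have hzT : z ∉ T := fun h => hzV (hTV h)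
  refine ⟨insert z V, ?_, adim_insert G h4 hT hc, Finset.card_insert_of_notMem hzV, ?_, ?_, ?_,
    ⟨z, Finset.mem_insert_self _ _, by rw [nbr_eq G h4 hT hc, hc]⟩, ?_⟩
  · intro x hx
    rcases Finset.mem_insert.1 hx with rfl | hx
    · have h1 := face_insert G h4 hT hc (S0 := ∅)
        (Finset.ssubset_iff_subset_ne.2 ⟨Finset.empty_subset _, by
          rintro rfl
          simp at hc⟩)
      simpa using h1
    · refine face_of_face G h4 hT hc (hV x hx) ?_
      intro h
      have := Finset.card_le_card h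
      rw [hc, Finset.card_singleton] at this
      omega
  · rw [card_faces_insert G h4 hT hc (by omega), Finset.erase_eq_of_notMem]
    · rfl
    · rw [mem_faces]
      omega
  · rw [card_faces_insert G h4 hT hc (by omega), Finset.erase_eq_of_notMem]
    · rfl
    · rw [mem_faces]
      omega
  · rw [card_faces_insert G h4 hT hc (le_refl _), Finset.card_erase_of_mem hT]
    have : 0 < (faces V 3).card := Finset.card_pos.2 ⟨T, hT⟩
    have h5 : (4 : ℕ).choose 3 = 4 := rfl
    omega
  · obtain ⟨x, hx⟩ := (mem_faces.1 hT).1.1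
    refine ⟨insert z (T.erase x), mem_faces.2 ⟨face_insert_erase G h4 hT hc hx, ?_⟩, ?_⟩
    · rw [adim_insert_sub G h4 hT hc (Finset.erase_subset _ _), Finset.card_erase_of_mem hx]
      omega
    · rw [Finset.card_insert_of_notMem (fun h => hzT (Finset.mem_of_mem_erase h)),
        Finset.card_erase_of_mem hx]
      omega

/-- The simplex. -/
theorem exists_simplex : ∃ V : Finset (EuclideanSpace ℝ (Fin 4)), ConvPos V ∧ adim V = 4 ∧
    V.card = 5 ∧ (faces V 1).card = 10 ∧ (faces V 2).card = 10 ∧ (faces V 3).card = 5 ∧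
    ∃ T ∈ faces V 3, T.card = 4 := by
  obtain ⟨b⟩ := AffineBasis.exists_affineBasis_of_finiteDimensional (ι := Fin 5) (k := ℝ)
    (P := EuclideanSpace ℝ (Fin 4)) (V := EuclideanSpace ℝ (Fin 4)) (by simp)
  set V : Finset (EuclideanSpace ℝ (Fin 4)) := Finset.univ.image b with hV
  have hinj : Function.Injective b := b.ind.injective
  have hcard : V.card = 5 := by
    rw [hV, Finset.card_image_of_injective _ hinj]; simp
  have hadim : ∀ T ⊆ V, T.Nonempty → adim T + 1 = T.card := by
    intro T hT hne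
    obtain ⟨I, -, rfl⟩ := Finset.subset_image_iff.1 hT
    rw [Finset.card_image_of_injective _ hinj]
    have hI : 0 < I.card := by
      rw [Finset.card_pos]
      exact Finset.image_nonempty.1 hne
    obtain ⟨n, hn⟩ : ∃ n, I.card = n + 1 := ⟨I.card - 1, by omega⟩
    have := b.ind.finrank_vectorSpan_image_finset hn
    unfold adim
    rw [this, hn]
  have hVne : V.Nonempty := by
    rw [← Finset.card_pos, hcard]; norm_num
  have hface : ∀ T ⊆ V, T.Nonempty → FaceSet V T := fun T hT hne =>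
    FaceSet.of_subset_simplex (FaceSet.self hVne) (hadim V subset_rfl hVne).symm hne hT
  have hfaces : ∀ i, faces V i = V.powersetCard (i + 1) := by
    intro i
    ext S
    rw [mem_faces, Finset.mem_powersetCard]
    constructor
    · rintro ⟨h1, h2⟩
      refine ⟨h1.2.1, ?_⟩
      rw [← hadim S h1.2.1 h1.1, h2]
    · rintro ⟨h1, h2⟩
      have hne : S.Nonempty := by
        rw [← Finset.card_pos, h2]; omega
      refine ⟨hface S h1 hne, ?_⟩
      have := hadim S h1 hne
      omega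
  have hcf : ∀ i, (faces V i).card = Nat.choose 5 (i + 1) := by
    intro i
    rw [hfaces, Finset.card_powersetCard, hcard]
  refine ⟨V, fun x hx => hface _ (Finset.singleton_subset_iff.2 hx) (Finset.singleton_nonempty x),
    ?_, hcard, ?_, ?_, ?_, ?_⟩
  · have := hadim V subset_rfl hVne
    omega
  · rw [hcf]; rfl
  · rw [hcf]; rfl
  · rw [hcf]; rfl
  · have hne : (faces V 3).Nonempty := by
      rw [← Finset.card_pos, hcf]; decide
    obtain ⟨T, hT⟩ := hne
    refine ⟨T, hT, ?_⟩
    rw [hfaces, Finset.mem_powersetCard] at hT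
    exact hT.2

end

end Pool.Agent.FV
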