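import Pool.Agent.Lib.MP_e9c977_fv.Defs

/-!
# Row BA: basic facts about faces of finite point configurations
-/

namespace Pool.Agent.FV

open Module
open scoped Classical

variable {E : Type} [NormedAddCommGroup E] [InnerProductSpace ℝ E]

theorem FaceSet.self {V : Finset E} (hV : V.Nonempty) : FaceSet V V :=
  ⟨hV, subset_rfl, 0, 0, fun x _ => by simp, fun x hx => by simp [hx]⟩

theorem FaceSet.inter {V S T : Finset E} (hS : FaceSet V S) (hT : FaceSet V T)
    (h : (S ∩ T).Nonempty) : FaceSet V (S ∩ T) := by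
  obtain ⟨_, hSV, l1, c1, h1, h1'⟩ := hS
  obtain ⟨_, hTV, l2, c2, h2, h2'⟩ := hT
  refine ⟨h, fun x hx => hSV (Finset.mem_inter.1 hx).1, l1 + l2, c1 + c2, fun x hx => ?_,
    fun x hx => ?_⟩
  · simp only [LinearMap.add_apply]
    linarith [h1 x hx, h2 x hx]
  · rw [Finset.mem_inter, ← h1' x hx, ← h2' x hx, LinearMap.add_apply]
    constructor
    · intro h
      constructor <;> linarith [h1 x hx, h2 x hx]
    · rintro ⟨a, b⟩
      linarith

/-- A face of a face is a face. -/
theorem FaceSet.trans {V S T : Finset E} (hS : FaceSet V S) (hT : FaceSet S T) : FaceSet V T := by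
  obtain ⟨_, hSV, l, c, h1, h1'⟩ := hS
  obtain ⟨hTn, hTS, m, d, h2, h2'⟩ := hT
  obtain ⟨N, hN⟩ := ((V \ S).image (fun x => (m x - d) / (c - l x))).exists_le
  have hN' : ∀ x ∈ V, x ∉ S → (N + 1) * l x + m x < (N + 1) * c + d := by
    intro x hxV hxS
    have hlt : l x < c := lt_of_le_of_ne (h1 x hxV) (fun h => hxS ((h1' x hxV).1 h))
    have h3 : (m x - d) / (c - l x) ≤ N :=
      hN _ (Finset.mem_image_of_mem _ (Finset.mem_sdiff.2 ⟨hxV, hxS⟩))
    rw [div_le_iff₀ (by linarith)] at h3
    nlinarith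
  refine ⟨hTn, hTS.trans hSV, (N + 1) • l + m, (N + 1) * c + d, fun x hx => ?_, fun x hx => ?_⟩
  · simp only [LinearMap.add_apply, LinearMap.smul_apply, smul_eq_mul]
    by_cases hxS : x ∈ S
    · rw [(h1' x hx).2 hxS]
      linarith [h2 x hxS]
    · exact (hN' x hx hxS).le
  · simp only [LinearMap.add_apply, LinearMap.smul_apply, smul_eq_mul]
    by_cases hxS : x ∈ S
    · rw [(h1' x hx).2 hxS, ← h2' x hxS]
      constructor <;> intro h <;> linarith
    · constructor
      · intro h
        exact absurd h (hN' x hx hxS).ne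
      · intro h
        exact absurd (hTS h) hxS

/-- Faces restrict to subconfigurations. -/
theorem FaceSet.restrict {V S W : Finset E} (hS : FaceSet V S) (hW : W ⊆ V)
    (h : (S ∩ W).Nonempty) : FaceSet W (S ∩ W) := by
  obtain ⟨_, hSV, l, c, h1, h1'⟩ := hS
  refine ⟨h, Finset.inter_subset_right, l, c, fun x hx => h1 x (hW hx), fun x hx => ?_⟩
  rw [h1' x (hW hx), Finset.mem_inter]
  exact ⟨fun h => ⟨h, hx⟩, fun h => h.1⟩

theorem FaceSet.of_subset {V S W : Finset E} (hS : FaceSet V S) (hW : W ⊆ V) (h : S ⊆ W) :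
    FaceSet W S := by
  have e : S ∩ W = S := Finset.inter_eq_left.2 h
  have := hS.restrict hW (by rw [e]; exact hS.1)
  rwa [e] at this

theorem FaceSet.mem_of_mem_affineSpan {V S : Finset E} (hS : FaceSet V S) {x : E} (hx : x ∈ V)
    (h : x ∈ affineSpan ℝ (S : Set E)) : x ∈ S := by
  obtain ⟨_, hSV, l, c, h1, h1'⟩ := hS
  refine (h1' x hx).1 ?_
  refine affineSpan_induction (p := fun y => l y = c) h ?_ ?_
  · intro y hy
    exact (h1' y (hSV hy)).2 hy
  · intro a u v w hu hv hw
    simp only [vsub_eq_sub, vadd_eq_add, map_add, map_smul, map_sub, hu, hv, hw]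
    simp

/-- The face property: if a convex combination of points of `V` lies in the hull of the face `S`,
all points used with positive weight are in `S`. -/
theorem FaceSet.mem_of_sum_mem {V S : Finset E} (hS : FaceSet V S) {w : E → ℝ}
    (hw : ∀ x ∈ V, 0 ≤ w x) (h1 : ∑ x ∈ V, w x = 1)
    (h : ∑ x ∈ V, w x • x ∈ affineSpan ℝ (S : Set E)) {x : E} (hx : x ∈ V) (hx0 : w x ≠ 0) :
    x ∈ S := by
  obtain ⟨_, hSV, l, c, h2, h2'⟩ := hS
  have h3 : l (∑ x ∈ V, w x • x) = c := by
    refine affineSpan_induction (p := fun y => l y = c) h ?_ ?_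
    · intro y hy
      exact (h2' y (hSV hy)).2 hy
    · intro a u v w hu hv hw
      simp only [vsub_eq_sub, vadd_eq_add, map_add, map_smul, map_sub, hu, hv, hw]
      simp
  have h4 : ∑ x ∈ V, w x * (c - l x) = 0 := by
    simp only [mul_sub, Finset.sum_sub_distrib, ← Finset.sum_mul, h1]
    rw [map_sum] at h3
    simp only [map_smul, smul_eq_mul] at h3
    rw [h3]
    ring
  rw [Finset.sum_eq_zero_iff_of_nonneg] at h4
  · have h5 := h4 x hx
    rcases mul_eq_zero.1 h5 with h6 | h6
    · exact absurd h6 hx0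
    · exact (h2' x hx).1 (by linarith)
  · intro y hy
    exact mul_nonneg (hw y hy) (by linarith [h2 y hy])

private theorem fd (S : Finset E) : FiniteDimensional ℝ (vectorSpan ℝ (S : Set E)) :=
  finiteDimensional_vectorSpan_of_finite ℝ S.finite_toSet

theorem adim_mono {S T : Finset E} (h : S ⊆ T) : adim S ≤ adim T := by
  have := fd T
  exact Submodule.finrank_mono (vectorSpan_mono ℝ (Finset.coe_subset.2 h))

theorem FaceSet.adim_lt {V S T : Finset E} (hS : FaceSet V S) (hST : S ⊂ T) (hT : T ⊆ V) :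
    adim S < adim T := by
  have := fd T
  refine Submodule.finrank_lt_finrank_of_lt (lt_of_le_of_ne
    (vectorSpan_mono ℝ (Finset.coe_subset.2 hST.1)) (fun he => ?_))
  obtain ⟨t, ht, htS⟩ := Finset.exists_of_ssubset hST
  obtain ⟨s, hs⟩ := hS.1
  refine htS (hS.mem_of_mem_affineSpan (hT ht) ?_)
  have h1 : t -ᵥ s ∈ vectorSpan ℝ (S : Set E) := by
    rw [he]
    exact vsub_mem_vectorSpan ℝ ht (hST.1 hs)
  have h2 : (t -ᵥ s) +ᵥ s ∈ affineSpan ℝ (S : Set E) := by
    refine AffineSubspace.vadd_mem_of_mem_direction ?_ (mem_affineSpan ℝ hs)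
    rwa [direction_affineSpan]
  rwa [vsub_vadd] at h2

theorem FaceSet.eq_of_adim {V S T : Finset E} (hS : FaceSet V S) (hST : S ⊆ T) (hT : T ⊆ V)
    (h : adim T ≤ adim S) : S = T := by
  by_contra hne
  have := hS.adim_lt (lt_of_le_of_ne hST hne) hT
  omega

theorem adim_singleton (x : E) : adim {x} = 0 := by
  rw [adim, Finset.coe_singleton, vectorSpan_singleton, finrank_bot]

theorem adim_eq_zero_iff {S : Finset E} (hS : S.Nonempty) : adim S = 0 ↔ ∃ x, S = {x} := by
  constructor
  · intro h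
    have := fd S
    rw [adim, Submodule.finrank_eq_zero] at h
    obtain ⟨x, hx⟩ := hS
    refine ⟨x, Finset.eq_singleton_iff_unique_mem.2 ⟨hx, fun y hy => ?_⟩⟩
    have h1 : y -ᵥ x ∈ vectorSpan ℝ (S : Set E) := vsub_mem_vectorSpan ℝ hy hx
    rw [h, Submodule.mem_bot, vsub_eq_zero_iff_eq] at h1
    exact h1
  · rintro ⟨x, rfl⟩
    exact adim_singleton x

theorem adim_pair {x y : E} (h : x ≠ y) : adim {x, y} = 1 := by
  rw [adim, Finset.coe_pair, vectorSpan_pair, finrank_span_singleton]
  rw [vsub_ne_zero]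
  exact h

theorem adim_add_one_le_card {S : Finset E} (hS : S.Nonempty) : adim S + 1 ≤ S.card := by
  obtain ⟨n, hn⟩ : ∃ n, S.card = n + 1 := ⟨S.card - 1, by have := hS.card_pos; omega⟩
  have h := finrank_vectorSpan_image_finset_le ℝ (fun x : E => x) S hn
  rw [Finset.image_id'] at h
  rw [hn]
  exact Nat.succ_le_succ h

theorem ConvPos.mono {V W : Finset E} (hV : ConvPos V) (hW : W ⊆ V) : ConvPos W :=
  fun x hx => (hV x (hW hx)).of_subset hW (by simpa using hx)

private theorem not_between {V : Finset E} {a b c : E} (hb : FaceSet V {b}) (ha : a ∈ V)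
    (hc : c ∈ V) (hab : a ≠ b) (hcb : c ≠ b) {s : ℝ} (hs : 0 ≤ s) (hs1 : s ≤ 1)
    (h : b = (1 - s) • a + s • c) : False := by
  obtain ⟨_, hSV, l, k, h1, h1'⟩ := hb
  have hla : l a < k := lt_of_le_of_ne (h1 a ha) (fun h => hab (by simpa using (h1' a ha).1 h))
  have hlc : l c < k := lt_of_le_of_ne (h1 c hc) (fun h => hcb (by simpa using (h1' c hc).1 h))
  have hlb : l b = k := (h1' b (hSV (by simp))).2 (by simp)
  rw [h] at hlb
  simp only [map_add, map_smul, smul_eq_mul] at hlb
  rcases eq_or_lt_of_le hs with h0 | h0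
  · subst h0
    linarith
  · nlinarith

/-- No three points in convex position are on a line. -/
theorem ConvPos.adim_triple {V : Finset E} (hV : ConvPos V) {x y z : E} (hx : x ∈ V) (hy : y ∈ V)
    (hz : z ∈ V) (hxy : x ≠ y) (hxz : x ≠ z) (hyz : y ≠ z) : adim {x, y, z} = 2 := by
  have h1 : adim {x, y, z} + 1 ≤ 3 :=
    (adim_add_one_le_card (by simp)).trans Finset.card_le_three
  have h2 : 1 ≤ adim {x, y, z} := by
    rw [← adim_pair hxy]
    exact adim_mono (by intro w; simp; tauto)
  by_contra hne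
  have h3 : adim {x, y, z} = 1 := by omega
  have hfd := fd ({x, y, z} : Finset E)
  have h4 : vectorSpan ℝ (({x, y} : Finset E) : Set E) = vectorSpan ℝ (({x, y, z} : Finset E) : Set E) := by
    refine Submodule.eq_of_le_of_finrank_eq (vectorSpan_mono ℝ ?_) ?_
    · intro w
      simp
      tauto
    · have h5 := adim_pair hxy
      rw [← h3] at h5
      exact h5
  have h5 : z -ᵥ x ∈ vectorSpan ℝ (({x, y, z} : Finset E) : Set E) :=
    vsub_mem_vectorSpan ℝ (by simp) (by simp)
  rw [← h4, Finset.coe_pair, vectorSpan_pair_rev, Submodule.mem_span_singleton] at h5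
  obtain ⟨t, ht⟩ := h5
  simp only [vsub_eq_sub] at ht
  have hz' : z = (1 - t) • x + t • y := by
    have : z = t • (y - x) + x := by rw [ht]; abel
    rw [this]
    module
  rcases lt_or_ge t 0 with h0 | h0
  · -- `x` is between `y` and `z`
    have h1t : (1 - t) ≠ 0 := by linarith
    refine not_between (a := z) (b := x) (c := y) (s := (-t) / (1 - t)) (hV x hx) hz hy
      (Ne.symm hxz) (Ne.symm hxy) (div_nonneg (by linarith) (by linarith)) ?_ ?_
    · rw [div_le_one (by linarith)]
      linarith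
    · rw [hz']
      have e1 : (1 - -t / (1 - t)) = 1 / (1 - t) := by field_simp; ring
      rw [e1, smul_add, smul_smul, smul_smul, add_assoc, ← add_smul]
      have e2 : 1 / (1 - t) * (1 - t) = 1 := by field_simp
      have e3 : (1 / (1 - t) * t + -t / (1 - t)) = 0 := by field_simp; ring
      rw [e2, e3]
      simp
  · rcases le_or_gt t 1 with h1' | h1'
    · exact not_between (a := x) (b := z) (c := y) (s := t) (hV z hz) hx hy hxz hyz h0 h1' hz'
    · have h1t : t ≠ 0 := by linarith
      refine not_between (a := x) (b := y) (c := z) (s := 1 / t) (hV y hy) hx hz hxy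
        (Ne.symm hyz) (by positivity) ?_ ?_
      · rw [div_le_one (by linarith)]
        linarith
      · rw [hz', smul_add, smul_smul, smul_smul, ← add_assoc, ← add_smul]
        have e2 : 1 / t * t = 1 := by field_simp
        have e3 : (1 - 1 / t + 1 / t * (1 - t)) = 0 := by field_simp; ring
        rw [e2, e3]
        simp

theorem ConvPos.card_eq_two {S : Finset E} (hS : ConvPos S) (h : adim S = 1) :
    ∃ x y, x ≠ y ∧ S = {x, y} := by
  have hne : S.Nonempty := by
    rw [Finset.nonempty_iff_ne_empty]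
    rintro rfl
    rw [adim, Finset.coe_empty, vectorSpan_empty, finrank_bot] at h
    exact zero_ne_one h
  have h1 := adim_add_one_le_card hne
  obtain ⟨x, hx, y, hy, hxy⟩ := Finset.one_lt_card.1 (show 1 < S.card by omega)
  refine ⟨x, y, hxy, ?_⟩
  ext z
  simp only [Finset.mem_insert, Finset.mem_singleton]
  constructor
  · intro hz
    by_contra hcon
    push Not at hcon
    have h2 := hS.adim_triple hx hy hz hxy (Ne.symm hcon.1) (Ne.symm hcon.2)
    have h3 : adim {x, y, z} ≤ adim S := adim_mono (by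
      intro w
      simp only [Finset.mem_insert, Finset.mem_singleton]
      rintro (rfl | rfl | rfl) <;> assumption)
    omega
  · rintro (rfl | rfl) <;> assumption

/-- `faces V 0`: the vertices. -/
theorem mem_faces_zero {V : Finset E} (hV : ConvPos V) {S : Finset E} :
    S ∈ faces V 0 ↔ ∃ x ∈ V, S = {x} := by
  rw [mem_faces]
  constructor
  · rintro ⟨h1, h2⟩
    obtain ⟨x, rfl⟩ := (adim_eq_zero_iff h1.1).1 h2
    exact ⟨x, h1.2.1 (by simp), rfl⟩
  · rintro ⟨x, hx, rfl⟩
    exact ⟨hV x hx, adim_singleton x⟩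

theorem card_faces_zero {V : Finset E} (hV : ConvPos V) : (faces V 0).card = V.card := by
  have h : faces V 0 = V.image (fun x => ({x} : Finset E)) := by
    ext S
    rw [mem_faces_zero hV, Finset.mem_image]
    constructor
    · rintro ⟨x, hx, rfl⟩
      exact ⟨x, hx, rfl⟩
    · rintro ⟨x, hx, rfl⟩
      exact ⟨x, hx, rfl⟩
  rw [h, Finset.card_image_of_injective _ Finset.singleton_injective]

/-- `faces V 1`: the edges. -/
theorem mem_faces_one {V : Finset E} (hV : ConvPos V) {S : Finset E} :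
    S ∈ faces V 1 ↔ ∃ x y, x ≠ y ∧ S = {x, y} ∧ FaceSet V {x, y} := by
  rw [mem_faces]
  constructor
  · rintro ⟨h1, h2⟩
    obtain ⟨x, y, hxy, rfl⟩ := (hV.mono h1.2.1).card_eq_two h2
    exact ⟨x, y, hxy, rfl, h1⟩
  · rintro ⟨x, y, hxy, rfl, h⟩
    exact ⟨h, adim_pair hxy⟩

/-- The faces of a face. -/
theorem faces_face {V F : Finset E} (hF : FaceSet V F) (i : ℕ) :
    faces F i = (faces V i).filter (fun S => S ⊆ F) := by
  ext S
  rw [Finset.mem_filter, mem_faces, mem_faces]
  constructor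
  · rintro ⟨h1, h2⟩
    exact ⟨⟨hF.trans h1, h2⟩, h1.2.1⟩
  · rintro ⟨⟨h1, h2⟩, h3⟩
    exact ⟨h1.of_subset hF.2.1 h3, h2⟩

theorem nbr_symm {V : Finset E} {u w : E} : w ∈ nbr V u ↔ u ∈ nbr V w := by
  rw [mem_nbr, mem_nbr, Finset.pair_comm, ne_comm]

theorem nbr_subset {V : Finset E} {u : E} : nbr V u ⊆ V.erase u := by
  intro w hw
  rw [mem_nbr] at hw
  exact Finset.mem_erase.2 ⟨hw.1, hw.2.2.1 (by simp)⟩

theorem nbr_face {V F : Finset E} (hF : FaceSet V F) {u : E} (hu : u ∈ F) :
    nbr F u = F ∩ nbr V u := by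
  ext w
  rw [Finset.mem_inter, mem_nbr, mem_nbr]
  constructor
  · rintro ⟨h1, h2⟩
    exact ⟨h2.2.1 (by simp), h1, hF.trans h2⟩
  · rintro ⟨h1, h2, h3⟩
    refine ⟨h2, h3.of_subset hF.2.1 ?_⟩
    intro z
    simp only [Finset.mem_insert, Finset.mem_singleton]
    rintro (rfl | rfl) <;> assumption

/-- A subset of an affinely independent face is a face. -/
theorem FaceSet.of_subset_simplex {V S T : Finset E} (hS : FaceSet V S)
    (hc : S.card = adim S + 1) (hT : T.Nonempty) (h : T ⊆ S) : FaceSet V T := by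
  refine hS.trans ?_
  have hai : AffineIndependent ℝ (fun x : S => (x : E)) := by
    rw [affineIndependent_iff_finrank_vectorSpan_eq ℝ _ (n := adim S) (by simpa using hc)]
    have e : Set.range (fun x : S => (x : E)) = (S : Set E) := by
      ext z
      simp
    rw [e]
    rfl
  obtain ⟨t, ht⟩ := hT
  rw [affineIndependent_iff_linearIndependent_vsub ℝ _ (⟨t, h ht⟩ : S)] at hai
  obtain ⟨l, hl⟩ := LinearMap.exists_extend
    ((Finsupp.linearCombination ℝ (fun x : {x : S // x ≠ ⟨t, h ht⟩} =>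
      if (x : E) ∈ T then (0 : ℝ) else -1)).comp hai.repr)
  have hl' : ∀ x ∈ S, l x = l t + (if x ∈ T then 0 else -1) := by
    intro x hx
    by_cases hxt : x = t
    · subst hxt
      simp [ht]
    · have h1 := LinearMap.congr_fun hl
        (⟨_, Submodule.subset_span ⟨(⟨⟨x, hx⟩, by simpa using hxt⟩ : {x : S // x ≠ ⟨t, h ht⟩}), rfl⟩⟩)
      rw [LinearMap.comp_apply, LinearMap.comp_apply, hai.repr_eq_single
        ⟨⟨x, hx⟩, by simpa using hxt⟩ _ rfl] at h1
      simp at h1
      rw [← h1]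
      ring
  refine ⟨⟨t, ht⟩, h, l, l t, fun x hx => ?_, fun x hx => ?_⟩
  · rw [hl' x hx]
    split_ifs <;> linarith
  · rw [hl' x hx]
    split_ifs with h1
    · simp [h1]
    · simp [h1]

theorem adim_le_finrank [FiniteDimensional ℝ E] (S : Finset E) : adim S ≤ finrank ℝ E :=
  Submodule.finrank_le _

theorem vectorSpan_eq_top [FiniteDimensional ℝ E] {S : Finset E} (h : adim S = finrank ℝ E) :
    vectorSpan ℝ (S : Set E) = ⊤ :=
  Submodule.eq_top_of_finrank_eq h

end Pool.Agent.FV
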