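import Pool.Agent.Lib.MP_e9c977_fv.Verts

/-!
# Row BR: polytopes and point configurations
-/

namespace Pool.Agent.FV

open Module
open scoped Classical

noncomputable section

private theorem br_le {E : Type} [NormedAddCommGroup E] [InnerProductSpace ℝ E]
    {V : Finset E} {l : E →ₗ[ℝ] ℝ} {c : ℝ} (hle : ∀ x ∈ V, l x ≤ c) :
    ∀ x ∈ convexHull ℝ (V : Set E), l x ≤ c := by
  intro x hx
  rw [Finset.mem_convexHull'] at hx
  obtain ⟨w, hw, h1, rfl⟩ := hx
  rw [map_sum]
  calc ∑ y ∈ V, l (w y • y) = ∑ y ∈ V, w y * l y := by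
        refine Finset.sum_congr rfl fun y _ => ?_
        rw [map_smul, smul_eq_mul]
    _ ≤ ∑ y ∈ V, w y * c := by
        refine Finset.sum_le_sum fun y hy => ?_
        exact mul_le_mul_of_nonneg_left (hle y hy) (hw y hy)
    _ = c := by rw [← Finset.sum_mul, h1, one_mul]

private theorem br_hull {E : Type} [NormedAddCommGroup E] [InnerProductSpace ℝ E]
    {V S : Finset E} {l : E →ₗ[ℝ] ℝ} {c : ℝ} (hSV : S ⊆ V) (hle : ∀ x ∈ V, l x ≤ c)
    (heq : ∀ x ∈ V, (l x = c ↔ x ∈ S)) :
    convexHull ℝ (S : Set E) = {x | x ∈ convexHull ℝ (V : Set E) ∧ l x = c} := by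
  ext x
  constructor
  · intro hx
    refine ⟨convexHull_mono (by exact_mod_cast hSV) hx, ?_⟩
    rw [Finset.mem_convexHull'] at hx
    obtain ⟨w, hw, h1, rfl⟩ := hx
    rw [map_sum]
    calc ∑ y ∈ S, l (w y • y) = ∑ y ∈ S, w y * c := by
          refine Finset.sum_congr rfl fun y hy => ?_
          rw [map_smul, smul_eq_mul, (heq y (hSV hy)).2 hy]
      _ = c := by rw [← Finset.sum_mul, h1, one_mul]
  · rintro ⟨hx, hxc⟩
    rw [Finset.mem_convexHull'] at hx
    obtain ⟨w, hw, h1, hsum⟩ := hx
    have h2 : ∑ y ∈ V, w y * (c - l y) = 0 := by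
      have h3 : ∑ y ∈ V, w y * (c - l y) = (∑ y ∈ V, w y) * c - l (∑ y ∈ V, w y • y) := by
        rw [map_sum, Finset.sum_mul, ← Finset.sum_sub_distrib]
        refine Finset.sum_congr rfl fun y _ => ?_
        rw [map_smul, smul_eq_mul]
        ring
      rw [h3, h1, hsum, hxc]
      ring
    have h4 : ∀ y ∈ V, w y * (c - l y) = 0 := by
      refine (Finset.sum_eq_zero_iff_of_nonneg fun y hy => ?_).1 h2
      exact mul_nonneg (hw y hy) (by linarith [hle y hy])
    have h5 : ∀ y ∈ V, y ∉ S → w y = 0 := by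
      intro y hy hyS
      rcases mul_eq_zero.1 (h4 y hy) with h | h
      · exact h
      · exact absurd ((heq y hy).1 (by linarith)) hyS
    rw [Finset.mem_convexHull']
    refine ⟨w, fun y hy => hw y (hSV hy), ?_, ?_⟩
    · rw [← h1]
      exact Finset.sum_subset hSV h5
    · rw [← hsum]
      refine Finset.sum_subset hSV fun y hy hyS => ?_
      rw [h5 y hy hyS, zero_smul]

private theorem br_adim {E : Type} [NormedAddCommGroup E] [InnerProductSpace ℝ E]
    (S : Finset E) : finrank ℝ (vectorSpan ℝ (convexHull ℝ (S : Set E))) = adim S := by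
  unfold adim
  rw [← direction_affineSpan, affineSpan_convexHull, direction_affineSpan]

/-- The numbers of faces of the hull of a configuration. -/
theorem fnum_convexHull {E : Type} [NormedAddCommGroup E] [InnerProductSpace ℝ E]
    [FiniteDimensional ℝ E] {V : Finset E} (h : adim V = finrank ℝ E) {i : ℕ}
    (hi : i < finrank ℝ E) : fnum (convexHull ℝ (V : Set E)) i = (faces V i).card := by
  have hset : {F : Set E | IsFace (convexHull ℝ (V : Set E)) F ∧ finrank ℝ (vectorSpan ℝ F) = i}
      = (fun S : Finset E => convexHull ℝ (S : Set E)) '' (faces V i : Set (Finset E)) := by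
    ext F
    constructor
    · rintro ⟨⟨⟨x, hx⟩, l, c, _, hle, rfl⟩, hd⟩
      set S : Finset E := V.filter (fun x => l x = c) with hS
      have hSV : S ⊆ V := Finset.filter_subset _ _
      have hleV : ∀ x ∈ V, l x ≤ c := fun x hx =>
        hle x (subset_convexHull ℝ _ (Finset.mem_coe.2 hx))
      have heq : ∀ x ∈ V, (l x = c ↔ x ∈ S) := by
        intro x hx
        simp only [hS, Finset.mem_filter, hx, true_and]
      have hhull := br_hull hSV hleV heq
      have hne : S.Nonempty := by
        rw [← hhull] at hx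
        by_contra hcon
        rw [Finset.not_nonempty_iff_eq_empty] at hcon
        rw [hcon] at hx
        simp at hx
      refine ⟨S, Finset.mem_coe.2 (mem_faces.2 ⟨⟨hne, hSV, l, c, hleV, heq⟩, ?_⟩), hhull⟩
      rw [← br_adim, hhull]
      exact hd
    · rintro ⟨S, hS, rfl⟩
      rw [Finset.mem_coe, mem_faces] at hS
      obtain ⟨⟨hne, hSV, l, c, hle, heq⟩, hd⟩ := hS
      refine ⟨⟨?_, l, c, ?_, br_le hle, br_hull hSV hle heq⟩, ?_⟩
      · obtain ⟨x, hx⟩ := hne
        exact ⟨x, subset_convexHull ℝ _ (Finset.mem_coe.2 hx)⟩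
      · rintro rfl
        obtain ⟨x, hx⟩ := hne
        have hc : (0 : E →ₗ[ℝ] ℝ) x = c := (heq x (hSV hx)).2 hx
        have hSV' : S = V := by
          refine Finset.Subset.antisymm hSV fun y hy => (heq y hy).1 ?_
          rw [← hc]
          simp
        rw [hSV'] at hd
        omega
      · show finrank ℝ (vectorSpan ℝ (convexHull ℝ (S : Set E))) = i
        rw [br_adim, hd]
  unfold fnum
  have hinj : Set.InjOn (fun S : Finset E => convexHull ℝ (S : Set E))
      (faces V i : Set (Finset E)) := ?_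
  · rw [hset, hinj.ncard_image, Set.ncard_coe_finset]
  intro S hS T hT he
  rw [Finset.mem_coe, mem_faces] at hS hT
  have key : ∀ S T : Finset E, FaceSet V S → FaceSet V T →
      convexHull ℝ (S : Set E) = convexHull ℝ (T : Set E) → S ⊆ T := by
    intro S T hS hT he x hx
    refine hT.mem_of_mem_affineSpan (hS.2.1 hx) ?_
    refine convexHull_subset_affineSpan _ ?_
    rw [← he]
    exact subset_convexHull ℝ _ (Finset.mem_coe.2 hx)
  exact Finset.Subset.antisymm (key S T hS.1 hT.1 he) (key T S hT.1 hS.1 he.symm)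

theorem isFVector_iff {d : ℕ} (hd : 0 < d) (f : Fin d → ℕ) :
    IsFVector d f ↔ ∃ V : Finset (EuclideanSpace ℝ (Fin d)), ConvPos V ∧ adim V = d ∧
      ∀ i : Fin d, (faces V (i : ℕ)).card = f i := by
  have hfin : finrank ℝ (EuclideanSpace ℝ (Fin d)) = d := by simp
  constructor
  · rintro ⟨P, ⟨V, rfl, htop⟩, hf⟩
    have hhull := convexHull_verts V
    have hd' : adim (verts V) = d := by
      rw [← br_adim, hhull, ← direction_affineSpan, htop, AffineSubspace.direction_top,
        finrank_top, hfin]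
    refine ⟨verts V, convPos_verts V, hd', fun i => ?_⟩
    rw [← fnum_convexHull (by rw [hfin]; exact hd') (by rw [hfin]; exact i.2), hhull]
    exact hf i
  · rintro ⟨V, _, hd', hf⟩
    refine ⟨convexHull ℝ (V : Set (EuclideanSpace ℝ (Fin d))), ⟨V, rfl, ?_⟩, fun i => ?_⟩
    · rw [affineSpan_convexHull]
      have hne : (V : Set (EuclideanSpace ℝ (Fin d))).Nonempty := by
        by_contra hcon
        rw [Set.not_nonempty_iff_eq_empty, Finset.coe_eq_empty] at hcon
        rw [hcon] at hd'
        unfold adim at hd'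
        rw [Finset.coe_empty, vectorSpan_empty, finrank_bot] at hd'
        omega
      rw [AffineSubspace.affineSpan_eq_top_iff_vectorSpan_eq_top_of_nonempty ℝ _ _ hne]
      exact vectorSpan_eq_top (by rw [hfin]; exact hd')
    · rw [fnum_convexHull (by rw [hfin]; exact hd') (by rw [hfin]; exact i.2)]
      exact hf i

end

end Pool.Agent.FV
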