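import Pool.Agent.Lib.MP_e9c977_fv.Polygon

/-!
# Row E3: Euler's relation in dimension three, with the half-space version
-/

namespace Pool.Agent.FV

open Module
open scoped Classical

variable {E : Type} [NormedAddCommGroup E] [InnerProductSpace ℝ E]

namespace E3Aux

/-- The members of `F` with top vertex `x`. -/
noncomputable def tops (l : E →ₗ[ℝ] ℝ) (F : Finset (Finset E)) (x : E) : Finset (Finset E) :=
  F.filter (fun S => x ∈ S ∧ ∀ y ∈ S, l y ≤ l x)

/-- Grouping the sets by their top vertex. -/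
theorem card_lower_eq_sum {V : Finset E} (l : E →ₗ[ℝ] ℝ) (hl : Set.InjOn l (V : Set E)) (c : ℝ)
    (F : Finset (Finset E)) (hF : ∀ S ∈ F, S.Nonempty ∧ S ⊆ V) :
    (F.filter (fun S => ∀ x ∈ S, l x < c)).card
      = ∑ x ∈ V.filter (fun x => l x < c), (tops l F x).card := by
  have key : F.filter (fun S => ∀ x ∈ S, l x < c)
      = (V.filter (fun x => l x < c)).biUnion (fun x => tops l F x) := by
    ext S
    simp only [Finset.mem_filter, Finset.mem_biUnion, tops]
    constructor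
    · rintro ⟨hS, hlt⟩
      obtain ⟨x, hx, hmax⟩ := Finset.exists_max_image S l (hF S hS).1
      exact ⟨x, ⟨(hF S hS).2 hx, hlt x hx⟩, hS, hx, hmax⟩
    · rintro ⟨x, ⟨_, hxc⟩, hS, hx, hmax⟩
      exact ⟨hS, fun y hy => lt_of_le_of_lt (hmax y hy) hxc⟩
  rw [key, Finset.card_biUnion]
  intro x hx y hy hxy
  rw [Function.onFun, Finset.disjoint_left]
  intro S hSx hSy
  simp only [tops, Finset.mem_filter] at hSx hSy
  apply hxy
  have h1 := hSx.2.2 y hSy.2.1
  have h2 := hSy.2.2 x hSx.2.1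
  exact hl (Finset.mem_coe.2 (Finset.mem_filter.1 hx).1) (Finset.mem_coe.2 (Finset.mem_filter.1 hy).1)
    (le_antisymm h2 h1)

theorem card_faces_zero_filter {U : Finset E} (hU : ConvPos U) (p : E → Prop) :
    ((faces U 0).filter (fun T => ∀ z ∈ T, p z)).card = (U.filter p).card := by
  have key : (faces U 0).filter (fun T => ∀ z ∈ T, p z) = (U.filter p).image (fun z => ({z} : Finset E)) := by
    ext T
    simp only [Finset.mem_filter, Finset.mem_image, mem_faces_zero hU]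
    constructor
    · rintro ⟨⟨x, hx, rfl⟩, h⟩
      exact ⟨x, ⟨hx, h x (Finset.mem_singleton_self x)⟩, rfl⟩
    · rintro ⟨x, ⟨hx, hp⟩, rfl⟩
      refine ⟨⟨x, hx, rfl⟩, fun z hz => ?_⟩
      rw [Finset.mem_singleton] at hz
      rw [hz]; exact hp
  rw [key, Finset.card_image_of_injective _ Finset.singleton_injective]

variable {V : Finset E} {u : E} {g : E →ₗ[ℝ] ℝ}

theorem rad_val (l : E →ₗ[ℝ] ℝ) (x : E) : l (rad g u x) = (g (x - u))⁻¹ * (l x - l u) := by
  simp [rad, map_sub]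

/-- The faces with top vertex `u` are the lower faces of the vertex figure. -/
theorem card_tops (hV : ConvPos V) (hu : u ∈ V) (hg : Cuts g V u) (l : E →ₗ[ℝ] ℝ)
    (hl : Set.InjOn l (V : Set E)) (i : ℕ) :
    (tops l (faces V (i + 1)) u).card
      = ((faces (vfig g V u) i).filter (fun T => ∀ z ∈ T, l z < 0)).card := by
  apply Finset.card_bij (fun S _ => vface g V u S)
  · intro S hS
    simp only [tops, Finset.mem_filter, mem_faces] at hS
    obtain ⟨⟨hSf, hSd⟩, huS, hmax⟩ := hS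
    simp only [Finset.mem_filter, mem_faces]
    have hd : 1 ≤ adim S := by omega
    refine ⟨⟨faceSet_vface hV hu hg hSf huS hd, ?_⟩, ?_⟩
    · have := adim_vface hV hu hg hSf huS hd
      omega
    · intro z hz
      simp only [vface, Finset.mem_image, Finset.mem_inter] at hz
      obtain ⟨w, ⟨hwS, hwn⟩, rfl⟩ := hz
      have hw := mem_nbr.1 hwn
      have hwV : w ∈ V := hSf.2.1 hwS
      have h1 : l w < l u := by
        refine lt_of_le_of_ne (hmax w hwS) (fun h => hw.1 ?_)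
        exact hl (Finset.mem_coe.2 hwV) (Finset.mem_coe.2 hu) h
      rw [rad_val]
      have h2 := hg w hwV hw.1
      exact mul_neg_of_pos_of_neg (inv_pos.2 h2) (by linarith)
  · intro S hS T hT h
    simp only [tops, Finset.mem_filter, mem_faces] at hS hT
    exact vface_injOn hV hu hg hS.1.1 hS.2.1 hT.1.1 hT.2.1 h
  · intro U hU
    simp only [Finset.mem_filter, mem_faces] at hU
    obtain ⟨⟨hUf, hUd⟩, hlow⟩ := hU
    obtain ⟨S, hSf, huS, hd, rfl⟩ := exists_vface hV hu hg hUf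
    refine ⟨S, ?_, rfl⟩
    simp only [tops, Finset.mem_filter, mem_faces]
    have h1 := adim_vface hV hu hg hSf huS hd
    refine ⟨⟨hSf, by omega⟩, huS, ?_⟩
    apply le_of_nbr (hV.mono hSf.2.1) huS
    intro w hw
    rw [nbr_face hSf huS] at hw
    have hw' := Finset.mem_inter.1 hw
    have h2 : l (rad g u w) < 0 := hlow _ (Finset.mem_image_of_mem _ hw)
    rw [rad_val] at h2
    have h3 := hg w (hSf.2.1 hw'.1) (mem_nbr.1 hw'.2).1
    by_contra hcon
    push Not at hcon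
    have : 0 ≤ (g (w - u))⁻¹ * (l w - l u) :=
      mul_nonneg (inv_nonneg.2 h3.le) (by linarith)
    linarith

/-- At the minimum nothing ends. -/
theorem card_tops_min (l : E →ₗ[ℝ] ℝ) (hu : u ∈ V)
    (hl : Set.InjOn l (V : Set E)) (hmin : ∀ y ∈ V, l u ≤ l y) (i : ℕ) :
    (tops l (faces V (i + 1)) u).card = 0 := by
  rw [Finset.card_eq_zero, Finset.eq_empty_iff_forall_notMem]
  intro S hS
  simp only [tops, Finset.mem_filter, mem_faces] at hS
  obtain ⟨⟨hSf, hSd⟩, huS, hmax⟩ := hS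
  have : S = {u} := by
    ext y
    rw [Finset.mem_singleton]
    constructor
    · intro hy
      exact hl (Finset.mem_coe.2 (hSf.2.1 hy)) (Finset.mem_coe.2 hu)
        (le_antisymm (hmax y hy) (hmin y (hSf.2.1 hy)))
    · rintro rfl
      exact huS
  rw [this, adim_singleton] at hSd
  omega

/-- At the maximum everything ends. -/
theorem card_tops_max (hV : ConvPos V) (hu : u ∈ V) (hg : Cuts g V u) (l : E →ₗ[ℝ] ℝ)
    (hmax : ∀ y ∈ V, l y ≤ l u) (i : ℕ) :
    (tops l (faces V (i + 1)) u).card = (faces (vfig g V u) i).card := by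
  rw [card_faces_vfig hV hu hg]
  congr 1
  ext S
  simp only [tops, Finset.mem_filter, mem_faces]
  constructor
  · rintro ⟨h1, h2, _⟩
    exact ⟨h1, h2⟩
  · rintro ⟨h1, h2⟩
    exact ⟨h1, h2, fun y hy => hmax y (h1.1.2.1 hy)⟩

theorem vfig_ne_zero (hu : u ∈ V) (hg : Cuts g V u) (l : E →ₗ[ℝ] ℝ)
    (hl : Set.InjOn l (V : Set E)) : ∀ z ∈ vfig g V u, l z ≠ 0 := by
  intro z hz
  simp only [vfig, Finset.mem_image] at hz
  obtain ⟨w, hw, rfl⟩ := hz
  have hw' := mem_nbr.1 hw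
  have hwV : w ∈ V := hw'.2.2.1 (by simp)
  rw [rad_val]
  have h2 := hg w hwV hw'.1
  have h3 : l w - l u ≠ 0 := by
    intro h
    exact hw'.1 (hl (Finset.mem_coe.2 hwV) (Finset.mem_coe.2 hu) (by linarith))
  exact mul_ne_zero (inv_ne_zero h2.ne') h3

theorem vfig_exists_neg (hV : ConvPos V) (hu : u ∈ V) (hg : Cuts g V u) (l : E →ₗ[ℝ] ℝ)
    (h : ∃ y ∈ V, l y < l u) : ∃ z ∈ vfig g V u, l z < 0 := by
  obtain ⟨y, hy, hyu⟩ := h
  obtain ⟨w, hw, hwu⟩ := exists_nbr_lt hV (-l) hu hy (by simpa using hyu)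
  refine ⟨rad g u w, Finset.mem_image_of_mem _ hw, ?_⟩
  have hw' := mem_nbr.1 hw
  have hwV : w ∈ V := hw'.2.2.1 (by simp)
  rw [rad_val]
  have h2 := hg w hwV hw'.1
  have h3 : l w < l u := by simpa using hwu
  exact mul_neg_of_pos_of_neg (inv_pos.2 h2) (by linarith)

theorem vfig_exists_pos (hV : ConvPos V) (hu : u ∈ V) (hg : Cuts g V u) (l : E →ₗ[ℝ] ℝ)
    (h : ∃ y ∈ V, l u < l y) : ∃ z ∈ vfig g V u, 0 < l z := by
  obtain ⟨y, hy, hyu⟩ := h
  obtain ⟨w, hw, hwu⟩ := exists_nbr_lt hV l hu hy hyu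
  refine ⟨rad g u w, Finset.mem_image_of_mem _ hw, ?_⟩
  have hw' := mem_nbr.1 hw
  have hwV : w ∈ V := hw'.2.2.1 (by simp)
  rw [rad_val]
  have h2 := hg w hwV hw'.1
  exact mul_pos (inv_pos.2 h2) (by linarith)

/-- A sum over the vertices below `c` in which only the minimum counts. -/
theorem sum_lower {V : Finset E} (hV : V.Nonempty) (l : E →ₗ[ℝ] ℝ)
    (hl : Set.InjOn l (V : Set E)) {c : ℝ} (χ : E → ℤ) (a : ℤ)
    (hmin : ∀ x ∈ V, (∀ y ∈ V, l x ≤ l y) → χ x = a)
    (hmid : ∀ x ∈ V, (∃ y ∈ V, l y < l x) → (∃ y ∈ V, l x < l y) → χ x = 0)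
    (hlo : ∃ x ∈ V, l x < c) (hhi : ∃ x ∈ V, c < l x) :
    ∑ x ∈ V.filter (fun x => l x < c), χ x = a := by
  obtain ⟨m, hm, hmm⟩ := Finset.exists_min_image V l hV
  obtain ⟨x0, hx0, hx0c⟩ := hlo
  obtain ⟨x1, hx1, hx1c⟩ := hhi
  have hmc : l m < c := lt_of_le_of_lt (hmm x0 hx0) hx0c
  rw [Finset.sum_eq_single_of_mem m (Finset.mem_filter.2 ⟨hm, hmc⟩)]
  · exact hmin m hm hmm
  · intro x hx hxm
    rw [Finset.mem_filter] at hx
    apply hmid x hx.1
    · refine ⟨m, hm, lt_of_le_of_ne (hmm x hx.1) (fun h => hxm ?_)⟩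
      exact (hl (Finset.mem_coe.2 hm) (Finset.mem_coe.2 hx.1) h).symm
    · exact ⟨x1, hx1, hx.2.trans hx1c⟩

/-- A sum over the vertices in which only the minimum and the maximum count. -/
theorem sum_all {V : Finset E} (hV : ∃ x ∈ V, ∃ y ∈ V, x ≠ y) (l : E →ₗ[ℝ] ℝ)
    (hl : Set.InjOn l (V : Set E)) (χ : E → ℤ) (a b : ℤ)
    (hmin : ∀ x ∈ V, (∀ y ∈ V, l x ≤ l y) → χ x = a)
    (hmid : ∀ x ∈ V, (∃ y ∈ V, l y < l x) → (∃ y ∈ V, l x < l y) → χ x = 0)
    (hmax : ∀ x ∈ V, (∀ y ∈ V, l y ≤ l x) → χ x = b) :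
    ∑ x ∈ V, χ x = a + b := by
  obtain ⟨x0, hx0, y0, hy0, hxy⟩ := hV
  have hne : V.Nonempty := ⟨x0, hx0⟩
  obtain ⟨m, hm, hmm⟩ := Finset.exists_min_image V l hne
  obtain ⟨M, hM, hMM⟩ := Finset.exists_max_image V l hne
  have hmM : m ≠ M := by
    rintro rfl
    apply hxy
    apply hl (Finset.mem_coe.2 hx0) (Finset.mem_coe.2 hy0)
    linarith [hmm x0 hx0, hmm y0 hy0, hMM x0 hx0, hMM y0 hy0]
  rw [← Finset.sum_subset (s₁ := {m, M})]
  · rw [Finset.sum_pair hmM, hmin m hm hmm, hmax M hM hMM]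
  · intro z hz
    simp only [Finset.mem_insert, Finset.mem_singleton] at hz
    rcases hz with rfl | rfl <;> assumption
  · intro x hx hxm
    simp only [Finset.mem_insert, Finset.mem_singleton, not_or] at hxm
    apply hmid x hx
    · refine ⟨m, hm, lt_of_le_of_ne (hmm x hx) (fun h => hxm.1 ?_)⟩
      exact (hl (Finset.mem_coe.2 hm) (Finset.mem_coe.2 hx) h).symm
    · refine ⟨M, hM, lt_of_le_of_ne (hMM x hx) (fun h => hxm.2 ?_)⟩
      exact hl (Finset.mem_coe.2 hx) (Finset.mem_coe.2 hM) h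

theorem exists_two {V : Finset E} (hd : 1 ≤ adim V) : ∃ x ∈ V, ∃ y ∈ V, x ≠ y := by
  by_contra h
  push Not at h
  have hne : V.Nonempty := by
    rw [Finset.nonempty_iff_ne_empty]
    rintro rfl
    rw [adim, Finset.coe_empty, vectorSpan_empty, finrank_bot] at hd
    omega
  obtain ⟨x, hx⟩ := hne
  have : V = {x} := by
    ext y
    rw [Finset.mem_singleton]
    exact ⟨fun hy => h y hy x hx, fun hy => hy ▸ hx⟩
  rw [this, adim_singleton] at hd
  omega

theorem faces_nonempty_subset {V : Finset E} (i : ℕ) : ∀ S ∈ faces V i, S.Nonempty ∧ S ⊆ V :=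
  fun _ hS => ⟨(mem_faces.1 hS).1.1, (mem_faces.1 hS).1.2.1⟩

/-- All faces are lower faces for a large bound. -/
theorem card_eq_sum {V : Finset E} (l : E →ₗ[ℝ] ℝ) (hl : Set.InjOn l (V : Set E))
    (F : Finset (Finset E)) (hF : ∀ S ∈ F, S.Nonempty ∧ S ⊆ V) :
    F.card = ∑ x ∈ V, (tops l F x).card := by
  obtain ⟨c, hc⟩ : ∃ c : ℝ, ∀ x ∈ V, l x < c := by
    obtain ⟨c, hc⟩ := (V.image l).bddAbove
    refine ⟨c + 1, fun x hx => ?_⟩
    have := hc (Finset.mem_coe.2 (Finset.mem_image_of_mem l hx))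
    linarith
  have h := card_lower_eq_sum l hl c F hF
  rw [Finset.filter_true_of_mem (fun S hS x hx => hc x ((hF S hS).2 hx)),
    Finset.filter_true_of_mem hc] at h
  exact h

variable (l : E →ₗ[ℝ] ℝ)

theorem chi_mid (hV : ConvPos V) (h3 : adim V = 3) (hl : Set.InjOn l (V : Set E))
    (hu : u ∈ V) (h1 : ∃ y ∈ V, l y < l u) (h2 : ∃ y ∈ V, l u < l y) :
    (1 : ℤ) - (tops l (faces V 1) u).card + (tops l (faces V 2) u).card = 0 := by
  obtain ⟨g, hg⟩ := exists_cuts hV hu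
  have hU := convPos_vfig hV hu hg
  have hd := adim_vfig hV hu hg (by omega)
  have e1 := card_tops hV hu hg l hl 0
  have e2 := card_tops hV hu hg l hl 1
  rw [card_faces_zero_filter hU] at e1
  have e3 := card_lower_edges_polygon hU (by omega) l (vfig_ne_zero hu hg l hl)
    (vfig_exists_neg hV hu hg l h1) (vfig_exists_pos hV hu hg l h2)
  simp only [zero_add, Nat.reduceAdd] at e1 e2
  rw [e1, e2]
  omega

theorem chi_max (hV : ConvPos V) (h3 : adim V = 3)
    (hu : u ∈ V) (h : ∀ y ∈ V, l y ≤ l u) :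
    (1 : ℤ) - (tops l (faces V 1) u).card + (tops l (faces V 2) u).card = 1 := by
  obtain ⟨g, hg⟩ := exists_cuts hV hu
  have hU := convPos_vfig hV hu hg
  have hd := adim_vfig hV hu hg (by omega)
  have e1 := card_tops_max hV hu hg l h 0
  have e2 := card_tops_max hV hu hg l h 1
  rw [card_faces_zero hU] at e1
  rw [card_edges_polygon hU (by omega)] at e2
  simp only [zero_add, Nat.reduceAdd] at e1 e2
  rw [e1, e2]
  omega

theorem chi_min (hl : Set.InjOn l (V : Set E))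
    (hu : u ∈ V) (h : ∀ y ∈ V, l u ≤ l y) :
    (1 : ℤ) - (tops l (faces V 1) u).card + (tops l (faces V 2) u).card = 1 := by
  have e1 := card_tops_min l hu hl h 0
  have e2 := card_tops_min l hu hl h 1
  simp only [zero_add, Nat.reduceAdd] at e1 e2
  rw [e1, e2]
  norm_num

end E3Aux

open E3Aux

/-- The half-space version: a plane missing the vertices, with vertices on both sides. -/
theorem euler_three_lower {V : Finset E} (hV : ConvPos V) (h3 : adim V = 3)
    (l : E →ₗ[ℝ] ℝ) {c : ℝ} (hne : ∀ x ∈ V, l x ≠ c) (hlo : ∃ x ∈ V, l x < c)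
    (hhi : ∃ x ∈ V, c < l x) :
    ((V.filter (fun x => l x < c)).card : ℤ)
      - ((faces V 1).filter (fun S => ∀ x ∈ S, l x < c)).card
      + ((faces V 2).filter (fun S => ∀ x ∈ S, l x < c)).card = 1 := by
  obtain ⟨l', hl', hA, hB, -⟩ := exists_generic V l c
  have hiff : ∀ x ∈ V, (l x < c ↔ l' x < c) := by
    intro x hx
    rcases lt_or_gt_of_ne (hne x hx) with h | h
    · exact ⟨fun _ => hA x hx h, fun _ => h⟩
    · exact ⟨fun h' => absurd h' (not_lt.2 h.le), fun h' => absurd h' (not_lt.2 (hB x hx h).le)⟩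
  have r0 : V.filter (fun x => l x < c) = V.filter (fun x => l' x < c) :=
    Finset.filter_congr hiff
  have rS : ∀ i, (faces V i).filter (fun S => ∀ x ∈ S, l x < c)
      = (faces V i).filter (fun S => ∀ x ∈ S, l' x < c) := by
    intro i
    apply Finset.filter_congr
    intro S hS
    have hSV := (faces_nonempty_subset i S hS).2
    exact forall₂_congr (fun x hx => hiff x (hSV hx))
  rw [r0, rS, rS, card_lower_eq_sum l' hl' c _ (faces_nonempty_subset 1),
    card_lower_eq_sum l' hl' c _ (faces_nonempty_subset 2)]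
  have hs := sum_lower (V := V) ⟨_, hlo.choose_spec.1⟩ l' hl' (c := c)
    (fun u => (1 : ℤ) - (tops l' (faces V 1) u).card + (tops l' (faces V 2) u).card) 1
    (fun x hx h => chi_min l' hl' hx h) (fun x hx h h' => chi_mid l' hV h3 hl' hx h h')
    (by obtain ⟨x, hx, h⟩ := hlo; exact ⟨x, hx, hA x hx h⟩)
    (by obtain ⟨x, hx, h⟩ := hhi; exact ⟨x, hx, hB x hx h⟩)
  simp only [Finset.sum_add_distrib, Finset.sum_sub_distrib, Finset.sum_const, nsmul_eq_mul,
    mul_one] at hs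
  push_cast
  linarith [hs]

theorem euler_three {V : Finset E} (hV : ConvPos V) (h3 : adim V = 3) :
    (V.card : ℤ) - (faces V 1).card + (faces V 2).card = 2 := by
  obtain ⟨l', hl', -⟩ := exists_generic V 0 0
  rw [card_eq_sum l' hl' _ (faces_nonempty_subset 1),
    card_eq_sum l' hl' _ (faces_nonempty_subset 2)]
  have hs := sum_all (V := V) (exists_two (by omega)) l' hl'
    (fun u => (1 : ℤ) - (tops l' (faces V 1) u).card + (tops l' (faces V 2) u).card) 1 1
    (fun x hx h => chi_min l' hl' hx h) (fun x hx h h' => chi_mid l' hV h3 hl' hx h h')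
    (fun x hx h => chi_max l' hV h3 hx h)
  simp only [Finset.sum_add_distrib, Finset.sum_sub_distrib, Finset.sum_const, nsmul_eq_mul,
    mul_one] at hs
  push_cast
  linarith [hs]

end Pool.Agent.FV
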