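import Pool.Agent.Lib.MP_e9c977_fv.Mot
import Pool.Agent.Lib.MP_e9c977_fv.Euler3

/-!
# Row CB: the number of bars
-/

namespace Pool.Agent.FV

open Module
open scoped Classical

noncomputable section

variable {E : Type} [NormedAddCommGroup E] [InnerProductSpace ℝ E]

namespace CBAux

theorem nonempty_of_adim {V : Finset E} {n : ℕ} (h : adim V = n + 1) : V.Nonempty := by
  rw [Finset.nonempty_iff_ne_empty]
  rintro rfl
  have : adim (∅ : Finset E) = 0 := by
    unfold adim
    rw [Finset.coe_empty, vectorSpan_empty, finrank_bot]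
  omega

theorem card_edge {V S : Finset E} (hV : ConvPos V) (hS : S ∈ faces V 1) : S.card = 2 := by
  obtain ⟨x, y, hxy, rfl, _⟩ := (mem_faces_one hV).1 hS
  exact Finset.card_pair hxy

theorem card_nbr_eq {V : Finset E} (hV : ConvPos V) {u : E} :
    (nbr V u).card = ((faces V 1).filter (fun S => u ∈ S)).card := by
  refine Finset.card_bij (fun w _ => ({u, w} : Finset E)) ?_ ?_ ?_
  · intro w hw
    have hne : u ≠ w := (mem_nbr.1 hw).1.symm
    exact Finset.mem_filter.2 ⟨(mem_nbr_iff_edge hV hne).1 hw, by simp⟩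
  · intro w hw w' hw' h
    have h1 : w ∈ ({u, w'} : Finset E) := by
      rw [← h]
      simp
    rcases Finset.mem_insert.1 h1 with h2 | h2
    · exact absurd h2 (mem_nbr.1 hw).1
    · exact Finset.mem_singleton.1 h2
  · intro S hS
    obtain ⟨h1, h2⟩ := Finset.mem_filter.1 hS
    obtain ⟨x, y, hxy, rfl, hf⟩ := (mem_faces_one hV).1 h1
    rcases Finset.mem_insert.1 h2 with h3 | h3
    · subst h3
      exact ⟨y, mem_nbr.2 ⟨hxy.symm, hf⟩, rfl⟩
    · have h4 := Finset.mem_singleton.1 h3
      subst h4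
      refine ⟨x, mem_nbr.2 ⟨hxy, ?_⟩, ?_⟩
      · rwa [Finset.pair_comm]
      · exact Finset.pair_comm _ _

end CBAux

/-- A pair of vertices of a 2-face which is not an edge lies in no face not containing it. -/
theorem subset_of_diagonal {V R F : Finset E} (hV : ConvPos V) (hR : R ∈ faces V 2)
    (hF : FaceSet V F) {B : Finset E} (hB : B.card = 2) (hBR : B ⊆ R) (hBF : B ⊆ F)
    (hne : B ∉ faces V 1) : R ⊆ F := by
  by_contra hcon
  obtain ⟨hRf, hRd⟩ := mem_faces.1 hR
  have hBsub : B ⊆ R ∩ F := Finset.subset_inter hBR hBF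
  obtain ⟨x, y, hxy, rfl⟩ := Finset.card_eq_two.1 hB
  have hI : FaceSet V (R ∩ F) := hRf.inter hF ⟨x, hBsub (by simp)⟩
  have hss : R ∩ F ⊂ R := by
    refine ⟨Finset.inter_subset_left, fun h => hcon ?_⟩
    exact h.trans Finset.inter_subset_right
  have h1 : adim (R ∩ F) < 2 := by
    rw [← hRd]
    exact hI.adim_lt hss hRf.2.1
  have h2 : 1 ≤ adim (R ∩ F) := by
    rw [← adim_pair hxy]
    exact adim_mono hBsub
  have h3 : adim (R ∩ F) = 1 := by omega
  obtain ⟨x', y', hxy', h4⟩ := (hV.mono hI.2.1).card_eq_two h3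
  have h5 : ({x, y} : Finset E) = R ∩ F := by
    refine Finset.eq_of_subset_of_card_le hBsub ?_
    rw [h4, Finset.card_pair hxy', Finset.card_pair hxy]
  exact hne (mem_faces.2 ⟨h5 ▸ hI, h5 ▸ h3⟩)

theorem card_of_mem_bars {V : Finset E} (hV : ConvPos V) {a : Finset E → E}
    (ha : ∀ R ∈ faces V 2, a R ∈ R) {B : Finset E} (hB : B ∈ bars V a) : B.card = 2 ∧ B ⊆ V := by
  rcases Finset.mem_union.1 hB with h | h
  · exact ⟨CBAux.card_edge hV h, (mem_faces.1 h).1.2.1⟩
  · obtain ⟨R, hR, h1⟩ := Finset.mem_biUnion.1 h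
    obtain ⟨x, hx, rfl⟩ := Finset.mem_image.1 h1
    obtain ⟨hne, hxR⟩ := Finset.mem_erase.1 hx
    have hRV := (mem_faces.1 hR).1.2.1
    refine ⟨Finset.card_pair hne.symm, ?_⟩
    intro z hz
    rcases Finset.mem_insert.1 hz with h2 | h2
    · rw [h2]
      exact hRV (ha R hR)
    · rw [Finset.mem_singleton.1 h2]
      exact hRV hxR

/-- The bars inside a face are its own bars. -/
theorem bars_filter {V F : Finset E} (hV : ConvPos V) {a : Finset E → E}
    (ha : ∀ R ∈ faces V 2, a R ∈ R) (hF : FaceSet V F) :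
    (bars V a).filter (fun B => B ⊆ F) = bars F a := by
  ext B
  constructor
  · intro h
    obtain ⟨hB, hBF⟩ := Finset.mem_filter.1 h
    by_cases h1 : B ∈ faces V 1
    · refine Finset.mem_union_left _ ?_
      rw [faces_face hF]
      exact Finset.mem_filter.2 ⟨h1, hBF⟩
    · rcases Finset.mem_union.1 hB with h2 | h2
      · exact absurd h2 h1
      · obtain ⟨R, hR, h3⟩ := Finset.mem_biUnion.1 h2
        have hcard := (card_of_mem_bars hV ha hB).1
        have hBR : B ⊆ R := by
          obtain ⟨x, hx, rfl⟩ := Finset.mem_image.1 h3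
          intro z hz
          rcases Finset.mem_insert.1 hz with h4 | h4
          · rw [h4]
            exact ha R hR
          · rw [Finset.mem_singleton.1 h4]
            exact (Finset.mem_erase.1 hx).2
        have hRF := subset_of_diagonal hV hR hF hcard hBR hBF h1
        refine Finset.mem_union_right _ (Finset.mem_biUnion.2 ⟨R, ?_, h3⟩)
        rw [faces_face hF]
        exact Finset.mem_filter.2 ⟨hR, hRF⟩
  · intro h
    rcases Finset.mem_union.1 h with h1 | h1
    · rw [faces_face hF] at h1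
      obtain ⟨h2, h3⟩ := Finset.mem_filter.1 h1
      exact Finset.mem_filter.2 ⟨Finset.mem_union_left _ h2, h3⟩
    · obtain ⟨R, hR, h3⟩ := Finset.mem_biUnion.1 h1
      rw [faces_face hF] at hR
      obtain ⟨hR1, hRF⟩ := Finset.mem_filter.1 hR
      refine Finset.mem_filter.2 ⟨Finset.mem_union_right _ (Finset.mem_biUnion.2 ⟨R, hR1, h3⟩), ?_⟩
      obtain ⟨x, hx, rfl⟩ := Finset.mem_image.1 h3
      intro z hz
      rcases Finset.mem_insert.1 hz with h4 | h4
      · rw [h4]
        exact hRF (ha R hR1)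
      · rw [Finset.mem_singleton.1 h4]
        exact hRF (Finset.mem_erase.1 hx).2

namespace CBAux

theorem card_fan_sdiff {V : Finset E} (hV : ConvPos V) {a : E} {R : Finset E}
    (hR : R ∈ faces V 2) (ha : a ∈ R) : (fanBars a R \ faces V 1).card + 3 = R.card := by
  obtain ⟨hRf, hRd⟩ := mem_faces.1 hR
  have hRc : ConvPos R := hV.mono hRf.2.1
  have h1 : fanBars a R \ faces V 1
      = ((R.erase a) \ (nbr R a)).image (fun x => ({a, x} : Finset E)) := by
    ext B
    simp only [fanBars, Finset.mem_sdiff, Finset.mem_image, nbr_face hRf ha]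
    constructor
    · rintro ⟨⟨x, hx, rfl⟩, h⟩
      refine ⟨x, ⟨hx, fun h2 => h ?_⟩, rfl⟩
      exact (mem_nbr_iff_edge hV (Finset.mem_erase.1 hx).1.symm).1 (Finset.mem_inter.1 h2).2
    · rintro ⟨x, ⟨hx, h⟩, rfl⟩
      refine ⟨⟨x, hx, rfl⟩, fun h2 => h ?_⟩
      obtain ⟨h3, h4⟩ := Finset.mem_erase.1 hx
      exact Finset.mem_inter.2 ⟨h4, (mem_nbr_iff_edge hV h3.symm).2 h2⟩
  rw [h1, Finset.card_image_of_injOn]
  · have h2 := card_nbr_polygon hRc hRd ha
    have h3 := three_le_card_polygon hRc hRd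
    rw [Finset.card_sdiff_of_subset nbr_subset, Finset.card_erase_of_mem ha, h2]
    omega
  · intro x hx y hy hxy
    have h2 : x ∈ ({a, y} : Finset E) := by
      have : ({a, x} : Finset E) = {a, y} := hxy
      rw [← this]
      simp
    have hxa : x ≠ a := (Finset.mem_erase.1 (Finset.mem_sdiff.1 hx).1).1
    rcases Finset.mem_insert.1 h2 with h3 | h3
    · exact absurd h3 hxa
    · exact Finset.mem_singleton.1 h3

end CBAux

/-- The number of bars, written without subtraction. -/
theorem card_bars {V : Finset E} (hV : ConvPos V) {a : Finset E → E}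
    (ha : ∀ R ∈ faces V 2, a R ∈ R) :
    (bars V a).card + 3 * (faces V 2).card = (faces V 1).card + ∑ R ∈ faces V 2, R.card := by
  have h1 : bars V a = faces V 1 ∪ (faces V 2).biUnion (fun R => fanBars (a R) R \ faces V 1) := by
    ext B
    simp only [bars, Finset.mem_union, Finset.mem_biUnion, Finset.mem_sdiff]
    constructor
    · rintro (h | ⟨R, hR, h⟩)
      · exact Or.inl h
      · by_cases h2 : B ∈ faces V 1
        · exact Or.inl h2
        · exact Or.inr ⟨R, hR, h, h2⟩
    · rintro (h | ⟨R, hR, h, h2⟩)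
      · exact Or.inl h
      · exact Or.inr ⟨R, hR, h⟩
  have h2 : Disjoint (faces V 1)
      ((faces V 2).biUnion (fun R => fanBars (a R) R \ faces V 1)) := by
    rw [Finset.disjoint_left]
    intro B hB hB'
    obtain ⟨R, _, h⟩ := Finset.mem_biUnion.1 hB'
    exact (Finset.mem_sdiff.1 h).2 hB
  have h3 : ((faces V 2).biUnion (fun R => fanBars (a R) R \ faces V 1)).card
      = ∑ R ∈ faces V 2, (fanBars (a R) R \ faces V 1).card := by
    refine Finset.card_biUnion ?_
    intro R hR R' hR' hne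
    rw [Function.onFun, Finset.disjoint_left]
    intro B hB hB'
    obtain ⟨hB1, hB2⟩ := Finset.mem_sdiff.1 hB
    obtain ⟨hB3, _⟩ := Finset.mem_sdiff.1 hB'
    have hsub : ∀ R ∈ faces V 2, B ∈ fanBars (a R) R → B ⊆ R ∧ B.card = 2 := by
      intro R hR h
      obtain ⟨x, hx, rfl⟩ := Finset.mem_image.1 h
      obtain ⟨h4, h5⟩ := Finset.mem_erase.1 hx
      refine ⟨?_, Finset.card_pair h4.symm⟩
      intro z hz
      rcases Finset.mem_insert.1 hz with h6 | h6
      · rw [h6]
        exact ha R hR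
      · rw [Finset.mem_singleton.1 h6]
        exact h5
    obtain ⟨h4, h5⟩ := hsub R hR hB1
    obtain ⟨h6, _⟩ := hsub R' hR' hB3
    exact hne (Finset.Subset.antisymm
      (subset_of_diagonal hV hR (mem_faces.1 hR').1 h5 h4 h6 hB2)
      (subset_of_diagonal hV hR' (mem_faces.1 hR).1 h5 h6 h4 hB2))
  rw [h1, Finset.card_union_of_disjoint h2, h3]
  have h4 : ∑ R ∈ faces V 2, (fanBars (a R) R \ faces V 1).card + 3 * (faces V 2).card
      = ∑ R ∈ faces V 2, R.card := by
    have h5 : 3 * (faces V 2).card = ∑ R ∈ faces V 2, 3 := by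
      rw [Finset.sum_const, smul_eq_mul, mul_comm]
    rw [h5, ← Finset.sum_add_distrib]
    exact Finset.sum_congr rfl fun R hR => CBAux.card_fan_sdiff hV hR (ha R hR)
  omega

theorem card_bars_polygon {V : Finset E} (hV : ConvPos V) (h2 : adim V = 2)
    {a : Finset E → E} (ha : ∀ R ∈ faces V 2, a R ∈ R) :
    (bars V a).card + 3 = 2 * V.card := by
  have h1 : faces V 2 = {V} := by
    ext S
    rw [Finset.mem_singleton]
    constructor
    · intro hS
      obtain ⟨h3, h4⟩ := mem_faces.1 hS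
      exact h3.eq_of_adim h3.2.1 (Finset.Subset.refl V) (by omega)
    · rintro rfl
      exact mem_faces.2 ⟨FaceSet.self (CBAux.nonempty_of_adim h2), h2⟩
  have h3 := card_bars hV ha
  have h4 := card_edges_polygon hV h2
  rw [h1, Finset.card_singleton, Finset.sum_singleton] at h3
  omega

/-- In a 3-dimensional configuration: `∑ p_R = 2 f₁`. -/
theorem sum_card_two_faces {V : Finset E} (hV : ConvPos V) (h3 : adim V = 3) :
    ∑ R ∈ faces V 2, R.card = 2 * (faces V 1).card := by
  have h1 : ∀ R ∈ faces V 2, R.card = ((faces V 1).filter (fun S => S ⊆ R)).card := by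
    intro R hR
    obtain ⟨hRf, hRd⟩ := mem_faces.1 hR
    rw [← card_edges_polygon (hV.mono hRf.2.1) hRd, faces_face hRf]
  rw [Finset.sum_congr rfl h1]
  have h2 := Finset.sum_card_bipartiteAbove_eq_sum_card_bipartiteBelow
    (s := faces V 2) (t := faces V 1) (fun R S => S ⊆ R)
  simp only [Finset.bipartiteAbove, Finset.bipartiteBelow] at h2
  rw [h2]
  have h4 : ∀ S ∈ faces V 1, ((faces V 2).filter (fun R => S ⊆ R)).card = 2 := by
    intro S hS
    obtain ⟨hSf, hSd⟩ := mem_faces.1 hS
    have h5 := diamond hSf (FaceSet.self (CBAux.nonempty_of_adim h3)) hSf.2.1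
      (by rw [hSd, h3])
    rw [hSd] at h5
    refine Eq.trans (congrArg Finset.card (Finset.filter_congr fun R hR => ?_)) h5
    exact ⟨fun h => ⟨h, (mem_faces.1 hR).1.2.1⟩, fun h => h.1⟩
  rw [Finset.sum_congr rfl h4, Finset.sum_const, smul_eq_mul, mul_comm]

/-- In a 3-dimensional configuration: `∑ deg = 2 f₁`. -/
theorem sum_card_nbr {V : Finset E} (hV : ConvPos V) :
    ∑ x ∈ V, (nbr V x).card = 2 * (faces V 1).card := by
  have h1 : ∑ x ∈ V, (nbr V x).card = ∑ x ∈ V, ((faces V 1).filter (fun S => x ∈ S)).card :=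
    Finset.sum_congr rfl fun x _ => CBAux.card_nbr_eq hV
  rw [h1]
  have h2 := Finset.sum_card_bipartiteAbove_eq_sum_card_bipartiteBelow
    (s := V) (t := faces V 1) (fun x S => x ∈ S)
  simp only [Finset.bipartiteAbove, Finset.bipartiteBelow] at h2
  rw [h2]
  have h3 : ∀ S ∈ faces V 1, (V.filter (fun x => x ∈ S)).card = 2 := by
    intro S hS
    have h4 : V.filter (fun x => x ∈ S) = S := by
      rw [Finset.filter_mem_eq_inter]
      exact Finset.inter_eq_right.2 (mem_faces.1 hS).1.2.1
    rw [h4]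
    exact CBAux.card_edge hV hS
  rw [Finset.sum_congr rfl h3, Finset.sum_const, smul_eq_mul, mul_comm]

theorem card_bars_three {V : Finset E} (hV : ConvPos V) (h3 : adim V = 3)
    {a : Finset E → E} (ha : ∀ R ∈ faces V 2, a R ∈ R) :
    (bars V a).card + 6 = 3 * V.card := by
  have h1 := card_bars hV ha
  rw [sum_card_two_faces hV h3] at h1
  have h2 := euler_three hV h3
  omega

end

end Pool.Agent.FV
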