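import Pool.Agent.Lib.MP_e9c977_fv.StarMain

/-!
# Row CA: three-cycles are 2-faces
-/

namespace Pool.Agent.FV

open Module
open scoped Classical

noncomputable section

variable {E : Type} [NormedAddCommGroup E] [InnerProductSpace ℝ E]

variable {V : Finset E} {u v : E}

namespace CAAux

theorem card_nbr_two (hV : ConvPos V) {R : Finset E} (hR : R ∈ faces V 2) {u : E} (hu : u ∈ R) :
    (nbr R u).card = 2 := by
  rw [mem_faces] at hR
  exact card_nbr_polygon (hV.mono hR.1.2.1) hR.2 hu

theorem ne_of_edge (he : ({u, v} : Finset E) ∈ faces V 1) : u ≠ v := by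
  rintro rfl
  have h := (mem_faces.1 he).2
  rw [Finset.pair_eq_singleton, adim_singleton] at h
  omega

theorem mem_above {e T : Finset E} {i : ℕ} : T ∈ above V e i ↔ T ∈ faces V i ∧ e ⊆ T := by
  simp [above]

theorem mem_starV {e : Finset E} {x : E} : x ∈ starV V e ↔ ∃ F ∈ above V e 3, x ∈ F := by
  simp [starV]

theorem exists_facet (h4 : adim V = 4) {S : Finset E} (hS : FaceSet V S) (h : adim S ≤ 3) :
    ∃ F ∈ faces V 3, S ⊆ F := exists_face_between hS h (by omega)

theorem exists_facet_edge (h4 : adim V = 4) (he : ({u, v} : Finset E) ∈ faces V 1) :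
    ∃ F, F ∈ above V {u, v} 3 := by
  obtain ⟨F, hF, h⟩ := exists_facet h4 (mem_faces.1 he).1 (by rw [(mem_faces.1 he).2]; omega)
  exact ⟨F, mem_above.2 ⟨hF, h⟩⟩

theorem left_mem_starV (h4 : adim V = 4) (he : ({u, v} : Finset E) ∈ faces V 1) :
    u ∈ starV V {u, v} := by
  obtain ⟨F, hF⟩ := exists_facet_edge h4 he
  exact mem_starV.2 ⟨F, hF, (mem_above.1 hF).2 (by simp)⟩

theorem right_mem_starV (h4 : adim V = 4) (he : ({u, v} : Finset E) ∈ faces V 1) :
    v ∈ starV V {u, v} := by
  obtain ⟨F, hF⟩ := exists_facet_edge h4 he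
  exact mem_starV.2 ⟨F, hF, (mem_above.1 hF).2 (by simp)⟩

/-- A 2-face containing both ends is not outside of the star. -/
theorem not_both_mem (h4 : adim V = 4) {R : Finset E} (hR : R ∈ faces V 2) (hu : u ∈ R)
    (hv : v ∈ R) (h : ∀ F ∈ above V {u, v} 3, ¬ R ⊆ F) : False := by
  obtain ⟨F, hF, hRF⟩ := exists_facet h4 (mem_faces.1 hR).1 (by rw [(mem_faces.1 hR).2]; omega)
  refine h F (mem_above.2 ⟨hF, ?_⟩) hRF
  intro x hx
  rcases Finset.mem_insert.1 hx with rfl | hx
  · exact hRF hu
  · rw [Finset.mem_singleton] at hx; subst hx; exact hRF hv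

theorem mem_outR {e R : Finset E} {u : E} :
    R ∈ outR V e u ↔ R ∈ faces V 2 ∧ u ∈ R ∧ ∀ F ∈ above V e 3, ¬ R ⊆ F := by
  simp [outR]

/-- The common new bars. -/
theorem exists_of_mem_inter (h4 : adim V = 4) (he : ({u, v} : Finset E) ∈ faces V 1)
    {B : Finset E} (hB : B ∈ newB V {u, v} u ∩ newB V {u, v} v) :
    ∃ R ∈ outR V {u, v} u, ∃ R' ∈ outR V {u, v} v, nbr R u = B ∧ nbr R' v = B := by
  have huv := ne_of_edge he
  rw [Finset.mem_inter] at hB
  obtain ⟨h1, h2⟩ := hB
  unfold newB at h1 h2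
  rw [Finset.mem_union, Finset.mem_image, Finset.mem_image] at h1 h2
  rcases h1 with ⟨w, hw, rfl⟩ | ⟨R, hR, rfl⟩
  · exfalso
    rcases h2 with ⟨w', hw', h⟩ | ⟨R', hR', h⟩
    · have hu : u ∈ ({v, w'} : Finset E) := by rw [h]; simp
      rw [Finset.mem_insert, Finset.mem_singleton] at hu
      rcases hu with hu | hu
      · exact huv hu
      · subst hu
        unfold outN at hw'
        rw [Finset.mem_sdiff] at hw'
        exact hw'.2 (left_mem_starV h4 he)
    · have hu : u ∈ nbr R' v := by rw [h]; simp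
      rw [mem_outR] at hR'
      exact not_both_mem h4 hR'.1 ((Finset.mem_erase.1 (nbr_subset hu)).2) hR'.2.1 hR'.2.2
  · rcases h2 with ⟨w', hw', h⟩ | ⟨R', hR', h⟩
    · exfalso
      have hv : v ∈ nbr R u := by rw [← h]; simp
      rw [mem_outR] at hR
      exact not_both_mem h4 hR.1 hR.2.1 ((Finset.mem_erase.1 (nbr_subset hv)).2) hR.2.2
    · exact ⟨R, hR, R', hR', rfl, h⟩

theorem nbr_sub {R : Finset E} (hR : FaceSet V R) {u : E} (hu : u ∈ R) : nbr R u ⊆ nbr V u := by
  rw [nbr_face hR hu]; exact Finset.inter_subset_right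

theorem subset_of_mem_inter (h4 : adim V = 4) (he : ({u, v} : Finset E) ∈ faces V 1)
    {B : Finset E} (hB : B ∈ newB V {u, v} u ∩ newB V {u, v} v) : B ⊆ nbr V u ∩ nbr V v := by
  obtain ⟨R, hR, R', hR', h1, h2⟩ := exists_of_mem_inter h4 he hB
  rw [mem_outR] at hR hR'
  intro x hx
  rw [Finset.mem_inter]
  constructor
  · rw [← h1] at hx; exact nbr_sub (mem_faces.1 hR.1).1 hR.2.1 hx
  · rw [← h2] at hx; exact nbr_sub (mem_faces.1 hR'.1).1 hR'.2.1 hx

/-- Three neighbours are not coplanar with the vertex. -/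
theorem three_nbrs (hV : ConvPos V) {u x y z : E} (hx : x ∈ nbr V u) (hy : y ∈ nbr V u)
    (hz : z ∈ nbr V u) (hxy : x ≠ y) (hxz : x ≠ z) (hyz : y ≠ z) :
    3 ≤ adim ({u, x, y, z} : Finset E) := by
  have hu : u ∈ V := (mem_nbr.1 hx).2.2.1 (by simp)
  have hxV : x ∈ V := (Finset.mem_erase.1 (nbr_subset hx)).2
  have hyV : y ∈ V := (Finset.mem_erase.1 (nbr_subset hy)).2
  have hzV : z ∈ V := (Finset.mem_erase.1 (nbr_subset hz)).2
  have hxu := (mem_nbr.1 hx).1
  have hyu := (mem_nbr.1 hy).1
  have hzu := (mem_nbr.1 hz).1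
  set T : Finset E := {u, x, y, z} with hT
  have hTV : T ⊆ V := by
    intro t ht
    simp only [hT, Finset.mem_insert, Finset.mem_singleton] at ht
    rcases ht with rfl | rfl | rfl | rfl <;> assumption
  have hTc : ConvPos T := hV.mono hTV
  have h2 : 2 ≤ adim T := by
    have h := hV.adim_triple hu hxV hyV hxu.symm hyu.symm hxy
    rw [← h]
    apply adim_mono
    intro t ht
    simp only [Finset.mem_insert, Finset.mem_singleton] at ht
    simp only [hT, Finset.mem_insert, Finset.mem_singleton]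
    tauto
  by_contra hcon
  have h2' : adim T = 2 := by omega
  have hc := card_nbr_polygon hTc h2' (u := u) (by simp [hT])
  have hsub : ({x, y, z} : Finset E) ⊆ nbr T u := by
    intro t ht
    have key : t ∈ nbr V u ∧ t ∈ T := by
      simp only [Finset.mem_insert, Finset.mem_singleton] at ht
      rcases ht with rfl | rfl | rfl
      · exact ⟨hx, by simp [hT]⟩
      · exact ⟨hy, by simp [hT]⟩
      · exact ⟨hz, by simp [hT]⟩
    rw [mem_nbr] at key ⊢
    refine ⟨key.1.1, key.1.2.of_subset hTV ?_⟩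
    intro s hs
    rcases Finset.mem_insert.1 hs with rfl | hs
    · simp [hT]
    · rw [Finset.mem_singleton] at hs; rw [hs]; exact key.2
  have h3 : ({x, y, z} : Finset E).card = 3 := by
    rw [Finset.card_insert_of_notMem (by simp [hxy, hxz]), Finset.card_pair hyz]
  have := Finset.card_le_card hsub
  omega

/-- In a 2-face of the star the other neighbour. -/
theorem nbr_eq_pair (hV : ConvPos V) (he : ({u, v} : Finset E) ∈ faces V 1) {R : Finset E}
    (hR : R ∈ above V {u, v} 2) {w : E} (hw : w ∈ R) (hwu : w ∈ nbr V u) (hwv : w ≠ v) :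
    nbr R u = {v, w} := by
  rw [mem_above] at hR
  have huv := ne_of_edge he
  have hu : u ∈ R := hR.2 (by simp)
  have hv : v ∈ R := hR.2 (by simp)
  have hRf := (mem_faces.1 hR.1).1
  have hvn : v ∈ nbr R u := by
    rw [nbr_face hRf hu, Finset.mem_inter]
    exact ⟨hv, mem_nbr.2 ⟨huv.symm, (mem_faces.1 he).1⟩⟩
  have hwn : w ∈ nbr R u := by
    rw [nbr_face hRf hu, Finset.mem_inter]
    exact ⟨hw, hwu⟩
  have hsub : ({v, w} : Finset E) ⊆ nbr R u := by
    intro t ht
    rcases Finset.mem_insert.1 ht with rfl | ht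
    · exact hvn
    · rw [Finset.mem_singleton] at ht; subst ht; exact hwn
  symm
  apply Finset.eq_of_subset_of_card_le hsub
  rw [card_nbr_two hV hR.1 hu, Finset.card_pair hwv.symm]

theorem edge_of_nbr (hV : ConvPos V) {x y : E} (h : y ∈ nbr V x) : ({x, y} : Finset E) ∈ faces V 1 :=
  (mem_nbr_iff_edge hV (mem_nbr.1 h).1.symm).1 h

/-- The triangles of the star. -/
def tri (V : Finset E) (u v : E) : Finset (Finset E) :=
  (above V {u, v} 2).filter (fun R => nbr R u ⊆ insert v (nbr V u ∩ nbr V v))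

theorem exists_of_mem_tri (hV : ConvPos V) (he : ({u, v} : Finset E) ∈ faces V 1) {R : Finset E}
    (hR : R ∈ tri V u v) : ∃ w ∈ nbr V u ∩ nbr V v, w ∈ R ∧ nbr R u = {v, w} := by
  unfold tri at hR
  rw [Finset.mem_filter] at hR
  obtain ⟨hR, hsub⟩ := hR
  have hR' := mem_above.1 hR
  have hu : u ∈ R := hR'.2 (by simp)
  have hRf := (mem_faces.1 hR'.1).1
  have h2 := card_nbr_two hV hR'.1 hu
  obtain ⟨w, hw, hwv⟩ : ∃ w ∈ nbr R u, w ≠ v := by
    by_contra hcon
    push Not at hcon
    have : nbr R u ⊆ {v} := fun w hw => by rw [Finset.mem_singleton]; exact hcon w hw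
    have := Finset.card_le_card this
    rw [Finset.card_singleton] at this
    omega
  have hwC : w ∈ nbr V u ∩ nbr V v := by
    rcases Finset.mem_insert.1 (hsub hw) with h | h
    · exact absurd h hwv
    · exact h
  have hwR : w ∈ R := (Finset.mem_erase.1 (nbr_subset hw)).2
  exact ⟨w, hwC, hwR, nbr_eq_pair hV he hR hwR (Finset.mem_inter.1 hwC).1 hwv⟩

theorem card_tri (hV : ConvPos V) (h4 : adim V = 4) (hs : SimpleFacets V)
    (he : ({u, v} : Finset E) ∈ faces V 1) :
    (tri V u v).card = ((nbr V u ∩ nbr V v) ∩ starV V {u, v}).card := by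
  have h1 : ((tri V u v).image (fun R => nbr R u)).card = (tri V u v).card := by
    apply Finset.card_image_of_injOn
    intro R hR R' hR' h
    rw [Finset.mem_coe] at hR hR'
    unfold tri at hR hR'
    rw [Finset.mem_filter, mem_above] at hR hR'
    exact two_face_eq_of_nbr hV hR.1.1 hR'.1.1 (hR.1.2 (by simp)) (hR'.1.2 (by simp)) h
  have h2 : (((nbr V u ∩ nbr V v) ∩ starV V {u, v}).image (fun w => ({v, w} : Finset E))).card
      = ((nbr V u ∩ nbr V v) ∩ starV V {u, v}).card := by
    apply Finset.card_image_of_injOn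
    intro w hw w' hw' h
    rw [Finset.mem_coe, Finset.mem_inter, Finset.mem_inter] at hw hw'
    have hwv : w ≠ v := (mem_nbr.1 hw.1.2).1
    have : w ∈ ({v, w'} : Finset E) := by
      have h' : ({v, w} : Finset E) = {v, w'} := h
      rw [← h']; simp
    rw [Finset.mem_insert, Finset.mem_singleton] at this
    rcases this with h | h
    · exact absurd h hwv
    · exact h
  rw [← h1, ← h2]
  congr 1
  ext B
  rw [Finset.mem_image, Finset.mem_image]
  constructor
  · rintro ⟨R, hR, rfl⟩
    obtain ⟨w, hw, hwR, h⟩ := exists_of_mem_tri hV he hR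
    refine ⟨w, ?_, h.symm⟩
    rw [Finset.mem_inter]
    refine ⟨hw, ?_⟩
    unfold tri at hR
    rw [Finset.mem_filter, mem_above] at hR
    obtain ⟨F, hF, hRF⟩ := exists_facet h4 (mem_faces.1 hR.1.1).1 (by rw [(mem_faces.1 hR.1.1).2]; omega)
    exact mem_starV.2 ⟨F, mem_above.2 ⟨hF, hR.1.2.trans hRF⟩, hRF hwR⟩
  · rintro ⟨w, hw, rfl⟩
    rw [Finset.mem_inter] at hw
    have hw1 := Finset.mem_inter.1 hw.1
    obtain ⟨R, hR, hwR⟩ := exists_above_two_of_nbr hV h4 hs he hw1.1 hw.2
    have hn := nbr_eq_pair hV he hR hwR hw1.1 (mem_nbr.1 hw1.2).1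
    refine ⟨R, ?_, hn⟩
    unfold tri
    rw [Finset.mem_filter]
    refine ⟨hR, ?_⟩
    rw [hn]
    intro t ht
    rcases Finset.mem_insert.1 ht with rfl | ht
    · simp
    · rw [Finset.mem_singleton] at ht; subst ht
      exact Finset.mem_insert_of_mem hw.1

/-- The facets of the star with two triangles. -/
def fac2 (V : Finset E) (u v : E) : Finset (Finset E) :=
  (above V {u, v} 3).filter (fun F => ((tri V u v).filter (fun R => R ⊆ F)).card = 2)

theorem card_tri_le (he : ({u, v} : Finset E) ∈ faces V 1) {F : Finset E}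
    (hF : F ∈ above V {u, v} 3) : ((tri V u v).filter (fun R => R ⊆ F)).card ≤ 2 := by
  rw [mem_above] at hF
  have hd := diamond (mem_faces.1 he).1 (mem_faces.1 hF.1).1 hF.2
    (by rw [(mem_faces.1 hF.1).2, (mem_faces.1 he).2])
  rw [(mem_faces.1 he).2] at hd
  rw [← hd]
  apply Finset.card_le_card
  intro R hR
  unfold tri at hR
  rw [Finset.mem_filter, Finset.mem_filter, mem_above] at hR
  rw [Finset.mem_filter]
  exact ⟨hR.1.1.1, hR.1.1.2, hR.2⟩

theorem card_fac2 (h4 : adim V = 4) (he : ({u, v} : Finset E) ∈ faces V 1) :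
    2 * (tri V u v).card ≤ (fac2 V u v).card + (above V {u, v} 3).card := by
  -- double counting
  have h1 : ∑ F ∈ above V {u, v} 3, ((tri V u v).filter (fun R => R ⊆ F)).card
      = 2 * (tri V u v).card := by
    simp only [Finset.card_filter]
    rw [Finset.sum_comm]
    have : ∀ R ∈ tri V u v, ∑ F ∈ above V {u, v} 3, (if R ⊆ F then 1 else 0) = 2 := by
      intro R hR
      unfold tri at hR
      rw [Finset.mem_filter, mem_above] at hR
      have hRf := mem_faces.1 hR.1.1
      have hd := diamond hRf.1 (FaceSet.self ⟨u, hRf.1.2.1 (hR.1.2 (by simp))⟩) hRf.1.2.1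
        (by rw [h4, hRf.2])
      rw [hRf.2] at hd
      rw [← Finset.card_filter, ← hd]
      congr 1
      ext F
      simp only [Finset.mem_filter, mem_above]
      constructor
      · rintro ⟨⟨h1, h2⟩, h3⟩
        exact ⟨h1, h3, (mem_faces.1 h1).1.2.1⟩
      · rintro ⟨h1, h2, h3⟩
        exact ⟨⟨h1, hR.1.2.trans h2⟩, h2⟩
    rw [Finset.sum_congr rfl this, Finset.sum_const, smul_eq_mul, mul_comm]
  rw [← h1]
  have h2 : ∀ F ∈ above V {u, v} 3, ((tri V u v).filter (fun R => R ⊆ F)).card ≤
      (if ((tri V u v).filter (fun R => R ⊆ F)).card = 2 then 1 else 0) + 1 := by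
    intro F hF
    have := card_tri_le he hF
    split_ifs with h <;> omega
  refine (Finset.sum_le_sum h2).trans (le_of_eq ?_)
  rw [Finset.sum_add_distrib, Finset.sum_const, smul_eq_mul, mul_one, ← Finset.card_filter]
  rfl

/-- The third 2-face of a facet with two triangles. -/
theorem exists_third (hV : ConvPos V) (h4 : adim V = 4) (hs : SimpleFacets V)
    (he : ({u, v} : Finset E) ∈ faces V 1) {F : Finset E} (hF : F ∈ fac2 V u v) :
    ∃ R ∈ faces V 2, u ∈ R ∧ v ∉ R ∧ R ⊆ F ∧ nbr R u ⊆ nbr V u ∩ nbr V v := by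
  unfold fac2 at hF
  rw [Finset.mem_filter] at hF
  obtain ⟨hF, hc⟩ := hF
  obtain ⟨R1, R2, hne, hRR⟩ := Finset.card_eq_two.1 hc
  have hm1 : R1 ∈ (tri V u v).filter (fun R => R ⊆ F) := by rw [hRR]; simp
  have hm2 : R2 ∈ (tri V u v).filter (fun R => R ⊆ F) := by rw [hRR]; simp
  rw [Finset.mem_filter] at hm1 hm2
  obtain ⟨w1, hw1, hw1R, hn1⟩ := exists_of_mem_tri hV he hm1.1
  obtain ⟨w2, hw2, hw2R, hn2⟩ := exists_of_mem_tri hV he hm2.1
  have hT1 := hm1.1
  have hT2 := hm2.1
  unfold tri at hT1 hT2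
  rw [Finset.mem_filter, mem_above] at hT1 hT2
  have hw12 : w1 ≠ w2 := by
    rintro rfl
    exact hne (two_face_eq_of_nbr (u := u) hV hT1.1.1 hT2.1.1 (hT1.1.2 (by simp))
      (hT2.1.2 (by simp)) (by rw [hn1, hn2]))
  have hF' := mem_above.1 hF
  have hFf := mem_faces.1 hF'.1
  have huF : u ∈ F := hF'.2 (by simp)
  have hFc : ConvPos F := hV.mono hFf.1.2.1
  have hw1F : w1 ∈ nbr F u := by
    rw [nbr_face hFf.1 huF, Finset.mem_inter]
    exact ⟨hm1.2 hw1R, (Finset.mem_inter.1 hw1).1⟩
  have hw2F : w2 ∈ nbr F u := by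
    rw [nbr_face hFf.1 huF, Finset.mem_inter]
    exact ⟨hm2.2 hw2R, (Finset.mem_inter.1 hw2).1⟩
  obtain ⟨R, hR, huR, h1R, h2R⟩ := exists_two_face_of_simple hFc hFf.2 huF (hs F hF'.1 u huF)
    hw1F hw2F hw12
  rw [faces_face hFf.1, Finset.mem_filter] at hR
  have hRf := mem_faces.1 hR.1
  have h1n : w1 ∈ nbr R u := by
    rw [nbr_face hRf.1 huR, Finset.mem_inter]; exact ⟨h1R, (Finset.mem_inter.1 hw1).1⟩
  have h2n : w2 ∈ nbr R u := by
    rw [nbr_face hRf.1 huR, Finset.mem_inter]; exact ⟨h2R, (Finset.mem_inter.1 hw2).1⟩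
  have hn : nbr R u = {w1, w2} := by
    symm
    apply Finset.eq_of_subset_of_card_le
    · intro t ht
      rcases Finset.mem_insert.1 ht with rfl | ht
      · exact h1n
      · rw [Finset.mem_singleton] at ht; subst ht; exact h2n
    · rw [card_nbr_two hV hR.1 huR, Finset.card_pair hw12]
  refine ⟨R, hR.1, huR, ?_, hR.2, ?_⟩
  · intro hvR
    have huv := ne_of_edge he
    have : v ∈ nbr R u := by
      rw [nbr_face hRf.1 huR, Finset.mem_inter]
      exact ⟨hvR, mem_nbr.2 ⟨huv.symm, (mem_faces.1 he).1⟩⟩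
    rw [hn, Finset.mem_insert, Finset.mem_singleton] at this
    rcases this with h | h
    · exact (mem_nbr.1 (Finset.mem_inter.1 hw1).2).1 h.symm
    · exact (mem_nbr.1 (Finset.mem_inter.1 hw2).2).1 h.symm
  · rw [hn]
    intro t ht
    rcases Finset.mem_insert.1 ht with rfl | ht
    · exact hw1
    · rw [Finset.mem_singleton] at ht; subst ht; exact hw2

/-- All 2-faces at `u` whose neighbours of `u` are in the configuration `X`. -/
def RR (V : Finset E) (u v : E) : Finset (Finset E) :=
  (faces V 2).filter (fun R => u ∈ R ∧ nbr R u ⊆ insert v (nbr V u ∩ nbr V v))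

theorem card_RR (hV : ConvPos V) (h4 : adim V = 4) (hs : SimpleFacets V)
    (he : ({u, v} : Finset E) ∈ faces V 1) :
    (newB V {u, v} u ∩ newB V {u, v} v).card + (tri V u v).card + (fac2 V u v).card
      ≤ (RR V u v).card := by
  -- first class
  set A1 : Finset (Finset E) := (RR V u v).filter (fun R => ∀ F ∈ above V {u, v} 3, ¬ R ⊆ F) with hA1
  have hc1 : (newB V {u, v} u ∩ newB V {u, v} v).card ≤ A1.card := by
    have : newB V {u, v} u ∩ newB V {u, v} v ⊆ A1.image (fun R => nbr R u) := by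
      intro B hB
      obtain ⟨R, hR, R', hR', h1, h2⟩ := exists_of_mem_inter h4 he hB
      rw [Finset.mem_image]
      refine ⟨R, ?_, h1⟩
      rw [mem_outR] at hR
      rw [hA1, Finset.mem_filter]
      unfold RR
      rw [Finset.mem_filter]
      refine ⟨⟨hR.1, hR.2.1, ?_⟩, hR.2.2⟩
      rw [h1]
      exact (subset_of_mem_inter h4 he hB).trans (Finset.subset_insert _ _)
    exact (Finset.card_le_card this).trans Finset.card_image_le
  -- third class
  choose! g hg using fun F (hF : F ∈ fac2 V u v) => exists_third hV h4 hs he hF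
  set A3 : Finset (Finset E) := (fac2 V u v).image g with hA3
  have hc3 : A3.card = (fac2 V u v).card := by
    apply Finset.card_image_of_injOn
    intro F hF F' hF' h
    rw [Finset.mem_coe] at hF hF'
    obtain ⟨a1, a2, a3, a4, a5⟩ := hg F hF
    obtain ⟨b1, b2, b3, b4, b5⟩ := hg F' hF'
    have h' : g F = g F' := h
    rw [← h'] at b4
    unfold fac2 at hF hF'
    rw [Finset.mem_filter, mem_above] at hF hF'
    have hFf := mem_faces.1 hF.1.1
    have hFf' := mem_faces.1 hF'.1.1
    have huI : u ∈ F ∩ F' := Finset.mem_inter.2 ⟨hF.1.2 (by simp), hF'.1.2 (by simp)⟩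
    have hvI : v ∈ F ∩ F' := Finset.mem_inter.2 ⟨hF.1.2 (by simp), hF'.1.2 (by simp)⟩
    have hI : FaceSet V (F ∩ F') := hFf.1.inter hFf'.1 ⟨u, huI⟩
    have hlt : adim (g F) < adim (F ∩ F') := by
      refine (mem_faces.1 a1).1.adim_lt ?_ hI.2.1
      rw [Finset.ssubset_iff_of_subset (Finset.subset_inter a4 b4)]
      exact ⟨v, hvI, a3⟩
    rw [(mem_faces.1 a1).2] at hlt
    have e1 := hI.eq_of_adim (Finset.inter_subset_left (s₁ := F) (s₂ := F')) hFf.1.2.1
      (by rw [hFf.2]; omega)
    have e2 := hI.eq_of_adim (Finset.inter_subset_right (s₁ := F) (s₂ := F')) hFf'.1.2.1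
      (by rw [hFf'.2]; omega)
    rw [← e1, e2]
  -- disjointness
  have hd12 : Disjoint A1 (tri V u v) := by
    rw [Finset.disjoint_left]
    intro R h1 h2
    rw [hA1, Finset.mem_filter] at h1
    unfold tri at h2
    rw [Finset.mem_filter, mem_above] at h2
    exact not_both_mem h4 h2.1.1 (h2.1.2 (by simp)) (h2.1.2 (by simp)) h1.2
  have hd3 : Disjoint (A1 ∪ tri V u v) A3 := by
    rw [Finset.disjoint_left]
    intro R h1 h2
    rw [hA3, Finset.mem_image] at h2
    obtain ⟨F, hF, rfl⟩ := h2
    obtain ⟨a1, a2, a3, a4, a5⟩ := hg F hF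
    rw [Finset.mem_union] at h1
    rcases h1 with h1 | h1
    · rw [hA1, Finset.mem_filter] at h1
      unfold fac2 at hF
      rw [Finset.mem_filter] at hF
      exact h1.2 F hF.1 a4
    · unfold tri at h1
      rw [Finset.mem_filter, mem_above] at h1
      exact a3 (h1.1.2 (by simp))
  have hsub : (A1 ∪ tri V u v) ∪ A3 ⊆ RR V u v := by
    intro R hR
    rw [Finset.mem_union, Finset.mem_union] at hR
    rcases hR with (hR | hR) | hR
    · rw [hA1, Finset.mem_filter] at hR; exact hR.1
    · unfold tri at hR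
      rw [Finset.mem_filter, mem_above] at hR
      unfold RR
      rw [Finset.mem_filter]
      exact ⟨hR.1.1, hR.1.2 (by simp), hR.2⟩
    · rw [hA3, Finset.mem_image] at hR
      obtain ⟨F, hF, rfl⟩ := hR
      obtain ⟨a1, a2, a3, a4, a5⟩ := hg F hF
      unfold RR
      rw [Finset.mem_filter]
      exact ⟨a1, a2, a5.trans (Finset.subset_insert _ _)⟩
  have := Finset.card_le_card hsub
  rw [Finset.card_union_of_disjoint hd3, Finset.card_union_of_disjoint hd12, hc3] at this
  omega

end CAAux

open CAAux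

/-- The count for the common neighbours. -/
theorem card_inter_newB_le [FiniteDimensional ℝ E] (hE : finrank ℝ E = 4) (hV : ConvPos V)
    (h4 : adim V = 4) (ht : Tight V) (he : ({u, v} : Finset E) ∈ faces V 1)
    (h2 : 2 ≤ (nbr V u ∩ nbr V v).card) :
    (newB V {u, v} u ∩ newB V {u, v} v).card + 3 ≤
      3 * (badC V u v).card + (above V {u, v} 3).card := by
  have hs := ht.simpleFacets hE hV h4
  have huv := ne_of_edge he
  have hvu : v ∈ nbr V u := mem_nbr.2 ⟨huv.symm, (mem_faces.1 he).1⟩
  have huV : u ∈ V := (mem_faces.1 he).1.2.1 (by simp)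
  have hvV : v ∈ V := (mem_faces.1 he).1.2.1 (by simp)
  obtain ⟨a, ha, hau, hav⟩ := exists_apex hV u v
  set C : Finset E := nbr V u ∩ nbr V v with hC
  have huC : u ∉ C := by
    intro h
    exact (mem_nbr.1 (Finset.mem_inter.1 h).1).1 rfl
  have hvC : v ∉ C := by
    intro h
    exact (mem_nbr.1 (Finset.mem_inter.1 h).2).1 rfl
  have hCV : C ⊆ V := fun x hx => (Finset.mem_erase.1 (nbr_subset (Finset.mem_inter.1 hx).1)).2
  set X : Finset E := insert u (insert v C) with hX
  have hXc : X.card = C.card + 2 := by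
    rw [hX, Finset.card_insert_of_notMem (by simp [huv, huC]), Finset.card_insert_of_notMem hvC]
  set B1 : Finset (Finset E) := (insert v C).image (fun x => ({u, x} : Finset E)) with hB1
  set B2 : Finset (Finset E) := (RR V u v).image (fun R => nbr R u) with hB2
  have hB1c : B1.card = C.card + 1 := by
    rw [hB1, Finset.card_image_of_injOn, Finset.card_insert_of_notMem hvC]
    intro x hx y hy h
    rw [Finset.mem_coe] at hx hy
    have hxu : x ≠ u := by
      rintro rfl
      rcases Finset.mem_insert.1 hx with h | h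
      · exact huv h
      · exact huC h
    have h' : ({u, x} : Finset E) = {u, y} := h
    have : x ∈ ({u, y} : Finset E) := by rw [← h']; simp
    rw [Finset.mem_insert, Finset.mem_singleton] at this
    exact this.resolve_left hxu
  have hB2c : B2.card = (RR V u v).card := by
    rw [hB2]
    apply Finset.card_image_of_injOn
    intro R hR R' hR' h
    rw [Finset.mem_coe] at hR hR'
    unfold RR at hR hR'
    rw [Finset.mem_filter] at hR hR'
    exact two_face_eq_of_nbr hV hR.1 hR'.1 hR.2.1 hR'.2.1 h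
  have hdis : Disjoint B1 B2 := by
    rw [Finset.disjoint_left]
    intro B h1 h2
    rw [hB1, Finset.mem_image] at h1
    rw [hB2, Finset.mem_image] at h2
    obtain ⟨x, hx, rfl⟩ := h1
    obtain ⟨R, hR, h⟩ := h2
    have : u ∈ nbr R u := by rw [h]; simp
    exact (mem_nbr.1 this).1 rfl
  -- the bars
  have hbars : B1 ∪ B2 ⊆ bars V a := by
    intro B hB
    rw [Finset.mem_union] at hB
    rcases hB with hB | hB
    · rw [hB1, Finset.mem_image] at hB
      obtain ⟨x, hx, rfl⟩ := hB
      unfold bars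
      rw [Finset.mem_union]
      left
      apply edge_of_nbr hV
      rcases Finset.mem_insert.1 hx with rfl | hx
      · exact hvu
      · exact (Finset.mem_inter.1 hx).1
    · rw [hB2, Finset.mem_image] at hB
      obtain ⟨R, hR, rfl⟩ := hB
      unfold RR at hR
      rw [Finset.mem_filter] at hR
      by_cases hvR : v ∈ R
      · have hRt : R ∈ tri V u v := by
          unfold tri
          rw [Finset.mem_filter, mem_above]
          refine ⟨⟨hR.1, ?_⟩, hR.2.2⟩
          intro x hx
          rcases Finset.mem_insert.1 hx with rfl | hx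
          · exact hR.2.1
          · rw [Finset.mem_singleton] at hx; subst hx; exact hvR
        obtain ⟨w, hw, hwR, h⟩ := exists_of_mem_tri hV he hRt
        rw [h]
        unfold bars
        rw [Finset.mem_union]
        left
        exact edge_of_nbr hV (Finset.mem_inter.1 hw).2
      · exact nbr_mem_bars hV hR.1 hR.2.1 (hau R hR.1 hR.2.1 hvR)
  have hBX : ∀ B ∈ B1 ∪ B2, B ⊆ X := by
    intro B hB
    rw [Finset.mem_union] at hB
    rcases hB with hB | hB
    · rw [hB1, Finset.mem_image] at hB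
      obtain ⟨x, hx, rfl⟩ := hB
      intro t ht
      rcases Finset.mem_insert.1 ht with rfl | ht
      · simp [hX]
      · rw [Finset.mem_singleton] at ht; subst ht
        exact Finset.mem_insert_of_mem hx
    · rw [hB2, Finset.mem_image] at hB
      obtain ⟨R, hR, rfl⟩ := hB
      unfold RR at hR
      rw [Finset.mem_filter] at hR
      exact hR.2.2.trans (Finset.subset_insert _ _)
  have hXV : X ⊆ V := by
    intro t ht
    rcases Finset.mem_insert.1 ht with rfl | ht
    · exact huV
    · rcases Finset.mem_insert.1 ht with rfl | ht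
      · exact hvV
      · exact hCV ht
  have h3 : 3 ≤ adim (X \ ∅) := by
    rw [Finset.sdiff_empty]
    obtain ⟨x, hx, y, hy, hxy⟩ := Finset.one_lt_card.1 (by omega : 1 < C.card)
    have hxC := Finset.mem_inter.1 hx
    have hyC := Finset.mem_inter.1 hy
    refine (three_nbrs hV hvu hxC.1 hyC.1 (mem_nbr.1 hxC.2).1.symm (mem_nbr.1 hyC.2).1.symm hxy).trans
      (adim_mono ?_)
    intro t ht
    simp only [Finset.mem_insert, Finset.mem_singleton] at ht
    rw [hX]
    rcases ht with rfl | rfl | rfl | rfl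
    · simp
    · simp
    · exact Finset.mem_insert_of_mem (Finset.mem_insert_of_mem hx)
    · exact Finset.mem_insert_of_mem (Finset.mem_insert_of_mem hy)
  have hcount := count_stressfree hE hV h4 ha (ht.bars hE hV h4 ha) hXV hbars hBX
    (Finset.empty_subset X) h3 (by simp)
  rw [Finset.card_union_of_disjoint hdis, hB1c, hB2c, hXc, Finset.card_empty] at hcount
  have hRR := card_RR hV h4 hs he
  have hf2 := card_fac2 h4 he
  have htri := card_tri hV h4 hs he
  have hbad : (badC V u v).card + (tri V u v).card = C.card := by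
    rw [htri]
    unfold badC
    rw [← hC]
    have := Finset.card_sdiff_add_card_inter C (starV V {u, v})
    exact this
  omega

theorem badC_eq_empty [FiniteDimensional ℝ E] (hE : finrank ℝ E = 4) (hV : ConvPos V)
    (h4 : adim V = 4) (ht : Tight V) (he : ({u, v} : Finset E) ∈ faces V 1) :
    badC V u v = ∅ := by
  have hm := star_main hE hV h4 ht he
  rw [← Finset.card_eq_zero]
  by_cases h2 : 2 ≤ (nbr V u ∩ nbr V v).card
  · have h := card_inter_newB_le hE hV h4 ht he h2
    omega
  · have h0 : (newB V {u, v} u ∩ newB V {u, v} v) = ∅ := by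
      rw [Finset.eq_empty_iff_forall_notMem]
      intro B hB
      have hsub := subset_of_mem_inter h4 he hB
      obtain ⟨R, hR, R', hR', h1, h2'⟩ := exists_of_mem_inter h4 he hB
      rw [mem_outR] at hR
      have hc := card_nbr_two hV hR.1 hR.2.1
      rw [h1] at hc
      have := Finset.card_le_card hsub
      omega
    rw [h0, Finset.card_empty] at hm
    omega

/-- All three-cycles are 2-faces. -/
theorem three_cycle [FiniteDimensional ℝ E] (hE : finrank ℝ E = 4) (hV : ConvPos V)
    (h4 : adim V = 4) (ht : Tight V) {x : E} (huv : v ∈ nbr V u) (hux : x ∈ nbr V u)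
    (hvx : x ∈ nbr V v) : ({u, v, x} : Finset E) ∈ faces V 2 := by
  have hs := ht.simpleFacets hE hV h4
  have he := edge_of_nbr hV huv
  have hb := badC_eq_empty hE hV h4 ht he
  have hxS : x ∈ starV V {u, v} := by
    by_contra hcon
    have : x ∈ badC V u v := by
      unfold badC
      rw [Finset.mem_sdiff, Finset.mem_inter]
      exact ⟨⟨hux, hvx⟩, hcon⟩
    rw [hb] at this
    simp at this
  obtain ⟨R, hR, hxR⟩ := exists_above_two_of_nbr hV h4 hs he hux hxS
  have hn := nbr_eq_pair hV he hR hxR hux (mem_nbr.1 hvx).1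
  have hR' := mem_above.1 hR
  have hedge : nbr R u ∈ faces V 1 := by rw [hn]; exact edge_of_nbr hV hvx
  have := nbr_pair_mem_edges hV hR'.1 (hR'.2 (by simp)) hedge
  rw [hn] at this
  rw [← this]
  exact hR'.1

end

end Pool.Agent.FV
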