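import Pool.Agent.Lib.MP_e9c977_fv.CutGeo

/-!
# Row CU: cutting along a missing tetrahedron, counting
-/

namespace Pool.Agent.FV

open Module
open scoped Classical

noncomputable section

variable {E : Type} [NormedAddCommGroup E] [InnerProductSpace ℝ E]

namespace CUAux

/-- The upper part. -/
def up (V : Finset E) (g : E →ₗ[ℝ] ℝ) (c : ℝ) : Finset E := V.filter (fun x => c ≤ g x)

theorem mem_up {V : Finset E} {g : E →ₗ[ℝ] ℝ} {c : ℝ} {x : E} :
    x ∈ up V g c ↔ x ∈ V ∧ c ≤ g x := by
  simp [up]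

variable {V T : Finset E} {g : E →ₗ[ℝ] ℝ} {c : ℝ}

theorem up_subset : up V g c ⊆ V := Finset.filter_subset _ _

theorem T_subset_up (h : IsCut V T g c) : T ⊆ up V g c := fun x hx =>
  mem_up.2 ⟨h.subset hx, ((h.on_iff x (h.subset hx)).2 hx).ge⟩

theorem T_ne_up (h : IsCut V T g c) : T ≠ up V g c := by
  intro he
  obtain ⟨x, hx, hx'⟩ := h.hi
  have h1 : x ∈ T := by
    rw [he]
    exact mem_up.2 ⟨hx, hx'.le⟩
  exact hx'.ne' ((h.on_iff x hx).2 h1)

theorem up_ssubset (h : IsCut V T g c) : up V g c ⊂ V := by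
  refine Finset.ssubset_iff_subset_ne.2 ⟨up_subset, fun he => ?_⟩
  obtain ⟨x, hx, hx'⟩ := h.lo
  rw [← he, mem_up] at hx
  linarith [hx.2]

theorem faceSet_T (h : IsCut V T g c) : FaceSet (up V g c) T := h.faceSet_upper_T

theorem adim_up (h4 : adim V = 4) (h : IsCut V T g c) : adim (up V g c) = 4 := by
  have h1 : adim T < adim (up V g c) := (faceSet_T h).adim_lt
    (Finset.ssubset_iff_subset_ne.2 ⟨T_subset_up h, T_ne_up h⟩) subset_rfl
  have h2 : adim (up V g c) ≤ adim V := adim_mono up_subset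
  rw [h.adim_T] at h1
  omega

theorem face_iff (hV : ConvPos V) (h4 : adim V = 4) (h : IsCut V T g c) {S : Finset E}
    (hS : S ⊆ up V g c) (hne : S ≠ up V g c) (hST : S ≠ T) :
    FaceSet (up V g c) S ↔ FaceSet V S := h.faceSet_upper_iff hV h4 hS hne hST

theorem faces_up (hV : ConvPos V) (h4 : adim V = 4) (h : IsCut V T g c) {i : ℕ} (hi : i < 3) :
    faces (up V g c) i = (faces V i).filter (fun S => S ⊆ up V g c) := by
  ext S
  rw [Finset.mem_filter, mem_faces, mem_faces]
  constructor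
  · rintro ⟨h1, h2⟩
    have hne : S ≠ up V g c := by
      rintro rfl
      rw [adim_up h4 h] at h2
      omega
    have hST : S ≠ T := by
      rintro rfl
      rw [h.adim_T] at h2
      omega
    exact ⟨⟨(face_iff hV h4 h h1.2.1 hne hST).1 h1, h2⟩, h1.2.1⟩
  · rintro ⟨⟨h1, h2⟩, h3⟩
    exact ⟨h1.of_subset up_subset h3, h2⟩

theorem faces_up_three (hV : ConvPos V) (h4 : adim V = 4) (h : IsCut V T g c) :
    faces (up V g c) 3 = insert T ((faces V 3).filter (fun S => S ⊆ up V g c)) := by
  ext S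
  rw [Finset.mem_insert, Finset.mem_filter, mem_faces, mem_faces]
  constructor
  · rintro ⟨h1, h2⟩
    by_cases hST : S = T
    · exact Or.inl hST
    · have hne : S ≠ up V g c := by
        rintro rfl
        rw [adim_up h4 h] at h2
        omega
      exact Or.inr ⟨⟨(face_iff hV h4 h h1.2.1 hne hST).1 h1, h2⟩, h1.2.1⟩
  · rintro (rfl | ⟨⟨h1, h2⟩, h3⟩)
    · exact ⟨faceSet_T h, h.adim_T⟩
    · exact ⟨h1.of_subset up_subset h3, h2⟩

theorem card_faces_up_three (hV : ConvPos V) (h4 : adim V = 4) (h : IsCut V T g c) :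
    (faces (up V g c) 3).card = ((faces V 3).filter (fun S => S ⊆ up V g c)).card + 1 := by
  rw [faces_up_three hV h4 h, Finset.card_insert_of_notMem]
  intro h1
  rw [Finset.mem_filter, mem_faces] at h1
  exact h.not_face h1.1.1

theorem inter_up (h : IsCut V T g c) : up V g c ∩ up V (-g) (-c) = T := by
  ext x
  rw [Finset.mem_inter, mem_up, mem_up, LinearMap.neg_apply]
  constructor
  · rintro ⟨⟨h1, h2⟩, -, h3⟩
    exact (h.on_iff x h1).1 (by linarith)
  · intro h1
    have h2 := (h.on_iff x (h.subset h1)).2 h1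
    exact ⟨⟨h.subset h1, h2.ge⟩, h.subset h1, by linarith⟩

theorem union_up : up V g c ∪ up V (-g) (-c) = V := by
  ext x
  rw [Finset.mem_union, mem_up, mem_up, LinearMap.neg_apply]
  constructor
  · rintro (h | h)
    · exact h.1
    · exact h.1
  · intro h1
    rcases le_total c (g x) with h2 | h2
    · exact Or.inl ⟨h1, h2⟩
    · exact Or.inr ⟨h1, by linarith⟩

/-- Counting the faces on both sides. -/
theorem count (h4 : adim V = 4) (h : IsCut V T g c) {i : ℕ} (hi : i < 4) :
    ((faces V i).filter (fun S => S ⊆ up V g c)).card +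
      ((faces V i).filter (fun S => S ⊆ up V (-g) (-c))).card =
    (faces V i).card + ((faces V i).filter (fun S => S ⊆ T)).card := by
  have h1 : (faces V i).filter (fun S => S ⊆ up V g c) ∪
      (faces V i).filter (fun S => S ⊆ up V (-g) (-c)) = faces V i := by
    ext S
    rw [Finset.mem_union, Finset.mem_filter, Finset.mem_filter]
    constructor
    · rintro (h | h)
      · exact h.1
      · exact h.1
    · intro hS
      have hS' := mem_faces.1 hS
      have hne : S ≠ V := by
        rintro rfl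
        omega
      rcases h.nocross S hS'.1 hne with h2 | h2
      · refine Or.inr ⟨hS, fun x hx => mem_up.2 ⟨hS'.1.2.1 hx, ?_⟩⟩
        rw [LinearMap.neg_apply]
        linarith [h2 x hx]
      · exact Or.inl ⟨hS, fun x hx => mem_up.2 ⟨hS'.1.2.1 hx, h2 x hx⟩⟩
  have h2 : (faces V i).filter (fun S => S ⊆ up V g c) ∩
      (faces V i).filter (fun S => S ⊆ up V (-g) (-c)) =
        (faces V i).filter (fun S => S ⊆ T) := by
    ext S
    rw [Finset.mem_inter, Finset.mem_filter, Finset.mem_filter, Finset.mem_filter, ← inter_up h,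
      Finset.subset_inter_iff]
    tauto
  rw [← Finset.card_union_add_card_inter, h1, h2]

/-- The dimension of the subsets of the tetrahedron. -/
theorem adim_sub (hV : ConvPos V) (h : IsCut V T g c) {S : Finset E} (hS : S ⊆ T)
    (hne : S.Nonempty) : adim S + 1 = S.card := by
  have hc : S.card ≤ 4 := h.card_T ▸ Finset.card_le_card hS
  have hpos := hne.card_pos
  have hSV : S ⊆ V := hS.trans h.subset
  have : S.card = 1 ∨ S.card = 2 ∨ S.card = 3 ∨ S.card = 4 := by omega
  rcases this with h1 | h1 | h1 | h1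
  · obtain ⟨x, rfl⟩ := Finset.card_eq_one.1 h1
    rw [adim_singleton, h1]
  · obtain ⟨x, y, hxy, rfl⟩ := Finset.card_eq_two.1 h1
    rw [adim_pair hxy, h1]
  · obtain ⟨x, y, z, hxy, hxz, hyz, rfl⟩ := Finset.card_eq_three.1 h1
    rw [hV.adim_triple (hSV (by simp)) (hSV (by simp)) (hSV (by simp)) hxy hxz hyz, h1]
  · have h2 : S = T := Finset.eq_of_subset_of_card_le hS (by rw [h1, h.card_T])
    rw [h2, h.adim_T, h.card_T]

theorem filter_T (hV : ConvPos V) (h : IsCut V T g c) {i : ℕ} (hi : i < 3) :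
    (faces V i).filter (fun S => S ⊆ T) = T.powersetCard (i + 1) := by
  ext S
  rw [Finset.mem_filter, mem_faces, Finset.mem_powersetCard]
  constructor
  · rintro ⟨⟨h1, h2⟩, h3⟩
    refine ⟨h3, ?_⟩
    rw [← adim_sub hV h h3 h1.1, h2]
  · rintro ⟨h1, h2⟩
    have hne : S.Nonempty := Finset.card_pos.1 (by omega)
    have h3 := adim_sub hV h h1 hne
    refine ⟨⟨h.sub S (Finset.ssubset_iff_subset_ne.2 ⟨h1, ?_⟩) hne, by omega⟩, h1⟩
    rintro rfl
    rw [h.card_T] at h2
    omega

theorem filter_T_three (hV : ConvPos V) (h : IsCut V T g c) :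
    (faces V 3).filter (fun S => S ⊆ T) = ∅ := by
  ext S
  rw [Finset.mem_filter, mem_faces]
  simp only [Finset.notMem_empty, iff_false]
  rintro ⟨⟨h1, h2⟩, h3⟩
  have h4 := adim_sub hV h h3 h1.1
  have h5 : S = T := Finset.eq_of_subset_of_card_le h3 (by rw [h.card_T]; omega)
  rw [h5] at h1
  exact h.not_face h1

end CUAux

theorem exists_pieces {V T : Finset E} (hV : ConvPos V) (h4 : adim V = 4)
    (hT : Missing V T) : ∃ V₁ V₂ : Finset E, V₁ ⊂ V ∧ V₂ ⊂ V ∧ adim V₁ = 4 ∧ adim V₂ = 4 ∧
      V₁.card + V₂.card = V.card + 4 ∧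
      (faces V₁ 1).card + (faces V₂ 1).card = (faces V 1).card + 6 ∧
      (faces V₁ 2).card + (faces V₂ 2).card = (faces V 2).card + 4 ∧
      (faces V₁ 3).card + (faces V₂ 3).card = (faces V 3).card + 2 := by
  obtain ⟨g, c, h⟩ := exists_cut hV h4 hT
  have h' := h.neg
  refine ⟨CUAux.up V g c, CUAux.up V (-g) (-c), CUAux.up_ssubset h, CUAux.up_ssubset h',
    CUAux.adim_up h4 h, CUAux.adim_up h4 h', ?_, ?_, ?_, ?_⟩
  · rw [← Finset.card_union_add_card_inter, CUAux.union_up, CUAux.inter_up h, h.card_T]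
  · rw [CUAux.faces_up hV h4 h (by omega), CUAux.faces_up hV h4 h' (by omega),
      CUAux.count h4 h (by omega), CUAux.filter_T hV h (by omega), Finset.card_powersetCard,
      h.card_T]
    rfl
  · rw [CUAux.faces_up hV h4 h (by omega), CUAux.faces_up hV h4 h' (by omega),
      CUAux.count h4 h (by omega), CUAux.filter_T hV h (by omega), Finset.card_powersetCard,
      h.card_T]
    rfl
  · rw [CUAux.card_faces_up_three hV h4 h, CUAux.card_faces_up_three hV h4 h']
    have h1 := CUAux.count h4 h (i := 3) (by omega)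
    rw [CUAux.filter_T_three hV h, Finset.card_empty] at h1
    omega

end

end Pool.Agent.FV
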