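import Pool.Agent.Lib.MP_e9c977_fv.Key
import Pool.Agent.Lib.MP_e9c977_fv.Cut

/-!
# Row CL: the classification of the tight f-vectors (necessity)
-/

namespace Pool.Agent.FV

open Module
open scoped Classical

noncomputable section

variable {E : Type} [NormedAddCommGroup E] [InnerProductSpace ℝ E]

theorem Tight.classify [FiniteDimensional ℝ E] (hE : finrank ℝ E = 4) {V : Finset E}
    (hV : ConvPos V) (h4 : adim V = 4) (ht : Tight V) :
    ∃ a b : ℕ, V.card = 5 + a + 3 * b ∧ (faces V 1).card = 10 + 4 * a + 6 * b ∧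
      (faces V 2).card = 10 + 6 * a + 4 * b ∧ (faces V 3).card = 5 + 3 * a + b := by
  induction hn : V.card using Nat.strong_induction_on generalizing V with
  | _ n ih =>
    by_cases hm : ∃ T, Missing V T
    · obtain ⟨T, hT⟩ := hm
      obtain ⟨V₁, V₂, hs1, hs2, hd1, hd2, h0, h1, h2, h3⟩ := exists_pieces hV h4 hT
      have hc1 : ConvPos V₁ := hV.mono hs1.subset
      have hc2 : ConvPos V₂ := hV.mono hs2.subset
      have z1 := ziegler_ineq hE hc1 hd1
      have z2 := ziegler_ineq hE hc2 hd2
      unfold Tight at ht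
      have t1 : Tight V₁ := by unfold Tight; omega
      have t2 : Tight V₂ := by unfold Tight; omega
      obtain ⟨a1, b1, e0, e1, e2, e3⟩ :=
        ih V₁.card (hn ▸ Finset.card_lt_card hs1) hc1 hd1 t1 rfl
      obtain ⟨a2, b2, g0, g1, g2, g3⟩ :=
        ih V₂.card (hn ▸ Finset.card_lt_card hs2) hc2 hd2 t2 rfl
      exact ⟨a1 + a2 + 1, b1 + b2, by omega, by omega, by omega, by omega⟩
    · have hm' : ∀ T, ¬ Missing V T := fun T hT => hm ⟨T, hT⟩
      have h1 := sum_card_nbr hV
      rw [Finset.sum_congr rfl fun x hx => simple_of_no_missing hE hV h4 ht hm' hx,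
        Finset.sum_const, smul_eq_mul] at h1
      have h2 := euler_four hV h4
      have h3 : adim V + 1 ≤ V.card := adim_add_one_le_card (by
        rw [Finset.nonempty_iff_ne_empty]
        rintro rfl
        rw [adim, Finset.coe_empty, vectorSpan_empty, finrank_bot] at h4
        exact absurd h4 (by norm_num))
      unfold Tight at ht
      exact ⟨0, (V.card - 5) / 3, by omega, by omega, by omega, by omega⟩

end

end Pool.Agent.FV
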