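import Pool.Agent.Lib.MP_e9c977_fv.Basic

/-!
# Row LK: the link of a face

Project from the face `S`: `r x = (c - l x)⁻¹ • p (x - s)`, `p` the orthogonal projection onto the
complement of the direction of `S`, `l x ≤ c` the supporting functional of `S`.
-/

namespace Pool.Agent.FV

open Module
open scoped Classical

variable {E : Type} [NormedAddCommGroup E] [InnerProductSpace ℝ E]

/-- `r` represents the link of the face `S` of `V`: the configuration
`(V \ S).image r` has the faces of `V` above `S` as faces. -/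
structure IsLink (V S : Finset E) (r : E → E) : Prop where
  /-- faces above `S` give faces of the link -/
  face : ∀ T, FaceSet V T → S ⊂ T → FaceSet ((V \ S).image r) ((T \ S).image r)
  /-- and these are saturated -/
  sat : ∀ T, FaceSet V T → S ⊂ T → ∀ x ∈ V \ S, (r x ∈ (T \ S).image r ↔ x ∈ T)
  /-- with the right dimension -/
  dim : ∀ T, FaceSet V T → S ⊂ T → adim T = adim S + 1 + adim ((T \ S).image r)
  /-- all faces of the link arise -/
  lift : ∀ U, FaceSet ((V \ S).image r) U →
    FaceSet V (S ∪ (V \ S).filter (fun x => r x ∈ U)) ∧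
      S ⊂ (S ∪ (V \ S).filter (fun x => r x ∈ U))
  /-- functionals: linear functionals vanishing on the direction of `S` are transported up to a
  positive factor -/
  transport : ∀ x ∈ V \ S, ∃ τ : ℝ, 0 < τ ∧ ∀ g : E →ₗ[ℝ] ℝ,
    (∀ z ∈ vectorSpan ℝ (S : Set E), g z = 0) → ∀ s ∈ S, g (x - s) = τ * g (r x)
  /-- the link lies in an affine hyperplane missing the origin, in the orthogonal complement of
  the direction of `S` -/
  height : ∃ g0 : E →ₗ[ℝ] ℝ, (∀ z ∈ vectorSpan ℝ (S : Set E), g0 z = 0) ∧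
    ∀ x ∈ V \ S, g0 (r x) = 1
  perp : ∀ x ∈ V \ S, ∀ z ∈ vectorSpan ℝ (S : Set E), inner ℝ z (r x) = 0

namespace LKAux

/-- a functional constant on a set vanishes on its direction -/
theorem zero_on_span {S : Set E} {g : E →ₗ[ℝ] ℝ} {c : ℝ} (h : ∀ x ∈ S, g x = c) :
    ∀ z ∈ vectorSpan ℝ S, g z = 0 := by
  intro z hz
  rw [vectorSpan_def] at hz
  induction hz using Submodule.span_induction with
  | mem z hz =>
    obtain ⟨x, hx, y, hy, rfl⟩ := Set.mem_vsub.1 hz
    rw [vsub_eq_sub, map_sub, h x hx, h y hy, sub_self]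
  | zero => exact map_zero g
  | add x y _ _ hx hy => rw [map_add, hx, hy, add_zero]
  | smul a x _ hx => rw [map_smul, hx, smul_zero]

/-- the span of a set in an affine hyperplane missing the origin -/
theorem finrank_span_eq (W : Finset E) (hW : W.Nonempty) (g : E →ₗ[ℝ] ℝ) (hg : ∀ w ∈ W, g w = 1) :
    finrank ℝ (Submodule.span ℝ (W : Set E)) = 1 + adim W := by
  obtain ⟨w0, hw0⟩ := hW
  have hw0' : w0 ≠ 0 := by
    rintro rfl
    have := hg 0 hw0
    simp at this
  have h1 : Submodule.span ℝ (W : Set E) = Submodule.span ℝ {w0} ⊔ vectorSpan ℝ (W : Set E) := by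
    apply le_antisymm
    · rw [Submodule.span_le]
      intro w hw
      have : w = w0 + (w - w0) := by abel
      rw [SetLike.mem_coe, this]
      exact Submodule.add_mem_sup (Submodule.mem_span_singleton_self w0)
        (by rw [← vsub_eq_sub]; exact vsub_mem_vectorSpan ℝ hw hw0)
    · refine sup_le (Submodule.span_mono (by simpa using hw0)) ?_
      rw [vectorSpan_def, Submodule.span_le]
      intro z hz
      obtain ⟨x, hx, y, hy, rfl⟩ := Set.mem_vsub.1 hz
      rw [vsub_eq_sub]
      exact Submodule.sub_mem _ (Submodule.subset_span hx) (Submodule.subset_span hy)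
  have hfin : FiniteDimensional ℝ (vectorSpan ℝ (W : Set E)) :=
    finiteDimensional_vectorSpan_of_finite ℝ W.finite_toSet
  have h2 : Submodule.span ℝ {w0} ⊓ vectorSpan ℝ (W : Set E) = ⊥ := by
    rw [Submodule.eq_bot_iff]
    intro z hz
    obtain ⟨a, rfl⟩ := Submodule.mem_span_singleton.1 hz.1
    have h3 := zero_on_span (g := g) (c := 1) (S := (W : Set E)) (fun w hw => hg w hw) _ hz.2
    rw [map_smul, hg w0 hw0, smul_eq_mul, mul_one] at h3
    rw [h3, zero_smul]
  have h3 := Submodule.finrank_sup_add_finrank_inf_eq (Submodule.span ℝ {w0})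
    (vectorSpan ℝ (W : Set E))
  rw [h2, finrank_bot, add_zero, finrank_span_singleton hw0', ← h1] at h3
  exact h3

end LKAux

open LKAux in
theorem exists_link {V S : Finset E} (hS : FaceSet V S) (hSV : S ≠ V) :
    ∃ r : E → E, IsLink V S r := by
  obtain ⟨⟨s0, hs0⟩, hSsub, l, c, hle, heq⟩ := hS
  have hfin : FiniteDimensional ℝ (vectorSpan ℝ (S : Set E)) :=
    finiteDimensional_vectorSpan_of_finite ℝ S.finite_toSet
  set D : Submodule ℝ E := vectorSpan ℝ (S : Set E) with hD
  set p : E →ₗ[ℝ] E := LinearMap.id - (D.starProjection : E →ₗ[ℝ] E) with hp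
  have hpz : ∀ z, p z = z - D.starProjection z := fun z => rfl
  have hpD : ∀ z ∈ D, p z = 0 := by
    intro z hz
    rw [hpz, Submodule.starProjection_eq_self_iff.2 hz, sub_self]
  have hpsub : ∀ z, z - p z ∈ D := by
    intro z
    rw [hpz, sub_sub_cancel]
    exact Submodule.starProjection_apply_mem D z
  have hporth : ∀ z, ∀ w ∈ D, inner ℝ w (p z) = 0 := by
    intro z w hw
    rw [hpz]
    exact (Submodule.mem_orthogonal _ _).1 (Submodule.sub_starProjection_mem_orthogonal z) w hw
  have hgp : ∀ g : E →ₗ[ℝ] ℝ, (∀ z ∈ D, g z = 0) → ∀ z, g (p z) = g z := by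
    intro g hg z
    have := hg _ (hpsub z)
    rw [map_sub] at this
    linarith
  have hlS : ∀ x ∈ S, l x = c := fun x hx => (heq x (hSsub hx)).2 hx
  have hlD : ∀ z ∈ D, l z = 0 := zero_on_span hlS
  have hpos : ∀ x ∈ V \ S, 0 < c - l x := by
    intro x hx
    rw [Finset.mem_sdiff] at hx
    have h1 := hle x hx.1
    have h2 : l x ≠ c := fun h => hx.2 ((heq x hx.1).1 h)
    rcases lt_or_eq_of_le h1 with h | h
    · linarith
    · exact absurd h h2
  set r : E → E := fun x => (c - l x)⁻¹ • p (x - s0) with hr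
  have hgr : ∀ g : E →ₗ[ℝ] ℝ, (∀ z ∈ D, g z = 0) → ∀ x, g (r x) = (c - l x)⁻¹ * (g x - g s0) := by
    intro g hg x
    rw [hr]
    simp only
    rw [map_smul, hgp g hg, map_sub, smul_eq_mul]
  have htr : ∀ x ∈ V \ S, 0 < c - l x ∧ ∀ g : E →ₗ[ℝ] ℝ,
      (∀ z ∈ D, g z = 0) → ∀ s ∈ S, g (x - s) = (c - l x) * g (r x) := by
    intro x hx
    refine ⟨hpos x hx, fun g hg s hs => ?_⟩
    have h1 : g (s0 - s) = 0 := hg _ (by
      rw [← vsub_eq_sub]
      exact vsub_mem_vectorSpan ℝ hs0 hs)
    rw [map_sub] at h1 ⊢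
    rw [hgr g hg, mul_inv_cancel_left₀ (hpos x hx).ne']
    linarith
  -- the functional of a face above `S`
  have hface : ∀ T, FaceSet V T → S ⊂ T → ∃ m : E →ₗ[ℝ] ℝ, (∀ z ∈ D, m z = 0) ∧
      (∀ x ∈ V \ S, m (r x) ≤ 0) ∧ ∀ x ∈ V \ S, (m (r x) = 0 ↔ x ∈ T) := by
    intro T hT hST
    obtain ⟨-, hTV, m, d, hm1, hm2⟩ := hT
    have hmS : ∀ x ∈ S, m x = d := fun x hx => (hm2 x (hSsub hx)).2 (hST.1 hx)
    have hmD : ∀ z ∈ D, m z = 0 := zero_on_span hmS
    have key : ∀ x ∈ V \ S, m (r x) = (c - l x)⁻¹ * (m x - d) := by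
      intro x _
      rw [hgr m hmD, hmS s0 hs0]
    refine ⟨m, hmD, fun x hx => ?_, fun x hx => ?_⟩
    · rw [key x hx]
      have h1 := inv_pos.2 (hpos x hx)
      have h2 := hm1 x (Finset.mem_sdiff.1 hx).1
      nlinarith
    · rw [key x hx, mul_eq_zero, or_iff_right (inv_pos.2 (hpos x hx)).ne', sub_eq_zero]
      exact hm2 x (Finset.mem_sdiff.1 hx).1
  have hsat : ∀ T, FaceSet V T → S ⊂ T → ∀ x ∈ V \ S, (r x ∈ (T \ S).image r ↔ x ∈ T) := by
    intro T hT hST x hx
    obtain ⟨m, -, -, hm⟩ := hface T hT hST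
    constructor
    · intro h
      obtain ⟨y, hy, hyx⟩ := Finset.mem_image.1 h
      have hyV : y ∈ V \ S := Finset.mem_sdiff.2
        ⟨hT.2.1 (Finset.mem_sdiff.1 hy).1, (Finset.mem_sdiff.1 hy).2⟩
      have h1 := (hm y hyV).2 (Finset.mem_sdiff.1 hy).1
      rw [hyx] at h1
      exact (hm x hx).1 h1
    · intro h
      exact Finset.mem_image_of_mem r (Finset.mem_sdiff.2 ⟨h, (Finset.mem_sdiff.1 hx).2⟩)
  have hheight : (∀ z ∈ D, (-l) z = 0) ∧ ∀ x ∈ V \ S, (-l) (r x) = 1 := by
    refine ⟨fun z hz => by simp [hlD z hz], fun x hx => ?_⟩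
    rw [LinearMap.neg_apply, hgr l hlD, hlS s0 hs0]
    have := (hpos x hx).ne'
    field_simp
    ring
  refine ⟨r, ?_, hsat, ?_, ?_, ?_, ⟨-l, hheight⟩, ?_⟩
  · -- face
    intro T hT hST
    obtain ⟨m, -, hm1, hm2⟩ := hface T hT hST
    refine ⟨?_, Finset.image_subset_image (Finset.sdiff_subset_sdiff hT.2.1 le_rfl), m, 0, ?_, ?_⟩
    · obtain ⟨x, hxT, hxS⟩ := Finset.exists_of_ssubset hST
      exact ⟨r x, Finset.mem_image_of_mem r (Finset.mem_sdiff.2 ⟨hxT, hxS⟩)⟩
    · intro y hy
      obtain ⟨x, hx, rfl⟩ := Finset.mem_image.1 hy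
      exact hm1 x hx
    · intro y hy
      obtain ⟨x, hx, rfl⟩ := Finset.mem_image.1 hy
      rw [hsat T hT hST x hx, hm2 x hx]
  · -- dim
    intro T hT hST
    set W : Finset E := (T \ S).image r with hW
    have hTS : ∀ x ∈ T \ S, x ∈ V \ S := fun x hx => Finset.mem_sdiff.2
      ⟨hT.2.1 (Finset.mem_sdiff.1 hx).1, (Finset.mem_sdiff.1 hx).2⟩
    have hWne : W.Nonempty := by
      obtain ⟨x, hxT, hxS⟩ := Finset.exists_of_ssubset hST
      exact ⟨r x, Finset.mem_image_of_mem r (Finset.mem_sdiff.2 ⟨hxT, hxS⟩)⟩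
    have h1 := finrank_span_eq W hWne (-l) (by
      intro w hw
      obtain ⟨x, hx, rfl⟩ := Finset.mem_image.1 hw
      exact hheight.2 x (hTS x hx))
    set R : Submodule ℝ E := Submodule.span ℝ (W : Set E) with hR
    have hsup : vectorSpan ℝ (T : Set E) = D ⊔ R := by
      apply le_antisymm
      · rw [vectorSpan_eq_span_vsub_set_right ℝ (show s0 ∈ (T : Set E) from hST.1 hs0),
          Submodule.span_le]
        rintro _ ⟨x, hx, rfl⟩
        simp only [vsub_eq_sub]
        by_cases hxS : x ∈ S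
        · refine Submodule.mem_sup_left ?_
          rw [← vsub_eq_sub]
          exact vsub_mem_vectorSpan ℝ hxS hs0
        · have hx' : x ∈ T \ S := Finset.mem_sdiff.2 ⟨hx, hxS⟩
          have e : x - s0 = ((x - s0) - p (x - s0)) + (c - l x) • r x := by
            rw [hr]
            simp only
            rw [smul_smul, mul_inv_cancel₀ (hpos x (hTS x hx')).ne', one_smul]
            abel
          rw [SetLike.mem_coe, e]
          exact Submodule.add_mem_sup (hpsub _) (Submodule.smul_mem _ _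
            (Submodule.subset_span (Finset.mem_coe.2 (Finset.mem_image_of_mem r hx'))))
      · refine sup_le (vectorSpan_mono ℝ (Finset.coe_subset.2 hST.1)) ?_
        rw [hR, Submodule.span_le]
        intro w hw
        obtain ⟨x, hx, rfl⟩ := Finset.mem_image.1 (Finset.mem_coe.1 hw)
        have hxT := (Finset.mem_sdiff.1 hx).1
        have e : r x = (c - l x)⁻¹ • ((x - s0) - ((x - s0) - p (x - s0))) := by
          rw [sub_sub_cancel]
        rw [SetLike.mem_coe, e]
        refine Submodule.smul_mem _ _ (Submodule.sub_mem _ ?_ ?_)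
        · rw [← vsub_eq_sub]
          exact vsub_mem_vectorSpan ℝ hxT (hST.1 hs0)
        · exact vectorSpan_mono ℝ (Finset.coe_subset.2 hST.1) (hpsub _)
    have hfinR : FiniteDimensional ℝ R := FiniteDimensional.span_finset ℝ W
    have hinf : D ⊓ R = ⊥ := by
      rw [Submodule.eq_bot_iff]
      intro z hz
      have hRo : ∀ y ∈ R, ∀ w ∈ D, inner ℝ w y = 0 := by
        intro y hy
        rw [hR] at hy
        induction hy using Submodule.span_induction with
        | mem y hy =>
          obtain ⟨x, hx, rfl⟩ := Finset.mem_image.1 (Finset.mem_coe.1 hy)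
          intro w hw
          rw [hr]
          simp only
          rw [inner_smul_right, hporth _ w hw, mul_zero]
        | zero => intro w _; exact inner_zero_right w
        | add x y _ _ hx hy => intro w hw; rw [inner_add_right, hx w hw, hy w hw, add_zero]
        | smul a x _ hx => intro w hw; rw [inner_smul_right, hx w hw, mul_zero]
      have := hRo z hz.2 z hz.1
      exact inner_self_eq_zero.1 this
    have h3 := Submodule.finrank_sup_add_finrank_inf_eq D R
    rw [hinf, finrank_bot, add_zero, ← hsup, h1] at h3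
    have e1 : adim T = finrank ℝ (vectorSpan ℝ (T : Set E)) := rfl
    have e2 : adim S = finrank ℝ D := rfl
    rw [e1, e2, h3]
    omega
  · -- lift
    intro U hU
    obtain ⟨⟨u, hu⟩, hUsub, m', d', hm1, hm2⟩ := hU
    set m : E →ₗ[ℝ] ℝ := m'.comp p + d' • l with hm
    have hmx : ∀ x, m x = m' (p x) + d' * l x := fun x => by simp [hm]
    have hps : ∀ s ∈ S, p s = p s0 := by
      intro s hs
      have := hpD (s - s0) (by
        rw [← vsub_eq_sub]
        exact vsub_mem_vectorSpan ℝ hs hs0)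
      rw [map_sub, sub_eq_zero] at this
      exact this
    have key : ∀ x ∈ V \ S, m x - m s0 = (c - l x) * (m' (r x) - d') := by
      intro x hx
      have e : m' (r x) = (c - l x)⁻¹ * (m' (p x) - m' (p s0)) := by
        rw [hr]
        simp only
        rw [map_smul, map_sub, map_sub, smul_eq_mul]
      rw [hmx, hmx, e, hlS s0 hs0]
      have := (hpos x hx).ne'
      field_simp
      ring
    have hmS : ∀ s ∈ S, m s = m s0 := by
      intro s hs
      rw [hmx, hmx, hps s hs, hlS s hs, hlS s0 hs0]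
    have hsub : S ∪ (V \ S).filter (fun x => r x ∈ U) ⊆ V :=
      Finset.union_subset hSsub ((Finset.filter_subset _ _).trans Finset.sdiff_subset)
    refine ⟨⟨⟨s0, Finset.mem_union_left _ hs0⟩, hsub, m, m s0, ?_, ?_⟩, ?_⟩
    · intro x hx
      by_cases hxS : x ∈ S
      · exact (hmS x hxS).le
      · have hx' : x ∈ V \ S := Finset.mem_sdiff.2 ⟨hx, hxS⟩
        have h1 := key x hx'
        have h2 := hm1 (r x) (Finset.mem_image_of_mem r hx')
        nlinarith [hpos x hx']
    · intro x hx
      by_cases hxS : x ∈ S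
      · exact ⟨fun _ => Finset.mem_union_left _ hxS, fun _ => hmS x hxS⟩
      · have hx' : x ∈ V \ S := Finset.mem_sdiff.2 ⟨hx, hxS⟩
        have h1 := key x hx'
        have h2 : m x = m s0 ↔ m' (r x) = d' := by
          rw [← sub_eq_zero, h1, mul_eq_zero, or_iff_right (hpos x hx').ne', sub_eq_zero]
        rw [h2, hm2 (r x) (Finset.mem_image_of_mem r hx'), Finset.mem_union, Finset.mem_filter]
        constructor
        · intro h
          exact Or.inr ⟨hx', h⟩
        · rintro (h | h)
          · exact absurd h hxS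
          · exact h.2
    · rw [Finset.ssubset_iff_of_subset Finset.subset_union_left]
      obtain ⟨x, hx, hxu⟩ := Finset.mem_image.1 (hUsub hu)
      refine ⟨x, Finset.mem_union_right _ (Finset.mem_filter.2 ⟨hx, by rw [hxu]; exact hu⟩),
        (Finset.mem_sdiff.1 hx).2⟩
  · -- transport
    intro x hx
    exact ⟨c - l x, htr x hx⟩
  · -- perp
    intro x _ z hz
    rw [hr]
    simp only
    rw [inner_smul_right, hporth _ z hz, mul_zero]

end Pool.Agent.FV
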