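import Pool.Agent.Lib.MP_e9c977_fv.Verts
import Pool.Agent.Lib.MP_e9c977_fv.Link

/-!
# Row CO: the face lattice (all from the link)
-/

namespace Pool.Agent.FV

open Module
open scoped Classical

variable {E : Type} [NormedAddCommGroup E] [InnerProductSpace ℝ E]

namespace COAux

/-- The face of `V` above `S` given by the point `w` of the link. -/
noncomputable def fc (V S : Finset E) (r : E → E) (w : E) : Finset E :=
  S ∪ (V \ S).filter (fun x => r x ∈ ({w} : Finset E))

theorem fc_image {V S : Finset E} {r : E → E} {w : E} (hw : w ∈ (V \ S).image r) :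
    (fc V S r w \ S).image r = {w} := by
  ext z
  rw [Finset.mem_image, Finset.mem_singleton]
  constructor
  · rintro ⟨x, hx, rfl⟩
    rw [fc, Finset.mem_sdiff, Finset.mem_union, Finset.mem_filter, Finset.mem_singleton] at hx
    tauto
  · rintro rfl
    obtain ⟨x, hx, rfl⟩ := Finset.mem_image.1 hw
    refine ⟨x, ?_, rfl⟩
    rw [fc, Finset.mem_sdiff, Finset.mem_union, Finset.mem_filter, Finset.mem_singleton]
    exact ⟨Or.inr ⟨hx, rfl⟩, (Finset.mem_sdiff.1 hx).2⟩

theorem fc_mem {V S : Finset E} {r : E → E} (hr : IsLink V S r) {w : E}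
    (hw : w ∈ verts ((V \ S).image r)) : fc V S r w ∈ faces V (adim S + 1) ∧ S ⊂ fc V S r w := by
  rw [mem_verts] at hw
  obtain ⟨h1, h2⟩ := hr.lift _ hw
  have h3 : w ∈ (V \ S).image r := hw.2.1 (by simp)
  refine ⟨mem_faces.2 ⟨h1, ?_⟩, h2⟩
  have h4 := hr.dim _ h1 h2
  have h5 : (fc V S r w \ S).image r = {w} := fc_image h3
  have h6 : adim (fc V S r w) = adim S + 1 + adim ((fc V S r w \ S).image r) := h4
  rw [h5, adim_singleton] at h6
  exact h6

theorem exists_mem_fc {V S : Finset E} {r : E → E} {w : E} (hw : w ∈ (V \ S).image r) :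
    ∃ x ∈ V \ S, x ∈ fc V S r w ∧ r x = w := by
  obtain ⟨x, hx, rfl⟩ := Finset.mem_image.1 hw
  refine ⟨x, hx, ?_, rfl⟩
  rw [fc, Finset.mem_union, Finset.mem_filter, Finset.mem_singleton]
  exact Or.inr ⟨hx, rfl⟩

theorem exists_eq_fc {V S : Finset E} {r : E → E} (hr : IsLink V S r) {T : Finset E}
    (hT : T ∈ faces V (adim S + 1)) (hST : S ⊆ T) :
    ∃ w ∈ verts ((V \ S).image r), T = fc V S r w := by
  rw [mem_faces] at hT
  have hss : S ⊂ T := lt_of_le_of_ne hST (by
    rintro rfl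
    omega)
  have h1 := hr.face T hT.1 hss
  have h2 := hr.dim T hT.1 hss
  have h3 : adim ((T \ S).image r) = 0 := by omega
  obtain ⟨w, hw⟩ := (adim_eq_zero_iff h1.1).1 h3
  rw [hw] at h1
  refine ⟨w, mem_verts.2 h1, ?_⟩
  have h4 := hr.sat T hT.1 hss
  ext x
  rw [fc, Finset.mem_union, Finset.mem_filter, ← hw]
  constructor
  · intro hx
    by_cases hxS : x ∈ S
    · exact Or.inl hxS
    · have h5 : x ∈ V \ S := Finset.mem_sdiff.2 ⟨hT.1.2.1 hx, hxS⟩
      exact Or.inr ⟨h5, (h4 x h5).2 hx⟩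
  · rintro (hx | ⟨hx, hx'⟩)
    · exact hST hx
    · exact (h4 x hx).1 hx'

theorem link_nonempty {V S : Finset E} (hS : FaceSet V S) (hSV : S ≠ V) (r : E → E) :
    ((V \ S).image r).Nonempty := by
  obtain ⟨x, hx, hxS⟩ := Finset.exists_of_ssubset (lt_of_le_of_ne hS.2.1 hSV)
  exact ⟨r x, Finset.mem_image_of_mem _ (Finset.mem_sdiff.2 ⟨hx, hxS⟩)⟩

/-- Functionals vanishing on the direction of `S` which are nonpositive on the faces just above
`S` are nonpositive. -/
theorem main {V S : Finset E} (hS : FaceSet V S) (hSV : S ≠ V) (g : E →ₗ[ℝ] ℝ)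
    (hg : ∀ z ∈ vectorSpan ℝ (S : Set E), g z = 0)
    (h : ∀ T ∈ faces V (adim S + 1), S ⊆ T → ∀ x ∈ T, ∀ s ∈ S, g (x - s) ≤ 0) :
    ∀ x ∈ V, ∀ s ∈ S, g (x - s) ≤ 0 := by
  obtain ⟨r, hr⟩ := exists_link hS hSV
  intro x hx s hs
  by_cases hxS : x ∈ S
  · exact (hg _ (vsub_mem_vectorSpan ℝ hxS hs)).le
  have h1 : ∀ w ∈ verts ((V \ S).image r), g w ≤ 0 := by
    intro w hw
    obtain ⟨x', hx', hx'T, rfl⟩ := exists_mem_fc (verts_subset _ hw)
    obtain ⟨h2, h3⟩ := fc_mem hr hw
    have h4 := h _ h2 h3.1 x' hx'T s hs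
    obtain ⟨τ, hτ, h5⟩ := hr.transport x' hx'
    rw [h5 g hg s hs] at h4
    by_contra hcon
    push Not at hcon
    have := mul_pos hτ hcon
    linarith
  have h2 := le_of_verts g h1 (r x) (Finset.mem_image_of_mem _ (Finset.mem_sdiff.2 ⟨hx, hxS⟩))
  obtain ⟨τ, hτ, h5⟩ := hr.transport x (Finset.mem_sdiff.2 ⟨hx, hxS⟩)
  rw [h5 g hg s hs]
  exact mul_nonpos_of_nonneg_of_nonpos hτ.le h2

end COAux

open COAux

theorem exists_face_above {V S : Finset E} (hS : FaceSet V S) (hSV : S ≠ V) :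
    ∃ T ∈ faces V (adim S + 1), S ⊂ T := by
  obtain ⟨r, hr⟩ := exists_link hS hSV
  obtain ⟨w, hw⟩ := verts_nonempty (link_nonempty hS hSV r)
  exact ⟨_, (fc_mem hr hw).1, (fc_mem hr hw).2⟩

/-- Between `S` and `T` there is a face of dimension one less than `T`. -/
theorem exists_face_below {V S : Finset E} (hS : FaceSet V S) (hSV : S ≠ V) :
    ∃ T, FaceSet V T ∧ S ⊆ T ∧ adim T + 1 = adim V := by
  have key : ∀ n : ℕ, ∀ S : Finset E, FaceSet V S → S ≠ V → adim V - adim S ≤ n →
      ∃ T, FaceSet V T ∧ S ⊆ T ∧ adim T + 1 = adim V := by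
    intro n
    induction n with
    | zero =>
      intro S hS hSV hn
      have := hS.adim_lt (lt_of_le_of_ne hS.2.1 hSV) subset_rfl
      omega
    | succ n ih =>
      intro S hS hSV hn
      obtain ⟨T, hT, hST⟩ := exists_face_above hS hSV
      rw [mem_faces] at hT
      by_cases hTV : T = V
      · exact ⟨S, hS, subset_rfl, by rw [← hTV, hT.2]⟩
      · obtain ⟨T', h1, h2, h3⟩ := ih T hT.1 hTV (by omega)
        exact ⟨T', h1, hST.1.trans h2, h3⟩
  exact key _ S hS hSV le_rfl

/-- The diamond property. -/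
theorem diamond {V S T : Finset E} (hS : FaceSet V S) (hT : FaceSet V T) (hST : S ⊆ T)
    (hd : adim T = adim S + 2) :
    ((faces V (adim S + 1)).filter (fun R => S ⊆ R ∧ R ⊆ T)).card = 2 := by
  have hS' : FaceSet T S := hS.of_subset hT.2.1 hST
  have hne : S ≠ T := by
    rintro rfl
    omega
  obtain ⟨r, hr⟩ := exists_link hS' hne
  have hss : S ⊂ T := lt_of_le_of_ne hST hne
  have h1 := hr.dim T (FaceSet.self hT.1) hss
  have h2 : adim ((T \ S).image r) = 1 := by omega
  have h3 := card_verts_of_adim_one h2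
  have h4 : (faces V (adim S + 1)).filter (fun R => S ⊆ R ∧ R ⊆ T) =
      (verts ((T \ S).image r)).image (fc T S r) := by
    ext R
    rw [Finset.mem_filter, Finset.mem_image]
    constructor
    · rintro ⟨h5, h6, h7⟩
      have h8 : R ∈ faces T (adim S + 1) := by
        rw [faces_face hT, Finset.mem_filter]
        exact ⟨h5, h7⟩
      obtain ⟨w, hw, rfl⟩ := exists_eq_fc hr h8 h6
      exact ⟨w, hw, rfl⟩
    · rintro ⟨w, hw, rfl⟩
      obtain ⟨h5, h6⟩ := fc_mem hr hw
      rw [faces_face hT, Finset.mem_filter] at h5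
      exact ⟨h5.1, h6.1, h5.2⟩
  rw [h4, Finset.card_image_of_injOn, h3]
  intro w hw w' hw' he
  have h5 := fc_image (verts_subset _ hw)
  have h6 := fc_image (verts_subset _ hw')
  have he' : fc T S r w = fc T S r w' := he
  rw [he', h6] at h5
  exact (Finset.singleton_injective h5).symm

/-- The faces just above `S` span. -/
theorem span_above {V S : Finset E} (hS : FaceSet V S) (hSV : S ≠ V) (W : Submodule ℝ E)
    (h : ∀ T ∈ faces V (adim S + 1), S ⊆ T → vectorSpan ℝ (T : Set E) ≤ W) :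
    vectorSpan ℝ (V : Set E) ≤ W := by
  obtain ⟨s, hs⟩ := hS.1
  have hsV : s ∈ V := hS.2.1 hs
  have hSW : vectorSpan ℝ (S : Set E) ≤ W := by
    obtain ⟨T, hT, hST⟩ := exists_face_above hS hSV
    exact (vectorSpan_mono ℝ (Finset.coe_subset.2 hST.1)).trans (h T hT hST.1)
  rw [vectorSpan_eq_span_vsub_set_right ℝ (show s ∈ (V : Set E) from hsV), Submodule.span_le]
  rintro _ ⟨x, hx, rfl⟩
  change x - s ∈ W
  by_contra hcon
  obtain ⟨g, hg1, hg2⟩ := Submodule.exists_le_ker_of_notMem hcon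
  have hgW : ∀ z ∈ W, g z = 0 := fun z hz => hg2 hz
  have h1 : ∀ g' : E →ₗ[ℝ] ℝ, (∀ z ∈ W, g' z = 0) → g' (x - s) ≤ 0 := by
    intro g' hg'
    refine main hS hSV g' (fun z hz => hg' z (hSW hz)) ?_ x hx s hs
    intro T hT hST y hy s' hs'
    exact (hg' _ (h T hT hST (vsub_mem_vectorSpan ℝ hy (hST hs')))).le
  have h2 := h1 g hgW
  have h3 := h1 (-g) (fun z hz => by simp [hgW z hz])
  rw [LinearMap.neg_apply] at h3
  exact hg1 (by linarith)

/-- A linear functional constant on `S` which is at most that constant on all faces just above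
`S` is so everywhere. -/
theorem le_of_above {V S : Finset E} (hS : FaceSet V S) (hSV : S ≠ V) (l : E →ₗ[ℝ] ℝ) {c : ℝ}
    (hc : ∀ x ∈ S, l x = c)
    (h : ∀ T ∈ faces V (adim S + 1), S ⊆ T → ∀ x ∈ T, l x ≤ c) : ∀ x ∈ V, l x ≤ c := by
  intro x hx
  obtain ⟨s, hs⟩ := hS.1
  have hg : ∀ z ∈ vectorSpan ℝ (S : Set E), l z = 0 := by
    have h1 : vectorSpan ℝ (S : Set E) ≤ LinearMap.ker l := by
      rw [vectorSpan_eq_span_vsub_set_right ℝ (show s ∈ (S : Set E) from hs), Submodule.span_le]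
      rintro _ ⟨y, hy, rfl⟩
      change l (y - s) = 0
      rw [map_sub, hc y hy, hc s hs, sub_self]
    exact fun z hz => h1 hz
  have h1 := main hS hSV l hg (fun T hT hST y hy s' hs' => by
    rw [map_sub, hc s' hs']
    linarith [h T hT hST y hy]) x hx s hs
  rw [map_sub, hc s hs] at h1
  linarith

/-- A point of a configuration of dimension `d` has a flag: in particular, every face `S` is
contained in a face of every dimension from `adim S` to `adim V`. -/
theorem exists_face_between {V S : Finset E} (hS : FaceSet V S) {i : ℕ} (h1 : adim S ≤ i)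
    (h2 : i ≤ adim V) : ∃ T ∈ faces V i, S ⊆ T := by
  induction i, h1 using Nat.le_induction with
  | base => exact ⟨S, mem_faces.2 ⟨hS, rfl⟩, subset_rfl⟩
  | succ i hi ih =>
    obtain ⟨T, hT, hST⟩ := ih (by omega)
    rw [mem_faces] at hT
    obtain ⟨T', hT', hTT'⟩ := exists_face_above hT.1 (by
      rintro rfl
      omega)
    rw [hT.2] at hT'
    exact ⟨T', hT', hST.trans hTT'.1⟩

/-- A face is the intersection of the faces of codimension one containing it. -/
theorem mem_of_forall_facet {V S : Finset E} (hS : FaceSet V S) {x : E} (hx : x ∈ V)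
    (h : ∀ F, FaceSet V F → adim F + 1 = adim V → S ⊆ F → x ∈ F) : x ∈ S := by
  have key : ∀ n : ℕ, ∀ S : Finset E, FaceSet V S → adim V - adim S ≤ n →
      (∀ F, FaceSet V F → adim F + 1 = adim V → S ⊆ F → x ∈ F) → x ∈ S := by
    intro n
    induction n with
    | zero =>
      intro S hS hn _
      have : S = V := hS.eq_of_adim hS.2.1 subset_rfl (by omega)
      rwa [this]
    | succ n ih =>
      intro S hS hn h
      by_cases hSV : S = V
      · rwa [hSV]
      have hlt := hS.adim_lt (lt_of_le_of_ne hS.2.1 hSV) subset_rfl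
      by_cases h1 : adim V = adim S + 1
      · exact h S hS h1.symm subset_rfl
      obtain ⟨T, hT, hST⟩ := exists_face_between hS (show adim S ≤ adim S + 2 by omega) (by omega)
      rw [mem_faces] at hT
      have h2 := diamond hS hT.1 hST hT.2
      obtain ⟨R1, R2, hne, he⟩ := Finset.card_eq_two.1 h2
      have hR1 : R1 ∈ (faces V (adim S + 1)).filter (fun R => S ⊆ R ∧ R ⊆ T) := by
        rw [he]
        simp
      have hR2 : R2 ∈ (faces V (adim S + 1)).filter (fun R => S ⊆ R ∧ R ⊆ T) := by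
        rw [he]
        simp
      rw [Finset.mem_filter, mem_faces] at hR1 hR2
      have hx1 : x ∈ R1 := ih R1 hR1.1.1 (by omega)
        (fun F hF hF' hRF => h F hF hF' (hR1.2.1.trans hRF))
      have hx2 : x ∈ R2 := ih R2 hR2.1.1 (by omega)
        (fun F hF hF' hRF => h F hF hF' (hR2.2.1.trans hRF))
      have hSR : S ⊆ R1 ∩ R2 := Finset.subset_inter hR1.2.1 hR2.2.1
      have hI : FaceSet V (R1 ∩ R2) := hR1.1.1.inter hR2.1.1 (hS.1.mono hSR)
      have hIR : R1 ∩ R2 ⊂ R1 := by
        refine lt_of_le_of_ne Finset.inter_subset_left (fun he' => hne ?_)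
        refine hR1.1.1.eq_of_adim ?_ hR2.1.1.2.1 (by omega)
        rw [← he']
        exact Finset.inter_subset_right
      have h3 := hI.adim_lt hIR hR1.1.1.2.1
      have h4 : S = R1 ∩ R2 := hS.eq_of_adim hSR hI.2.1 (by omega)
      rw [h4]
      exact Finset.mem_inter.2 ⟨hx1, hx2⟩
  exact key _ S hS le_rfl h

end Pool.Agent.FV
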