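import Pool.Agent.Lib.MP_e9c977_fv.Defs

/-!
# Sets of integer vectors defined by polynomial inequalities and congruences
-/

namespace Pool.Agent.FV

open scoped Classical

/-- The sets of integer vectors which are finite Boolean combinations of polynomial inequalities
(with real coefficients) and congruences. -/
inductive SemialgCong (d : ℕ) : Set (Fin d → ℤ) → Prop
  | pos (p : MvPolynomial (Fin d) ℝ) :
      SemialgCong d {x | 0 < MvPolynomial.eval (fun i => (x i : ℝ)) p}
  | cong (i : Fin d) (m : ℕ) (hm : 0 < m) (r : ℤ) : SemialgCong d {x | (m : ℤ) ∣ x i - r}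
  | compl {S : Set (Fin d → ℤ)} : SemialgCong d S → SemialgCong d Sᶜ
  | inter {S T : Set (Fin d → ℤ)} : SemialgCong d S → SemialgCong d T → SemialgCong d (S ∩ T)

/-- the polynomial of `p` along a line -/
private theorem exists_line_poly {d : ℕ} (p : MvPolynomial (Fin d) ℝ) (v w : Fin d → ℝ) :
    ∃ P : Polynomial ℝ, P.natDegree ≤ p.totalDegree ∧
      ∀ t : ℝ, P.eval t = MvPolynomial.eval (fun i => v i + t * w i) p := by
  refine ⟨MvPolynomial.aeval (fun i => Polynomial.C (v i) + Polynomial.X * Polynomial.C (w i)) p,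
    ?_, ?_⟩
  · have h := MvPolynomial.aeval_natDegree_le p le_rfl
      (fun i => Polynomial.C (v i) + Polynomial.X * Polynomial.C (w i)) (n := 1) (by
        intro i
        refine le_trans (Polynomial.natDegree_add_le _ _) ?_
        rw [Polynomial.natDegree_C]
        refine max_le (Nat.zero_le _) ?_
        refine le_trans Polynomial.natDegree_mul_le ?_
        simp)
    simpa using h
  · intro t
    have h1 : (Polynomial.evalRingHom t).comp
        (MvPolynomial.aeval (R := ℝ)
          (fun i => Polynomial.C (v i) + Polynomial.X * Polynomial.C (w i))).toRingHom =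
        MvPolynomial.eval (fun i => v i + t * w i) := by
      apply MvPolynomial.ringHom_ext
      · intro r
        simp
      · intro i
        simp
        ring
    have h2 := congrArg (fun f : MvPolynomial (Fin d) ℝ →+* ℝ => f p) h1
    simpa using h2

private theorem card_le_roots (P : Polynomial ℝ) (hP : P ≠ 0) (m : ℕ) (t : ℕ → ℝ)
    (ht : ∀ i j, i < j → j ≤ m → t i < t j) (C : Finset ℕ) (hC : ∀ i ∈ C, i < m)
    (hpar : ∀ i ∈ C, ∀ j ∈ C, i < j → i + 2 ≤ j)
    (r : ℕ → ℝ) (hr : ∀ i ∈ C, P.eval (r i) = 0 ∧ t i ≤ r i ∧ r i ≤ t (i + 1)) :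
    C.card ≤ P.natDegree := by
  have h1 : C.card ≤ P.roots.toFinset.card := by
    apply Finset.card_le_card_of_injOn r
    · intro i hi
      have hi' : i ∈ C := hi
      simp only [Finset.mem_coe, Multiset.mem_toFinset]
      rw [Polynomial.mem_roots hP]
      exact (hr i hi').1
    · have key : ∀ i ∈ C, ∀ j ∈ C, i < j → r i < r j := by
        intro i hi j hj hij
        have h2 := hpar i hi j hj hij
        have h3 : t (i + 1) < t j := ht _ _ (by omega) (le_of_lt (hC j hj))
        linarith [(hr i hi).2.2, (hr j hj).2.1]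
      intro i hi j hj hij
      have hi' : i ∈ C := hi
      have hj' : j ∈ C := hj
      rcases lt_trichotomy i j with h | h | h
      · exact absurd hij (ne_of_lt (key i hi' j hj' h))
      · exact h
      · exact absurd hij.symm (ne_of_lt (key j hj' i hi' h))
  exact h1.trans ((Multiset.toFinset_card_le _).trans (Polynomial.card_roots' P))

private theorem exists_root_between (P : Polynomial ℝ) {a b : ℝ} (hab : a ≤ b)
    (h : ¬ (0 < P.eval a ↔ 0 < P.eval b)) : ∃ r, P.eval r = 0 ∧ a ≤ r ∧ r ≤ b := by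
  have hc : ContinuousOn (fun x => P.eval x) (Set.Icc a b) := P.continuous.continuousOn
  by_cases ha : 0 < P.eval a
  · have hb : P.eval b ≤ 0 := by
      by_contra hb
      exact h ⟨fun _ => not_le.1 hb, fun _ => ha⟩
    obtain ⟨r, hr, hr0⟩ := intermediate_value_Icc' hab hc ⟨hb, le_of_lt ha⟩
    exact ⟨r, hr0, hr.1, hr.2⟩
  · have hb : 0 < P.eval b := by
      by_contra hb
      exact h ⟨fun h' => absurd h' ha, fun h' => absurd h' hb⟩
    obtain ⟨r, hr, hr0⟩ := intermediate_value_Icc hab hc ⟨not_lt.1 ha, le_of_lt hb⟩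
    exact ⟨r, hr0, hr.1, hr.2⟩

/-- the indices `i < m` at which membership of the points `x i` in `S` changes -/
private noncomputable def chg {d : ℕ} (S : Set (Fin d → ℤ)) (x : ℕ → (Fin d → ℤ)) (m : ℕ) :
    Finset ℕ :=
  (Finset.range m).filter fun i => ¬ (x i ∈ S ↔ x (i + 1) ∈ S)

private theorem mem_chg {d : ℕ} (S : Set (Fin d → ℤ)) (x : ℕ → (Fin d → ℤ)) (m i : ℕ) :
    i ∈ chg S x m ↔ i < m ∧ ¬ (x i ∈ S ↔ x (i + 1) ∈ S) := by
  simp only [chg, Finset.mem_filter, Finset.mem_range]

private theorem chg_bound {d : ℕ} {S : Set (Fin d → ℤ)} (hS : SemialgCong d S) :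
    ∃ K M : ℕ, 0 < M ∧ ∀ (v w : Fin d → ℝ) (m : ℕ) (t : ℕ → ℝ) (z : ℕ → Fin d → ℤ),
      (∀ i j, i < j → j ≤ m → t i < t j) →
      (∀ i ≤ m, ∀ k, (z i k : ℝ) = v k + t i * w k) →
      (∀ i < m, ∀ k, (M : ℤ) ∣ z i k - z (i + 1) k) →
      (chg S z m).card ≤ K := by
  induction hS with
  | pos p =>
    refine ⟨2 * p.totalDegree, 1, Nat.one_pos, ?_⟩
    intro v w m t z ht hz _
    obtain ⟨P, hdeg, hP⟩ := exists_line_poly p v w
    set C := chg {x : Fin d → ℤ | 0 < MvPolynomial.eval (fun i => (x i : ℝ)) p} z m with hC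
    have hmem : ∀ i ∈ C, i < m ∧ ¬ (0 < P.eval (t i) ↔ 0 < P.eval (t (i + 1))) := by
      intro i hi
      rw [hC, mem_chg] at hi
      refine ⟨hi.1, ?_⟩
      have e1 : (fun k => (z i k : ℝ)) = fun k => v k + t i * w k :=
        funext (hz i (le_of_lt hi.1))
      have e2 : (fun k => (z (i + 1) k : ℝ)) = fun k => v k + t (i + 1) * w k :=
        funext (hz (i + 1) hi.1)
      rw [hP, hP, ← e1, ← e2]
      exact hi.2
    by_cases hP0 : P = 0
    · have : C = ∅ := by
        rw [Finset.eq_empty_iff_forall_notMem]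
        intro i hi
        exact (hmem i hi).2 (by rw [hP0]; simp)
      rw [this]
      simp
    have hex : ∀ i : ℕ, ∃ r : ℝ, i ∈ C → P.eval r = 0 ∧ t i ≤ r ∧ r ≤ t (i + 1) := by
      intro i
      by_cases hi : i ∈ C
      · obtain ⟨h1, h2⟩ := hmem i hi
        obtain ⟨r, hr⟩ := exists_root_between P (le_of_lt (ht i (i + 1) (Nat.lt_succ_self i) h1)) h2
        exact ⟨r, fun _ => hr⟩
      · exact ⟨0, fun h => absurd h hi⟩
    choose r hr using hex
    have h1 : (C.filter Even).card ≤ P.natDegree := by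
      refine card_le_roots P hP0 m t ht _ (fun i hi => (hmem i (Finset.mem_filter.1 hi).1).1) ?_ r
        (fun i hi => hr i (Finset.mem_filter.1 hi).1)
      intro i hi j hj hij
      obtain ⟨a, ha⟩ := (Finset.mem_filter.1 hi).2
      obtain ⟨b, hb⟩ := (Finset.mem_filter.1 hj).2
      omega
    have h2 : (C.filter fun i => ¬ Even i).card ≤ P.natDegree := by
      refine card_le_roots P hP0 m t ht _ (fun i hi => (hmem i (Finset.mem_filter.1 hi).1).1) ?_ r
        (fun i hi => hr i (Finset.mem_filter.1 hi).1)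
      intro i hi j hj hij
      obtain ⟨a, ha⟩ := Nat.not_even_iff_odd.1 (Finset.mem_filter.1 hi).2
      obtain ⟨b, hb⟩ := Nat.not_even_iff_odd.1 (Finset.mem_filter.1 hj).2
      omega
    have h3 : C.card ≤ (C.filter Even).card + (C.filter fun i => ¬ Even i).card := by
      refine le_trans (Finset.card_le_card ?_) (Finset.card_union_le _ _)
      intro i hi
      rw [Finset.mem_union, Finset.mem_filter, Finset.mem_filter]
      by_cases he : Even i
      · exact Or.inl ⟨hi, he⟩
      · exact Or.inr ⟨hi, he⟩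
    omega
  | cong k0 m0 hm0 r =>
    refine ⟨0, m0, hm0, ?_⟩
    intro v w m t z _ _ hd
    rw [Nat.le_zero, Finset.card_eq_zero, Finset.eq_empty_iff_forall_notMem]
    intro i hi
    rw [mem_chg] at hi
    apply hi.2
    have h1 := hd i hi.1 k0
    constructor
    · intro h
      have h' : (m0 : ℤ) ∣ z i k0 - r := h
      have h2 : (m0 : ℤ) ∣ (z i k0 - r) - (z i k0 - z (i + 1) k0) := dvd_sub h' h1
      have h3 : (z i k0 - r) - (z i k0 - z (i + 1) k0) = z (i + 1) k0 - r := by ring
      rw [h3] at h2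
      exact h2
    · intro h
      have h' : (m0 : ℤ) ∣ z (i + 1) k0 - r := h
      have h2 : (m0 : ℤ) ∣ (z (i + 1) k0 - r) + (z i k0 - z (i + 1) k0) := dvd_add h' h1
      have h3 : (z (i + 1) k0 - r) + (z i k0 - z (i + 1) k0) = z i k0 - r := by ring
      rw [h3] at h2
      exact h2
  | @compl S _ ih =>
    obtain ⟨K, M, hM, hK⟩ := ih
    refine ⟨K, M, hM, ?_⟩
    intro v w m t z ht hz hd
    refine le_trans (Finset.card_le_card ?_) (hK v w m t z ht hz hd)
    intro i hi
    rw [mem_chg] at hi ⊢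
    refine ⟨hi.1, ?_⟩
    intro h
    exact hi.2 (not_congr h)
  | @inter S T _ _ ih1 ih2 =>
    obtain ⟨K1, M1, hM1, hK1⟩ := ih1
    obtain ⟨K2, M2, hM2, hK2⟩ := ih2
    refine ⟨K1 + K2, M1 * M2, Nat.mul_pos hM1 hM2, ?_⟩
    intro v w m t z ht hz hd
    have hd1 : ∀ i < m, ∀ k, (M1 : ℤ) ∣ z i k - z (i + 1) k := fun i hi k =>
      (Dvd.intro _ (by push_cast; rfl)).trans (hd i hi k)
    have hd2 : ∀ i < m, ∀ k, (M2 : ℤ) ∣ z i k - z (i + 1) k := fun i hi k =>
      (Dvd.intro_left _ (by push_cast; rfl)).trans (hd i hi k)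
    refine le_trans ?_ (Nat.add_le_add (hK1 v w m t z ht hz hd1) (hK2 v w m t z ht hz hd2))
    refine le_trans (Finset.card_le_card ?_) (Finset.card_union_le _ _)
    intro i hi
    rw [mem_chg] at hi
    rw [Finset.mem_union, mem_chg, mem_chg]
    by_contra hcon
    push Not at hcon
    exact hi.2 (and_congr (hcon.1 hi.1) (hcon.2 hi.1))

/-- Along lines, and along integer points congruent modulo a suitable number, membership in a
set defined by polynomial inequalities and congruences changes a bounded number of times. -/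
theorem SemialgCong.alternation {d : ℕ} {S : Set (Fin d → ℤ)} (hS : SemialgCong d S) :
    ∃ K M : ℕ, 0 < M ∧ ∀ (v w : Fin d → ℝ) (m : ℕ) (t : ℕ → ℝ) (z : ℕ → Fin d → ℤ),
      (∀ i j, i < j → j ≤ m → t i < t j) →
      (∀ i ≤ m, ∀ k, (z i k : ℝ) = v k + t i * w k) →
      (∀ i < m, ∀ k, (M : ℤ) ∣ z i k - z (i + 1) k) →
      (∀ i ≤ m, (z i ∈ S ↔ Even i)) → m ≤ K := by
  obtain ⟨K, M, hM, hK⟩ := chg_bound hS
  refine ⟨K, M, hM, ?_⟩
  intro v w m t z ht hz hd halt
  refine le_trans ?_ (hK v w m t z ht hz hd)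
  have : chg S z m = Finset.range m := by
    ext i
    rw [mem_chg, Finset.mem_range]
    refine ⟨fun h => h.1, fun hi' => ⟨hi', ?_⟩⟩
    intro h
    have h1 := halt i (le_of_lt hi')
    have h2 := halt (i + 1) hi'
    have h3 : Even i ↔ Even (i + 1) := by rw [← h1, ← h2]; exact h
    rw [Nat.even_add_one] at h3
    tauto
  rw [this, Finset.card_range]

end Pool.Agent.FV
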