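import Pool.Agent.Lib.MP_e9c977_fv.Graph

/-!
# Row CG: cutting along a missing tetrahedron, geometry
-/

namespace Pool.Agent.FV

open Module
open scoped Classical

noncomputable section

variable {E : Type} [NormedAddCommGroup E] [InnerProductSpace ℝ E]

/-- The hyperplane `g = c` cuts `V` along `T`. -/
structure IsCut (V T : Finset E) (g : E →ₗ[ℝ] ℝ) (c : ℝ) : Prop where
  on_iff : ∀ x ∈ V, (g x = c ↔ x ∈ T)
  lo : ∃ x ∈ V, g x < c
  hi : ∃ x ∈ V, c < g x
  hull : ∀ z ∈ convexHull ℝ (V : Set E), g z = c → z ∈ convexHull ℝ (T : Set E)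
  nocross : ∀ S, FaceSet V S → S ≠ V → (∀ x ∈ S, g x ≤ c) ∨ (∀ x ∈ S, c ≤ g x)
  sub : ∀ S, S ⊂ T → S.Nonempty → FaceSet V S
  card_T : T.card = 4
  adim_T : adim T = 3
  subset : T ⊆ V
  not_face : ¬ FaceSet V T

theorem IsCut.neg {V T : Finset E} {g : E →ₗ[ℝ] ℝ} {c : ℝ} (h : IsCut V T g c) :
    IsCut V T (-g) (-c) where
  on_iff := fun x hx => by
    rw [LinearMap.neg_apply, neg_inj]
    exact h.on_iff x hx
  lo := by
    obtain ⟨x, hx, hx'⟩ := h.hi
    exact ⟨x, hx, by rw [LinearMap.neg_apply]; linarith⟩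
  hi := by
    obtain ⟨x, hx, hx'⟩ := h.lo
    exact ⟨x, hx, by rw [LinearMap.neg_apply]; linarith⟩
  hull := fun z hz hz' => by
    rw [LinearMap.neg_apply, neg_inj] at hz'
    exact h.hull z hz hz'
  nocross := fun S hS hSV => by
    simp only [LinearMap.neg_apply, neg_le_neg_iff]
    exact (h.nocross S hS hSV).symm
  sub := h.sub
  card_T := h.card_T
  adim_T := h.adim_T
  subset := h.subset
  not_face := h.not_face

private theorem exists_weights_of_mem_affineSpan {T : Finset E} {z : E}
    (hz : z ∈ affineSpan ℝ (T : Set E)) :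
    ∃ w : E → ℝ, ∑ x ∈ T, w x = 1 ∧ ∑ x ∈ T, w x • x = z := by
  have hz' : z ∈ affineSpan ℝ (Set.range (Subtype.val : T → E)) := by
    rw [Subtype.range_coe_subtype]
    simpa using hz
  obtain ⟨w, hw1, hw2⟩ := eq_affineCombination_of_mem_affineSpan_of_fintype hz'
  rw [Finset.affineCombination_eq_linear_combination _ _ _ hw1] at hw2
  refine ⟨fun x => if hx : x ∈ T then w ⟨x, hx⟩ else 0, ?_, ?_⟩
  · rw [← hw1, ← Finset.sum_coe_sort T]
    exact Finset.sum_congr rfl (fun i _ => by simp)
  · rw [hw2, ← Finset.sum_coe_sort T]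
    exact Finset.sum_congr rfl (fun i _ => by simp)

private theorem le_of_hull {V : Finset E} {l : E →ₗ[ℝ] ℝ} {c : ℝ} (h : ∀ x ∈ V, l x ≤ c) {z : E}
    (hz : z ∈ convexHull ℝ (V : Set E)) : l z ≤ c := by
  have h1 : convexHull ℝ (V : Set E) ⊆ {x | l x ≤ c} :=
    convexHull_min (fun x hx => h x hx) (convex_halfSpace_le l.isLinear c)
  exact h1 hz

private theorem lt_of_hull {V : Finset E} {l : E →ₗ[ℝ] ℝ} {c : ℝ} (h : ∀ x ∈ V, l x < c) {z : E}
    (hz : z ∈ convexHull ℝ (V : Set E)) : l z < c := by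
  have h1 : convexHull ℝ (V : Set E) ⊆ {x | l x < c} :=
    convexHull_min (fun x hx => h x hx) (convex_halfSpace_lt l.isLinear c)
  exact h1 hz

/-- The point of a segment on a hyperplane separating the ends. -/
private theorem exists_cross {V : Finset E} (g : E →ₗ[ℝ] ℝ) {c : ℝ} {a b : E} (ha : a ∈ V)
    (hb : b ∈ V) (hga : g a < c) (hgb : c < g b) :
    ∃ t : ℝ, 0 < t ∧ t < 1 ∧ (1 - t) • a + t • b ∈ convexHull ℝ (V : Set E) ∧
      g ((1 - t) • a + t • b) = c := by
  have h1 : 0 < g b - g a := by linarith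
  refine ⟨(c - g a) / (g b - g a), div_pos (by linarith) h1, ?_, ?_, ?_⟩
  · rw [div_lt_one h1]
    linarith
  · have h0 : 0 ≤ (c - g a) / (g b - g a) := (div_pos (by linarith) h1).le
    have h2 : (c - g a) / (g b - g a) ≤ 1 := by
      rw [div_le_one h1]
      linarith
    exact (convex_convexHull ℝ (V : Set E)) (subset_convexHull ℝ _ (Finset.mem_coe.2 ha))
      (subset_convexHull ℝ _ (Finset.mem_coe.2 hb)) (by linarith) h0 (by ring)
  · simp only [map_add, map_smul, smul_eq_mul]
    field_simp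
    ring

theorem exists_cut {V T : Finset E} (hV : ConvPos V) (h4 : adim V = 4) (hT : Missing V T) :
    ∃ (g : E →ₗ[ℝ] ℝ) (c : ℝ), IsCut V T g c := by
  obtain ⟨hT4, hTF, hTe⟩ := hT
  have hfaceT : ∀ x ∈ T, FaceSet V (T.erase x) := fun x hx => (mem_faces.1 (hTe x hx)).1
  have hdimT : ∀ x ∈ T, adim (T.erase x) = 2 := fun x hx => (mem_faces.1 (hTe x hx)).2
  have hTV : T ⊆ V := by
    intro x hx
    have h1 : (T.erase x).Nonempty := by
      rw [← Finset.card_pos, Finset.card_erase_of_mem hx]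
      omega
    obtain ⟨y, hy⟩ := h1
    have hy' := Finset.mem_erase.1 hy
    exact (hfaceT y hy'.2).2.1 (Finset.mem_erase.2 ⟨hy'.1.symm, hx⟩)
  have hTne : T.Nonempty := by
    rw [← Finset.card_pos]
    omega
  obtain ⟨x0, hx0⟩ := hTne
  have hadT : adim T = 3 := by
    have h1 := adim_add_one_le_card (S := T) ⟨x0, hx0⟩
    have h2 := (hfaceT x0 hx0).adim_lt (Finset.erase_ssubset hx0) hTV
    rw [hdimT x0 hx0] at h2
    omega
  have hsub : ∀ S, S ⊂ T → S.Nonempty → FaceSet V S := by
    intro S hS hSne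
    obtain ⟨x, hx, hxS⟩ := Finset.exists_of_ssubset hS
    refine (hfaceT x hx).of_subset_simplex ?_ hSne ?_
    · rw [hdimT x hx, Finset.card_erase_of_mem hx]
      omega
    · intro y hy
      exact Finset.mem_erase.2 ⟨fun h => hxS (h ▸ hy), hS.1 hy⟩
  -- the functional
  have hfinT : FiniteDimensional ℝ (vectorSpan ℝ (T : Set E)) :=
    finiteDimensional_vectorSpan_of_finite ℝ (Finset.finite_toSet T)
  have hfinV : FiniteDimensional ℝ (vectorSpan ℝ (V : Set E)) :=
    finiteDimensional_vectorSpan_of_finite ℝ (Finset.finite_toSet V)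
  have hle : vectorSpan ℝ (T : Set E) ≤ vectorSpan ℝ (V : Set E) :=
    vectorSpan_mono ℝ (Finset.coe_subset.2 hTV)
  obtain ⟨v, hvV, hvT⟩ : ∃ v ∈ vectorSpan ℝ (V : Set E), v ∉ vectorSpan ℝ (T : Set E) := by
    by_contra hcon
    push Not at hcon
    have h1 : vectorSpan ℝ (V : Set E) ≤ vectorSpan ℝ (T : Set E) := fun v hv => hcon v hv
    have h2 : finrank ℝ (vectorSpan ℝ (V : Set E)) ≤ finrank ℝ (vectorSpan ℝ (T : Set E)) :=
      Submodule.finrank_mono h1
    have h3 : adim V ≤ adim T := h2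
    omega
  set WT := vectorSpan ℝ (T : Set E) with hWT
  set WV := vectorSpan ℝ (V : Set E) with hWV
  have hsup : WT ⊔ Submodule.span ℝ {v} = WV := by
    have h1 : WT ⊔ Submodule.span ℝ {v} ≤ WV := by
      refine sup_le hle ?_
      rw [Submodule.span_singleton_le_iff_mem]
      exact hvV
    refine Submodule.eq_of_le_of_finrank_le h1 ?_
    have h2 : WT < WT ⊔ Submodule.span ℝ {v} := by
      refine lt_of_le_of_ne le_sup_left ?_
      intro h
      apply hvT
      rw [h]
      exact Submodule.mem_sup_right (Submodule.mem_span_singleton_self v)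
    have hfin3 : FiniteDimensional ℝ (WT ⊔ Submodule.span ℝ {v} : Submodule ℝ E) :=
      Submodule.finiteDimensional_of_le h1
    have h3 := Submodule.finrank_lt_finrank_of_lt h2
    have h4' : finrank ℝ WV = 4 := h4
    have h5 : finrank ℝ WT = 3 := hadT
    omega
  set n : E := v - WT.starProjection v with hn
  have hnT : ∀ z ∈ WT, inner ℝ n z = 0 := fun z hz => WT.starProjection_inner_eq_zero v z hz
  have hnv : 0 < inner ℝ n v := by
    have h1 : inner ℝ n v = inner ℝ n n := by
      have h2 : inner ℝ n (WT.starProjection v) = 0 := hnT _ (WT.starProjection_apply_mem v)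
      have h3 : v = n + WT.starProjection v := by rw [hn]; abel
      calc inner ℝ n v = inner ℝ n (n + WT.starProjection v) := by rw [← h3]
        _ = inner ℝ n n := by rw [inner_add_right, h2, add_zero]
    rw [h1]
    refine real_inner_self_pos.2 ?_
    intro h0
    apply hvT
    rw [hn, sub_eq_zero] at h0
    rw [h0]
    exact WT.starProjection_apply_mem v
  let g : E →ₗ[ℝ] ℝ := (innerSL ℝ n : E →L[ℝ] ℝ).toLinearMap
  have hg : ∀ z, g z = inner ℝ n z := fun z => rfl
  have hgT0 : ∀ z ∈ WT, g z = 0 := fun z hz => hnT z hz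
  have hgker : ∀ z ∈ WV, g z = 0 → z ∈ WT := by
    intro z hz hgz
    rw [← hsup, Submodule.mem_sup] at hz
    obtain ⟨a, ha, b, hb, rfl⟩ := hz
    obtain ⟨r, rfl⟩ := Submodule.mem_span_singleton.1 hb
    rw [map_add, hgT0 a ha, zero_add, map_smul, smul_eq_mul, hg] at hgz
    have hr : r = 0 := by
      rcases mul_eq_zero.1 hgz with h | h
      · exact h
      · exact absurd h hnv.ne'
    rw [hr, zero_smul, add_zero]
    exact ha
  set c := g x0 with hc
  have hgT : ∀ x ∈ T, g x = c := by
    intro x hx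
    have h1 : x - x0 ∈ WT := vsub_mem_vectorSpan ℝ (Finset.mem_coe.2 hx) (Finset.mem_coe.2 hx0)
    have h2 := hgT0 _ h1
    rw [map_sub] at h2
    linarith
  have hspanT : ∀ z ∈ convexHull ℝ (V : Set E), g z = c → z ∈ affineSpan ℝ (T : Set E) := by
    intro z hz hgz
    have h1 : z ∈ affineSpan ℝ (V : Set E) := convexHull_subset_affineSpan _ hz
    have h2 : x0 ∈ affineSpan ℝ (V : Set E) := subset_affineSpan ℝ _ (Finset.mem_coe.2 (hTV hx0))
    have h3 : z - x0 ∈ WV := by
      rw [hWV, ← direction_affineSpan]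
      exact AffineSubspace.vsub_mem_direction h1 h2
    have h4' : z - x0 ∈ WT := hgker _ h3 (by rw [map_sub, hgz]; simp [hc])
    have h5 : (z - x0) +ᵥ x0 ∈ affineSpan ℝ (T : Set E) := by
      refine AffineSubspace.vadd_mem_of_mem_direction ?_
        (subset_affineSpan ℝ _ (Finset.mem_coe.2 hx0))
      rw [direction_affineSpan]
      exact h4'
    simpa using h5
  have hhull : ∀ z ∈ convexHull ℝ (V : Set E), g z = c →
      ∃ w : E → ℝ, (∀ x ∈ T, 0 ≤ w x) ∧ ∑ x ∈ T, w x = 1 ∧ ∑ x ∈ T, w x • x = z := by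
    intro z hz hgz
    obtain ⟨w, hw1, hw2⟩ := exists_weights_of_mem_affineSpan (hspanT z hz hgz)
    refine ⟨w, ?_, hw1, hw2⟩
    intro x hx
    obtain ⟨_, _, l, d, hld, hld'⟩ := hfaceT x hx
    have h1 : l z ≤ d := le_of_hull hld hz
    have h2 : l z - d = w x * (l x - d) := by
      have h3 : l z - d = ∑ y ∈ T, w y * (l y - d) := by
        rw [← hw2, map_sum]
        simp only [map_smul, smul_eq_mul, mul_sub, Finset.sum_sub_distrib, ← Finset.sum_mul, hw1,
          one_mul]
      rw [h3]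
      refine Finset.sum_eq_single x ?_ (fun h => absurd hx h)
      intro y hy hyx
      have h4' : l y = d := (hld' y (hTV hy)).2 (Finset.mem_erase.2 ⟨hyx, hy⟩)
      rw [h4', sub_self, mul_zero]
    have h3 : l x < d := by
      refine lt_of_le_of_ne (hld x (hTV hx)) ?_
      intro h
      exact (Finset.mem_erase.1 ((hld' x (hTV hx)).1 h)).1 rfl
    by_contra hneg
    push Not at hneg
    have : 0 < w x * (l x - d) := mul_pos_of_neg_of_neg hneg (by linarith)
    linarith
  have hhull' : ∀ z ∈ convexHull ℝ (V : Set E), g z = c → z ∈ convexHull ℝ (T : Set E) := by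
    intro z hz hgz
    obtain ⟨w, hw0, hw1, hw2⟩ := hhull z hz hgz
    rw [Finset.mem_convexHull']
    exact ⟨w, hw0, hw1, hw2⟩
  have hon : ∀ x ∈ V, (g x = c ↔ x ∈ T) := by
    intro x hx
    refine ⟨?_, fun h => hgT x h⟩
    intro hgx
    by_contra hxT
    have h1 := hhull' x (subset_convexHull ℝ _ (Finset.mem_coe.2 hx)) hgx
    obtain ⟨_, _, l, d, hld, hld'⟩ := hV x hx
    have h2 : ∀ y ∈ T, l y < d := by
      intro y hy
      refine lt_of_le_of_ne (hld y (hTV hy)) ?_
      intro h
      have := Finset.mem_singleton.1 ((hld' y (hTV hy)).1 h)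
      exact hxT (this ▸ hy)
    have h3 : l x < d := lt_of_hull h2 h1
    have h4' : l x = d := (hld' x hx).2 (Finset.mem_singleton_self x)
    linarith
  refine ⟨g, c, ⟨hon, ?_, ?_, hhull', ?_, hsub, hT4, hadT, hTV, hTF⟩⟩
  · by_contra hcon
    push Not at hcon
    apply hTF
    refine ⟨⟨x0, hx0⟩, hTV, -g, -c, ?_, ?_⟩
    · intro x hx
      have := hcon x hx
      rw [LinearMap.neg_apply]
      linarith
    · intro x hx
      rw [LinearMap.neg_apply, neg_inj]
      exact hon x hx
  · by_contra hcon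
    push Not at hcon
    apply hTF
    exact ⟨⟨x0, hx0⟩, hTV, g, c, hcon, hon⟩
  · intro S hS hSV
    by_contra hcon
    push Not at hcon
    obtain ⟨⟨b, hb, hgb⟩, ⟨a, ha, hga⟩⟩ := hcon
    have haV := hS.2.1 ha
    have hbV := hS.2.1 hb
    obtain ⟨t, ht0, ht1, hz, hgz⟩ := exists_cross g haV hbV hga hgb
    set z := (1 - t) • a + t • b with hzdef
    obtain ⟨w, hw0, hw1, hw2⟩ := hhull z hz hgz
    obtain ⟨hSne, hSsub, l, d, hld, hld'⟩ := hS
    have hlz : l z = d := by
      rw [hzdef, map_add, map_smul, map_smul, (hld' a haV).2 ha, (hld' b hbV).2 hb]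
      simp only [smul_eq_mul]
      ring
    have hpos : ∀ x ∈ T, w x ≠ 0 → x ∈ S := by
      have h1 : ∑ x ∈ T, w x * (d - l x) = 0 := by
        have h3 : l z = ∑ y ∈ T, w y * l y := by
          rw [← hw2, map_sum]
          simp only [map_smul, smul_eq_mul]
        simp only [mul_sub, Finset.sum_sub_distrib, ← Finset.sum_mul, hw1, one_mul]
        linarith
      have h2 : ∀ x ∈ T, 0 ≤ w x * (d - l x) := fun x hx =>
        mul_nonneg (hw0 x hx) (by linarith [hld x (hTV hx)])
      intro x hx hwx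
      have h3 := (Finset.sum_eq_zero_iff_of_nonneg h2).1 h1 x hx
      rcases mul_eq_zero.1 h3 with h | h
      · exact absurd h hwx
      · exact (hld' x (hTV hx)).1 (by linarith)
    by_cases hTS : T ⊆ S
    · have h1 : adim S < adim V :=
        FaceSet.adim_lt (V := V) (S := S) (T := V) ⟨hSne, hSsub, l, d, hld, hld'⟩
          (lt_of_le_of_ne hSsub hSV) (le_refl V)
      have h2 : vectorSpan ℝ (T : Set E) ≤ vectorSpan ℝ (S : Set E) :=
        vectorSpan_mono ℝ (Finset.coe_subset.2 hTS)
      have hfinS : FiniteDimensional ℝ (vectorSpan ℝ (S : Set E)) :=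
        finiteDimensional_vectorSpan_of_finite ℝ (Finset.finite_toSet S)
      have h3 : vectorSpan ℝ (T : Set E) = vectorSpan ℝ (S : Set E) := by
        refine Submodule.eq_of_le_of_finrank_le h2 ?_
        have h5 : finrank ℝ (vectorSpan ℝ (S : Set E)) < 4 := by
          rw [h4] at h1
          exact h1
        have h6 : finrank ℝ (vectorSpan ℝ (T : Set E)) = 3 := hadT
        omega
      have h5 : a - x0 ∈ WT := by
        rw [hWT, h3]
        exact vsub_mem_vectorSpan ℝ (Finset.mem_coe.2 ha) (Finset.mem_coe.2 (hTS hx0))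
      have h6 := hgT0 _ h5
      rw [map_sub] at h6
      linarith
    · -- the carrier of `z` in `T`
      have hT' : T ∩ S ⊂ T := by
        refine lt_of_le_of_ne Finset.inter_subset_left ?_
        intro h
        exact hTS (Finset.inter_eq_left.1 h)
      have hne : (T ∩ S).Nonempty := by
        by_contra hemp
        rw [Finset.not_nonempty_iff_eq_empty] at hemp
        have h1 : ∑ x ∈ T, w x = 0 := by
          refine Finset.sum_eq_zero ?_
          intro x hx
          by_contra hwx
          have : x ∈ T ∩ S := Finset.mem_inter.2 ⟨hx, hpos x hx hwx⟩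
          rw [hemp] at this
          exact absurd this (Finset.notMem_empty x)
        rw [hw1] at h1
        exact one_ne_zero h1
      obtain ⟨_, _, m, e, hme, hme'⟩ := hsub _ hT' hne
      have hmz : m z = e := by
        have h3 : m z = ∑ y ∈ T, w y * m y := by
          rw [← hw2, map_sum]
          simp only [map_smul, smul_eq_mul]
        have h4' : ∑ y ∈ T, w y * m y = ∑ y ∈ T, w y * e := by
          refine Finset.sum_congr rfl ?_
          intro y hy
          by_cases hwy : w y = 0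
          · rw [hwy, zero_mul, zero_mul]
          · rw [(hme' y (hTV hy)).2 (Finset.mem_inter.2 ⟨hy, hpos y hy hwy⟩)]
        rw [h3, h4', ← Finset.sum_mul, hw1, one_mul]
      have hma : m a = e := by
        have h1 := hme a haV
        have h2 := hme b hbV
        rw [hzdef, map_add, map_smul, map_smul] at hmz
        simp only [smul_eq_mul] at hmz
        nlinarith
      have haT : a ∈ T := (Finset.mem_inter.1 ((hme' a haV).1 hma)).1
      have := hgT a haT
      linarith

/-- The faces of the upper part. -/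
theorem IsCut.faceSet_upper_iff {V T : Finset E} (hV : ConvPos V) (h4 : adim V = 4)
    {g : E →ₗ[ℝ] ℝ} {c : ℝ} (h : IsCut V T g c) {S : Finset E}
    (hS : S ⊆ V.filter (fun x => c ≤ g x)) (hne : S ≠ V.filter (fun x => c ≤ g x))
    (hST : S ≠ T) : FaceSet (V.filter (fun x => c ≤ g x)) S ↔ FaceSet V S := by
  refine ⟨?_, fun hF => hF.of_subset (Finset.filter_subset _ _) hS⟩
  intro hF
  by_cases hsub : S ⊆ T
  · exact h.sub S (lt_of_le_of_ne hsub hST) hF.1
  obtain ⟨hSne, _, l, d, hld, hld'⟩ := hF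
  obtain ⟨x, hxS, hxT⟩ := Finset.not_subset.1 hsub
  have hxU := Finset.mem_filter.1 (hS hxS)
  have hgx : c < g x := by
    refine lt_of_le_of_ne hxU.2 ?_
    intro he
    exact hxT ((h.on_iff x hxU.1).1 he.symm)
  have hlx : l x = d := (hld' x (hS hxS)).2 hxS
  have hlT : ∀ y ∈ T, l y ≤ d := by
    intro y hy
    refine hld y (Finset.mem_filter.2 ⟨h.subset hy, ?_⟩)
    exact ((h.on_iff y (h.subset hy)).2 hy).ge
  have hle : ∀ y ∈ V, l y ≤ d := by
    intro y hy
    by_cases hgy : c ≤ g y
    · exact hld y (Finset.mem_filter.2 ⟨hy, hgy⟩)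
    push Not at hgy
    by_contra hly
    push Not at hly
    obtain ⟨t, ht0, ht1, hz, hgz⟩ := exists_cross g hy hxU.1 hgy hgx
    have h1 : l ((1 - t) • y + t • x) ≤ d := le_of_hull hlT (h.hull _ hz hgz)
    rw [map_add, map_smul, map_smul, hlx] at h1
    simp only [smul_eq_mul] at h1
    nlinarith
  refine ⟨hSne, hS.trans (Finset.filter_subset _ _), l, d, hle, ?_⟩
  intro y hy
  refine ⟨?_, fun hyS => (hld' y (hS hyS)).2 hyS⟩
  intro hly
  by_cases hgy : c ≤ g y
  · exact (hld' y (Finset.mem_filter.2 ⟨hy, hgy⟩)).1 hly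
  exfalso
  push Not at hgy
  have hF'' : FaceSet V (V.filter (fun v => l v = d)) := by
    refine ⟨⟨y, Finset.mem_filter.2 ⟨hy, hly⟩⟩, Finset.filter_subset _ _, l, d, hle, ?_⟩
    intro v hv
    simp [hv]
  by_cases hall : V.filter (fun v => l v = d) = V
  · apply hne
    refine Finset.Subset.antisymm hS ?_
    intro v hv
    have hvV := (Finset.mem_filter.1 hv).1
    rw [← hall] at hvV
    exact (hld' v hv).1 (Finset.mem_filter.1 hvV).2
  · rcases h.nocross _ hF'' hall with h1 | h1
    · have := h1 x (Finset.mem_filter.2 ⟨hxU.1, hlx⟩)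
      linarith
    · have := h1 y (Finset.mem_filter.2 ⟨hy, hly⟩)
      linarith

theorem IsCut.faceSet_upper_T {V T : Finset E} {g : E →ₗ[ℝ] ℝ} {c : ℝ} (h : IsCut V T g c) :
    FaceSet (V.filter (fun x => c ≤ g x)) T := by
  have hTne : T.Nonempty := by
    rw [← Finset.card_pos, h.card_T]
    omega
  refine ⟨hTne, ?_, -g, -c, ?_, ?_⟩
  · intro y hy
    exact Finset.mem_filter.2 ⟨h.subset hy, ((h.on_iff y (h.subset hy)).2 hy).ge⟩
  · intro x hx
    have := (Finset.mem_filter.1 hx).2
    rw [LinearMap.neg_apply]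
    linarith
  · intro x hx
    rw [LinearMap.neg_apply, neg_inj]
    exact h.on_iff x (Finset.mem_filter.1 hx).1

end

end Pool.Agent.FV
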