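import Mathlib

/-!
# f-vectors of polytopes: definitions

`IsFVector d f` is the literal statement.  All proofs are about finite point configurations
`V : Finset E` in convex position; a face is a subset `S` of `V` cut out by a supporting
hyperplane (`FaceSet V S`, the set `V` itself is allowed), `faces V i` is the set of all faces of
dimension `i`.
-/

namespace Pool.Agent.FV

open Module
open scoped Classical

noncomputable section

section sets

variable {E : Type} [NormedAddCommGroup E] [InnerProductSpace ℝ E]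

/-- A face of a set: a nonempty intersection with a supporting hyperplane. -/
def IsFace (P F : Set E) : Prop :=
  F.Nonempty ∧ ∃ (l : E →ₗ[ℝ] ℝ) (c : ℝ), l ≠ 0 ∧ (∀ x ∈ P, l x ≤ c) ∧ F = {x | x ∈ P ∧ l x = c}

/-- The number of faces of dimension `i`. -/
def fnum (P : Set E) (i : ℕ) : ℕ :=
  {F : Set E | IsFace P F ∧ finrank ℝ (vectorSpan ℝ F) = i}.ncard

end sets

/-- A `d`-polytope: the convex hull of finitely many points whose affine hull is the space. -/
def IsPolytope (d : ℕ) (P : Set (EuclideanSpace ℝ (Fin d))) : Prop :=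
  ∃ V : Finset (EuclideanSpace ℝ (Fin d)),
    P = convexHull ℝ (V : Set (EuclideanSpace ℝ (Fin d))) ∧ affineSpan ℝ P = ⊤

/-- `f` is the f-vector of a `d`-polytope. -/
def IsFVector (d : ℕ) (f : Fin d → ℕ) : Prop :=
  ∃ P, IsPolytope d P ∧ ∀ i : Fin d, fnum P (i : ℕ) = f i

/-- Semialgebraic subsets of `ℝ^d`: finite Boolean combinations of polynomial inequalities. -/
inductive Semialg (d : ℕ) : Set (Fin d → ℝ) → Prop
  | pos (p : MvPolynomial (Fin d) ℝ) : Semialg d {x | 0 < MvPolynomial.eval x p}
  | compl {S : Set (Fin d → ℝ)} : Semialg d S → Semialg d Sᶜ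
  | inter {S T : Set (Fin d → ℝ)} : Semialg d S → Semialg d T → Semialg d (S ∩ T)

section configurations

variable {E : Type} [NormedAddCommGroup E] [InnerProductSpace ℝ E]

/-- `S` is a face of the point configuration `V`. -/
def FaceSet (V S : Finset E) : Prop :=
  S.Nonempty ∧ S ⊆ V ∧ ∃ (l : E →ₗ[ℝ] ℝ) (c : ℝ), (∀ x ∈ V, l x ≤ c) ∧ ∀ x ∈ V, (l x = c ↔ x ∈ S)

/-- The dimension of a finite set. -/
def adim (S : Finset E) : ℕ := finrank ℝ (vectorSpan ℝ (S : Set E))

/-- Convex position. -/
def ConvPos (V : Finset E) : Prop := ∀ x ∈ V, FaceSet V {x}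

/-- The faces of dimension `i`. -/
def faces (V : Finset E) (i : ℕ) : Finset (Finset E) :=
  V.powerset.filter (fun S => FaceSet V S ∧ adim S = i)

/-- The vertices of a finite set. -/
def verts (V : Finset E) : Finset E := V.filter (fun x => FaceSet V {x})

/-- The neighbours of a vertex. -/
def nbr (V : Finset E) (u : E) : Finset E := V.filter (fun w => w ≠ u ∧ FaceSet V {u, w})

/-- The field `q` preserves all distances in `S` to first order. -/
def Braced (q : E → E) (S : Finset E) : Prop :=
  ∀ x ∈ S, ∀ y ∈ S, inner ℝ (x - y) (q x - q y) = 0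

/-- Skew linear maps. -/
def Skew (A : E →ₗ[ℝ] E) : Prop := ∀ z, inner ℝ (A z) z = 0

/-- All faces of dimension three are simple. -/
def SimpleFacets (V : Finset E) : Prop := ∀ F ∈ faces V 3, ∀ x ∈ F, (nbr F x).card = 3

/-- A missing tetrahedron. -/
def Missing (V T : Finset E) : Prop :=
  T.card = 4 ∧ ¬ FaceSet V T ∧ ∀ x ∈ T, T.erase x ∈ faces V 2

theorem mem_faces {V S : Finset E} {i : ℕ} : S ∈ faces V i ↔ FaceSet V S ∧ adim S = i := by
  simp only [faces, Finset.mem_filter, Finset.mem_powerset, and_iff_right_iff_imp]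
  exact fun h => h.1.2.1

theorem mem_verts {V : Finset E} {x : E} : x ∈ verts V ↔ FaceSet V {x} := by
  simp only [verts, Finset.mem_filter, and_iff_right_iff_imp]
  exact fun h => h.2.1 (Finset.mem_singleton_self x)

theorem mem_nbr {V : Finset E} {u w : E} : w ∈ nbr V u ↔ w ≠ u ∧ FaceSet V {u, w} := by
  simp only [nbr, Finset.mem_filter, and_iff_right_iff_imp]
  exact fun h => h.2.2.1 (by simp)

end configurations

end

end Pool.Agent.FV
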