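import Pool.Agent.Lib.MP_e9c977_fv.SimpleF

/-!
# Row ES: the star of an edge of a 4-dimensional configuration
-/

namespace Pool.Agent.FV

open Module
open scoped Classical

noncomputable section

variable {E : Type} [NormedAddCommGroup E] [InnerProductSpace ℝ E]

/-- The faces of dimension `i` containing `S`. -/
def above (V S : Finset E) (i : ℕ) : Finset (Finset E) := (faces V i).filter (fun T => S ⊆ T)

/-- The vertices of the facets containing `e`. -/
def starV (V e : Finset E) : Finset E := (above V e 3).biUnion id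

/-- The vertices in exactly one facet containing `e`. -/
def starD (V e : Finset E) : Finset E :=
  (starV V e).filter (fun x => ∀ R ∈ above V e 2, x ∉ R)

/-- The bars in the facets containing `e`. -/
def starB (V e : Finset E) (a : Finset E → E) : Finset (Finset E) :=
  (bars V a).filter (fun B => ∃ F ∈ above V e 3, B ⊆ F)

variable {V e : Finset E} {a : Finset E → E}

private theorem mem_above {S T : Finset E} {i : ℕ} :
    T ∈ above V S i ↔ FaceSet V T ∧ adim T = i ∧ S ⊆ T := by
  simp only [above, Finset.mem_filter, mem_faces, and_assoc]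

private theorem self_face (h4 : adim V = 4) : FaceSet V V := by
  refine FaceSet.self ?_
  rw [Finset.nonempty_iff_ne_empty]
  rintro rfl
  rw [adim, Finset.coe_empty, vectorSpan_empty, finrank_bot] at h4
  omega

/-- Facets above a 2-face. -/
private theorem card_facets_above (h4 : adim V = 4) {R : Finset E} (hR : FaceSet V R)
    (hR2 : adim R = 2) : ((faces V 3).filter (fun F => R ⊆ F)).card = 2 := by
  have h := diamond hR (self_face h4) hR.2.1 (by omega)
  rw [hR2] at h
  rw [← h]
  congr 1
  refine Finset.filter_congr fun F hF => ?_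
  have := (mem_faces.1 hF).1.2.1
  tauto

private theorem card_between (he : e ∈ faces V 1) {F : Finset E} (hF : FaceSet V F)
    (hF3 : adim F = 3) (heF : e ⊆ F) :
    ((faces V 2).filter (fun R => e ⊆ R ∧ R ⊆ F)).card = 2 := by
  obtain ⟨he1, he2⟩ := mem_faces.1 he
  have h := diamond he1 hF heF (by omega)
  rwa [he2] at h

/-- As many facets as 2-faces contain the edge. -/
theorem card_above (h4 : adim V = 4) (he : e ∈ faces V 1) :
    (above V e 3).card = (above V e 2).card := by
  have h := Finset.card_mul_eq_card_mul (s := above V e 3) (t := above V e 2) (m := 2) (n := 2)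
    (fun F R => R ⊆ F) (fun F hF => ?_) (fun R hR => ?_)
  · omega
  · rw [mem_above] at hF
    refine Eq.trans ?_ (card_between he hF.1 hF.2.1 hF.2.2)
    congr 1
    ext R
    simp only [Finset.bipartiteAbove, above, Finset.mem_filter]
    tauto
  · rw [mem_above] at hR
    refine Eq.trans ?_ (card_facets_above h4 hR.1 hR.2.1)
    congr 1
    ext F
    simp only [Finset.bipartiteBelow, above, Finset.mem_filter]
    have := hR.2.2
    constructor
    · rintro ⟨⟨h1, h2⟩, h3⟩
      exact ⟨h1, h3⟩
    · rintro ⟨h1, h3⟩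
      exact ⟨⟨h1, this.trans h3⟩, h3⟩

/-- The smallest face containing a set. -/
private theorem exists_hull {F : Finset E} (hF : FaceSet V F) {Y : Finset E} (hY : Y.Nonempty)
    (hYF : Y ⊆ F) : ∃ G, FaceSet V G ∧ Y ⊆ G ∧ ∀ H, FaceSet V H → Y ⊆ H → G ⊆ H := by
  have hne : (V.powerset.filter (fun G => FaceSet V G ∧ Y ⊆ G)).Nonempty :=
    ⟨F, by simp [hF, hF.2.1, hYF]⟩
  obtain ⟨G, hG, hmin⟩ := Finset.exists_min_image _ Finset.card hne
  simp only [Finset.mem_filter, Finset.mem_powerset] at hG hmin
  refine ⟨G, hG.2.1, hG.2.2, fun H hH hYH => ?_⟩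
  have h1 : Y ⊆ G ∩ H := Finset.subset_inter hG.2.2 hYH
  have h2 : FaceSet V (G ∩ H) := hG.2.1.inter hH (hY.mono h1)
  have h3 := hmin (G ∩ H) ⟨h2.2.1, h2, h1⟩
  have h4 : G ∩ H = G := Finset.eq_of_subset_of_card_le Finset.inter_subset_left h3
  exact Finset.inter_eq_left.1 h4

/-- A set not inside `e` but inside a facet of the star lies in at most one 2-face of the star,
and in one more facet of the star. -/
theorem star_count (h4 : adim V = 4) (he : e ∈ faces V 1) {Y F : Finset E} (hY : ¬ Y ⊆ e)
    (hF : F ∈ above V e 3) (hYF : Y ⊆ F) :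
    ((above V e 3).filter (fun F => Y ⊆ F)).card
        = ((above V e 2).filter (fun R => Y ⊆ R)).card + 1 ∧
      ((above V e 2).filter (fun R => Y ⊆ R)).card ≤ 1 := by
  rw [mem_above] at hF
  obtain ⟨he1, he2⟩ := mem_faces.1 he
  obtain ⟨G, hG, heYG, hmin⟩ := exists_hull hF.1 (Y := e ∪ Y)
    (he1.1.mono Finset.subset_union_left) (Finset.union_subset hF.2.2 hYF)
  have heG : e ⊆ G := Finset.subset_union_left.trans heYG
  have hYG : Y ⊆ G := Finset.subset_union_right.trans heYG
  have hGF : G ⊆ F := hmin F hF.1 (Finset.union_subset hF.2.2 hYF)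
  have hss : e ⊂ G := by
    refine Finset.ssubset_iff_subset_ne.2 ⟨heG, ?_⟩
    rintro rfl
    exact hY hYG
  have h2 : 2 ≤ adim G := by
    have := he1.adim_lt hss hG.2.1
    omega
  have h3 : adim G ≤ 3 := by
    have := adim_mono hGF
    omega
  rcases (by omega : adim G = 2 ∨ adim G = 3) with hd | hd
  · have e2 : (above V e 2).filter (fun R => Y ⊆ R) = {G} := by
      ext R
      rw [Finset.mem_filter, mem_above, Finset.mem_singleton]
      constructor
      · rintro ⟨⟨hR, hR2, heR⟩, hYR⟩
        exact (hG.eq_of_adim (hmin R hR (Finset.union_subset heR hYR)) hR.2.1 (by omega)).symm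
      · rintro rfl
        exact ⟨⟨hG, hd, heG⟩, hYG⟩
    have e3 : (above V e 3).filter (fun F => Y ⊆ F) = (faces V 3).filter (fun F => G ⊆ F) := by
      ext F'
      rw [Finset.mem_filter, mem_above, Finset.mem_filter, mem_faces]
      constructor
      · rintro ⟨⟨hR, hR2, heR⟩, hYR⟩
        exact ⟨⟨hR, hR2⟩, hmin F' hR (Finset.union_subset heR hYR)⟩
      · rintro ⟨⟨hR, hR2⟩, h⟩
        exact ⟨⟨hR, hR2, heG.trans h⟩, hYG.trans h⟩
    rw [e2, e3, card_facets_above h4 hG hd]
    simp
  · have e2 : (above V e 2).filter (fun R => Y ⊆ R) = ∅ := by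
      rw [Finset.eq_empty_iff_forall_notMem]
      intro R hR
      rw [Finset.mem_filter, mem_above] at hR
      obtain ⟨⟨hR, hR2, heR⟩, hYR⟩ := hR
      have := adim_mono (hmin R hR (Finset.union_subset heR hYR))
      omega
    have e3 : (above V e 3).filter (fun F => Y ⊆ F) = {F} := by
      ext F'
      rw [Finset.mem_filter, mem_above, Finset.mem_singleton]
      constructor
      · rintro ⟨⟨hR, hR2, heR⟩, hYR⟩
        have h5 := hG.eq_of_adim (hmin F' hR (Finset.union_subset heR hYR)) hR.2.1 (by omega)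
        have h6 := hG.eq_of_adim hGF hF.1.2.1 (by omega)
        rw [← h5, h6]
      · rintro rfl
        exact ⟨⟨hF.1, hF.2.1, hF.2.2⟩, hYF⟩
    rw [e2, e3]
    simp

private theorem above_three_nonempty (h4 : adim V = 4) (he : e ∈ faces V 1) :
    (above V e 3).Nonempty := by
  obtain ⟨he1, he2⟩ := mem_faces.1 he
  obtain ⟨T, hT, hST⟩ := exists_face_between he1 (i := 3) (by omega) (by omega)
  exact ⟨T, mem_above.2 ⟨(mem_faces.1 hT).1, (mem_faces.1 hT).2, hST⟩⟩

private theorem above_two_nonempty (h4 : adim V = 4) (he : e ∈ faces V 1) :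
    (above V e 2).Nonempty := by
  rw [← Finset.card_pos, ← card_above h4 he, Finset.card_pos]
  exact above_three_nonempty h4 he

private theorem exists_facet_above (h4 : adim V = 4) {R : Finset E} (hR : R ∈ above V e 2) :
    ∃ F ∈ above V e 3, R ⊆ F := by
  rw [mem_above] at hR
  obtain ⟨T, hT, hST⟩ := exists_face_between hR.1 (i := 3) (by omega) (by omega)
  exact ⟨T, mem_above.2 ⟨(mem_faces.1 hT).1, (mem_faces.1 hT).2, hR.2.2.trans hST⟩, hST⟩

private theorem mem_starV {x : E} : x ∈ starV V e ↔ ∃ F ∈ above V e 3, x ∈ F := by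
  simp [starV]

private theorem edge_subset_starV (h4 : adim V = 4) (he : e ∈ faces V 1) : e ⊆ starV V e := by
  intro x hx
  obtain ⟨F, hF⟩ := above_three_nonempty h4 he
  exact mem_starV.2 ⟨F, hF, (mem_above.1 hF).2.2 hx⟩

private theorem card_edge (hV : ConvPos V) (he : e ∈ faces V 1) : e.card = 2 := by
  obtain ⟨x, y, hxy, rfl, -⟩ := (mem_faces_one hV).1 he
  exact Finset.card_pair hxy

/-- Number of facets / 2-faces of the star containing an element of the edge. -/
private theorem count_edge (i : ℕ) {Y : Finset E} (hY : Y ⊆ e) :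
    ((above V e i).filter (fun F => Y ⊆ F)).card = (above V e i).card := by
  congr 1
  refine Finset.filter_true_of_mem fun F hF => ?_
  exact hY.trans (mem_above.1 hF).2.2

/-- Double counting. -/
private theorem sum_card_eq {α β : Type} (s : Finset β) (g : β → Finset α)
    (t : Finset α) (h : ∀ F ∈ s, g F ⊆ t) (p : α → β → Prop) [∀ x F, Decidable (p x F)]
    (hp : ∀ F ∈ s, ∀ x ∈ t, p x F ↔ x ∈ g F) :
    ∑ F ∈ s, (g F).card = ∑ x ∈ t, (s.filter (fun F => p x F)).card := by
  have h1 : ∑ F ∈ s, (g F).card = ∑ F ∈ s, (t.filter (fun x => p x F)).card := by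
    refine Finset.sum_congr rfl fun F hF => ?_
    congr 1
    ext x
    rw [Finset.mem_filter]
    constructor
    · intro hx
      exact ⟨h F hF hx, (hp F hF x (h F hF hx)).2 hx⟩
    · rintro ⟨hx, hxp⟩
      exact (hp F hF x hx).1 hxp
  rw [h1]
  exact (Finset.sum_card_bipartiteAbove_eq_sum_card_bipartiteBelow (s := t) (t := s) p).symm

private theorem sum_facets (V e : Finset E) :
    ∑ F ∈ above V e 3, F.card
      = ∑ x ∈ starV V e, ((above V e 3).filter (fun F => {x} ⊆ F)).card :=
  sum_card_eq (above V e 3) id (starV V e) (fun F hF x hx => mem_starV.2 ⟨F, hF, hx⟩)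
    (fun (x : E) (F : Finset E) => ({x} : Finset E) ⊆ F) (fun F _ x _ => by simp)

private theorem sum_ridges (h4 : adim V = 4) :
    ∑ F ∈ above V e 2, F.card
      = ∑ x ∈ starV V e, ((above V e 2).filter (fun F => {x} ⊆ F)).card :=
  sum_card_eq (above V e 2) id (starV V e) (fun R hR x hx => by
      obtain ⟨F, hF, hRF⟩ := exists_facet_above h4 hR
      exact mem_starV.2 ⟨F, hF, hRF hx⟩)
    (fun (x : E) (F : Finset E) => ({x} : Finset E) ⊆ F) (fun F _ x _ => by simp)

theorem card_starV (hV : ConvPos V) (h4 : adim V = 4) (he : e ∈ faces V 1) :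
    (starV V e).card + ∑ R ∈ above V e 2, R.card = ∑ F ∈ above V e 3, F.card + 2 := by
  have h1 : ∀ t : Finset E, t.card = ∑ x ∈ t, 1 := fun t => by simp
  have h0 : ∑ x ∈ e, 1 = 2 := by rw [← h1, card_edge hV he]
  rw [sum_facets, sum_ridges h4, h1 (starV V e), ← Finset.sum_add_distrib,
    ← Finset.sum_filter_add_sum_filter_not (starV V e) (fun x => x ∈ e)
      (fun x => 1 + ((above V e 2).filter (fun F => {x} ⊆ F)).card),
    ← Finset.sum_filter_add_sum_filter_not (starV V e) (fun x => x ∈ e)
      (fun x => ((above V e 3).filter (fun F => {x} ⊆ F)).card)]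
  have h2 : (starV V e).filter (fun x => x ∈ e) = e := by
    ext x
    rw [Finset.mem_filter]
    exact ⟨fun h => h.2, fun h => ⟨edge_subset_starV h4 he h, h⟩⟩
  rw [h2]
  have h3 : ∑ x ∈ e, (1 + ((above V e 2).filter (fun F => {x} ⊆ F)).card)
      = ∑ x ∈ e, ((above V e 3).filter (fun F => {x} ⊆ F)).card + ∑ x ∈ e, 1 := by
    rw [← Finset.sum_add_distrib]
    refine Finset.sum_congr rfl fun x hx => ?_
    rw [count_edge 2 (Finset.singleton_subset_iff.2 hx),
      count_edge 3 (Finset.singleton_subset_iff.2 hx), card_above h4 he]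
    omega
  have h4' : ∑ x ∈ (starV V e).filter (fun x => ¬ x ∈ e),
        (1 + ((above V e 2).filter (fun F => {x} ⊆ F)).card)
      = ∑ x ∈ (starV V e).filter (fun x => ¬ x ∈ e),
        ((above V e 3).filter (fun F => {x} ⊆ F)).card := by
    refine Finset.sum_congr rfl fun x hx => ?_
    rw [Finset.mem_filter, mem_starV] at hx
    obtain ⟨⟨F, hF, hxF⟩, hxe⟩ := hx
    have := (star_count h4 he (Y := {x}) (by simpa using hxe) hF (by simpa using hxF)).1
    omega
  rw [h3, h4']
  omega

private theorem mem_starD_iff {x : E} (hx : x ∈ starV V e) :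
    x ∈ starD V e ↔ ((above V e 2).filter (fun F => {x} ⊆ F)).card = 0 := by
  rw [Finset.card_eq_zero, Finset.filter_eq_empty_iff]
  simp [starD, hx]

theorem card_starD (hV : ConvPos V) (h4 : adim V = 4) (he : e ∈ faces V 1) :
    (starD V e).card + 2 * ∑ R ∈ above V e 2, R.card
      = ∑ F ∈ above V e 3, F.card + 2 * (above V e 2).card := by
  have hD : (starD V e).card = ∑ x ∈ starV V e, if x ∈ starD V e then 1 else 0 := by
    rw [Finset.sum_ite_mem, Finset.sum_const, smul_eq_mul, mul_one]
    congr 1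
    exact (Finset.inter_eq_right.2 (Finset.filter_subset _ _)).symm
  have he2 : 2 * (above V e 2).card
      = ∑ x ∈ starV V e, if x ∈ e then (above V e 2).card else 0 := by
    rw [Finset.sum_ite_mem, Finset.inter_eq_right.2 (edge_subset_starV h4 he), Finset.sum_const,
      card_edge hV he, smul_eq_mul]
  rw [sum_facets, sum_ridges h4, hD, he2, Finset.mul_sum, ← Finset.sum_add_distrib,
    ← Finset.sum_add_distrib]
  refine Finset.sum_congr rfl fun x hx => ?_
  have hiff := mem_starD_iff hx
  by_cases hxe : x ∈ e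
  · rw [if_pos hxe, count_edge 3 (Finset.singleton_subset_iff.2 hxe), card_above h4 he]
    rw [count_edge 2 (Finset.singleton_subset_iff.2 hxe)] at hiff
    rw [count_edge 2 (Finset.singleton_subset_iff.2 hxe)]
    have hpos := Finset.card_pos.2 (above_two_nonempty h4 he)
    rw [if_neg (fun h => by have := hiff.1 h; omega)]
    omega
  · rw [if_neg hxe]
    rw [mem_starV] at hx
    obtain ⟨F, hF, hxF⟩ := hx
    obtain ⟨h5, h6⟩ := star_count h4 he (Y := {x}) (by simpa using hxe) hF (by simpa using hxF)
    by_cases hd : x ∈ starD V e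
    · rw [if_pos hd]
      have := hiff.1 hd
      omega
    · rw [if_neg hd]
      have h7 : ¬ ((above V e 2).filter (fun F => {x} ⊆ F)).card = 0 := fun h => hd (hiff.2 h)
      omega

theorem card_starB (hV : ConvPos V) (h4 : adim V = 4) (he : e ∈ faces V 1)
    (ha : ∀ R ∈ faces V 2, a R ∈ R) :
    (starB V e a).card + 2 * ∑ R ∈ above V e 2, R.card + 3 * (above V e 2).card
      = 3 * ∑ F ∈ above V e 3, F.card + 1 := by
  have hmem : ∀ B, B ∈ starB V e a ↔ B ∈ bars V a ∧ ∃ F ∈ above V e 3, B ⊆ F := fun B => by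
    rw [starB, Finset.mem_filter]
  have haF : ∀ F, FaceSet V F → ∀ R ∈ faces F 2, a R ∈ R := fun F hF R hR => by
    rw [faces_face hF] at hR
    exact ha R (Finset.mem_filter.1 hR).1
  have heB : e ∈ starB V e a := by
    rw [hmem]
    obtain ⟨F, hF⟩ := above_three_nonempty h4 he
    exact ⟨Finset.mem_union_left _ he, F, hF, (mem_above.1 hF).2.2⟩
  -- facets
  have hF : 3 * ∑ F ∈ above V e 3, F.card = ∑ F ∈ above V e 3, (bars F a).card
      + 6 * (above V e 3).card := by
    rw [Finset.mul_sum, mul_comm 6, ← smul_eq_mul (a := (above V e 3).card),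
      ← Finset.sum_const, ← Finset.sum_add_distrib]
    refine Finset.sum_congr rfl fun F hF => ?_
    rw [mem_above] at hF
    have := card_bars_three (hV.mono hF.1.2.1) hF.2.1 (haF F hF.1)
    omega
  have hR : 2 * ∑ R ∈ above V e 2, R.card = ∑ R ∈ above V e 2, (bars R a).card
      + 3 * (above V e 2).card := by
    rw [Finset.mul_sum, mul_comm 3, ← smul_eq_mul (a := (above V e 2).card),
      ← Finset.sum_const, ← Finset.sum_add_distrib]
    refine Finset.sum_congr rfl fun F hF => ?_
    rw [mem_above] at hF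
    have := card_bars_polygon (hV.mono hF.1.2.1) hF.2.1 (haF F hF.1)
    omega
  have hF2 : ∑ F ∈ above V e 3, (bars F a).card
      = ∑ B ∈ starB V e a, ((above V e 3).filter (fun F => B ⊆ F)).card := by
    refine sum_card_eq (above V e 3) (fun F => bars F a) (starB V e a) (fun F hF B hB => ?_)
      (fun B F => B ⊆ F) (fun F hF B hB => ?_)
    · rw [← bars_filter hV ha (mem_above.1 hF).1, Finset.mem_filter] at hB
      exact (hmem B).2 ⟨hB.1, F, hF, hB.2⟩
    · rw [← bars_filter hV ha (mem_above.1 hF).1, Finset.mem_filter]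
      exact ⟨fun h => ⟨((hmem B).1 hB).1, h⟩, fun h => h.2⟩
  have hR2 : ∑ F ∈ above V e 2, (bars F a).card
      = ∑ B ∈ starB V e a, ((above V e 2).filter (fun F => B ⊆ F)).card := by
    refine sum_card_eq (above V e 2) (fun F => bars F a) (starB V e a) (fun R hR B hB => ?_)
      (fun B F => B ⊆ F) (fun F hF B hB => ?_)
    · obtain ⟨F, hF, hRF⟩ := exists_facet_above h4 hR
      rw [← bars_filter hV ha (mem_above.1 hR).1, Finset.mem_filter] at hB
      exact (hmem B).2 ⟨hB.1, F, hF, hB.2.trans hRF⟩
    · rw [← bars_filter hV ha (mem_above.1 hF).1, Finset.mem_filter]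
      exact ⟨fun h => ⟨((hmem B).1 hB).1, h⟩, fun h => h.2⟩
  have hmain : (starB V e a).card + ∑ R ∈ above V e 2, (bars R a).card
      = ∑ F ∈ above V e 3, (bars F a).card + 1 := by
    rw [hF2, hR2, ← Finset.add_sum_erase _ _ heB, ← Finset.add_sum_erase _ (fun B =>
      ((above V e 3).filter (fun F => B ⊆ F)).card) heB, count_edge 2 subset_rfl,
      count_edge 3 subset_rfl, card_above h4 he]
    have h7 : ∑ B ∈ (starB V e a).erase e, ((above V e 3).filter (fun F => B ⊆ F)).card
        = ∑ B ∈ (starB V e a).erase e, ((above V e 2).filter (fun F => B ⊆ F)).card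
          + ((starB V e a).erase e).card := by
      rw [Finset.card_eq_sum_ones, ← Finset.sum_add_distrib]
      refine Finset.sum_congr rfl fun B hB => ?_
      rw [Finset.mem_erase] at hB
      obtain ⟨hBe, hB⟩ := hB
      obtain ⟨hBb, F, hF, hBF⟩ := (hmem B).1 hB
      refine (star_count h4 he (Y := B) (fun h => hBe ?_) hF hBF).1
      exact Finset.eq_of_subset_of_card_le h
        (by rw [card_edge hV he, (card_of_mem_bars hV ha hBb).1])
    rw [h7]
    have h8 := Finset.card_erase_add_one heB
    omega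
  have := card_above h4 he
  omega

/-- Every vertex in `starD` is in exactly one facet of the star. -/
theorem exists_unique_of_mem_starD (h4 : adim V = 4) (he : e ∈ faces V 1) {x : E}
    (hx : x ∈ starD V e) : ∃ F ∈ above V e 3, x ∈ F ∧ ∀ F' ∈ above V e 3, x ∈ F' → F' = F := by
  have hxV : x ∈ starV V e := (Finset.mem_filter.1 hx).1
  have h0 := (mem_starD_iff hxV).1 hx
  obtain ⟨F, hF, hxF⟩ := mem_starV.1 hxV
  have hxe : x ∉ e := by
    intro hxe
    obtain ⟨R, hR⟩ := above_two_nonempty h4 he
    exact (Finset.mem_filter.1 hx).2 R hR ((mem_above.1 hR).2.2 hxe)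
  have h1 := (star_count h4 he (Y := {x}) (by simpa using hxe) hF (by simpa using hxF)).1
  rw [h0, zero_add, Finset.card_eq_one] at h1
  obtain ⟨F0, hF0⟩ := h1
  have h2 : ∀ F' ∈ above V e 3, x ∈ F' → F' = F0 := fun F' hF' hxF' => by
    have : F' ∈ (above V e 3).filter (fun F => {x} ⊆ F) := by
      rw [Finset.mem_filter]
      exact ⟨hF', by simpa using hxF'⟩
    rw [hF0] at this
    simpa using this
  refine ⟨F, hF, hxF, fun F' hF' hxF' => ?_⟩
  rw [h2 F' hF' hxF', h2 F hF hxF]

end

end Pool.Agent.FV
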