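import Pool.Agent.Lib.MP_e9c977_fv.MaxPr

/-!
# Row EG: the end of the rigidity proof in `ℝ³`
-/

namespace Pool.Agent.FV

open Module
open scoped Classical

noncomputable section

section aux

variable {E : Type} [NormedAddCommGroup E] [InnerProductSpace ℝ E]

private theorem closed_sdiff_aux {V R M : Finset E} (hV : ConvPos V) (hR : FaceSet V R)
    (hM : ∀ x ∈ M, x ∈ V ∧ x ∉ R) (h0 : M.Nonempty)
    (h : ∀ x ∈ M, ∀ w ∈ nbr V x, w ∉ R → w ∈ M) : ∀ x ∈ V, x ∉ R → x ∈ M := by
  have h1 : M = V \ R := eq_of_closed_sdiff hV hR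
    (fun x hx => Finset.mem_sdiff.2 (hM x hx)) h0 h
  intro x hx hxR
  rw [h1]
  exact Finset.mem_sdiff.2 ⟨hx, hxR⟩

private theorem nbr_mem_aux {V : Finset E} {x y : E} (hy : y ∈ nbr V x) : y ∈ V :=
  Finset.mem_of_mem_erase (nbr_subset hy)

/-- The neighbours of a vertex are connected through the two-dimensional faces at the vertex. -/
private theorem star_conn {V : Finset E} (hV : ConvPos V) {p : E} (hp : p ∈ V) (G : E → Prop)
    (h0 : ∃ w ∈ nbr V p, G w)
    (h : ∀ w ∈ nbr V p, G w → ∀ w' ∈ nbr V p, w ≠ w' →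
      ∀ R ∈ faces V 2, p ∈ R → w ∈ R → w' ∈ R → G w') : ∀ w ∈ nbr V p, G w := by
  obtain ⟨g, hg⟩ := exists_cuts hV hp
  have hM : ((nbr V p).filter G).image (rad g p) = vfig g V p := by
    refine eq_of_closed (convPos_vfig hV hp hg) ?_ ?_ ?_
    · exact Finset.image_subset_image (Finset.filter_subset _ _)
    · obtain ⟨w, hw, hGw⟩ := h0
      exact ⟨rad g p w, Finset.mem_image_of_mem _ (Finset.mem_filter.2 ⟨hw, hGw⟩)⟩
    · intro x hx y hy
      obtain ⟨w, hw, rfl⟩ := Finset.mem_image.1 hx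
      obtain ⟨hw1, hGw⟩ := Finset.mem_filter.1 hw
      obtain ⟨w', hw', rfl⟩ := Finset.mem_image.1 (nbr_mem_aux hy)
      have hne : w ≠ w' := by
        rintro rfl
        exact (mem_nbr.1 hy).1 rfl
      obtain ⟨R, hR, hpR, hwR, hw'R⟩ := (rad_mem_nbr hV hp hg hw1 hw' hne).1 hy
      exact Finset.mem_image_of_mem _ (Finset.mem_filter.2
        ⟨hw', h w hw1 hGw w' hw' hne R hR hpR hwR hw'R⟩)
  intro w hw
  have h1 : rad g p w ∈ vfig g V p := Finset.mem_image_of_mem _ hw
  rw [← hM] at h1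
  obtain ⟨w', hw', he⟩ := Finset.mem_image.1 h1
  obtain ⟨hw1, hGw⟩ := Finset.mem_filter.1 hw'
  have := rad_injOn hV hp hg (by exact_mod_cast hw1) (by exact_mod_cast hw) he
  exact this ▸ hGw

/-- Two adjacent vertices are in a two-dimensional face. -/
private theorem exists_two_face {V : Finset E} (h3 : adim V = 3) {x y : E}
    (hy : y ∈ nbr V x) : ∃ R ∈ faces V 2, x ∈ R ∧ y ∈ R := by
  obtain ⟨hne, hF⟩ := mem_nbr.1 hy
  have h1 : adim ({x, y} : Finset E) = 1 := adim_pair hne.symm
  obtain ⟨T, hT, hsub⟩ := exists_face_between hF (i := 2) (by omega) (by omega)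
  exact ⟨T, hT, hsub (by simp), hsub (by simp)⟩

private theorem exists_nbr_not_mem {V R : Finset E} (hV : ConvPos V) {x : E} (hx : x ∈ V)
    (hxR : x ∈ R) (h : adim R < adim V) : ∃ y ∈ nbr V x, y ∉ R := by
  by_contra hcon
  push Not at hcon
  have h1 : insert x (nbr V x) ⊆ R := by
    intro y hy
    rcases Finset.mem_insert.1 hy with rfl | hy
    · exact hxR
    · exact hcon y hy
  have h2 := adim_mono h1
  have h3 : adim (insert x (nbr V x)) = adim V := by
    unfold adim
    rw [vectorSpan_insert_nbr hV hx]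
  omega

private theorem exists_vertex_two {V : Finset E} (hV : ConvPos V) (h3 : adim V = 3) :
    ∃ R, R ∈ faces V 2 := by
  have hne : V.Nonempty := by
    rw [Finset.nonempty_iff_ne_empty]
    rintro rfl
    rw [adim, Finset.coe_empty, vectorSpan_empty, finrank_bot] at h3
    omega
  obtain ⟨v, hv⟩ := hne
  obtain ⟨T, hT, _⟩ := exists_face_between (hV v hv) (i := 2)
    (by rw [adim_singleton]; omega) (by omega)
  exact ⟨T, hT⟩

/-- The general form of the connectivity argument. -/
private theorem propagate {V R0 : Finset E} (hV : ConvPos V) (h3 : adim V = 3)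
    (hR : R0 ∈ faces V 2) (A : Finset E → E →ₗ[ℝ] E) (q r : E → E)
    (hA : ∀ R ∈ faces V 2, R ≠ R0 → ∀ x ∈ R, q x = A R (r x))
    (hu : ∀ R ∈ faces V 2, R ≠ R0 → ∀ R' ∈ faces V 2, R' ≠ R0 → ∀ x ∈ R, ∀ y ∈ R, x ≠ y →
      A R (r x) = A R' (r x) → A R (r y) = A R' (r y) → A R = A R') :
    ∃ B : Finset E, B ∈ faces V 2 ∧ B ≠ R0 ∧ ∀ x ∈ V, q x = A B (r x) := by
  obtain ⟨hF, hd⟩ := mem_faces.1 hR
  -- a vertex outside `R0`
  obtain ⟨p, hp, hpR⟩ : ∃ p ∈ V, p ∉ R0 := by
    by_contra hcon
    push Not at hcon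
    have := adim_mono (show V ⊆ R0 from hcon)
    omega
  -- the star property
  have hstar : ∀ x ∈ V, x ∉ R0 → ∀ R ∈ faces V 2, x ∈ R → ∀ w ∈ nbr V x, q w = A R (r w) := by
    intro x hx hxR R hR1 hxR1
    have hRR0 : R ≠ R0 := fun he => hxR (he ▸ hxR1)
    refine star_conn hV hx (fun w => q w = A R (r w)) ?_ ?_
    · obtain ⟨hFR, hdR⟩ := mem_faces.1 hR1
      obtain ⟨y, hy, hyx⟩ : ∃ y ∈ R, y ∉ ({x} : Finset E) := by
        by_contra hcon
        push Not at hcon
        have := adim_mono (show R ⊆ {x} from hcon)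
        rw [adim_singleton] at this
        omega
      have hCR : ConvPos R := hV.mono hFR.2.1
      obtain ⟨w, hw, _⟩ := exists_nbr_not_mem hCR (R := {x}) hxR1 (by simp)
        (by rw [adim_singleton]; omega)
      refine ⟨w, ?_, hA R hR1 hRR0 w (nbr_mem_aux hw)⟩
      rw [nbr_face hFR hxR1] at hw
      exact (Finset.mem_inter.1 hw).2
    · intro w hw hG w' hw' hne R' hR' hxR' hwR' hw'R'
      have hR'R0 : R' ≠ R0 := fun he => hxR (he ▸ hxR')
      have e1 : A R' = A R := by
        refine hu R' hR' hR'R0 R hR1 hRR0 x hxR' w hwR' ?_ ?_ ?_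
        · rintro rfl
          exact (mem_nbr.1 hw).1 rfl
        · rw [← hA R' hR' hR'R0 x hxR', ← hA R hR1 hRR0 x hxR1]
        · rw [← hA R' hR' hR'R0 w hwR']
          exact hG
      change q w' = A R (r w')
      rw [← e1]
      exact hA R' hR' hR'R0 w' hw'R'
  -- a two-dimensional face at `p`
  obtain ⟨B, hB, hpB⟩ := exists_face_between (hV p hp) (i := 2)
    (by rw [adim_singleton]; omega) (by omega)
  have hpB' : p ∈ B := hpB (Finset.mem_singleton_self p)
  have hBR0 : B ≠ R0 := fun he => hpR (he ▸ hpB')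
  refine ⟨B, hB, hBR0, ?_⟩
  have hall := closed_sdiff_aux hV hF
    (M := V.filter (fun x => x ∉ R0 ∧ q x = A B (r x) ∧ ∀ w ∈ nbr V x, q w = A B (r w)))
    (fun x hx => ⟨(Finset.mem_filter.1 hx).1, (Finset.mem_filter.1 hx).2.1⟩)
    ⟨p, Finset.mem_filter.2 ⟨hp, hpR, hA B hB hBR0 p hpB', hstar p hp hpR B hB hpB'⟩⟩
    (by
      intro x hx w hw hwR
      obtain ⟨hxV, hxR, hqx, hqn⟩ := Finset.mem_filter.1 hx
      obtain ⟨R, hR1, hxR1, hwR1⟩ := exists_two_face h3 hw
      have hRR0 : R ≠ R0 := fun he => hxR (he ▸ hxR1)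
      have e1 : A R = A B := by
        refine hu R hR1 hRR0 B hB hBR0 x hxR1 w hwR1 ?_ ?_ ?_
        · rintro rfl
          exact (mem_nbr.1 hw).1 rfl
        · rw [← hA R hR1 hRR0 x hxR1]
          exact hqx
        · rw [← hA R hR1 hRR0 w hwR1]
          exact hqn w hw
      have hwV : w ∈ V := nbr_mem_aux hw
      refine Finset.mem_filter.2 ⟨hwV, hwR, hqn w hw, ?_⟩
      rw [← e1]
      exact hstar w hwV hwR R hR1 hwR1)
  intro x hx
  by_cases hxR : x ∈ R0
  · obtain ⟨y, hy, hyR⟩ := exists_nbr_not_mem hV hx hxR (by omega)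
    have hyV : y ∈ V := nbr_mem_aux hy
    have := (Finset.mem_filter.1 (hall y hyV hyR)).2.2.2 x (nbr_symm.1 hy)
    exact this
  · exact (Finset.mem_filter.1 (hall x hx hxR)).2.2.1

private theorem exists_motion_insert {q : E → E} {R : Finset E} {c : E}
    (h : ∀ x ∈ R, ∀ y ∈ R, inner ℝ (x - c) (q y - q c) + inner ℝ (y - c) (q x - q c) = 0) :
    ∃ A : E →ₗ[ℝ] E, Skew A ∧ ∀ x ∈ R, ∀ z ∈ vectorSpan ℝ (insert c (R : Set E)),
      inner ℝ (q x - q c - A (x - c)) z = 0 := by
  obtain ⟨A, hA, hAq⟩ := exists_motion (braced_insert_iff.2 h)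
  refine ⟨A, hA, fun x hx z hz => ?_⟩
  refine hAq x (Finset.mem_insert_of_mem hx) c (Finset.mem_insert_self _ _) z ?_
  rw [Finset.coe_insert]
  exact hz

/-- The vector span of `insert c R`. -/
private theorem vectorSpan_lt_insert {R : Set E} {c x : E} (hx : x ∈ R)
    (hc : c ∉ affineSpan ℝ R) : vectorSpan ℝ R < vectorSpan ℝ (insert c R) := by
  refine lt_of_le_of_ne (vectorSpan_mono ℝ (Set.subset_insert _ _)) ?_
  intro he
  apply hc
  have h1 : c -ᵥ x ∈ vectorSpan ℝ (insert c R) :=
    vsub_mem_vectorSpan ℝ (Set.mem_insert _ _) (Set.mem_insert_of_mem _ hx)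
  rw [← he] at h1
  have h2 := AffineSubspace.vadd_mem_of_mem_direction
    (s := affineSpan ℝ R) (by rwa [direction_affineSpan]) (subset_affineSpan ℝ R hx)
  simpa using h2

end aux

/-- A skew map of three-space killing two independent vectors is zero. -/
private theorem skew_zero {C : E3 →ₗ[ℝ] E3} (hC : Skew C) {x y : E3}
    (h : LinearIndependent ℝ ![x, y]) (hx : C x = 0) (hy : C y = 0) : C = 0 := by
  set K : Submodule ℝ E3 := Submodule.span ℝ (Set.range ![x, y]) with hK
  have hxK : x ∈ K := Submodule.subset_span ⟨0, rfl⟩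
  have hyK : y ∈ K := Submodule.subset_span ⟨1, rfl⟩
  have hfK : finrank ℝ K = 2 := by
    have := finrank_span_eq_card h
    simpa using this
  have hfo : finrank ℝ Kᗮ = 1 := by
    have h1 := Submodule.finrank_add_finrank_orthogonal K
    have h2 : finrank ℝ E3 = 3 := by simp
    omega
  have hCK : ∀ z ∈ K, C z = 0 := by
    intro z hz
    have hle : K ≤ LinearMap.ker C := by
      rw [hK, Submodule.span_le]
      rintro _ ⟨i, rfl⟩
      fin_cases i
      · exact hx
      · exact hy
    exact hle hz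
  obtain ⟨n, hn0, hn⟩ := finrank_eq_one_iff'.1 hfo
  have hnK : (n : E3) ∈ Kᗮ := n.2
  have hCn : C (n : E3) ∈ Kᗮ := by
    rw [Submodule.mem_orthogonal]
    intro u hu
    rw [real_inner_comm, hC.inner_left, hCK u hu]
    simp
  obtain ⟨s, hs⟩ := hn ⟨C n, hCn⟩
  have hs' : s • (n : E3) = C n := congrArg Subtype.val hs
  have hn0' : (n : E3) ≠ 0 := fun h0 => hn0 (Subtype.ext h0)
  have hCn0 : C (n : E3) = 0 := by
    have h1 := hC (n : E3)
    rw [← hs', inner_smul_left] at h1
    have h2 : inner ℝ (n : E3) (n : E3) ≠ 0 := inner_self_ne_zero.2 hn0'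
    have h3 : s = 0 := by
      rcases mul_eq_zero.1 h1 with h | h
      · simpa using h
      · exact absurd h h2
    rw [← hs', h3, zero_smul]
  ext1 z
  obtain ⟨a, ha, b, hb, rfl⟩ := K.exists_add_mem_mem_orthogonal z
  obtain ⟨t, ht⟩ := hn ⟨b, hb⟩
  have ht' : t • (n : E3) = b := congrArg Subtype.val ht
  rw [map_add, hCK a ha, ← ht', map_smul, hCn0]
  simp

private theorem indep_aux {R : Set E3} {c p w : E3} (hp : p ∈ R) (hw : w ∈ R) (hne : p ≠ w)
    (hc : c ∉ affineSpan ℝ R) : LinearIndependent ℝ ![p - c, w - c] := by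
  rw [LinearIndependent.pair_iff]
  intro s t hst
  by_cases h0 : s + t = 0
  · have ht : t = -s := by linarith
    rw [ht] at hst
    have h1 : s • (p - w) = 0 := by
      rw [← hst]
      module
    rcases smul_eq_zero.1 h1 with h | h
    · exact ⟨h, by rw [ht, h, neg_zero]⟩
    · exact absurd (sub_eq_zero.1 h) hne
  · exfalso
    apply hc
    have h1 : c = AffineMap.lineMap p w (t / (s + t)) := by
      rw [AffineMap.lineMap_apply, vsub_eq_sub, vadd_eq_add]
      have h2 : (s + t) • c = (s + t) • ((t / (s + t)) • (w - p) + p) := by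
        rw [smul_add, smul_smul, mul_div_cancel₀ _ h0]
        have : s • (p - c) + t • (w - c) = 0 := hst
        have h3 : (s + t) • c = s • p + t • w := by
          have h4 : s • p + t • w - (s + t) • c = 0 := by
            rw [← this]
            module
          exact (sub_eq_zero.1 h4).symm
        rw [h3]
        module
      exact smul_right_injective _ h0 h2
    rw [h1]
    exact AffineMap.lineMap_mem _ (subset_affineSpan ℝ _ hp) (subset_affineSpan ℝ _ hw)

/-- A motion without radial part is a rotation about `c`. -/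
theorem braced_of_radial_zero {V : Finset E3} (hV : ConvPos V) (h3 : adim V = 3)
    {R0 : Finset E3} (hR : R0 ∈ faces V 2) {c : E3} (hc : IsBase V R0 c)
    {q : E3 → E3} (hq : ∀ R ∈ faces V 2, Braced q R)
    (hq0 : ∀ x ∈ V, inner ℝ (q x) (x - c) = 0) : Braced q V := by
  -- the motion of a face
  have hmat : ∀ R : Finset E3, ∃ A : E3 →ₗ[ℝ] E3, Skew A ∧
      (R ∈ faces V 2 → R ≠ R0 → ∀ x ∈ R, q x = A (x - c)) := by
    intro R
    by_cases hR1 : R ∈ faces V 2 ∧ R ≠ R0
    swap
    · exact ⟨0, by intro z; simp, fun h1 h2 => absurd ⟨h1, h2⟩ hR1⟩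
    obtain ⟨hR1, hRR0⟩ := hR1
    obtain ⟨hF, hd⟩ := mem_faces.1 hR1
    have hcR : c ∉ affineSpan ℝ (R : Set E3) := hc.2 R hR1 hRR0
    have hcR' : c ∉ R := fun h => hcR (subset_affineSpan ℝ _ h)
    have hbr : ∀ x ∈ R, ∀ y ∈ R,
        inner ℝ (x - c) (Function.update q c 0 y - Function.update q c 0 c)
          + inner ℝ (y - c) (Function.update q c 0 x - Function.update q c 0 c) = 0 := by
      intro x hx y hy
      have hxc : x ≠ c := fun h => hcR' (h ▸ hx)
      have hyc : y ≠ c := fun h => hcR' (h ▸ hy)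
      rw [Function.update_self, Function.update_of_ne hxc, Function.update_of_ne hyc, sub_zero,
        sub_zero]
      have e1 := hq R hR1 x hx y hy
      have e2 := hq0 x (hF.2.1 hx)
      have e3 := hq0 y (hF.2.1 hy)
      have e4 : inner ℝ (x - y) (q x - q y)
          = inner ℝ (q x) (x - c) + inner ℝ (q y) (y - c)
            - (inner ℝ (x - c) (q y) + inner ℝ (y - c) (q x)) := by
        rw [show x - y = (x - c) - (y - c) by abel, inner_sub_left, inner_sub_right,
          inner_sub_right, real_inner_comm (q x) (x - c), real_inner_comm (q y) (y - c)]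
        ring
      linarith
    obtain ⟨A, hA, hAq⟩ := exists_motion_insert hbr
    refine ⟨A, hA, fun _ _ x hx => ?_⟩
    obtain ⟨x0, hx0⟩ := hF.1
    have htop : vectorSpan ℝ (insert c (R : Set E3)) = ⊤ := by
      apply Submodule.eq_top_of_finrank_eq
      have h1 : vectorSpan ℝ (R : Set E3) < vectorSpan ℝ (insert c (R : Set E3)) :=
        vectorSpan_lt_insert (R := (R : Set E3)) (by exact_mod_cast hx0) hcR
      have h2 := Submodule.finrank_lt_finrank_of_lt h1
      have h4 := Submodule.finrank_le (vectorSpan ℝ (insert c (R : Set E3)))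
      have h5 : finrank ℝ E3 = 3 := by simp
      have h6 : finrank ℝ (vectorSpan ℝ (R : Set E3)) = 2 := hd
      omega
    have hxc : x ≠ c := fun h => hcR' (h ▸ hx)
    have h1 := hAq x hx
    rw [Function.update_self, Function.update_of_ne hxc, sub_zero, htop] at h1
    have h2 := h1 (q x - A (x - c)) Submodule.mem_top
    exact sub_eq_zero.1 (inner_self_eq_zero.1 h2)
  choose A hAs hA using hmat
  obtain ⟨B, hB, hBR0, hall⟩ := propagate hV h3 hR A q (fun x => x - c)
    (fun R hR1 hR2 x hx => hA R hR1 hR2 x hx)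
    (by
      intro R hR1 hR2 R' hR1' hR2' x hx y hy hxy e1 e2
      have hcR : c ∉ affineSpan ℝ (R : Set E3) := hc.2 R hR1 hR2
      have hli := indep_aux (R := (R : Set E3)) (by exact_mod_cast hx) (by exact_mod_cast hy)
        hxy hcR
      have hsk : Skew (A R - A R') := by
        intro z
        rw [LinearMap.sub_apply, inner_sub_left, hAs R z, hAs R' z, sub_zero]
      have := skew_zero hsk hli (by rw [LinearMap.sub_apply]; exact sub_eq_zero.2 e1)
        (by rw [LinearMap.sub_apply]; exact sub_eq_zero.2 e2)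
      exact sub_eq_zero.1 this)
  refine braced_of_motion (hAs B) (fun x hx y hy => ?_)
  rw [hall x hx, hall y hy, ← map_sub, ← map_sub]
  rw [show x - c - (y - c) - (x - y) = 0 by abel, map_zero, inner_zero_left]

theorem braced_E3 {V : Finset E3} (hV : ConvPos V) (h3 : adim V = 3) {q : E3 → E3}
    (hq : ∀ R ∈ faces V 2, Braced q R) : Braced q V := by
  obtain ⟨R0, hR0⟩ := exists_vertex_two hV h3
  obtain ⟨c, hc⟩ := exists_base hR0
  obtain ⟨hF, hd⟩ := mem_faces.1 hR0
  obtain ⟨⟨x0, hx0⟩, hsub, l, d, hl, hl'⟩ := hF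
  obtain ⟨n, hn⟩ : ∃ n : E3, ∀ z, inner ℝ n z = - l z := by
    refine ⟨(InnerProductSpace.toDual ℝ E3).symm (LinearMap.toContinuousLinearMap (-l)), ?_⟩
    intro z
    rw [InnerProductSpace.toDual_symm_apply]
    rfl
  have hlc : l c = d := by
    have h1 : convexHull ℝ (R0 : Set E3) ⊆ {z | l z = d} := by
      refine convexHull_min ?_ ?_
      · intro x hx
        exact (hl' x (hsub hx)).2 hx
      · exact convex_hyperplane l.isLinear d
    exact h1 hc.1
  obtain ⟨A, hA, hAq⟩ := exists_motion (hq R0 hR0)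
  have hq1 : ∀ R ∈ faces V 2, Braced (fun x => q x - (A x + (q x0 - A x0))) R :=
    fun R hR => (braced_sub_motion hA _).2 (hq R hR)
  have hcA : c ∈ affineSpan ℝ (R0 : Set E3) := convexHull_subset_affineSpan _ hc.1
  obtain ⟨m, hm⟩ := radial_const hV h3 hR0 hc (n := n)
    (by
      intro x hx
      rw [hn, map_sub, (hl' x (hsub hx)).2 hx, hlc]
      simp)
    (by
      intro x hx hxR
      rw [hn, map_sub, hlc]
      have h1 := hl x hx
      have h2 : l x ≠ d := fun h => hxR ((hl' x hx).1 h)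
      have h3 : l x < d := lt_of_le_of_ne h1 h2
      linarith) hq1
    (by
      intro x hx
      have h1 : x - c ∈ vectorSpan ℝ (R0 : Set E3) := by
        rw [← direction_affineSpan]
        exact AffineSubspace.vsub_mem_direction (subset_affineSpan ℝ _ (by exact_mod_cast hx)) hcA
      have h2 := hAq x hx x0 hx0 (x - c) h1
      rw [← h2]
      congr 1
      rw [map_sub]
      abel)
  have hq2 : ∀ R ∈ faces V 2, Braced (fun x => (fun x => q x - (A x + (q x0 - A x0))) x
      - ((0 : E3 →ₗ[ℝ] E3) x + m • n)) R :=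
    fun R hR => (braced_sub_motion (A := (0 : E3 →ₗ[ℝ] E3)) (by intro z; simp) (m • n)).2
      (hq1 R hR)
  have hfin := braced_of_radial_zero hV h3 hR0 hc hq2 (by
    intro x hx
    have h1 := hm x hx
    simp only [LinearMap.zero_apply, zero_add] at h1 ⊢
    rw [inner_sub_left, h1, inner_smul_left]
    simp)
  have h4 := (braced_sub_motion (A := (0 : E3 →ₗ[ℝ] E3)) (by intro z; simp) (m • n)).1 hfin
  exact (braced_sub_motion hA _).1 h4

end

end Pool.Agent.FV
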