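import Pool.Agent.Lib.MP_e9c977_fv.Euler4

/-!
# Row V1: Euler's relation in dimension five
-/

namespace Pool.Agent.FV

open Module
open scoped Classical

variable {E : Type} [NormedAddCommGroup E] [InnerProductSpace ℝ E]

/-- The half-space version in dimension four. -/
theorem euler_four_lower {V : Finset E} (hV : ConvPos V) (h4 : adim V = 4)
    (l : E →ₗ[ℝ] ℝ) {c : ℝ} (hne : ∀ x ∈ V, l x ≠ c) (hlo : ∃ x ∈ V, l x < c)
    (hhi : ∃ x ∈ V, c < l x) :
    ((V.filter (fun x => l x < c)).card : ℤ)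
      - ((faces V 1).filter (fun S => ∀ x ∈ S, l x < c)).card
      + ((faces V 2).filter (fun S => ∀ x ∈ S, l x < c)).card
      - ((faces V 3).filter (fun S => ∀ x ∈ S, l x < c)).card = 1 := by
  obtain ⟨l', hl', hA, hB, -⟩ := exists_generic V l c
  have hiff : ∀ x ∈ V, (l x < c ↔ l' x < c) := by
    intro x hx
    rcases lt_or_gt_of_ne (hne x hx) with h | h
    · exact ⟨fun _ => hA x hx h, fun _ => h⟩
    · exact ⟨fun h' => absurd h' (not_lt.2 h.le), fun h' => absurd h' (not_lt.2 (hB x hx h).le)⟩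
  have r0 : V.filter (fun x => l x < c) = V.filter (fun x => l' x < c) :=
    Finset.filter_congr hiff
  have rS : ∀ i, (faces V i).filter (fun S => ∀ x ∈ S, l x < c)
      = (faces V i).filter (fun S => ∀ x ∈ S, l' x < c) := by
    intro i
    apply Finset.filter_congr
    intro S hS
    have hSV := (E3Aux.faces_nonempty_subset i S hS).2
    exact forall₂_congr (fun x hx => hiff x (hSV hx))
  rw [r0, rS, rS, rS, E3Aux.card_lower_eq_sum l' hl' c _ (E3Aux.faces_nonempty_subset 1),
    E3Aux.card_lower_eq_sum l' hl' c _ (E3Aux.faces_nonempty_subset 2),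
    E3Aux.card_lower_eq_sum l' hl' c _ (E3Aux.faces_nonempty_subset 3)]
  have hs := E3Aux.sum_lower (V := V) ⟨_, hlo.choose_spec.1⟩ l' hl' (c := c)
    (fun u => (1 : ℤ) - (E3Aux.tops l' (faces V 1) u).card + (E3Aux.tops l' (faces V 2) u).card
      - (E3Aux.tops l' (faces V 3) u).card) 1
    (fun x hx h => E4Aux.chi_min l' hl' hx h)
    (fun x hx h h' => E4Aux.chi_mid l' hV h4 hl' hx h h')
    (by obtain ⟨x, hx, h⟩ := hlo; exact ⟨x, hx, hA x hx h⟩)
    (by obtain ⟨x, hx, h⟩ := hhi; exact ⟨x, hx, hB x hx h⟩)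
  simp only [Finset.sum_add_distrib, Finset.sum_sub_distrib, Finset.sum_const, nsmul_eq_mul,
    mul_one] at hs
  push_cast
  linarith [hs]

namespace V1Aux

open E3Aux

variable {V : Finset E} {u : E} (l : E →ₗ[ℝ] ℝ)

theorem chi_mid (hV : ConvPos V) (h5 : adim V = 5) (hl : Set.InjOn l (V : Set E))
    (hu : u ∈ V) (h1 : ∃ y ∈ V, l y < l u) (h2 : ∃ y ∈ V, l u < l y) :
    (1 : ℤ) - (tops l (faces V 1) u).card + (tops l (faces V 2) u).card
      - (tops l (faces V 3) u).card + (tops l (faces V 4) u).card = 0 := by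
  obtain ⟨g, hg⟩ := exists_cuts hV hu
  have hU := convPos_vfig hV hu hg
  have hd := adim_vfig hV hu hg (by omega)
  have e1 := card_tops hV hu hg l hl 0
  have e2 := card_tops hV hu hg l hl 1
  have e3 := card_tops hV hu hg l hl 2
  have e4 := card_tops hV hu hg l hl 3
  rw [card_faces_zero_filter hU] at e1
  have e5 := euler_four_lower hU (by omega) l (vfig_ne_zero hu hg l hl)
    (vfig_exists_neg hV hu hg l h1) (vfig_exists_pos hV hu hg l h2)
  simp only [zero_add, Nat.reduceAdd] at e1 e2 e3 e4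
  rw [e1, e2, e3, e4]
  omega

theorem chi_max (hV : ConvPos V) (h5 : adim V = 5)
    (hu : u ∈ V) (h : ∀ y ∈ V, l y ≤ l u) :
    (1 : ℤ) - (tops l (faces V 1) u).card + (tops l (faces V 2) u).card
      - (tops l (faces V 3) u).card + (tops l (faces V 4) u).card = 1 := by
  obtain ⟨g, hg⟩ := exists_cuts hV hu
  have hU := convPos_vfig hV hu hg
  have hd := adim_vfig hV hu hg (by omega)
  have e1 := card_tops_max hV hu hg l h 0
  have e2 := card_tops_max hV hu hg l h 1
  have e3 := card_tops_max hV hu hg l h 2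
  have e4 := card_tops_max hV hu hg l h 3
  have e5 := euler_four hU (by omega)
  rw [card_faces_zero hU] at e1
  simp only [zero_add, Nat.reduceAdd] at e1 e2 e3 e4
  rw [e1, e2, e3, e4]
  omega

theorem chi_min (hl : Set.InjOn l (V : Set E))
    (hu : u ∈ V) (h : ∀ y ∈ V, l u ≤ l y) :
    (1 : ℤ) - (tops l (faces V 1) u).card + (tops l (faces V 2) u).card
      - (tops l (faces V 3) u).card + (tops l (faces V 4) u).card = 1 := by
  have e1 := card_tops_min l hu hl h 0
  have e2 := card_tops_min l hu hl h 1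
  have e3 := card_tops_min l hu hl h 2
  have e4 := card_tops_min l hu hl h 3
  simp only [zero_add, Nat.reduceAdd] at e1 e2 e3 e4
  rw [e1, e2, e3, e4]
  norm_num

end V1Aux

open E3Aux in
theorem euler_five {V : Finset E} (hV : ConvPos V) (h5 : adim V = 5) :
    (V.card : ℤ) - (faces V 1).card + (faces V 2).card - (faces V 3).card
      + (faces V 4).card = 2 := by
  obtain ⟨l', hl', -⟩ := exists_generic V 0 0
  rw [card_eq_sum l' hl' _ (faces_nonempty_subset 1),
    card_eq_sum l' hl' _ (faces_nonempty_subset 2),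
    card_eq_sum l' hl' _ (faces_nonempty_subset 3),
    card_eq_sum l' hl' _ (faces_nonempty_subset 4)]
  have hs := sum_all (V := V) (exists_two (by omega)) l' hl'
    (fun u => (1 : ℤ) - (tops l' (faces V 1) u).card + (tops l' (faces V 2) u).card
      - (tops l' (faces V 3) u).card + (tops l' (faces V 4) u).card) 1 1
    (fun x hx h => V1Aux.chi_min l' hl' hx h)
    (fun x hx h h' => V1Aux.chi_mid l' hV h5 hl' hx h h')
    (fun x hx h => V1Aux.chi_max l' hV h5 hx h)
  simp only [Finset.sum_add_distrib, Finset.sum_sub_distrib, Finset.sum_const, nsmul_eq_mul,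
    mul_one] at hs
  push_cast
  linarith [hs]

end Pool.Agent.FV
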