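import Pool.Agent.Lib.MP_e9c977_fv.VFig

/-!
# Row PO: polarity
-/

namespace Pool.Agent.FV

open Module
open scoped Classical

noncomputable section

section hull

variable {E : Type} [NormedAddCommGroup E] [InnerProductSpace ℝ E]

private theorem po_const {S : Finset E} {l : E →ₗ[ℝ] ℝ} {c : ℝ} (h : ∀ x ∈ S, l x = c) :
    ∀ x ∈ convexHull ℝ (S : Set E), l x = c := by
  intro x hx
  rw [Finset.mem_convexHull'] at hx
  obtain ⟨w, hw, h1, rfl⟩ := hx
  rw [map_sum]
  calc ∑ y ∈ S, l (w y • y) = ∑ y ∈ S, w y * c := by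
        refine Finset.sum_congr rfl fun y hy => ?_
        rw [map_smul, smul_eq_mul, h y hy]
    _ = c := by rw [← Finset.sum_mul, h1, one_mul]

private theorem po_le {S : Finset E} {l : E →ₗ[ℝ] ℝ} {c : ℝ} (h : ∀ x ∈ S, l x ≤ c) :
    ∀ x ∈ convexHull ℝ (S : Set E), l x ≤ c := by
  intro x hx
  rw [Finset.mem_convexHull'] at hx
  obtain ⟨w, hw, h1, rfl⟩ := hx
  rw [map_sum]
  calc ∑ y ∈ S, l (w y • y) ≤ ∑ y ∈ S, w y * c := by
        refine Finset.sum_le_sum fun y hy => ?_
        rw [map_smul, smul_eq_mul]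
        exact mul_le_mul_of_nonneg_left (h y hy) (hw y hy)
    _ = c := by rw [← Finset.sum_mul, h1, one_mul]

private theorem po_hull {V S : Finset E} {l : E →ₗ[ℝ] ℝ} {c : ℝ} (hSV : S ⊆ V)
    (hle : ∀ x ∈ V, l x ≤ c) (heq : ∀ x ∈ V, (l x = c ↔ x ∈ S)) {x : E}
    (hx : x ∈ convexHull ℝ (V : Set E)) (hxc : l x = c) : x ∈ convexHull ℝ (S : Set E) := by
  rw [Finset.mem_convexHull'] at hx
  obtain ⟨w, hw, h1, hsum⟩ := hx
  have h2 : ∑ y ∈ V, w y * (c - l y) = 0 := by
    have h3 : ∑ y ∈ V, w y * (c - l y) = (∑ y ∈ V, w y) * c - l (∑ y ∈ V, w y • y) := by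
      rw [map_sum, Finset.sum_mul, ← Finset.sum_sub_distrib]
      refine Finset.sum_congr rfl fun y _ => ?_
      rw [map_smul, smul_eq_mul]
      ring
    rw [h3, h1, hsum, hxc]
    ring
  have h4 : ∀ y ∈ V, w y * (c - l y) = 0 := by
    refine (Finset.sum_eq_zero_iff_of_nonneg fun y hy => ?_).1 h2
    exact mul_nonneg (hw y hy) (by linarith [hle y hy])
  have h5 : ∀ y ∈ V, y ∉ S → w y = 0 := by
    intro y hy hyS
    rcases mul_eq_zero.1 (h4 y hy) with h | h
    · exact h
    · exact absurd ((heq y hy).1 (by linarith)) hyS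
  rw [Finset.mem_convexHull']
  refine ⟨w, fun y hy => hw y (hSV hy), ?_, ?_⟩
  · rw [← h1]
    exact Finset.sum_subset hSV h5
  · rw [← hsum]
    refine Finset.sum_subset hSV fun y hy hyS => ?_
    rw [h5 y hy hyS, zero_smul]

end hull

variable {E : Type} [NormedAddCommGroup E] [InnerProductSpace ℝ E] [FiniteDimensional ℝ E]

/-- the data: a centre and the polar vectors of the facets -/
private structure PoData (V : Finset E) (c0 : E) (Y : Finset E → E) : Prop where
  dim : adim V = finrank ℝ E
  pos : 0 < finrank ℝ E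
  conv : ConvPos V
  centre : c0 ∈ convexHull ℝ (V : Set E)
  le : ∀ F ∈ faces V (finrank ℝ E - 1), ∀ x ∈ V, inner ℝ (Y F) (x - c0) ≤ 1
  iff : ∀ F ∈ faces V (finrank ℝ E - 1), ∀ x ∈ V, (inner ℝ (Y F) (x - c0) = 1 ↔ x ∈ F)

private theorem po_nonempty {V : Finset E} (h : adim V = finrank ℝ E) (hd : 0 < finrank ℝ E) :
    V.Nonempty := by
  by_contra hcon
  rw [Finset.not_nonempty_iff_eq_empty] at hcon
  rw [hcon] at h
  unfold adim at h
  rw [Finset.coe_empty, vectorSpan_empty, finrank_bot] at h
  omega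

private theorem po_rep (m : E →ₗ[ℝ] ℝ) : ∃ w : E, ∀ y, inner ℝ w y = m y := by
  refine ⟨(InnerProductSpace.toDual ℝ E).symm (LinearMap.toContinuousLinearMap m), fun y => ?_⟩
  rw [InnerProductSpace.toDual_symm_apply]
  rfl

private theorem po_data {V : Finset E} (hV : ConvPos V) (h : adim V = finrank ℝ E)
    (hd : 0 < finrank ℝ E) : ∃ (c0 : E) (Y : Finset E → E), PoData V c0 Y := by
  have hne := po_nonempty h hd
  have hcard : (0 : ℝ) < V.card := by exact_mod_cast Finset.card_pos.2 hne
  set c0 : E := ∑ x ∈ V, (V.card : ℝ)⁻¹ • x with hc0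
  have hc0mem : c0 ∈ convexHull ℝ (V : Set E) := by
    rw [Finset.mem_convexHull']
    refine ⟨fun _ => (V.card : ℝ)⁻¹, fun _ _ => inv_nonneg.2 hcard.le, ?_, rfl⟩
    rw [Finset.sum_const, nsmul_eq_mul, mul_inv_cancel₀ hcard.ne']
  have hex : ∀ F : Finset E, ∃ y : E, F ∈ faces V (finrank ℝ E - 1) → ∀ x ∈ V,
      inner ℝ y (x - c0) ≤ 1 ∧ (inner ℝ y (x - c0) = 1 ↔ x ∈ F) := by
    intro F
    by_cases hF : F ∈ faces V (finrank ℝ E - 1)
    · rw [mem_faces] at hF
      obtain ⟨⟨_, hFV, l, c, hle, heq⟩, hdim⟩ := hF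
      have hlt : l c0 < c := by
        obtain ⟨a, haV, haF⟩ : ∃ a ∈ V, a ∉ F := by
          by_contra hcon
          push Not at hcon
          have : F = V := Finset.Subset.antisymm hFV hcon
          rw [this] at hdim
          omega
        have h1 : l c0 = ∑ x ∈ V, (V.card : ℝ)⁻¹ * l x := by
          rw [hc0, map_sum]
          refine Finset.sum_congr rfl fun x _ => ?_
          rw [map_smul, smul_eq_mul]
        have h2 : ∑ x ∈ V, (V.card : ℝ)⁻¹ * l x < ∑ x ∈ V, (V.card : ℝ)⁻¹ * c := by
          refine Finset.sum_lt_sum (fun x hx => ?_) ⟨a, haV, ?_⟩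
          · exact mul_le_mul_of_nonneg_left (hle x hx) (inv_nonneg.2 hcard.le)
          · refine mul_lt_mul_of_pos_left ?_ (inv_pos.2 hcard)
            exact lt_of_le_of_ne (hle a haV) fun e => haF ((heq a haV).1 e)
        have h3 : ∑ x ∈ V, (V.card : ℝ)⁻¹ * c = c := by
          rw [Finset.sum_const, nsmul_eq_mul, ← mul_assoc, mul_inv_cancel₀ hcard.ne', one_mul]
        rw [h1]
        rw [h3] at h2
        exact h2
      obtain ⟨w, hw⟩ := po_rep l
      have hpos : 0 < c - l c0 := by linarith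
      refine ⟨(c - l c0)⁻¹ • w, fun _ x hx => ?_⟩
      have hval : inner ℝ ((c - l c0)⁻¹ • w) (x - c0) = (c - l c0)⁻¹ * (l x - l c0) := by
        rw [real_inner_smul_left, hw, map_sub]
      rw [hval]
      constructor
      · rw [inv_mul_le_iff₀ hpos]
        linarith [hle x hx]
      · rw [← heq x hx, inv_mul_eq_iff_eq_mul₀ hpos.ne']
        constructor
        · intro e; linarith
        · intro e; linarith
    · exact ⟨0, fun h => absurd h hF⟩
  choose Y hY using hex
  exact ⟨c0, Y, h, hd, hV, hc0mem, fun F hF x hx => (hY F hF x hx).1,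
    fun F hF x hx => (hY F hF x hx).2⟩

variable {V : Finset E} {c0 : E} {Y : Finset E → E}

private theorem po_val_hull (D : PoData V c0 Y) {F : Finset E}
    (hF : F ∈ faces V (finrank ℝ E - 1)) {z : E} (hz : z ∈ convexHull ℝ (F : Set E)) :
    inner ℝ (Y F) (z - c0) = 1 := by
  have h1 : ∀ x ∈ F, (innerₗ E (Y F)) x = 1 + inner ℝ (Y F) c0 := by
    intro x hx
    have := (D.iff F hF x ((mem_faces.1 hF).1.2.1 hx)).2 hx
    rw [inner_sub_right] at this
    rw [innerₗ_apply_apply]
    linarith
  have h2 := po_const h1 z hz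
  rw [innerₗ_apply_apply] at h2
  rw [inner_sub_right]
  linarith

private theorem po_le_hull (D : PoData V c0 Y) {F : Finset E}
    (hF : F ∈ faces V (finrank ℝ E - 1)) {z : E} (hz : z ∈ convexHull ℝ (V : Set E)) :
    inner ℝ (Y F) (z - c0) ≤ 1 := by
  have h1 : ∀ x ∈ V, (innerₗ E (Y F)) x ≤ 1 + inner ℝ (Y F) c0 := by
    intro x hx
    have := D.le F hF x hx
    rw [inner_sub_right] at this
    rw [innerₗ_apply_apply]
    linarith
  have h2 := po_le h1 z hz
  rw [innerₗ_apply_apply] at h2
  rw [inner_sub_right]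
  linarith

/-- a point outside the hull is cut off by a facet -/
private theorem po_sep (D : PoData V c0 Y) {z : E} (hz : z ∉ convexHull ℝ (V : Set E)) :
    ∃ F ∈ faces V (finrank ℝ E - 1), 1 < inner ℝ (Y F) (z - c0) := by
  set C : Set E := convexHull ℝ (V : Set E) with hC
  have hconv : Convex ℝ C := convex_convexHull ℝ _
  have hcomp : IsCompact C := V.finite_toSet.isCompact_convexHull ℝ
  set γ : ℝ → E := fun t => c0 + t • (z - c0) with hγ
  have hγc : Continuous γ := by fun_prop
  have hK : IsCompact (Set.Icc (0 : ℝ) 1 ∩ γ ⁻¹' C) :=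
    isCompact_Icc.inter_right (hcomp.isClosed.preimage hγc)
  have hKne : (Set.Icc (0 : ℝ) 1 ∩ γ ⁻¹' C).Nonempty := by
    refine ⟨0, ⟨le_rfl, zero_le_one⟩, ?_⟩
    show c0 + (0 : ℝ) • (z - c0) ∈ C
    rw [zero_smul, add_zero]
    exact D.centre
  obtain ⟨t, ⟨⟨ht0, ht1⟩, htC⟩, htmax⟩ := hK.exists_isGreatest hKne
  have ht1' : t < 1 := by
    refine lt_of_le_of_ne ht1 ?_
    rintro rfl
    apply hz
    have : γ 1 = z := by simp [hγ]
    rw [← this]
    exact htC
  have hnot : γ t ∉ interior C := by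
    intro hin
    have hev : ∀ᶠ s in nhdsWithin t (Set.Ioi t), γ s ∈ C ∧ s < 1 := by
      refine Filter.Eventually.filter_mono nhdsWithin_le_nhds ?_
      have h1 : ∀ᶠ s in nhds t, γ s ∈ interior C :=
        hγc.continuousAt.eventually (isOpen_interior.mem_nhds hin)
      have h2 : ∀ᶠ s in nhds t, s < 1 := Iio_mem_nhds ht1'
      filter_upwards [h1, h2] with s hs1 hs2 using ⟨interior_subset hs1, hs2⟩
    obtain ⟨s, ⟨hs1, hs2⟩, hs3⟩ := (hev.and self_mem_nhdsWithin).exists
    have hs3' : t < s := hs3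
    have := htmax ⟨⟨by linarith, hs2.le⟩, hs1⟩
    linarith
  obtain ⟨f, hf⟩ := geometric_hahn_banach_open_point hconv.interior isOpen_interior hnot
  have htop : affineSpan ℝ (V : Set E) = ⊤ := by
    have hne : (V : Set E).Nonempty := by exact_mod_cast po_nonempty D.dim D.pos
    rw [AffineSubspace.affineSpan_eq_top_iff_vectorSpan_eq_top_of_nonempty ℝ _ _ hne]
    exact vectorSpan_eq_top D.dim
  obtain ⟨a, ha⟩ : (interior C).Nonempty :=
    interior_convexHull_nonempty_iff_affineSpan_eq_top.2 htop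
  have hfa := hf a ha
  have hfle : ∀ x ∈ V, f x ≤ f (γ t) := by
    intro x hx
    by_contra hcon
    push Not at hcon
    have hxC : x ∈ C := subset_convexHull ℝ _ (Finset.mem_coe.2 hx)
    have hpos : 0 < f x - f a := by linarith
    set s : ℝ := (f (γ t) - f a) / (f x - f a) with hs
    have hs1 : s < 1 := by
      rw [hs, div_lt_one hpos]
      linarith
    have hs0 : 0 ≤ s := div_nonneg (by linarith) hpos.le
    have hmem := hconv.combo_interior_self_mem_interior ha hxC (a := 1 - s) (b := s)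
      (by linarith) hs0 (by ring)
    have h2 := hf _ hmem
    rw [map_add, map_smul, map_smul, smul_eq_mul, smul_eq_mul] at h2
    have h3 : s * (f x - f a) = f (γ t) - f a := by
      rw [hs]
      field_simp
    nlinarith
  set S : Finset E := V.filter (fun x => f x = f (γ t)) with hS
  have hSV : S ⊆ V := Finset.filter_subset _ _
  have heq : ∀ x ∈ V, ((f : E →ₗ[ℝ] ℝ) x = f (γ t) ↔ x ∈ S) := by
    intro x hx
    simp only [hS, Finset.mem_filter, hx, true_and]
    rfl
  have hγS : γ t ∈ convexHull ℝ (S : Set E) :=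
    po_hull (l := (f : E →ₗ[ℝ] ℝ)) hSV hfle heq htC rfl
  have hSne : S.Nonempty := by
    by_contra hcon
    rw [Finset.not_nonempty_iff_eq_empty] at hcon
    rw [hcon] at hγS
    simp at hγS
  have hSface : FaceSet V S := ⟨hSne, hSV, (f : E →ₗ[ℝ] ℝ), f (γ t), hfle, heq⟩
  have hSne' : S ≠ V := by
    intro e
    have h1 : ∀ x ∈ V, (f : E →ₗ[ℝ] ℝ) x = f (γ t) := by
      intro x hx
      exact (heq x hx).2 (e ▸ hx)
    have h2 := po_const h1 a (interior_subset ha)
    have h3 : f a = f (γ t) := h2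
    linarith
  have hlt := hSface.adim_lt (lt_of_le_of_ne hSV hSne') le_rfl
  rw [D.dim] at hlt
  obtain ⟨F, hF, hSF⟩ := exists_face_between hSface (i := finrank ℝ E - 1) (by omega)
    (by rw [D.dim]; omega)
  refine ⟨F, hF, ?_⟩
  have h1 := po_val_hull D hF (convexHull_mono (by exact_mod_cast hSF) hγS)
  have h2 : γ t - c0 = t • (z - c0) := by simp [hγ]
  rw [h2, real_inner_smul_right] at h1
  have h3 : 0 < inner ℝ (Y F) (z - c0) := by
    by_contra hcon
    push Not at hcon
    nlinarith
  nlinarith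

/-- no nonzero vector is nonpositive on all polar vectors -/
private theorem po_pos (D : PoData V c0 Y) {w : E} (hw : w ≠ 0) :
    ∃ F ∈ faces V (finrank ℝ E - 1), 0 < inner ℝ (Y F) w := by
  have hcomp : IsCompact (convexHull ℝ (V : Set E)) := V.finite_toSet.isCompact_convexHull ℝ
  obtain ⟨r, hr⟩ := (Metric.isBounded_iff_subset_closedBall c0).1 hcomp.isBounded
  have hr0 : 0 ≤ r := by
    have := hr D.centre
    rw [Metric.mem_closedBall, dist_self] at this
    exact this
  have hwn : 0 < ‖w‖ := norm_pos_iff.2 hw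
  set a : ℝ := (r + 1) / ‖w‖ with ha
  have ha0 : 0 < a := div_pos (by linarith) hwn
  have hz : c0 + a • w ∉ convexHull ℝ (V : Set E) := by
    intro hmem
    have h1 := hr hmem
    rw [Metric.mem_closedBall, dist_eq_norm, add_sub_cancel_left, norm_smul,
      Real.norm_of_nonneg ha0.le, ha, div_mul_cancel₀ _ hwn.ne'] at h1
    linarith
  obtain ⟨F, hF, h1⟩ := po_sep D hz
  refine ⟨F, hF, ?_⟩
  rw [add_sub_cancel_left, real_inner_smul_right] at h1
  by_contra hcon
  push Not at hcon
  nlinarith

private theorem po_inj (D : PoData V c0 Y) {F G : Finset E}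
    (hF : F ∈ faces V (finrank ℝ E - 1)) (hG : G ∈ faces V (finrank ℝ E - 1))
    (h : Y F = Y G) : F = G := by
  ext x
  constructor
  · intro hx
    have hxV := (mem_faces.1 hF).1.2.1 hx
    rw [← D.iff G hG x hxV, ← h, D.iff F hF x hxV]
    exact hx
  · intro hx
    have hxV := (mem_faces.1 hG).1.2.1 hx
    rw [← D.iff F hF x hxV, h, D.iff G hG x hxV]
    exact hx

/-- the polar configuration -/
private def poV (V : Finset E) (Y : Finset E → E) : Finset E :=
  (faces V (finrank ℝ E - 1)).image Y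

/-- the polar face -/
private def poΦ (V : Finset E) (Y : Finset E → E) (S : Finset E) : Finset E :=
  ((faces V (finrank ℝ E - 1)).filter (fun F => S ⊆ F)).image Y

private theorem po_mem (D : PoData V c0 Y) {S F : Finset E}
    (hF : F ∈ faces V (finrank ℝ E - 1)) : Y F ∈ poΦ V Y S ↔ S ⊆ F := by
  unfold poΦ
  rw [Finset.mem_image]
  constructor
  · rintro ⟨G, hG, he⟩
    rw [Finset.mem_filter] at hG
    rw [← po_inj D hG.1 hF he]
    exact hG.2
  · intro h
    exact ⟨F, Finset.mem_filter.2 ⟨hF, h⟩, rfl⟩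

private theorem po_exists_facet (D : PoData V c0 Y) {S : Finset E} (hS : FaceSet V S)
    (hne : S ≠ V) : ∃ F ∈ faces V (finrank ℝ E - 1), S ⊆ F := by
  have hlt := hS.adim_lt (lt_of_le_of_ne hS.2.1 hne) le_rfl
  rw [D.dim] at hlt
  exact exists_face_between hS (i := finrank ℝ E - 1) (by omega) (by rw [D.dim]; omega)

private theorem po_sub (S : Finset E) : poΦ V Y S ⊆ poV V Y :=
  Finset.image_subset_image (Finset.filter_subset _ _)

private theorem po_faceSet (D : PoData V c0 Y) {S : Finset E} (hS : FaceSet V S)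
    (hne : S ≠ V) : FaceSet (poV V Y) (poΦ V Y S) := by
  obtain ⟨F0, hF0, hSF0⟩ := po_exists_facet D hS hne
  refine ⟨⟨Y F0, (po_mem D hF0).2 hSF0⟩, po_sub S, ∑ x ∈ S, innerₗ E (x - c0), S.card, ?_, ?_⟩
  · intro y hy
    obtain ⟨F, hF, rfl⟩ := Finset.mem_image.1 hy
    rw [LinearMap.sum_apply]
    calc ∑ x ∈ S, (innerₗ E (x - c0)) (Y F) ≤ ∑ x ∈ S, (1 : ℝ) := by
          refine Finset.sum_le_sum fun x hx => ?_
          rw [innerₗ_apply_apply, real_inner_comm]
          exact D.le F hF x (hS.2.1 hx)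
      _ = S.card := by simp
  · intro y hy
    obtain ⟨F, hF, rfl⟩ := Finset.mem_image.1 hy
    rw [po_mem D hF, LinearMap.sum_apply]
    constructor
    · intro h x hx
      have h1 : ∑ x ∈ S, (1 - (innerₗ E (x - c0)) (Y F)) = 0 := by
        rw [Finset.sum_sub_distrib, h]
        simp
      have h2 := (Finset.sum_eq_zero_iff_of_nonneg (fun x hx => by
        rw [innerₗ_apply_apply, real_inner_comm]
        linarith [D.le F hF x (hS.2.1 hx)])).1 h1 x hx
      rw [innerₗ_apply_apply, real_inner_comm] at h2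
      exact (D.iff F hF x (hS.2.1 hx)).1 (by linarith)
    · intro h
      have h1 : ∑ x ∈ S, (innerₗ E (x - c0)) (Y F) = ∑ x ∈ S, (1 : ℝ) := by
        refine Finset.sum_congr rfl fun x hx => ?_
        rw [innerₗ_apply_apply, real_inner_comm]
        exact (D.iff F hF x (hS.2.1 hx)).2 (h hx)
      rw [h1]
      simp

private theorem po_subset_iff (D : PoData V c0 Y) {S T : Finset E} (hS : FaceSet V S)
    (hT : FaceSet V T) : S ⊆ T ↔ poΦ V Y T ⊆ poΦ V Y S := by
  constructor
  · intro h y hy
    obtain ⟨F, hF, rfl⟩ := Finset.mem_image.1 hy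
    rw [Finset.mem_filter] at hF
    exact (po_mem D hF.1).2 (h.trans hF.2)
  · intro h x hx
    refine mem_of_forall_facet hT (hS.2.1 hx) ?_
    intro F hF hdim hTF
    have hF' : F ∈ faces V (finrank ℝ E - 1) := by
      rw [mem_faces]
      rw [D.dim] at hdim
      exact ⟨hF, by omega⟩
    exact (po_mem D hF').1 (h ((po_mem D hF').2 hTF)) hx

private theorem po_convPos (D : PoData V c0 Y) : ConvPos (poV V Y) := by
  intro y hy
  obtain ⟨F, hF, rfl⟩ := Finset.mem_image.1 hy
  have hF' := mem_faces.1 hF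
  have hne : F ≠ V := by
    intro e
    have h1 := hF'.2
    have h2 := D.dim
    have h3 := D.pos
    rw [e, h2] at h1
    omega
  have h := po_faceSet D hF'.1 hne
  have he : poΦ V Y F = {Y F} := by
    ext y
    rw [Finset.mem_singleton]
    constructor
    · intro hy
      obtain ⟨G, hG, rfl⟩ := Finset.mem_image.1 hy
      rw [Finset.mem_filter] at hG
      have hG' := mem_faces.1 hG.1
      rw [hF'.1.eq_of_adim hG.2 hG'.1.2.1 (by rw [hF'.2, hG'.2])]
    · rintro rfl
      exact (po_mem D hF).2 le_rfl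
  rw [he] at h
  exact h

private theorem po_adim (D : PoData V c0 Y) : adim (poV V Y) = finrank ℝ E := by
  have htop : vectorSpan ℝ ((poV V Y : Finset E) : Set E) = ⊤ := by
    by_contra hcon
    have h1 : (vectorSpan ℝ ((poV V Y : Finset E) : Set E))ᗮ ≠ ⊥ := by
      intro e
      exact hcon ((Submodule.orthogonal_eq_bot_iff).1 e)
    obtain ⟨w, hw, hw0⟩ := Submodule.exists_mem_ne_zero_of_ne_bot h1
    rw [Submodule.mem_orthogonal] at hw
    obtain ⟨F, hF, hpos⟩ := po_pos D hw0
    obtain ⟨G, hG, hneg⟩ := po_pos D (neg_ne_zero.2 hw0)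
    have h2 := hw (Y F - Y G) (vsub_mem_vectorSpan ℝ
      (Finset.mem_coe.2 (Finset.mem_image_of_mem _ hF))
      (Finset.mem_coe.2 (Finset.mem_image_of_mem _ hG)))
    rw [inner_sub_left] at h2
    rw [inner_neg_right] at hneg
    linarith
  unfold adim
  rw [htop, finrank_top]

private theorem po_surj (D : PoData V c0 Y) {U : Finset E} (hU : FaceSet (poV V Y) U)
    (hUne : U ≠ poV V Y) : ∃ S, FaceSet V S ∧ S ≠ V ∧ poΦ V Y S = U := by
  obtain ⟨⟨y0, hy0⟩, hUV, m, t, hle, heq⟩ := hU
  obtain ⟨w, hw⟩ := po_rep m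
  have hwY : ∀ F ∈ faces V (finrank ℝ E - 1), inner ℝ (Y F) w ≤ t := by
    intro F hF
    rw [real_inner_comm, hw]
    exact hle _ (Finset.mem_image_of_mem _ hF)
  have hwY' : ∀ F ∈ faces V (finrank ℝ E - 1), (inner ℝ (Y F) w = t ↔ Y F ∈ U) := by
    intro F hF
    rw [real_inner_comm, hw]
    exact heq _ (Finset.mem_image_of_mem _ hF)
  have ht : 0 < t := by
    by_contra hcon
    push Not at hcon
    have hw0 : w = 0 := by
      by_contra hne
      obtain ⟨F, hF, hpos⟩ := po_pos D hne
      linarith [hwY F hF]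
    have ht0 : t = 0 := by
      obtain ⟨F, hF, rfl⟩ := Finset.mem_image.1 (hUV hy0)
      have := (hwY' F hF).2 hy0
      rw [hw0, inner_zero_right] at this
      exact this.symm
    apply hUne
    refine Finset.Subset.antisymm hUV ?_
    intro y hy
    obtain ⟨F, hF, rfl⟩ := Finset.mem_image.1 hy
    refine (hwY' F hF).1 ?_
    rw [hw0, inner_zero_right, ht0]
  set z : E := c0 + t⁻¹ • w with hz
  have hzY : ∀ F, inner ℝ (Y F) (z - c0) = t⁻¹ * inner ℝ (Y F) w := by
    intro F
    rw [hz, add_sub_cancel_left, real_inner_smul_right]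
  have hzmem : z ∈ convexHull ℝ (V : Set E) := by
    by_contra hcon
    obtain ⟨F, hF, h1⟩ := po_sep D hcon
    rw [hzY] at h1
    have h2 := hwY F hF
    have h3 : t⁻¹ * inner ℝ (Y F) w ≤ 1 := by
      rw [inv_mul_le_iff₀ ht]
      linarith
    linarith
  have hz1 : ∀ F ∈ faces V (finrank ℝ E - 1), (inner ℝ (Y F) (z - c0) = 1 ↔ Y F ∈ U) := by
    intro F hF
    rw [hzY, inv_mul_eq_iff_eq_mul₀ ht.ne', mul_one]
    exact hwY' F hF
  -- the set of facets
  set G : Finset (Finset E) := (faces V (finrank ℝ E - 1)).filter (fun F => Y F ∈ U) with hG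
  obtain ⟨F0, hF0, hF0U⟩ : ∃ F ∈ faces V (finrank ℝ E - 1), Y F ∈ U := by
    obtain ⟨F, hF, rfl⟩ := Finset.mem_image.1 (hUV hy0)
    exact ⟨F, hF, hy0⟩
  set S : Finset E := V.filter (fun x => ∀ F ∈ G, x ∈ F) with hS
  have hSV : S ⊆ V := Finset.filter_subset _ _
  set l : E →ₗ[ℝ] ℝ := ∑ F ∈ G, innerₗ E (Y F) with hl
  set c : ℝ := G.card + l c0 with hc
  have hlval : ∀ x, l x - l c0 = ∑ F ∈ G, inner ℝ (Y F) (x - c0) := by
    intro x
    rw [← map_sub, hl, LinearMap.sum_apply]
    rfl
  have hleV : ∀ x ∈ V, l x ≤ c := by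
    intro x hx
    have h1 := hlval x
    have h2 : ∑ F ∈ G, inner ℝ (Y F) (x - c0) ≤ ∑ F ∈ G, (1 : ℝ) := by
      refine Finset.sum_le_sum fun F hF => ?_
      exact D.le F (Finset.mem_filter.1 hF).1 x hx
    rw [Finset.sum_const, nsmul_eq_mul, mul_one] at h2
    rw [hc]
    linarith
  have heqV : ∀ x ∈ V, (l x = c ↔ x ∈ S) := by
    intro x hx
    rw [hS, Finset.mem_filter]
    constructor
    · intro h
      refine ⟨hx, fun F hF => ?_⟩
      have h1 : ∑ F ∈ G, (1 - inner ℝ (Y F) (x - c0)) = 0 := by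
        rw [Finset.sum_sub_distrib, ← hlval, h, hc, Finset.sum_const, nsmul_eq_mul, mul_one]
        ring
      have h2 := (Finset.sum_eq_zero_iff_of_nonneg (fun F hF => by
        linarith [D.le F (Finset.mem_filter.1 hF).1 x hx])).1 h1 F hF
      exact (D.iff F (Finset.mem_filter.1 hF).1 x hx).1 (by linarith)
    · rintro ⟨_, h⟩
      have h1 : ∑ F ∈ G, inner ℝ (Y F) (x - c0) = ∑ F ∈ G, (1 : ℝ) := by
        refine Finset.sum_congr rfl fun F hF => ?_
        exact (D.iff F (Finset.mem_filter.1 hF).1 x hx).2 (h F hF)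
      have h2 := hlval x
      rw [h1, Finset.sum_const, nsmul_eq_mul, mul_one] at h2
      rw [hc]
      linarith
  have hlz : l z = c := by
    have h1 : ∑ F ∈ G, inner ℝ (Y F) (z - c0) = ∑ F ∈ G, (1 : ℝ) := by
      refine Finset.sum_congr rfl fun F hF => ?_
      rw [hG, Finset.mem_filter] at hF
      exact (hz1 F hF.1).2 hF.2
    have h2 := hlval z
    rw [h1, Finset.sum_const, nsmul_eq_mul, mul_one] at h2
    rw [hc]
    linarith
  have hzS : z ∈ convexHull ℝ (S : Set E) := po_hull hSV hleV heqV hzmem hlz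
  have hSne : S.Nonempty := by
    by_contra hcon
    rw [Finset.not_nonempty_iff_eq_empty] at hcon
    rw [hcon] at hzS
    simp at hzS
  have hSface : FaceSet V S := ⟨hSne, hSV, l, c, hleV, heqV⟩
  have hSF : ∀ F ∈ faces V (finrank ℝ E - 1), (S ⊆ F ↔ Y F ∈ U) := by
    intro F hF
    constructor
    · intro h
      refine (hz1 F hF).1 ?_
      exact po_val_hull D hF (convexHull_mono (by exact_mod_cast h) hzS)
    · intro h x hx
      rw [hS, Finset.mem_filter] at hx
      exact hx.2 F (Finset.mem_filter.2 ⟨hF, h⟩)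
  refine ⟨S, hSface, ?_, ?_⟩
  · intro e
    have h1 := (hSF F0 hF0).2 hF0U
    have h2 := mem_faces.1 hF0
    have h3 : F0 = V := Finset.Subset.antisymm h2.1.2.1 (by rw [← e]; exact h1)
    have h4 := h2.2
    have h5 := D.dim
    have h6 := D.pos
    rw [h3] at h4
    omega
  · ext y
    constructor
    · intro hy
      obtain ⟨F, hF, rfl⟩ := Finset.mem_image.1 hy
      rw [Finset.mem_filter] at hF
      exact (hSF F hF.1).1 hF.2
    · intro hy
      obtain ⟨F, hF, rfl⟩ := Finset.mem_image.1 (hUV hy)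
      exact (po_mem D hF).2 ((hSF F hF).2 hy)

private theorem po_lower (D : PoData V c0 Y) : ∀ (k : ℕ) (S : Finset E), FaceSet V S → S ≠ V →
    finrank ℝ E - 1 - adim S = k → finrank ℝ E ≤ adim (poΦ V Y S) + 1 + adim S := by
  intro k
  induction k with
  | zero =>
    intro S hS hne hk
    have hlt := hS.adim_lt (lt_of_le_of_ne hS.2.1 hne) le_rfl
    rw [D.dim] at hlt
    omega
  | succ k ih =>
    intro S hS hne hk
    obtain ⟨T, hT, hST⟩ := exists_face_above hS hne
    rw [mem_faces] at hT
    have hTne : T ≠ V := by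
      intro e
      have h1 := hT.2
      rw [e, D.dim] at h1
      omega
    have h1 := ih T hT.1 hTne (by rw [hT.2]; omega)
    have hsub : poΦ V Y T ⊂ poΦ V Y S := by
      refine ⟨(po_subset_iff D hS hT.1).1 hST.1, fun h => hST.2 ?_⟩
      exact (po_subset_iff D hT.1 hS).2 h
    have h2 := (po_faceSet D hT.1 hTne).adim_lt hsub (po_sub S)
    rw [hT.2] at h1
    omega

private theorem po_upper (D : PoData V c0 Y) : ∀ (k : ℕ) (S : Finset E), FaceSet V S → S ≠ V →
    adim S = k → adim (poΦ V Y S) + 1 + k ≤ finrank ℝ E := by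
  intro k
  induction k with
  | zero =>
    intro S hS hne hk
    obtain ⟨x, rfl⟩ := (adim_eq_zero_iff hS.1).1 hk
    have hxV : x ∈ V := hS.2.1 (Finset.mem_singleton_self x)
    have hne' : poΦ V Y {x} ≠ poV V Y := by
      intro e
      have hall : ∀ F ∈ faces V (finrank ℝ E - 1), inner ℝ (Y F) (x - c0) = 1 := by
        intro F hF
        rw [D.iff F hF x hxV]
        have h1 : Y F ∈ poΦ V Y {x} := by
          rw [e]
          exact Finset.mem_image_of_mem _ hF
        exact (po_mem D hF).1 h1 (Finset.mem_singleton_self x)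
      obtain ⟨F0, hF0, _⟩ := po_exists_facet D hS hne
      have hx0 : x - c0 ≠ 0 := by
        intro e0
        have := hall F0 hF0
        rw [e0, inner_zero_right] at this
        exact zero_ne_one this
      obtain ⟨F, hF, hpos⟩ := po_pos D (neg_ne_zero.2 hx0)
      rw [inner_neg_right, hall F hF] at hpos
      linarith
    have h1 := (po_faceSet D hS hne).adim_lt (lt_of_le_of_ne (po_sub _) hne') le_rfl
    rw [po_adim D] at h1
    omega
  | succ k ih =>
    intro S hS hne hk
    obtain ⟨x, hx⟩ := hS.1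
    have hxS : FaceSet S {x} := (D.conv.mono hS.2.1) x hx
    have hxne : ({x} : Finset E) ≠ S := by
      intro e
      rw [← e, adim_singleton] at hk
      omega
    obtain ⟨T, hT, _, hdim⟩ := exists_face_below hxS hxne
    have hTV : FaceSet V T := hS.trans hT
    have hTS : T ⊂ S := by
      refine lt_of_le_of_ne hT.2.1 ?_
      intro e
      rw [e] at hdim
      omega
    have hTne : T ≠ V := by
      intro e
      rw [e] at hTS
      exact hTS.2 hS.2.1
    have h1 := ih T hTV hTne (by omega)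
    have hsub : poΦ V Y S ⊂ poΦ V Y T := by
      refine ⟨(po_subset_iff D hTV hS).1 hTS.1, fun h => hTS.2 ?_⟩
      exact (po_subset_iff D hS hTV).2 h
    have h2 := (po_faceSet D hS hne).adim_lt hsub (po_sub T)
    omega

private theorem po_dim (D : PoData V c0 Y) {S : Finset E} (hS : FaceSet V S) (hne : S ≠ V) :
    adim (poΦ V Y S) = finrank ℝ E - 1 - adim S := by
  have h1 := po_lower D _ S hS hne rfl
  have h2 := po_upper D _ S hS hne rfl
  omega

/-- The polar configuration: its vertices are the facets of `V`, its faces the faces of `V` in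
the reverse order. -/
theorem exists_polar_config {V : Finset E} (hV : ConvPos V) (h : adim V = finrank ℝ E)
    (hd : 0 < finrank ℝ E) :
    ∃ (V' : Finset E) (Φ : Finset E → Finset E), ConvPos V' ∧ adim V' = finrank ℝ E ∧
      (∀ i, i < finrank ℝ E → Set.BijOn Φ (faces V i : Set (Finset E))
        (faces V' (finrank ℝ E - 1 - i) : Set (Finset E))) ∧
      ∀ S T, FaceSet V S → FaceSet V T → S ≠ V → T ≠ V → (S ⊆ T ↔ Φ T ⊆ Φ S) := by
  obtain ⟨c0, Y, D⟩ := po_data hV h hd
  refine ⟨poV V Y, poΦ V Y, po_convPos D, po_adim D, ?_, ?_⟩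
  · intro i hi
    have hneV : ∀ S ∈ faces V i, S ≠ V := by
      intro S hS e
      have h1 := (mem_faces.1 hS).2
      rw [e, h] at h1
      omega
    refine ⟨?_, ?_, ?_⟩
    · intro S hS
      rw [Finset.mem_coe] at hS ⊢
      have hS' := mem_faces.1 hS
      rw [mem_faces]
      refine ⟨po_faceSet D hS'.1 (hneV S hS), ?_⟩
      rw [po_dim D hS'.1 (hneV S hS), hS'.2]
    · intro S hS T hT he
      rw [Finset.mem_coe] at hS hT
      have hS' := mem_faces.1 hS
      have hT' := mem_faces.1 hT
      exact Finset.Subset.antisymm ((po_subset_iff D hS'.1 hT'.1).2 he.ge)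
        ((po_subset_iff D hT'.1 hS'.1).2 he.le)
    · intro U hU
      rw [Finset.mem_coe, mem_faces] at hU
      have hUne : U ≠ poV V Y := by
        intro e
        have h1 := hU.2
        rw [e, po_adim D] at h1
        omega
      obtain ⟨S, hS, hne, he⟩ := po_surj D hU.1 hUne
      refine ⟨S, ?_, he⟩
      rw [Finset.mem_coe, mem_faces]
      refine ⟨hS, ?_⟩
      have h1 := po_dim D hS hne
      rw [he, hU.2] at h1
      have hlt := hS.adim_lt (lt_of_le_of_ne hS.2.1 hne) le_rfl
      rw [h] at hlt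
      omega
  · intro S T hS hT _ _
    exact po_subset_iff D hS hT

private theorem po_simplex {W : Finset E} (h4 : W.card = 4) (h3 : adim W = 3) :
    (faces W 2).card = 4 := by
  have hne : W.Nonempty := by
    rw [← Finset.card_pos]
    omega
  have hface : ∀ T ⊆ W, T.Nonempty → FaceSet W T := fun T hT hTne =>
    (FaceSet.self hne).of_subset_simplex (by omega) hTne hT
  have hdim : ∀ (k : ℕ) (T : Finset E), T ⊆ W → T.card = k + 1 → k ≤ adim T := by
    intro k
    induction k with
    | zero => intro T _ _; exact Nat.zero_le _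
    | succ k ih =>
      intro T hT hc
      obtain ⟨a, ha⟩ : T.Nonempty := by
        rw [← Finset.card_pos]
        omega
      have hc' : (T.erase a).card = k + 1 := by
        rw [Finset.card_erase_of_mem ha]
        omega
      have hne' : (T.erase a).Nonempty := by
        rw [← Finset.card_pos]
        omega
      have hsub : T.erase a ⊆ W := (Finset.erase_subset a T).trans hT
      have h1 := ih (T.erase a) hsub hc'
      have h2 := (hface _ hsub hne').adim_lt (Finset.erase_ssubset ha) hT
      omega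
  have heq : faces W 2 = W.powersetCard 3 := by
    ext T
    rw [mem_faces, Finset.mem_powersetCard]
    constructor
    · rintro ⟨hT, hd⟩
      refine ⟨hT.2.1, ?_⟩
      have h1 := adim_add_one_le_card hT.1
      by_contra hcon
      have h2 : T.card = 4 := by
        have := Finset.card_le_card hT.2.1
        omega
      have h5 := hdim 3 T hT.2.1 (by omega)
      omega
    · rintro ⟨hT, hc⟩
      have hTne : T.Nonempty := by
        rw [← Finset.card_pos]
        omega
      refine ⟨hface T hT hTne, ?_⟩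
      have h1 := adim_add_one_le_card hTne
      have h2 := hdim 2 T hT (by omega)
      omega
  rw [heq, Finset.card_powersetCard, h4]
  rfl

/-- A polar polytope of a four-dimensional configuration with a vertex of degree four has a
tetrahedral facet. -/
theorem exists_polar_four {V : Finset E} (hV : ConvPos V) (h4 : adim V = 4)
    (hE : finrank ℝ E = 4) :
    ∃ V' : Finset E, ConvPos V' ∧ adim V' = 4 ∧ V'.card = (faces V 3).card ∧
      (faces V' 1).card = (faces V 2).card ∧ (faces V' 2).card = (faces V 1).card ∧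
      (faces V' 3).card = V.card ∧
      ((∃ z ∈ V, (nbr V z).card = 4) → ∃ T ∈ faces V' 3, T.card = 4) := by
  obtain ⟨V', Φ, hV', hdim, hbij, hsub⟩ := exists_polar_config hV (by rw [h4, hE]) (by omega)
  rw [hE] at hbij hdim
  have hcard : ∀ i, i < 4 → (faces V' (4 - 1 - i)).card = (faces V i).card := by
    intro i hi
    have h1 := (hbij i hi).image_eq
    have h2 : (faces V' (4 - 1 - i)) = (faces V i).image Φ := by
      rw [← Finset.coe_inj, Finset.coe_image, h1]
    rw [h2, Finset.card_image_of_injOn (hbij i hi).injOn]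
  have hneV : ∀ i < 4, ∀ S ∈ faces V i, S ≠ V := by
    intro i hi S hS e
    have h1 := (mem_faces.1 hS).2
    rw [e, h4] at h1
    omega
  refine ⟨V', hV', hdim, ?_, hcard 2 (by omega), hcard 1 (by omega), ?_, ?_⟩
  · rw [← card_faces_zero hV']
    exact hcard 3 (by omega)
  · rw [← card_faces_zero hV]
    exact hcard 0 (by omega)
  · rintro ⟨z, hz, hz4⟩
    have hz0 : ({z} : Finset E) ∈ faces V 0 := (mem_faces_zero hV).2 ⟨z, hz, rfl⟩
    have hT : Φ {z} ∈ faces V' 3 := by
      have := (hbij 0 (by omega)).mapsTo (Finset.mem_coe.2 hz0)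
      exact Finset.mem_coe.1 this
    refine ⟨Φ {z}, hT, ?_⟩
    obtain ⟨g, hg⟩ := exists_cuts hV hz
    have hW4 : (vfig g V z).card = 4 := by rw [card_vfig hV hz hg, hz4]
    have hW3 : adim (vfig g V z) = 3 := by
      have := adim_vfig hV hz hg (by omega)
      omega
    have h1 := card_faces_vfig hV hz hg 2
    rw [po_simplex hW4 hW3] at h1
    -- the vertices of the facet
    have hinj : ((faces V 3).filter (fun S => z ∈ S)).card = (Φ {z}).card := by
      have himg : ((faces V 3).filter (fun S => z ∈ S)).image Φ = (Φ {z}).image (fun x => {x}) := by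
        ext U
        rw [Finset.mem_image, Finset.mem_image]
        constructor
        · rintro ⟨F, hF, rfl⟩
          rw [Finset.mem_filter] at hF
          have hm := (hbij 3 (by omega)).mapsTo (Finset.mem_coe.2 hF.1)
          rw [Finset.mem_coe, mem_faces_zero hV'] at hm
          obtain ⟨x, hx, he⟩ := hm
          refine ⟨x, ?_, he.symm⟩
          have hs := (hsub {z} F (mem_faces.1 hz0).1 (mem_faces.1 hF.1).1
            (hneV 0 (by omega) _ hz0) (hneV 3 (by omega) _ hF.1)).1
            (Finset.singleton_subset_iff.2 hF.2)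
          rw [he] at hs
          exact hs (Finset.mem_singleton_self x)
        · rintro ⟨x, hx, rfl⟩
          have hxV : x ∈ V' := (mem_faces.1 hT).1.2.1 hx
          have hx0 : ({x} : Finset E) ∈ (faces V' (4 - 1 - 3) : Set (Finset E)) :=
            Finset.mem_coe.2 ((mem_faces_zero hV').2 ⟨x, hxV, rfl⟩)
          obtain ⟨F, hF, he⟩ := (hbij 3 (by omega)).surjOn hx0
          rw [Finset.mem_coe] at hF
          refine ⟨F, ?_, he⟩
          rw [Finset.mem_filter]
          refine ⟨hF, ?_⟩
          have hs := (hsub {z} F (mem_faces.1 hz0).1 (mem_faces.1 hF).1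
            (hneV 0 (by omega) _ hz0) (hneV 3 (by omega) _ hF)).2
            (by rw [he]; exact Finset.singleton_subset_iff.2 hx)
          exact hs (Finset.mem_singleton_self z)
      have hc1 : (((faces V 3).filter (fun S => z ∈ S)).image Φ).card
          = ((faces V 3).filter (fun S => z ∈ S)).card := by
        refine Finset.card_image_of_injOn ((hbij 3 (by omega)).injOn.mono ?_)
        exact_mod_cast Finset.filter_subset _ _
      have hc2 : ((Φ {z}).image (fun x => ({x} : Finset E))).card = (Φ {z}).card :=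
        Finset.card_image_of_injective _ Finset.singleton_injective
      rw [← hc1, himg, hc2]
    rw [← hinj, ← h1]

end

end Pool.Agent.FV
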