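import Pool.Agent.Lib.MP_e9c977_fv.Stack
import Pool.Agent.Lib.MP_e9c977_fv.Polar
import Pool.Agent.Lib.MP_e9c977_fv.Bridge

/-!
# Row EX: existence
-/

namespace Pool.Agent.FV

open Module
open scoped Classical

noncomputable section

/-- Stacking the simplex. -/
private theorem ex_stacked (b : ℕ) : ∃ V : Finset (EuclideanSpace ℝ (Fin 4)), ConvPos V ∧
    adim V = 4 ∧ V.card = 5 + b ∧ (faces V 1).card = 10 + 4 * b ∧
      (faces V 2).card = 10 + 6 * b ∧ (faces V 3).card = 5 + 3 * b ∧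
      (0 < b → ∃ z ∈ V, (nbr V z).card = 4) ∧ ∃ T ∈ faces V 3, T.card = 4 := by
  induction b with
  | zero =>
    obtain ⟨V, hV, h4, h0, h1, h2, h3, hT⟩ := exists_simplex
    exact ⟨V, hV, h4, h0, h1, h2, h3, fun h => absurd h (lt_irrefl 0), hT⟩
  | succ b ih =>
    obtain ⟨V, hV, h4, h0, h1, h2, h3, -, T, hT, hc⟩ := ih
    obtain ⟨V', hV', h4', h0', h1', h2', h3', hz, hT'⟩ := exists_stack hV h4 hT hc
    exact ⟨V', hV', h4', by omega, by omega, by omega, by omega, fun _ => hz, hT'⟩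

/-- The polars of the stacked simplices. -/
private theorem ex_polar (b : ℕ) : ∃ V : Finset (EuclideanSpace ℝ (Fin 4)), ConvPos V ∧
    adim V = 4 ∧ V.card = 5 + 3 * b ∧ (faces V 1).card = 10 + 6 * b ∧
      (faces V 2).card = 10 + 4 * b ∧ (faces V 3).card = 5 + b ∧
      ∃ T ∈ faces V 3, T.card = 4 := by
  rcases Nat.eq_zero_or_pos b with rfl | hb
  · obtain ⟨V, hV, h4, h0, h1, h2, h3, hT⟩ := exists_simplex
    exact ⟨V, hV, h4, h0, h1, h2, h3, hT⟩
  · obtain ⟨V, hV, h4, h0, h1, h2, h3, hz, -⟩ := ex_stacked b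
    obtain ⟨V', hV', h4', h0', h1', h2', h3', hT⟩ :=
      exists_polar_four hV h4 (by rw [finrank_euclideanSpace_fin])
    exact ⟨V', hV', h4', by omega, by omega, by omega, by omega, hT (hz hb)⟩

private theorem ex_all (a b : ℕ) : ∃ V : Finset (EuclideanSpace ℝ (Fin 4)), ConvPos V ∧
    adim V = 4 ∧ V.card = 5 + a + 3 * b ∧ (faces V 1).card = 10 + 4 * a + 6 * b ∧
      (faces V 2).card = 10 + 6 * a + 4 * b ∧ (faces V 3).card = 5 + 3 * a + b ∧
      ∃ T ∈ faces V 3, T.card = 4 := by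
  induction a with
  | zero =>
    obtain ⟨V, hV, h4, h0, h1, h2, h3, hT⟩ := ex_polar b
    exact ⟨V, hV, h4, by omega, by omega, by omega, by omega, hT⟩
  | succ a ih =>
    obtain ⟨V, hV, h4, h0, h1, h2, h3, T, hT, hc⟩ := ih
    obtain ⟨V', hV', h4', h0', h1', h2', h3', -, hT'⟩ := exists_stack hV h4 hT hc
    exact ⟨V', hV', h4', by omega, by omega, by omega, by omega, hT'⟩

theorem exists_config (a b : ℕ) : ∃ V : Finset (EuclideanSpace ℝ (Fin 4)), ConvPos V ∧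
    adim V = 4 ∧ V.card = 5 + a + 3 * b ∧ (faces V 1).card = 10 + 4 * a + 6 * b ∧
      (faces V 2).card = 10 + 6 * a + 4 * b ∧ (faces V 3).card = 5 + 3 * a + b := by
  obtain ⟨V, hV, h4, h0, h1, h2, h3, -⟩ := ex_all a b
  exact ⟨V, hV, h4, h0, h1, h2, h3⟩

end

end Pool.Agent.FV
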