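import Pool.Agent.Lib.MP_e9c977_fv.Basic

/-!
# Row MT: infinitesimal motions
-/

namespace Pool.Agent.FV

open Module
open scoped Classical

variable {E : Type} [NormedAddCommGroup E] [InnerProductSpace ℝ E]

theorem Skew.inner_left {A : E →ₗ[ℝ] E} (hA : Skew A) (x y : E) :
    inner ℝ (A x) y = - inner ℝ (A y) x := by
  have h := hA (x + y)
  have hx := hA x
  have hy := hA y
  simp only [map_add, inner_add_left, inner_add_right] at h
  linarith

/-- The coned form: with `q u = 0` and `u = 0` bracedness of `insert u S` says that the form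
`⟨x, q y⟩` is alternating. -/
theorem braced_insert_iff {q : E → E} {S : Finset E} {u : E} :
    Braced q (insert u S) ↔ ∀ x ∈ S, ∀ y ∈ S,
      inner ℝ (x - u) (q y - q u) + inner ℝ (y - u) (q x - q u) = 0 := by
  have key : ∀ x y : E, inner ℝ (x - y) (q x - q y)
      = inner ℝ (x - u) (q x - q u) + inner ℝ (y - u) (q y - q u)
        - (inner ℝ (x - u) (q y - q u) + inner ℝ (y - u) (q x - q u)) := by
    intro x y
    have h1 : x - y = (x - u) - (y - u) := by abel
    have h2 : q x - q y = (q x - q u) - (q y - q u) := by abel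
    rw [h1, h2]
    simp only [inner_sub_left, inner_sub_right]
    ring
  constructor
  · intro h x hx y hy
    have h1 := h x (Finset.mem_insert_of_mem hx) y (Finset.mem_insert_of_mem hy)
    have h2 := h x (Finset.mem_insert_of_mem hx) u (Finset.mem_insert_self _ _)
    have h3 := h y (Finset.mem_insert_of_mem hy) u (Finset.mem_insert_self _ _)
    rw [key] at h1
    linarith
  · intro h x hx y hy
    have hself : ∀ x ∈ insert u S, inner ℝ (x - u) (q x - q u) = 0 := by
      intro x hx
      rcases Finset.mem_insert.1 hx with rfl | hx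
      · simp
      · have := h x hx x hx
        linarith
    have hcross : ∀ x ∈ insert u S, ∀ y ∈ insert u S,
        inner ℝ (x - u) (q y - q u) + inner ℝ (y - u) (q x - q u) = 0 := by
      intro x hx y hy
      rcases Finset.mem_insert.1 hx with rfl | hx
      · simp
      · rcases Finset.mem_insert.1 hy with rfl | hy
        · simp
        · exact h x hx y hy
    rw [key, hself x hx, hself y hy, hcross x hx y hy]
    simp

private theorem alt_of_basis {b : Set E} {B : E →ₗ[ℝ] E}
    (h : ∀ x ∈ b, ∀ y ∈ b, inner ℝ (B x) y + inner ℝ (B y) x = 0) :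
    ∀ x ∈ Submodule.span ℝ b, ∀ y ∈ Submodule.span ℝ b,
      inner ℝ (B x) y + inner ℝ (B y) x = 0 := by
  have h1 : ∀ x ∈ b, ∀ y ∈ Submodule.span ℝ b, inner ℝ (B x) y + inner ℝ (B y) x = 0 := by
    intro x hx y hy
    induction hy using Submodule.span_induction with
    | mem y hy => exact h x hx y hy
    | zero => simp
    | add y z _ _ hy hz =>
      simp only [map_add, inner_add_left, inner_add_right]
      linarith
    | smul a y _ hy =>
      simp only [map_smul, inner_smul_left, inner_smul_right]
      simp only [conj_trivial]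
      rw [← mul_add, hy, mul_zero]
  intro x hx y hy
  induction hx using Submodule.span_induction with
  | mem x hx => exact h1 x hx y hy
  | zero => simp
  | add x z _ _ hx hz =>
    simp only [map_add, inner_add_left, inner_add_right]
    linarith
  | smul a x _ hx =>
    simp only [map_smul, inner_smul_left, inner_smul_right]
    simp only [conj_trivial]
    rw [← mul_add, hx, mul_zero]

/-- A braced set moves, up to the components orthogonal to it, by a rigid motion. -/
theorem exists_motion {q : E → E} {S : Finset E} (h : Braced q S) :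
    ∃ A : E →ₗ[ℝ] E, Skew A ∧ ∀ x ∈ S, ∀ y ∈ S, ∀ z ∈ vectorSpan ℝ (S : Set E),
      inner ℝ (q x - q y - A (x - y)) z = 0 := by
  rcases S.eq_empty_or_nonempty with rfl | ⟨s, hs⟩
  · exact ⟨0, fun z => by simp, by simp⟩
  have hfin : FiniteDimensional ℝ (vectorSpan ℝ (S : Set E)) :=
    finiteDimensional_vectorSpan_of_finite ℝ (Finset.finite_toSet S)
  have hspan : vectorSpan ℝ (S : Set E) = Submodule.span ℝ ((fun x => x - s) '' (S : Set E)) :=
    vectorSpan_eq_span_vsub_set_right ℝ (Finset.mem_coe.2 hs)
  obtain ⟨b, hb, hbs, hbi⟩ := exists_linearIndependent ℝ ((fun x => x - s) '' (S : Set E))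
  have hbmem : ∀ x ∈ b, x + s ∈ S := by
    intro x hx
    obtain ⟨y, hy, rfl⟩ := hb hx
    simpa using hy
  have hbW : Submodule.span ℝ b = vectorSpan ℝ (S : Set E) := by rw [hspan, hbs]
  -- the linear map
  let bb := Basis.extend (K := ℝ) (s := b) hbi
  let B : E →ₗ[ℝ] E := bb.constr ℝ (fun i => q ((i : E) + s) - q s)
  have hB : ∀ x ∈ b, B x = q (x + s) - q s := by
    intro x hx
    have hx' : x ∈ LinearIndepOn.extend (K := ℝ) (v := id) (s := b) hbi (Set.subset_univ b) :=
      LinearIndepOn.subset_extend _ _ hx
    have h1 := bb.constr_basis ℝ (fun i => q ((i : E) + s) - q s) ⟨x, hx'⟩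
    have h2 : bb ⟨x, hx'⟩ = x := Basis.extend_apply_self _ _
    rw [h2] at h1
    exact h1
  have hbr : ∀ x ∈ S, ∀ y ∈ S,
      inner ℝ (x - s) (q y - q s) + inner ℝ (y - s) (q x - q s) = 0 := by
    have : Braced q (insert s S) := by rwa [Finset.insert_eq_of_mem hs]
    exact braced_insert_iff.1 this
  have halt0 : ∀ x ∈ b, ∀ y ∈ b, inner ℝ (B x) y + inner ℝ (B y) x = 0 := by
    intro x hx y hy
    rw [hB x hx, hB y hy]
    have := hbr (x + s) (hbmem x hx) (y + s) (hbmem y hy)
    simp only [add_sub_cancel_right] at this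
    rw [real_inner_comm, real_inner_comm x]
    linarith
  have halt := alt_of_basis halt0
  rw [hbW] at halt
  set W := vectorSpan ℝ (S : Set E) with hW
  let P : E →ₗ[ℝ] E := (W.starProjection : E →L[ℝ] E).toLinearMap
  have hPW : ∀ x, P x ∈ W := fun x => W.starProjection_apply_mem x
  have hPid : ∀ x ∈ W, P x = x := fun x hx => W.starProjection_eq_self_iff.2 hx
  have hPsymm : ∀ x y, inner ℝ (P x) y = inner ℝ x (P y) :=
    fun x y => W.inner_starProjection_left_eq_right x y
  refine ⟨P ∘ₗ B ∘ₗ P, ?_, ?_⟩
  · intro z
    have := halt (P z) (hPW z) (P z) (hPW z)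
    have h2 : inner ℝ ((P ∘ₗ B ∘ₗ P) z) z = inner ℝ (B (P z)) (P z) := by
      simp only [LinearMap.comp_apply]
      exact hPsymm _ _
    rw [h2]
    linarith
  · -- first relative to `s`
    have hmemW : ∀ x ∈ S, x - s ∈ W := fun x hx =>
      vsub_mem_vectorSpan ℝ (Finset.mem_coe.2 hx) (Finset.mem_coe.2 hs)
    have h1 : ∀ x ∈ S, ∀ z ∈ W, inner ℝ (q x - q s - (P ∘ₗ B ∘ₗ P) (x - s)) z = 0 := by
      intro x hx z hz
      have e1 : inner ℝ ((P ∘ₗ B ∘ₗ P) (x - s)) z = inner ℝ (B (x - s)) z := by
        simp only [LinearMap.comp_apply]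
        rw [hPsymm, hPid z hz, hPid _ (hmemW x hx)]
      rw [inner_sub_left, e1]
      have hz' : z ∈ Submodule.span ℝ b := by rw [hbW]; exact hz
      clear e1
      induction hz' using Submodule.span_induction with
      | mem z hzb =>
        have e2 := halt (x - s) (hmemW x hx) z hz
        have e3 := hbr x hx (z + s) (hbmem z hzb)
        rw [hB z hzb] at e2
        simp only [add_sub_cancel_right] at e3
        rw [real_inner_comm z (q x - q s), real_inner_comm (x - s)] at *
        linarith
      | zero => simp
      | add y z hy' hz' ihy ihz =>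
        rw [hbW] at hy' hz'
        have e4 := ihy hy'
        have e5 := ihz hz'
        simp only [inner_add_right]
        linarith
      | smul a y hy' ihy =>
        rw [hbW] at hy'
        have e4 := ihy hy'
        simp only [inner_smul_right]
        rw [← mul_sub, e4, mul_zero]
    intro x hx y hy z hz
    have h2 := h1 x hx z hz
    have h3 := h1 y hy z hz
    have h4 : q x - q y - (P ∘ₗ B ∘ₗ P) (x - y)
        = (q x - q s - (P ∘ₗ B ∘ₗ P) (x - s)) - (q y - q s - (P ∘ₗ B ∘ₗ P) (y - s)) := by
      have : x - y = (x - s) - (y - s) := by abel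
      rw [this, map_sub]
      abel
    rw [h4, inner_sub_left, h2, h3, sub_zero]

/-- Two skew maps which agree (weakly) on spanning vectors agree (weakly) on the span. -/
theorem inner_eq_zero_of_span {C : E →ₗ[ℝ] E} {S : Set E} {W : Submodule ℝ E} {T : Set E}
    (hS : Submodule.span ℝ S = W) (h : ∀ w ∈ S, ∀ z ∈ T, inner ℝ (C w) z = 0) :
    ∀ w ∈ W, ∀ z ∈ Submodule.span ℝ T, inner ℝ (C w) z = 0 := by
  subst hS
  intro w hw z hz
  have h1 : ∀ w ∈ S, inner ℝ (C w) z = 0 := by
    intro w hw
    induction hz using Submodule.span_induction with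
    | mem z hz => exact h w hw z hz
    | zero => simp
    | add y z _ _ hy hz => simp only [inner_add_right, hy, hz, add_zero]
    | smul a y _ hy => simp only [inner_smul_right, hy, mul_zero]
  induction hw using Submodule.span_induction with
  | mem w hw => exact h1 w hw
  | zero => simp
  | add y z _ _ hy hz => simp only [map_add, inner_add_left, hy, hz, add_zero]
  | smul a y _ hy => simp only [map_smul, inner_smul_left, hy, mul_zero]

/-- Subtracting a rigid motion does not change bracedness. -/
theorem braced_sub_motion {q : E → E} {S : Finset E} {A : E →ₗ[ℝ] E} (hA : Skew A) (b : E) :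
    Braced (fun x => q x - (A x + b)) S ↔ Braced q S := by
  have key : ∀ x y : E, inner ℝ (x - y) ((q x - (A x + b)) - (q y - (A y + b)))
      = inner ℝ (x - y) (q x - q y) := by
    intro x y
    have h1 : (q x - (A x + b)) - (q y - (A y + b)) = (q x - q y) - A (x - y) := by
      rw [map_sub]; abel
    have h2 : inner ℝ (x - y) (A (x - y)) = 0 := by
      rw [real_inner_comm]
      exact hA _
    rw [h1, inner_sub_right, h2, sub_zero]
  unfold Braced
  constructor
  · intro h x hx y hy
    rw [← key]
    exact h x hx y hy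
  · intro h x hx y hy
    have := h x hx y hy
    rw [← key] at this
    exact this

theorem braced_of_motion {q : E → E} {S : Finset E} {A : E →ₗ[ℝ] E} (hA : Skew A)
    (h : ∀ x ∈ S, ∀ y ∈ S, inner ℝ (q x - q y - A (x - y)) (x - y) = 0) : Braced q S := by
  intro x hx y hy
  have h1 := h x hx y hy
  rw [inner_sub_left, hA (x - y), sub_zero] at h1
  rw [real_inner_comm]
  exact h1

theorem Braced.mono {q : E → E} {S T : Finset E} (h : Braced q S) (hT : T ⊆ S) : Braced q T :=
  fun x hx y hy => h x (hT hx) y (hT hy)

end Pool.Agent.FV
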