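import Pool.Agent.Lib.MP_e9c977_fv.Polygon
import Pool.Agent.Lib.MP_e9c977_fv.Motion

/-!
# Row FN: a polygon is braced by its edges and the diagonals from one vertex
-/

namespace Pool.Agent.FV

open Module
open scoped Classical

variable {E : Type} [NormedAddCommGroup E] [InnerProductSpace ℝ E]

namespace FNAux

/-- A skew map with a prescribed value. -/
theorem exists_skew {e p : E} (he : e ≠ 0) (hp : inner ℝ p e = 0) :
    ∃ A : E →ₗ[ℝ] E, Skew A ∧ A e = p := by
  have he' : inner ℝ e e ≠ (0 : ℝ) := fun h => he (inner_self_eq_zero.mp h)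
  refine ⟨(inner ℝ e e : ℝ)⁻¹ • ((innerₛₗ ℝ e).smulRight p - (innerₛₗ ℝ p).smulRight e), ?_, ?_⟩
  · intro z
    simp only [LinearMap.smul_apply, LinearMap.sub_apply, LinearMap.smulRight_apply,
      innerₛₗ_apply_apply, inner_smul_left, inner_sub_left, conj_trivial]
    ring
  · simp only [LinearMap.smul_apply, LinearMap.sub_apply, LinearMap.smulRight_apply,
      innerₛₗ_apply_apply, hp, zero_smul, sub_zero, smul_smul]
    rw [inv_mul_cancel₀ he', one_smul]

/-- Vectors orthogonal to two edges of a triangle. -/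
theorem inner_span_triple {a x y d : E} (h1 : inner ℝ d (y - a) = 0) (h2 : inner ℝ d (y - x) = 0) :
    ∀ z ∈ vectorSpan ℝ ((({a, x, y} : Finset E)) : Set E), inner ℝ d z = 0 := by
  intro z hz
  have h3 : vectorSpan ℝ ((({a, x, y} : Finset E)) : Set E) ≤ LinearMap.ker (innerₛₗ ℝ d) := by
    rw [vectorSpan_def, Submodule.span_le]
    rintro _ ⟨u, hu, v, hv, rfl⟩
    change inner ℝ d (u - v) = 0
    have h4 : ∀ u ∈ ({a, x, y} : Finset E), inner ℝ d (y - u) = 0 := by
      intro u hu
      simp only [Finset.mem_insert, Finset.mem_singleton] at hu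
      rcases hu with rfl | rfl | rfl
      · exact h1
      · exact h2
      · rw [sub_self, inner_zero_right]
    rw [show u - v = (y - v) - (y - u) by abel, inner_sub_right, h4 u hu, h4 v hv, sub_zero]
  exact h3 hz

end FNAux

open FNAux in
theorem braced_fan {V : Finset E} (hV : ConvPos V) (h2 : adim V = 2) {a : E} (ha : a ∈ V)
    {q : E → E} (h1 : ∀ x ∈ V, inner ℝ (x - a) (q x - q a) = 0)
    (h : ∀ x ∈ V, ∀ y ∈ nbr V x, inner ℝ (x - y) (q x - q y) = 0) : Braced q V := by
  set W := vectorSpan ℝ (V : Set E) with hW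
  have hfd : FiniteDimensional ℝ W := finiteDimensional_vectorSpan_of_finite ℝ V.finite_toSet
  have hmem : ∀ x ∈ V, ∀ y ∈ V, x - y ∈ W := fun x hx y hy =>
    vsub_mem_vectorSpan ℝ (Finset.mem_coe.mpr hx) (Finset.mem_coe.mpr hy)
  obtain ⟨x1, hx1⟩ : (nbr V a).Nonempty := by
    rw [← Finset.card_pos, card_nbr_polygon hV h2 ha]
    norm_num
  have hx1V : x1 ∈ V := Finset.mem_of_mem_erase (nbr_subset hx1)
  have hx1a : x1 ≠ a := (mem_nbr.mp hx1).1
  obtain ⟨p, hp, r, hr, hpr⟩ := Submodule.exists_add_mem_mem_orthogonal (K := W) (q x1 - q a)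
  have hrz : ∀ z ∈ W, inner ℝ r z = 0 := fun z hz =>
    Submodule.inner_left_of_mem_orthogonal hz hr
  have hpe : inner ℝ p (x1 - a) = 0 := by
    have h3 := h1 x1 hx1V
    rw [hpr, inner_add_right, real_inner_comm, real_inner_comm r,
      hrz _ (hmem x1 hx1V a ha), add_zero] at h3
    exact h3
  obtain ⟨A, hA, hAe⟩ := exists_skew (sub_ne_zero.mpr hx1a) hpe
  -- the moved vertices
  set M : Finset E := (V \ {a}).filter fun x => ∀ z ∈ W, inner ℝ (q x - q a - A (x - a)) z = 0
    with hM
  have hMeq : M = V \ {a} := by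
    refine eq_of_closed_sdiff hV (hV a ha) (Finset.filter_subset _ _) ⟨x1, ?_⟩ ?_
    · rw [hM, Finset.mem_filter, Finset.mem_sdiff, Finset.mem_singleton]
      refine ⟨⟨hx1V, hx1a⟩, fun z hz => ?_⟩
      rw [hAe, hpr, add_sub_cancel_left]
      exact hrz z hz
    · intro x hx y hy hya
      rw [hM, Finset.mem_filter, Finset.mem_sdiff, Finset.mem_singleton] at hx ⊢
      obtain ⟨⟨hxV, hxa⟩, hxz⟩ := hx
      have hyV : y ∈ V := Finset.mem_of_mem_erase (nbr_subset hy)
      rw [Finset.mem_singleton] at hya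
      have hyx : y ≠ x := (mem_nbr.mp hy).1
      refine ⟨⟨hyV, hya⟩, ?_⟩
      have hspan : vectorSpan ℝ ((({a, x, y} : Finset E)) : Set E) = W := by
        refine Submodule.eq_of_le_of_finrank_eq ?_ ?_
        · refine vectorSpan_mono ℝ ?_
          intro u hu
          simp only [Finset.coe_insert, Finset.coe_singleton, Set.mem_insert_iff,
            Set.mem_singleton_iff] at hu
          rcases hu with rfl | rfl | rfl
          · exact ha
          · exact hxV
          · exact hyV
        · exact (hV.adim_triple ha hxV hyV (Ne.symm hxa) (Ne.symm hya) (Ne.symm hyx)).trans h2.symm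
      rw [← hspan]
      refine inner_span_triple ?_ ?_
      · rw [inner_sub_left, hA, sub_zero, real_inner_comm]
        exact h1 y hyV
      · have e1 : q y - q a - A (y - a) = (q y - q x - A (y - x)) + (q x - q a - A (x - a)) := by
          rw [show y - a = (y - x) + (x - a) by abel, map_add]
          abel
        rw [e1, inner_add_left, hxz _ (hmem y hyV x hxV), add_zero, inner_sub_left, hA, sub_zero,
          real_inner_comm, ← neg_sub x y, ← neg_sub (q x) (q y), inner_neg_neg]
        exact h x hxV y hy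
  have hall : ∀ x ∈ V, ∀ z ∈ W, inner ℝ (q x - q a - A (x - a)) z = 0 := by
    intro x hx z hz
    by_cases hxa : x = a
    · rw [hxa, sub_self, sub_self, map_zero, sub_zero, inner_zero_left]
    · have h3 : x ∈ M := by
        rw [hMeq, Finset.mem_sdiff, Finset.mem_singleton]
        exact ⟨hx, hxa⟩
      rw [hM, Finset.mem_filter] at h3
      exact h3.2 z hz
  refine braced_of_motion hA fun x hx y hy => ?_
  have e1 : q x - q y - A (x - y) = (q x - q a - A (x - a)) - (q y - q a - A (y - a)) := by
    rw [show x - y = (x - a) - (y - a) by abel, map_sub]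
    abel
  rw [e1, inner_sub_left, hall x hx _ (hmem x hx y hy), hall y hy _ (hmem x hx y hy), sub_zero]

end Pool.Agent.FV
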