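import Pool.Agent.Lib.MP_e9c977_fv.VFig

/-!
# Row PG: polygons
-/

namespace Pool.Agent.FV

open Module
open scoped Classical

variable {E : Type} [NormedAddCommGroup E] [InnerProductSpace ℝ E]

namespace PGAux

theorem card_pair {V S : Finset E} (hV : ConvPos V) (hS : S ∈ faces V 1) : S.card = 2 := by
  obtain ⟨x, y, hxy, rfl, _⟩ := (mem_faces_one hV).1 hS
  exact Finset.card_pair hxy

theorem card_nbr_eq {V : Finset E} (hV : ConvPos V) {u : E} :
    (nbr V u).card = ((faces V 1).filter (fun S => u ∈ S)).card := by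
  refine Finset.card_bij (fun w _ => ({u, w} : Finset E)) ?_ ?_ ?_
  · intro w hw
    have hne : u ≠ w := (mem_nbr.1 hw).1.symm
    exact Finset.mem_filter.2 ⟨(mem_nbr_iff_edge hV hne).1 hw, by simp⟩
  · intro w hw w' hw' h
    have h1 : w ∈ ({u, w'} : Finset E) := by
      rw [← h]
      simp
    rcases Finset.mem_insert.1 h1 with h2 | h2
    · exact absurd h2 (mem_nbr.1 hw).1
    · exact Finset.mem_singleton.1 h2
  · intro S hS
    obtain ⟨h1, h2⟩ := Finset.mem_filter.1 hS
    obtain ⟨x, y, hxy, rfl, hf⟩ := (mem_faces_one hV).1 h1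
    rcases Finset.mem_insert.1 h2 with h3 | h3
    · subst h3
      exact ⟨y, mem_nbr.2 ⟨hxy.symm, hf⟩, rfl⟩
    · have h4 := Finset.mem_singleton.1 h3
      subst h4
      refine ⟨x, mem_nbr.2 ⟨hxy, ?_⟩, ?_⟩
      · rwa [Finset.pair_comm]
      · exact Finset.pair_comm _ _

theorem sum_card_nbr {V : Finset E} (hV : ConvPos V) :
    ∑ x ∈ V, (nbr V x).card = 2 * (faces V 1).card := by
  have h1 : ∑ x ∈ V, (nbr V x).card = ∑ x ∈ V, ((faces V 1).filter (fun S => x ∈ S)).card :=
    Finset.sum_congr rfl fun x _ => card_nbr_eq hV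
  rw [h1]
  have h2 := Finset.sum_card_bipartiteAbove_eq_sum_card_bipartiteBelow
    (s := V) (t := faces V 1) (fun x S => x ∈ S)
  simp only [Finset.bipartiteAbove, Finset.bipartiteBelow] at h2
  rw [h2]
  have h3 : ∀ S ∈ faces V 1, (V.filter (fun x => x ∈ S)).card = 2 := by
    intro S hS
    have h4 : V.filter (fun x => x ∈ S) = S := by
      rw [Finset.filter_mem_eq_inter]
      exact Finset.inter_eq_right.2 (mem_faces.1 hS).1.2.1
    rw [h4]
    exact card_pair hV hS
  rw [Finset.sum_congr rfl h3, Finset.sum_const, smul_eq_mul, mul_comm]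

end PGAux

/-- Every vertex of a polygon has two neighbours. -/
theorem card_nbr_polygon {V : Finset E} (hV : ConvPos V) (h2 : adim V = 2) {u : E} (hu : u ∈ V) :
    (nbr V u).card = 2 := by
  have h := diamond (hV u hu) (FaceSet.self ⟨u, hu⟩) (Finset.singleton_subset_iff.2 hu)
    (by rw [adim_singleton, h2])
  rw [adim_singleton] at h
  rw [PGAux.card_nbr_eq hV, ← h]
  congr 1
  refine Finset.filter_congr fun S hS => ?_
  constructor
  · intro h1
    exact ⟨Finset.singleton_subset_iff.2 h1, (mem_faces.1 hS).1.2.1⟩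
  · intro h1
    exact Finset.singleton_subset_iff.1 h1.1

theorem card_edges_polygon {V : Finset E} (hV : ConvPos V) (h2 : adim V = 2) :
    (faces V 1).card = V.card := by
  have h1 := PGAux.sum_card_nbr hV
  rw [Finset.sum_congr rfl fun x hx => card_nbr_polygon hV h2 hx, Finset.sum_const,
    smul_eq_mul] at h1
  omega

theorem three_le_card_polygon {V : Finset E} (hV : ConvPos V) (h2 : adim V = 2) :
    3 ≤ V.card := by
  have hne : V.Nonempty := by
    rw [Finset.nonempty_iff_ne_empty]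
    rintro rfl
    have : adim (∅ : Finset E) = 0 := by
      unfold adim
      rw [Finset.coe_empty, vectorSpan_empty, finrank_bot]
    omega
  have := adim_add_one_le_card hne
  omega

/-- In a polygon with three vertices any two are adjacent. -/
theorem nbr_triangle {V : Finset E} (hV : ConvPos V) (h2 : adim V = 2) (h3 : V.card = 3) {u : E}
    (hu : u ∈ V) : nbr V u = V.erase u := by
  refine Finset.eq_of_subset_of_card_le nbr_subset ?_
  rw [Finset.card_erase_of_mem hu, h3, card_nbr_polygon hV h2 hu]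

namespace PGAux

theorem exists_inj (V : Finset E) : ∃ h : E →ₗ[ℝ] ℝ, Set.InjOn h (V : Set E) := by
  set D : Finset (Submodule ℝ E) :=
    ((V ×ˢ V).filter (fun p => p.1 ≠ p.2)).image
      (fun p => LinearMap.ker (innerSL ℝ (p.1 - p.2) : E →ₗ[ℝ] ℝ)) with hD
  have htop : (⊤ : Submodule ℝ E) ∉ D := by
    intro h
    obtain ⟨p, hp, h1⟩ := Finset.mem_image.1 h
    have h2 := (Finset.mem_filter.1 hp).2
    have h3 : p.1 - p.2 ∈ LinearMap.ker (innerSL ℝ (p.1 - p.2) : E →ₗ[ℝ] ℝ) := by
      rw [h1]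
      trivial
    have h4 : inner ℝ (p.1 - p.2) (p.1 - p.2) = (0 : ℝ) := LinearMap.mem_ker.1 h3
    exact h2 (sub_eq_zero.1 (inner_self_eq_zero.1 h4))
  have hne := Subspace.biUnion_ne_univ_of_top_notMem htop
  obtain ⟨v, hv⟩ := (Set.ne_univ_iff_exists_notMem _).1 hne
  refine ⟨(innerSL ℝ v : E →ₗ[ℝ] ℝ), ?_⟩
  intro x hx y hy hxy
  by_contra hcon
  refine hv ?_
  simp only [Set.mem_iUnion]
  refine ⟨_, Finset.mem_image.2 ⟨(x, y), Finset.mem_filter.2
    ⟨Finset.mem_product.2 ⟨hx, hy⟩, hcon⟩, rfl⟩, ?_⟩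
  have h1 : inner ℝ v x = inner ℝ v y := hxy
  have h2 : inner ℝ (x - y) v = (0 : ℝ) := by
    rw [real_inner_comm, inner_sub_right, h1, sub_self]
  exact LinearMap.mem_ker.2 h2

end PGAux

/-- Perturbation: there is a functional injective on `V` with the same strict inequalities. -/
theorem exists_generic (V : Finset E) (l : E →ₗ[ℝ] ℝ) (c : ℝ) :
    ∃ l' : E →ₗ[ℝ] ℝ, Set.InjOn l' (V : Set E) ∧ (∀ x ∈ V, l x < c → l' x < c) ∧
      (∀ x ∈ V, c < l x → c < l' x) ∧ ∀ x ∈ V, ∀ y ∈ V, l x < l y → l' x < l' y := by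
  obtain ⟨h, hh⟩ := PGAux.exists_inj V
  have hc : ∀ x : E, Filter.Tendsto (fun e : ℝ => l x + e * h x) (nhdsWithin 0 (Set.Ioi 0))
      (nhds (l x)) := by
    intro x
    have h1 : Continuous fun e : ℝ => l x + e * h x := by fun_prop
    have h2 := (h1.tendsto 0).mono_left (nhdsWithin_le_nhds (s := Set.Ioi (0 : ℝ)))
    simpa using h2
  have e1 : ∀ᶠ e in nhdsWithin (0 : ℝ) (Set.Ioi 0), ∀ x ∈ V, l x < c → l x + e * h x < c := by
    rw [Finset.eventually_all]
    intro x _
    by_cases hx : l x < c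
    · exact ((hc x).eventually (gt_mem_nhds hx)).mono fun _ h _ => h
    · exact Filter.Eventually.of_forall fun _ h => absurd h hx
  have e2 : ∀ᶠ e in nhdsWithin (0 : ℝ) (Set.Ioi 0), ∀ x ∈ V, c < l x → c < l x + e * h x := by
    rw [Finset.eventually_all]
    intro x _
    by_cases hx : c < l x
    · exact ((hc x).eventually (lt_mem_nhds hx)).mono fun _ h _ => h
    · exact Filter.Eventually.of_forall fun _ h => absurd h hx
  have e3 : ∀ᶠ e in nhdsWithin (0 : ℝ) (Set.Ioi 0), ∀ x ∈ V, ∀ y ∈ V, l x < l y →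
      l x + e * h x < l y + e * h y := by
    rw [Finset.eventually_all]
    intro x _
    rw [Finset.eventually_all]
    intro y _
    by_cases hx : l x < l y
    · exact ((hc x).eventually_lt (hc y) hx).mono fun _ h _ => h
    · exact Filter.Eventually.of_forall fun _ h => absurd h hx
  have e0 : ∀ᶠ e in nhdsWithin (0 : ℝ) (Set.Ioi 0), 0 < e := self_mem_nhdsWithin
  obtain ⟨e, he0, he1, he2, he3⟩ := (e0.and (e1.and (e2.and e3))).exists
  refine ⟨l + e • h, ?_, fun x hx => he1 x hx, fun x hx => he2 x hx,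
    fun x hx y hy => he3 x hx y hy⟩
  intro x hx y hy hxy
  have hxy' : l x + e * h x = l y + e * h y := hxy
  rcases lt_trichotomy (l x) (l y) with h1 | h1 | h1
  · exact absurd hxy' (he3 x hx y hy h1).ne
  · rw [h1] at hxy'
    have h2 : e * h x = e * h y := by linarith
    exact hh hx hy (mul_left_cancel₀ (ne_of_gt he0) h2)
  · exact absurd hxy' (he3 y hy x hx h1).ne'

namespace PGAux

theorem card_lower {V : Finset E} (hV : ConvPos V) (h2 : adim V = 2)
    (l : E →ₗ[ℝ] ℝ) {x : E} (hx : x ∈ V)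
    (hmax : ∃ y ∈ V, l x < l y) :
    ((nbr V x).filter (fun w => l w < l x)).card = if ∃ y ∈ V, l y < l x then 1 else 0 := by
  obtain ⟨y, hy, hxy⟩ := hmax
  obtain ⟨w, hw, hxw⟩ := exists_nbr_lt hV l hx hy hxy
  split_ifs with h
  · obtain ⟨z, hz, hzx⟩ := h
    obtain ⟨w', hw', hxw'⟩ := exists_nbr_lt hV (-l) hx hz (by simpa using hzx)
    have hlt : l w' < l x := by simpa using hxw'
    have h3 : ((nbr V x).filter (fun w => l w < l x)).card < 2 := by
      rw [← card_nbr_polygon hV h2 hx]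
      refine Finset.card_lt_card ?_
      rw [Finset.filter_ssubset]
      exact ⟨w, hw, not_lt.2 hxw.le⟩
    have h4 : 0 < ((nbr V x).filter (fun w => l w < l x)).card :=
      Finset.card_pos.2 ⟨w', Finset.mem_filter.2 ⟨hw', hlt⟩⟩
    omega
  · rw [Finset.card_eq_zero, Finset.filter_eq_empty_iff]
    intro w' hw' hlt
    exact h ⟨w', (Finset.mem_erase.1 (nbr_subset hw')).2, hlt⟩

theorem lower_edges {V : Finset E} (hV : ConvPos V) (h2 : adim V = 2)
    (l : E →ₗ[ℝ] ℝ) (hinj : Set.InjOn l (V : Set E)) {c : ℝ} (hlo : ∃ x ∈ V, l x < c)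
    (hhi : ∃ x ∈ V, c < l x) :
    ((faces V 1).filter (fun S => ∀ x ∈ S, l x < c)).card + 1
      = (V.filter (fun x => l x < c)).card := by
  have hset : (faces V 1).filter (fun S => ∀ x ∈ S, l x < c)
      = (V.filter (fun x => l x < c)).biUnion
        (fun x => ((nbr V x).filter (fun w => l w < l x)).image (fun w => ({x, w} : Finset E))) := by
    ext S
    simp only [Finset.mem_filter, Finset.mem_biUnion, Finset.mem_image]
    constructor
    · rintro ⟨hS, hlt⟩
      obtain ⟨x, y, hxy, rfl, hf⟩ := (mem_faces_one hV).1 hS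
      have hxV : x ∈ V := hf.2.1 (by simp)
      have hyV : y ∈ V := hf.2.1 (by simp)
      rcases lt_trichotomy (l x) (l y) with h | h | h
      · refine ⟨y, ⟨hyV, hlt y (by simp)⟩, x, ⟨mem_nbr.2 ⟨hxy, ?_⟩, h⟩, Finset.pair_comm _ _⟩
        rwa [Finset.pair_comm]
      · exact absurd (hinj hxV hyV h) hxy
      · exact ⟨x, ⟨hxV, hlt x (by simp)⟩, y, ⟨mem_nbr.2 ⟨hxy.symm, hf⟩, h⟩, rfl⟩
    · rintro ⟨x, ⟨hx, hxc⟩, w, ⟨hw, hwx⟩, rfl⟩
      refine ⟨(mem_nbr_iff_edge hV (mem_nbr.1 hw).1.symm).1 hw, ?_⟩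
      intro z hz
      rcases Finset.mem_insert.1 hz with h | h
      · rw [h]
        exact hxc
      · rw [Finset.mem_singleton.1 h]
        exact hwx.trans hxc
  rw [hset, Finset.card_biUnion]
  · obtain ⟨m, hm, hmin⟩ := Finset.exists_min_image V l ⟨_, hlo.choose_spec.1⟩
    obtain ⟨x0, hx0, hx0c⟩ := hlo
    obtain ⟨x1, hx1, hx1c⟩ := hhi
    have hmc : l m < c := (hmin x0 hx0).trans_lt hx0c
    have hmem : m ∈ V.filter (fun x => l x < c) := Finset.mem_filter.2 ⟨hm, hmc⟩
    have hcard : ∀ x ∈ V.filter (fun x => l x < c),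
        (((nbr V x).filter (fun w => l w < l x)).image (fun w => ({x, w} : Finset E))).card
          = if x = m then 0 else 1 := by
      intro x hx
      obtain ⟨hxV, hxc⟩ := Finset.mem_filter.1 hx
      rw [Finset.card_image_of_injOn, card_lower hV h2 l hxV ⟨x1, hx1, hxc.trans hx1c⟩]
      · by_cases h : x = m
        · subst h
          rw [if_neg, if_pos rfl]
          rintro ⟨y, hy, hlt⟩
          exact absurd (hmin y hy) (not_le.2 hlt)
        · rw [if_pos, if_neg h]
          refine ⟨m, hm, (hmin x hxV).lt_of_ne fun h3 => h ?_⟩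
          exact (hinj hm hxV h3).symm
      · intro w hw w' hw' h
        have h1 : w ∈ ({x, w'} : Finset E) := by
          have : ({x, w} : Finset E) = {x, w'} := h
          rw [← this]
          simp
        rcases Finset.mem_insert.1 h1 with h2 | h2
        · exact absurd h2 (mem_nbr.1 (Finset.mem_filter.1 hw).1).1
        · exact Finset.mem_singleton.1 h2
    rw [Finset.sum_congr rfl hcard]
    have h5 : ∑ x ∈ V.filter (fun x => l x < c), (if x = m then 0 else 1)
        = ((V.filter (fun x => l x < c)).erase m).card := by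
      rw [Finset.card_eq_sum_ones, ← Finset.sum_erase_add _ _ hmem, if_pos rfl, add_zero]
      refine Finset.sum_congr rfl fun x hx => ?_
      rw [if_neg (Finset.mem_erase.1 hx).1]
    rw [h5, Finset.card_erase_of_mem hmem]
    have : 0 < (V.filter (fun x => l x < c)).card := Finset.card_pos.2 ⟨m, hmem⟩
    omega
  · intro x hx y hy hxy
    rw [Function.onFun, Finset.disjoint_left]
    intro S hS hS'
    obtain ⟨w, hw, rfl⟩ := Finset.mem_image.1 hS
    obtain ⟨w', hw', h⟩ := Finset.mem_image.1 hS'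
    have h1 := (Finset.mem_filter.1 hw).2
    have h2 := (Finset.mem_filter.1 hw').2
    have hx' : x ∈ ({y, w'} : Finset E) := by
      rw [h]
      simp
    have hy' : y ∈ ({x, w} : Finset E) := by
      rw [← h]
      simp
    rcases Finset.mem_insert.1 hx' with h3 | h3
    · exact hxy h3
    · rcases Finset.mem_insert.1 hy' with h4 | h4
      · exact hxy h4.symm
      · rw [← Finset.mem_singleton.1 h3] at h2
        rw [← Finset.mem_singleton.1 h4] at h1
        exact absurd h1 (not_lt.2 h2.le)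

end PGAux

/-- A line missing the vertices of a polygon and separating some of them: the lower vertices span
one edge less than their number. -/
theorem card_lower_edges_polygon {V : Finset E} (hV : ConvPos V) (h2 : adim V = 2)
    (l : E →ₗ[ℝ] ℝ) {c : ℝ} (hne : ∀ x ∈ V, l x ≠ c) (hlo : ∃ x ∈ V, l x < c)
    (hhi : ∃ x ∈ V, c < l x) :
    ((faces V 1).filter (fun S => ∀ x ∈ S, l x < c)).card + 1
      = (V.filter (fun x => l x < c)).card := by
  obtain ⟨l', hinj, h3, h4, _⟩ := exists_generic V l c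
  have hiff : ∀ x ∈ V, (l x < c ↔ l' x < c) := by
    intro x hx
    refine ⟨h3 x hx, fun h => ?_⟩
    rcases lt_or_gt_of_ne (hne x hx) with h5 | h5
    · exact h5
    · exact absurd (h4 x hx h5) (not_lt.2 h.le)
  have h5 := PGAux.lower_edges hV h2 l' hinj (c := c)
    (hlo.imp fun x hx => ⟨hx.1, h3 x hx.1 hx.2⟩) (hhi.imp fun x hx => ⟨hx.1, h4 x hx.1 hx.2⟩)
  rw [Finset.filter_congr (q := fun x => l' x < c) fun x hx => hiff x hx, ← h5]
  congr 2
  refine Finset.filter_congr fun S hS => ?_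
  have hSV := (mem_faces.1 hS).1.2.1
  exact ⟨fun h x hx => (hiff x (hSV hx)).1 (h x hx), fun h x hx => (hiff x (hSV hx)).2 (h x hx)⟩

end Pool.Agent.FV
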