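import Pool.Agent.Lib.MP_e9c977_fv.LocalId
import Pool.Agent.Lib.MP_e9c977_fv.Polygon

/-!
# Row FX: the cyclic order of the faces around a vertex of a three-dimensional polytope
-/

namespace Pool.Agent.FV

open Module
open scoped Classical

noncomputable section

namespace FXAux

section general

variable {E : Type} [NormedAddCommGroup E] [InnerProductSpace ℝ E] {V : Finset E} {p : E}

theorem nbr_mem {w : E} (hw : w ∈ nbr V p) : w ∈ V := (Finset.mem_erase.1 (nbr_subset hw)).2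

theorem nbr_ne {w : E} (hw : w ∈ nbr V p) : w ≠ p := (Finset.mem_erase.1 (nbr_subset hw)).1

theorem triple_le (hV : ConvPos V) {x y z : E} (hx : x ∈ V) (hy : y ∈ V)
    (hz : z ∈ V) (hxy : x ≠ y) (hxz : x ≠ z) (hyz : y ≠ z) (s : ℝ) : z - x ≠ s • (y - x) := by
  intro hs
  have h2 := hV.adim_triple hx hy hz hxy hxz hyz
  have h3 : vectorSpan ℝ ((({x, y, z} : Finset E)) : Set E) ≤ Submodule.span ℝ {y - x} := by
    rw [vectorSpan_eq_span_vsub_set_right ℝ (p := x) (by simp)]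
    rw [Submodule.span_le]
    rintro v ⟨w, hw, rfl⟩
    simp only [Finset.coe_insert, Finset.coe_singleton, Set.mem_insert_iff,
      Set.mem_singleton_iff] at hw
    simp only [vsub_eq_sub, SetLike.mem_coe]
    rcases hw with rfl | rfl | rfl
    · simp
    · exact Submodule.mem_span_singleton_self _
    · rw [hs]
      exact Submodule.smul_mem _ _ (Submodule.mem_span_singleton_self _)
  have h4 : adim ({x, y, z} : Finset E) ≤ 1 := by
    refine le_trans (Submodule.finrank_mono h3) ?_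
    rw [finrank_span_singleton (sub_ne_zero.2 (Ne.symm hxy))]
  omega

/-- different faces have only two common points at an edge -/
theorem not_mem (hV : ConvPos V) (hp : p ∈ V) {R R' : Finset E} (hR : R ∈ faces V 2)
    (hR' : R' ∈ faces V 2) (hne : R ≠ R') (hpR : p ∈ R) (hpR' : p ∈ R') {w w' : E}
    (hw : w ∈ nbr V p) (hwR : w ∈ R) (hwR' : w ∈ R') (hw' : w' ∈ nbr V p) (hww : w ≠ w')
    (h1 : w' ∈ R) : w' ∉ R' := by
  intro h2
  rw [mem_faces] at hR hR'
  have hF : FaceSet V (R ∩ R') := hR.1.inter hR'.1 ⟨p, Finset.mem_inter.2 ⟨hpR, hpR'⟩⟩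
  have hsub : ({p, w, w'} : Finset E) ⊆ R ∩ R' := by
    intro x hx
    simp only [Finset.mem_insert, Finset.mem_singleton] at hx
    rcases hx with rfl | rfl | rfl
    · exact Finset.mem_inter.2 ⟨hpR, hpR'⟩
    · exact Finset.mem_inter.2 ⟨hwR, hwR'⟩
    · exact Finset.mem_inter.2 ⟨h1, h2⟩
  have hd : 2 ≤ adim (R ∩ R') := by
    rw [← hV.adim_triple hp (nbr_mem hw) (nbr_mem hw') (Ne.symm (nbr_ne hw))
      (Ne.symm (nbr_ne hw')) hww]
    exact adim_mono hsub
  have e1 : R ∩ R' = R := hF.eq_of_adim Finset.inter_subset_left hR.1.2.1 (by rw [hR.2]; exact hd)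
  have e2 : R ∩ R' = R' :=
    hF.eq_of_adim Finset.inter_subset_right hR'.1.2.1 (by rw [hR'.2]; exact hd)
  exact hne (e1.symm.trans e2)

/-- two faces at an edge -/
theorem two_faces (h3 : adim V = 3) {w : E} (hw : w ∈ nbr V p) :
    ∃ R R' : Finset E, R ≠ R' ∧ R ∈ faces V 2 ∧ R' ∈ faces V 2 ∧ p ∈ R ∧ w ∈ R ∧ p ∈ R' ∧
      w ∈ R' := by
  have hw' := mem_nbr.1 hw
  have hV0 : V.Nonempty := ⟨p, hw'.2.2.1 (by simp)⟩
  have hd := diamond hw'.2 (FaceSet.self hV0) hw'.2.2.1 (by rw [h3, adim_pair (Ne.symm hw'.1)])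
  rw [adim_pair (Ne.symm hw'.1), Finset.card_eq_two] at hd
  obtain ⟨R, R', hne, he⟩ := hd
  have h1 : R ∈ ({R, R'} : Finset (Finset E)) := by simp
  have h2 : R' ∈ ({R, R'} : Finset (Finset E)) := by simp
  rw [← he, Finset.mem_filter] at h1 h2
  exact ⟨R, R', hne, h1.1, h2.1, h1.2.1 (by simp), h1.2.1 (by simp), h2.2.1 (by simp),
    h2.2.1 (by simp)⟩

/-- the other neighbour in a face -/
theorem other (hV : ConvPos V) {R : Finset E} (hR : R ∈ faces V 2) (hpR : p ∈ R) {w : E}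
    (hw : w ∈ nbr V p) (hwR : w ∈ R) : ∃ w' ∈ nbr V p, w' ∈ R ∧ w ≠ w' := by
  have hR' := mem_faces.1 hR
  have h2 := card_nbr_polygon (hV.mono hR'.1.2.1) hR'.2 hpR
  obtain ⟨w', hw', hne⟩ := Finset.exists_mem_ne (by omega : 1 < (nbr R p).card) w
  rw [nbr_face hR'.1 hpR, Finset.mem_inter] at hw'
  exact ⟨w', hw'.2, hw'.1, Ne.symm hne⟩

/-- a face has only two neighbours of `p` -/
theorem third (hV : ConvPos V) {R : Finset E} (hR : R ∈ faces V 2) (hpR : p ∈ R)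
    {u v w : E} (hu : u ∈ nbr V p) (hv : v ∈ nbr V p) (hw : w ∈ nbr V p) (huR : u ∈ R)
    (hvR : v ∈ R) (hwR : w ∈ R) (huv : u ≠ v) (hvw : v ≠ w) : u = w := by
  have hR' := mem_faces.1 hR
  have h2 := card_nbr_polygon (hV.mono hR'.1.2.1) hR'.2 hpR
  by_contra huw
  have hsub : ({u, v, w} : Finset E) ⊆ nbr R p := by
    intro x hx
    rw [nbr_face hR'.1 hpR, Finset.mem_inter]
    simp only [Finset.mem_insert, Finset.mem_singleton] at hx
    rcases hx with rfl | rfl | rfl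
    · exact ⟨huR, hu⟩
    · exact ⟨hvR, hv⟩
    · exact ⟨hwR, hw⟩
  have h3 := Finset.card_le_card hsub
  have h4 : ({u, v, w} : Finset E).card = 3 := by
    rw [Finset.card_insert_of_notMem (by simp [huv, huw]),
      Finset.card_insert_of_notMem (by simp [hvw]), Finset.card_singleton]
  omega

end general

theorem inner3 (x y : E3) : inner ℝ x y = x 0 * y 0 + x 1 * y 1 + x 2 * y 2 := by
  simp only [PiLp.inner_apply, Fin.sum_univ_three, RCLike.inner_apply, conj_trivial]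
  ring

theorem cr3_zero (x y : E3) : (cr3 x y) 0 = x 1 * y 2 - x 2 * y 1 := rfl
theorem cr3_one (x y : E3) : (cr3 x y) 1 = x 2 * y 0 - x 0 * y 2 := rfl
theorem cr3_two (x y : E3) : (cr3 x y) 2 = x 0 * y 1 - x 1 * y 0 := rfl

theorem ext3 {x y : E3} (h0 : x 0 = y 0) (h1 : x 1 = y 1) (h2 : x 2 = y 2) : x = y := by
  ext i
  fin_cases i
  · exact h0
  · exact h1
  · exact h2

/-- determinant -/
def dt (a b e : E3) : ℝ := inner ℝ (cr3 a b) e

theorem dt_eq (a b e : E3) : dt a b e = (a 1 * b 2 - a 2 * b 1) * e 0 +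
    (a 2 * b 0 - a 0 * b 2) * e 1 + (a 0 * b 1 - a 1 * b 0) * e 2 := by
  rw [dt, inner3, cr3_zero, cr3_one, cr3_two]

theorem dt_swap (a b e : E3) : dt a e b = - dt a b e := by
  rw [dt_eq, dt_eq]
  ring

theorem dt_smul {y a b e : E3} (ha : inner ℝ y a = (1 : ℝ)) (hb : inner ℝ y b = (1 : ℝ))
    (he : inner ℝ y e = (1 : ℝ)) : cr3 (b - a) (e - a) = dt a b e • y := by
  rw [inner3] at ha hb he
  apply ext3
  · rw [cr3_zero, PiLp.smul_apply, dt_eq]
    simp only [PiLp.sub_apply, smul_eq_mul]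
    linear_combination (-(b 1 * e 2 - b 2 * e 1)) * ha + (-(e 1 * a 2 - e 2 * a 1)) * hb +
      (-(a 1 * b 2 - a 2 * b 1)) * he
  · rw [cr3_one, PiLp.smul_apply, dt_eq]
    simp only [PiLp.sub_apply, smul_eq_mul]
    linear_combination (-(b 2 * e 0 - b 0 * e 2)) * ha + (-(e 2 * a 0 - e 0 * a 2)) * hb +
      (-(a 2 * b 0 - a 0 * b 2)) * he
  · rw [cr3_two, PiLp.smul_apply, dt_eq]
    simp only [PiLp.sub_apply, smul_eq_mul]
    linear_combination (-(b 0 * e 1 - b 1 * e 0)) * ha + (-(e 0 * a 1 - e 1 * a 0)) * hb +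
      (-(a 0 * b 1 - a 1 * b 0)) * he

theorem parallel {v a b : E3} (hn : cr3 a b ≠ 0) (ha : inner ℝ v a = (0 : ℝ))
    (hb : inner ℝ v b = (0 : ℝ)) : ∃ s : ℝ, v = s • cr3 a b := by
  apply exists_smul_of_cr3 hn
  rw [inner3] at ha hb
  apply ext3
  · rw [cr3_zero, cr3_one, cr3_two]
    simp only [PiLp.zero_apply]
    linear_combination (a 0) * hb - (b 0) * ha
  · rw [cr3_one, cr3_zero, cr3_two]
    simp only [PiLp.zero_apply]
    linear_combination (a 1) * hb - (b 1) * ha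
  · rw [cr3_two, cr3_zero, cr3_one]
    simp only [PiLp.zero_apply]
    linear_combination (a 2) * hb - (b 2) * ha

/-- three points in convex position are not collinear -/
theorem cr3_ne {V : Finset E3} (hV : ConvPos V) {x y z : E3} (hx : x ∈ V) (hy : y ∈ V)
    (hz : z ∈ V) (hxy : x ≠ y) (hxz : x ≠ z) (hyz : y ≠ z) : cr3 (y - x) (z - x) ≠ 0 := by
  intro h
  have h' : cr3 (z - x) (y - x) = 0 := by
    have h0 := congrArg (fun v : E3 => v 0) h
    have h1 := congrArg (fun v : E3 => v 1) h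
    have h2 := congrArg (fun v : E3 => v 2) h
    simp only [cr3_zero, cr3_one, cr3_two, PiLp.zero_apply] at h0 h1 h2
    apply ext3
    · rw [cr3_zero, PiLp.zero_apply]
      linarith
    · rw [cr3_one, PiLp.zero_apply]
      linarith
    · rw [cr3_two, PiLp.zero_apply]
      linarith
  obtain ⟨s, hs⟩ := exists_smul_of_cr3 (sub_ne_zero.2 (Ne.symm hxy)) h'
  exact triple_le hV hx hy hz hxy hxz hyz s hs

end FXAux

open FXAux

/-- The polar point of a face not through `c`. -/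
theorem exists_polar {V : Finset E3} {R : Finset E3} (hR : FaceSet V R) {c : E3}
    (hcV : c ∈ convexHull ℝ (V : Set E3)) (hc : c ∉ affineSpan ℝ (R : Set E3)) (h2 : adim R = 2)
    (h3 : adim V = 3) :
    ∃ y : E3, (∀ x ∈ V, inner ℝ y (x - c) ≤ 1) ∧ ∀ x ∈ V, (inner ℝ y (x - c) = 1 ↔ x ∈ R) := by
  obtain ⟨-, hRV, l, d, hl, hle⟩ := hR
  rw [Finset.mem_convexHull'] at hcV
  obtain ⟨w, hw0, hw1, hwc⟩ := hcV
  have hlc : l c = ∑ x ∈ V, w x * l x := by
    rw [← hwc, map_sum]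
    simp
  have hle' : l c ≤ d := by
    rw [hlc]
    calc ∑ x ∈ V, w x * l x ≤ ∑ x ∈ V, w x * d :=
          Finset.sum_le_sum fun x hx => mul_le_mul_of_nonneg_left (hl x hx) (hw0 x hx)
      _ = d := by rw [← Finset.sum_mul, hw1, one_mul]
  have hlt : l c < d := by
    refine lt_of_le_of_ne hle' fun h => hc ?_
    have hz : ∑ x ∈ V, w x * (d - l x) = 0 := by
      have : ∑ x ∈ V, w x * (d - l x) = d - ∑ x ∈ V, w x * l x := by
        simp only [mul_sub, Finset.sum_sub_distrib]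
        rw [← Finset.sum_mul, hw1, one_mul]
      rw [this, ← hlc, h, sub_self]
    rw [Finset.sum_eq_zero_iff_of_nonneg fun x hx =>
      mul_nonneg (hw0 x hx) (sub_nonneg.2 (hl x hx))] at hz
    have hout : ∀ x ∈ V, x ∉ R → w x = 0 := by
      intro x hx hxR
      rcases mul_eq_zero.1 (hz x hx) with h | h
      · exact h
      · exact absurd ((hle x hx).1 (by linarith)) hxR
    apply convexHull_subset_affineSpan
    rw [Finset.mem_convexHull']
    refine ⟨w, fun x hx => hw0 x (hRV hx), ?_, ?_⟩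
    · rw [← hw1]
      exact Finset.sum_subset hRV fun x hx hxR => hout x hx hxR
    · rw [← hwc]
      exact Finset.sum_subset hRV fun x hx hxR => by rw [hout x hx hxR, zero_smul]
  have hdc : 0 < d - l c := sub_pos.2 hlt
  set y0 : E3 := (InnerProductSpace.toDual ℝ E3).symm (LinearMap.toContinuousLinearMap l)
    with hy0
  have hin : ∀ v : E3, inner ℝ y0 v = l v := by
    intro v
    rw [hy0, InnerProductSpace.toDual_symm_apply]
    rfl
  have hval : ∀ x : E3, inner ℝ ((d - l c)⁻¹ • y0) (x - c) = (d - l c)⁻¹ * (l x - l c) := by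
    intro x
    rw [real_inner_smul_left, hin, map_sub]
  refine ⟨(d - l c)⁻¹ • y0, fun x hx => ?_, fun x hx => ?_⟩
  · rw [hval, inv_mul_le_iff₀ hdc]
    have := hl x hx
    linarith
  · rw [hval, ← hle x hx, inv_mul_eq_iff_eq_mul₀ hdc.ne', mul_one]
    constructor
    · intro h
      linarith
    · intro h
      linarith

namespace FXAux

variable {V : Finset E3} {p c : E3}

/-- determinant of a face -/
theorem dt_ne (hV : ConvPos V) (h3 : adim V = 3) (hp : p ∈ V)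
    (hcV : c ∈ convexHull ℝ (V : Set E3))
    (hc : ∀ R ∈ faces V 2, p ∈ R → c ∉ affineSpan ℝ (R : Set E3))
    {R : Finset E3} (hR : R ∈ faces V 2) (hpR : p ∈ R) {w w' : E3} (hw : w ∈ nbr V p)
    (hwR : w ∈ R) (hw' : w' ∈ nbr V p) (hwR' : w' ∈ R) (hne : w ≠ w') :
    dt (p - c) (w - c) (w' - c) ≠ 0 := by
  have hR' := mem_faces.1 hR
  obtain ⟨y, hy1, hy2⟩ := exists_polar hR'.1 hcV (hc R hR hpR) hR'.2 h3
  intro h
  have hwV := And.intro (nbr_ne hw) (nbr_mem hw)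
  have hwV' := And.intro (nbr_ne hw') (nbr_mem hw')
  have h1 := dt_smul ((hy2 p hp).2 hpR) ((hy2 w hwV.2).2 hwR) ((hy2 w' hwV'.2).2 hwR')
  rw [h, zero_smul, sub_sub_sub_cancel_right, sub_sub_sub_cancel_right] at h1
  exact cr3_ne hV hp hwV.2 hwV'.2 (Ne.symm hwV.1) (Ne.symm hwV'.1) hne h1

/-- the two faces at an edge are on different sides -/
theorem sides (hV : ConvPos V) (h3 : adim V = 3) (hp : p ∈ V)
    (hcV : c ∈ convexHull ℝ (V : Set E3))
    (hc : ∀ R ∈ faces V 2, p ∈ R → c ∉ affineSpan ℝ (R : Set E3))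
    {R R' : Finset E3} (hR : R ∈ faces V 2) (hR' : R' ∈ faces V 2) (hne : R ≠ R') (hpR : p ∈ R)
    (hpR' : p ∈ R') {w z z' : E3} (hw : w ∈ nbr V p) (hwR : w ∈ R) (hwR' : w ∈ R')
    (hz : z ∈ nbr V p) (hzR : z ∈ R) (hwz : w ≠ z) (hz' : z' ∈ nbr V p) (hzR' : z' ∈ R')
    (hwz' : w ≠ z') {y y' : E3}
    (hy1 : ∀ x ∈ V, inner ℝ y (x - c) ≤ (1 : ℝ))
    (hy2 : ∀ x ∈ V, (inner ℝ y (x - c) = (1 : ℝ) ↔ x ∈ R))
    (hy1' : ∀ x ∈ V, inner ℝ y' (x - c) ≤ (1 : ℝ))
    (hy2' : ∀ x ∈ V, (inner ℝ y' (x - c) = (1 : ℝ) ↔ x ∈ R')) :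
    ∃ s : ℝ, y - y' = s • cr3 (p - c) (w - c) ∧ 0 < s * dt (p - c) (w - c) (z - c) ∧
      s * dt (p - c) (w - c) (z' - c) < 0 := by
  have hwV := And.intro (nbr_ne hw) (nbr_mem hw)
  have hzV := And.intro (nbr_ne hz) (nbr_mem hz)
  have hzV' := And.intro (nbr_ne hz') (nbr_mem hz')
  have hd := dt_ne hV h3 hp hcV hc hR hpR hw hwR hz hzR hwz
  have hn : cr3 (p - c) (w - c) ≠ 0 := by
    intro h
    apply hd
    rw [dt, h, inner_zero_left]
  obtain ⟨s, hs⟩ := parallel (v := y - y') hn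
    (by rw [inner_sub_left, (hy2 p hp).2 hpR, (hy2' p hp).2 hpR', sub_self])
    (by rw [inner_sub_left, (hy2 w hwV.2).2 hwR, (hy2' w hwV.2).2 hwR', sub_self])
  have key : ∀ x : E3, s * dt (p - c) (w - c) x = inner ℝ y x - inner ℝ y' x := by
    intro x
    rw [dt, ← real_inner_smul_left, ← hs, inner_sub_left]
  refine ⟨s, hs, ?_, ?_⟩
  · rw [key, (hy2 z hzV.2).2 hzR]
    have h1 := hy1' z hzV.2
    have h2 : inner ℝ y' (z - c) ≠ (1 : ℝ) := by
      rw [Ne, hy2' z hzV.2]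
      exact not_mem hV hp hR hR' hne hpR hpR' hw hwR hwR' hz hwz hzR
    have := lt_of_le_of_ne h1 h2
    linarith
  · rw [key, (hy2' z' hzV'.2).2 hzR']
    have h1 := hy1 z' hzV'.2
    have h2 : inner ℝ y (z' - c) ≠ (1 : ℝ) := by
      rw [Ne, hy2 z' hzV'.2]
      exact not_mem hV hp hR' hR (Ne.symm hne) hpR' hpR hw hwR' hwR hz' hwz' hzR'
    have := lt_of_le_of_ne h1 h2
    linarith

end FXAux

theorem exists_fan {V : Finset E3} (hV : ConvPos V) (h3 : adim V = 3) {p c : E3} (hp : p ∈ V)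
    (hcV : c ∈ convexHull ℝ (V : Set E3))
    (hc : ∀ R ∈ faces V 2, p ∈ R → c ∉ affineSpan ℝ (R : Set E3)) :
    ∃ (σ : Equiv.Perm (nbr V p)) (y : nbr V p → E3) (ρ : nbr V p → ℝ),
      (∀ k, 0 < ρ k) ∧
      (∀ k, y (σ k) - y k = ρ (σ k) • cr3 (p - c) ((σ k : E3) - c)) ∧
      (∀ k, inner ℝ (y k) (p - c) = 1) ∧ (∀ k : nbr V p, inner ℝ (y k) ((k : E3) - c) = 1) ∧
      (∀ k, inner ℝ (y k) ((σ k : E3) - c) = 1) ∧
      (∀ k : nbr V p, inner ℝ (cr3 (p - c) ((k : E3) - c)) ((σ k : E3) - c) ≠ 0) ∧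
      (∀ k : nbr V p, ∃ R ∈ faces V 2, p ∈ R ∧ (k : E3) ∈ R ∧ (σ k : E3) ∈ R) := by
  have hmem : ∀ k : nbr V p, (k : E3) ∈ V := fun k => nbr_mem k.2
  -- existence of the next neighbour
  have hex : ∀ w : nbr V p, ∃ w' : nbr V p, ∃ R ∈ faces V 2, p ∈ R ∧ (w : E3) ∈ R ∧
      (w' : E3) ∈ R ∧ (w : E3) ≠ w' ∧ 0 < dt (p - c) ((w : E3) - c) ((w' : E3) - c) := by
    intro w
    obtain ⟨R, R', hne, hR, hR', hpR, hwR, hpR', hwR'⟩ := two_faces h3 w.2
    obtain ⟨z, hz, hzR, hwz⟩ := other hV hR hpR w.2 hwR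
    obtain ⟨z', hz', hzR', hwz'⟩ := other hV hR' hpR' w.2 hwR'
    have hRf := mem_faces.1 hR
    have hRf' := mem_faces.1 hR'
    obtain ⟨y, hy1, hy2⟩ := exists_polar hRf.1 hcV (hc R hR hpR) hRf.2 h3
    obtain ⟨y', hy1', hy2'⟩ := exists_polar hRf'.1 hcV (hc R' hR' hpR') hRf'.2 h3
    obtain ⟨s, -, hs1, hs2⟩ := sides hV h3 hp hcV hc hR hR' hne hpR hpR' w.2 hwR hwR' hz hzR hwz
      hz' hzR' hwz' hy1 hy2 hy1' hy2'
    rcases lt_trichotomy s 0 with h | h | h
    · refine ⟨⟨z', hz'⟩, R', hR', hpR', hwR', hzR', hwz', ?_⟩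
      by_contra hcon
      rw [not_lt] at hcon
      have := mul_nonneg_of_nonpos_of_nonpos h.le hcon
      linarith
    · rw [h, zero_mul] at hs1
      exact absurd hs1 (lt_irrefl _)
    · refine ⟨⟨z, hz⟩, R, hR, hpR, hwR, hzR, hwz, ?_⟩
      exact (mul_pos_iff_of_pos_left h).1 hs1
  choose τ R hR hpR hkR hτR hne hdt using hex
  have hinj : Function.Injective τ := by
    intro a b hab
    by_contra hne'
    have hab' : (a : E3) ≠ b := fun h => hne' (Subtype.ext h)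
    have hza : (τ a : E3) ∈ R b := by rw [hab]; exact hτR b
    have hRR : R a ≠ R b := by
      intro hRR
      apply hab'
      refine third hV (hR b) (hpR b) a.2 (τ a).2 b.2 (hRR ▸ hkR a) hza (hkR b) (hne a) ?_
      rw [hab]
      exact Ne.symm (hne b)
    have hRf := mem_faces.1 (hR a)
    have hRf' := mem_faces.1 (hR b)
    obtain ⟨y, hy1, hy2⟩ := exists_polar hRf.1 hcV (hc _ (hR a) (hpR a)) hRf.2 h3
    obtain ⟨y', hy1', hy2'⟩ := exists_polar hRf'.1 hcV (hc _ (hR b) (hpR b)) hRf'.2 h3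
    obtain ⟨s, -, hs1, hs2⟩ := sides hV h3 hp hcV hc (hR a) (hR b) hRR (hpR a) (hpR b)
      (τ a).2 (hτR a) hza a.2 (hkR a) (Ne.symm (hne a)) b.2 (hkR b)
      (by rw [hab]; exact Ne.symm (hne b)) hy1 hy2 hy1' hy2'
    have h1 := hdt a
    have h2 := hdt b
    rw [dt_swap] at hs1 hs2
    rw [← hab] at h2
    have h3' : s < 0 := by
      by_contra hcon
      rw [not_lt] at hcon
      have := mul_nonneg hcon h1.le
      linarith
    have := mul_neg_of_neg_of_pos h3' h2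
    linarith
  set σ : Equiv.Perm (nbr V p) := Equiv.ofBijective τ (Finite.injective_iff_bijective.1 hinj)
    with hσ
  have hσa : ∀ k, σ k = τ k := fun k => rfl
  have hpol : ∀ k : nbr V p, ∃ y : E3, (∀ x ∈ V, inner ℝ y (x - c) ≤ (1 : ℝ)) ∧
      ∀ x ∈ V, (inner ℝ y (x - c) = (1 : ℝ) ↔ x ∈ R k) := fun k =>
    exists_polar (mem_faces.1 (hR k)).1 hcV (hc _ (hR k) (hpR k)) (mem_faces.1 (hR k)).2 h3
  choose y hy1 hy2 using hpol
  have hlam : ∀ k : nbr V p, ∃ s : ℝ, 0 < s ∧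
      y (τ k) - y k = s • cr3 (p - c) ((τ k : E3) - c) := by
    intro k
    have hRR : R (τ k) ≠ R k := by
      intro hRR
      have e : (k : E3) = τ (τ k) := by
        refine third hV (hR k) (hpR k) k.2 (τ k).2 (τ (τ k)).2 (hkR k) (hτR k) ?_ (hne k)
          (hne (τ k))
        rw [← hRR]
        exact hτR (τ k)
      have h1 := hdt k
      have h2 := hdt (τ k)
      rw [← e, dt_swap] at h2
      linarith
    obtain ⟨s, hs, hs1, -⟩ := sides hV h3 hp hcV hc (hR (τ k)) (hR k) hRR (hpR _) (hpR _)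
      (τ k).2 (hkR (τ k)) (hτR k) (τ (τ k)).2 (hτR (τ k)) (hne (τ k)) k.2 (hkR k)
      (Ne.symm (hne k)) (hy1 _) (hy2 _) (hy1 _) (hy2 _)
    exact ⟨s, (pos_iff_pos_of_mul_pos hs1).2 (hdt (τ k)), hs⟩
  choose s hs0 hs using hlam
  refine ⟨σ, y, fun k => s (σ.symm k), fun k => hs0 _, fun k => ?_, fun k => ?_, fun k => ?_,
    fun k => ?_, fun k => ?_, fun k => ?_⟩
  · simp only [Equiv.symm_apply_apply]
    rw [hσa]
    exact hs k
  · exact (hy2 k p hp).2 (hpR k)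
  · exact (hy2 k k (hmem k)).2 (hkR k)
  · rw [hσa]
    exact (hy2 k _ (hmem _)).2 (hτR k)
  · rw [hσa]
    exact (hdt k).ne'
  · rw [hσa]
    exact ⟨R k, hR k, hpR k, hkR k, hτR k⟩

/-- The harmonic weights. -/
theorem exists_weights {V : Finset E3} (hV : ConvPos V) (h3 : adim V = 3) {p c : E3}
    (hp : p ∈ V) (hcV : c ∈ convexHull ℝ (V : Set E3))
    (hc : ∀ R ∈ faces V 2, p ∈ R → c ∉ affineSpan ℝ (R : Set E3)) :
    ∃ ρ : E3 → ℝ, (∀ w ∈ nbr V p, 0 < ρ w) ∧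
      ∀ q : E3 → E3, (∀ R ∈ faces V 2, Braced q R) →
        ∑ w ∈ nbr V p, ρ w * (‖p - c‖ ^ 2 * inner ℝ (w - c) (q w)
          - inner ℝ (p - c) (w - c) * inner ℝ (p - c) (q p)) = 0 := by
  obtain ⟨σ, y, ρ, hρ, h1, h2, h3', h4, h5, h6⟩ := exists_fan hV h3 hp hcV hc
  refine ⟨fun w => if h : w ∈ nbr V p then ρ ⟨w, h⟩ else 1, fun w hw => ?_, fun q hq => ?_⟩
  · simp only [hw, dif_pos]
    exact hρ _
  · have key := local_identity σ (p - c) (q p) (fun k : nbr V p => (k : E3) - c)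
      (fun k => q k) y ρ h1 h2 h3' h4 h5
      (fun k => by
        obtain ⟨R, hR, hpR, hkR, -⟩ := h6 k
        have := hq R hR p hpR k hkR
        rw [sub_sub_sub_cancel_right]
        exact this)
      (fun k => by
        obtain ⟨R, hR, hpR, hkR, hkR'⟩ := h6 k
        have := hq R hR k hkR _ hkR'
        rw [sub_sub_sub_cancel_right]
        exact this)
    rw [← Finset.sum_coe_sort]
    rw [← key]
    apply Finset.sum_congr rfl
    intro k _
    simp only [k.2, dif_pos, Subtype.coe_eta]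

end

end Pool.Agent.FV
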