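import Pool.Agent.Lib.MP_e9c977_fv.Defs

/-!
# Row SA: semialgebraic sets along a ray
-/

namespace Pool.Agent.FV

open scoped Classical

/-- Along an integral ray a semialgebraic set is eventually constant. -/
theorem Semialg.eventually {d : ℕ} {S : Set (Fin d → ℝ)} (hS : Semialg d S)
    (v w : Fin d → ℝ) :
    (∃ N : ℕ, ∀ j : ℕ, N ≤ j → (fun i => v i + j * w i) ∈ S) ∨
      ∃ N : ℕ, ∀ j : ℕ, N ≤ j → (fun i => v i + j * w i) ∉ S := by
  induction hS with
  | pos p =>
    set P : Polynomial ℝ :=
      MvPolynomial.aeval (fun i => Polynomial.C (v i) + Polynomial.X * Polynomial.C (w i)) p with hP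
    have key : ∀ t : ℝ, P.eval t = MvPolynomial.eval (fun i => v i + t * w i) p := by
      intro t
      have h1 : (Polynomial.evalRingHom t).comp
          (MvPolynomial.aeval (R := ℝ)
            (fun i => Polynomial.C (v i) + Polynomial.X * Polynomial.C (w i))).toRingHom =
          MvPolynomial.eval (fun i => v i + t * w i) := by
        apply MvPolynomial.ringHom_ext
        · intro r
          simp
        · intro i
          simp
          ring
      have h2 := congrArg (fun f : MvPolynomial (Fin d) ℝ →+* ℝ => f p) h1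
      simpa [hP] using h2
    have hmem : ∀ j : ℕ, ((fun i => v i + (j : ℝ) * w i) ∈
        {x : Fin d → ℝ | 0 < MvPolynomial.eval x p}) ↔ 0 < P.eval (j : ℝ) := by
      intro j
      rw [key]
      exact Iff.rfl
    simp only [hmem]
    by_cases hdeg : 0 < P.degree
    · rcases le_total 0 P.leadingCoeff with h | h
      · left
        have ht := (P.tendsto_atTop_of_leadingCoeff_nonneg hdeg h).comp
          (tendsto_natCast_atTop_atTop (R := ℝ))
        obtain ⟨N, hN⟩ := Filter.eventually_atTop.1 (ht.eventually (Filter.eventually_gt_atTop 0))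
        exact ⟨N, fun j hj => hN j hj⟩
      · right
        have ht := (P.tendsto_atBot_of_leadingCoeff_nonpos hdeg h).comp
          (tendsto_natCast_atTop_atTop (R := ℝ))
        obtain ⟨N, hN⟩ := Filter.eventually_atTop.1 (ht.eventually (Filter.eventually_lt_atBot 0))
        exact ⟨N, fun j hj => not_lt.2 (le_of_lt (hN j hj))⟩
    · have hc := Polynomial.eq_C_of_degree_le_zero (not_lt.1 hdeg)
      rw [hc]
      simp only [Polynomial.eval_C]
      by_cases h : 0 < P.coeff 0
      · exact Or.inl ⟨0, fun _ _ => h⟩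
      · exact Or.inr ⟨0, fun _ _ => h⟩
  | compl _ ih =>
    rcases ih with ⟨N, hN⟩ | ⟨N, hN⟩
    · exact Or.inr ⟨N, fun j hj h => h (hN j hj)⟩
    · exact Or.inl ⟨N, fun j hj => hN j hj⟩
  | inter _ _ ih1 ih2 =>
    rcases ih1 with ⟨N, hN⟩ | ⟨N, hN⟩
    · rcases ih2 with ⟨M, hM⟩ | ⟨M, hM⟩
      · exact Or.inl ⟨max N M, fun j hj =>
          ⟨hN j (le_trans (le_max_left _ _) hj), hM j (le_trans (le_max_right _ _) hj)⟩⟩
      · exact Or.inr ⟨M, fun j hj h => hM j hj h.2⟩
    · exact Or.inr ⟨N, fun j hj h => hN j hj h.1⟩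

end Pool.Agent.FV
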