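import Pool.Agent.Lib.MP_e9c977_fv.Classify
import Pool.Agent.Lib.MP_e9c977_fv.Exist
import Pool.Agent.Lib.MP_e9c977_fv.SemiAlg

/-!
# Row FI: the theorem
-/

namespace Pool.Agent.FV

open Module
open scoped Classical

noncomputable section

theorem tight_iff (f : Fin 4 → ℕ) (hf : 2 * (f 1 + f 2) + 10 = 5 * (f 0 + f 3)) :
    IsFVector 4 f ↔ ∃ a b : ℕ,
      f = ![5 + a + 3 * b, 10 + 4 * a + 6 * b, 10 + 6 * a + 4 * b, 5 + 3 * a + b] := by
  rw [isFVector_iff (by norm_num) f]
  constructor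
  · rintro ⟨V, hV, h4, hfV⟩
    have h0 : (faces V 0).card = f 0 := hfV 0
    have h1 : (faces V 1).card = f 1 := hfV 1
    have h2 : (faces V 2).card = f 2 := hfV 2
    have h3 : (faces V 3).card = f 3 := hfV 3
    rw [card_faces_zero hV] at h0
    have ht : Tight V := by
      unfold Tight
      rw [h0, h1, h2, h3]
      exact hf
    obtain ⟨a, b, e0, e1, e2, e3⟩ := Tight.classify (by simp) hV h4 ht
    refine ⟨a, b, ?_⟩
    rw [h0] at e0
    rw [h1] at e1
    rw [h2] at e2
    rw [h3] at e3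
    funext i
    fin_cases i
    · simpa using e0
    · simpa using e1
    · simpa using e2
    · simpa using e3
  · rintro ⟨a, b, rfl⟩
    obtain ⟨V, hV, h4, e0, e1, e2, e3⟩ := exists_config a b
    refine ⟨V, hV, h4, ?_⟩
    intro i
    fin_cases i
    · simpa [card_faces_zero hV] using e0
    · simpa using e1
    · simpa using e2
    · simpa using e3

theorem ray_iff (j : ℕ) :
    IsFVector 4 ![5 + 2 * j, 10 + 5 * j, 10 + 5 * j, 5 + 2 * j] ↔ Even j := by
  rw [tight_iff _ (by simp; ring)]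
  constructor
  · rintro ⟨a, b, h⟩
    have h0 := congrFun h 0
    have h1 := congrFun h 1
    have h2 := congrFun h 2
    simp only [Matrix.cons_val_zero, Matrix.cons_val_one, Matrix.cons_val] at h0 h1 h2
    refine ⟨a, ?_⟩
    omega
  · rintro ⟨a, rfl⟩
    refine ⟨a, a, ?_⟩
    funext i
    fin_cases i
    · simp only [Fin.zero_eta, Matrix.cons_val_zero]
      omega
    · simp only [Fin.mk_one, Matrix.cons_val_one, Matrix.cons_val]
      omega
    · simp only [Fin.reduceFinMk, Matrix.cons_val]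
      omega
    · simp only [Fin.reduceFinMk, Matrix.cons_val]
      omega

theorem not_semialgebraic :
    ¬ ∃ S : Set (Fin 4 → ℝ), Semialg 4 S ∧
      ∀ f : Fin 4 → ℕ, IsFVector 4 f ↔ (fun i => (f i : ℝ)) ∈ S := by
  rintro ⟨S, hS, hiff⟩
  have key : ∀ j : ℕ, (fun i => (![5, 10, 10, 5] : Fin 4 → ℝ) i
      + (j : ℝ) * (![2, 5, 5, 2] : Fin 4 → ℝ) i) ∈ S ↔ Even j := by
    intro j
    rw [← ray_iff j, hiff]
    have : (fun i => (![5, 10, 10, 5] : Fin 4 → ℝ) i
        + (j : ℝ) * (![2, 5, 5, 2] : Fin 4 → ℝ) i) =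
        fun i => ((![5 + 2 * j, 10 + 5 * j, 10 + 5 * j, 5 + 2 * j] : Fin 4 → ℕ) i : ℝ) := by
      funext i
      fin_cases i
      · simp; ring
      · simp; ring
      · simp; ring
      · simp; ring
    rw [this]
  rcases hS.eventually ![5, 10, 10, 5] ![2, 5, 5, 2] with ⟨N, hN⟩ | ⟨N, hN⟩
  · have h := (key (2 * N + 1)).1 (hN (2 * N + 1) (by omega))
    rw [Nat.even_iff] at h
    omega
  · exact hN (2 * N) (by omega) ((key (2 * N)).2 (by simp))

end

end Pool.Agent.FV
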