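import Pool.Agent.Lib.MP_e9c977_fv.Defs

/-!
# Row V7: gaps of sums of squares; bounded alternation of semialgebraic sets on lines
-/

namespace Pool.Agent.FV

open scoped Classical

/-- There is no partition of `W` with sum of squares `x` in the gap. -/
theorem gap {ι : Type} (s : Finset ι) (w : ι → ℤ) (h0 : ∀ i ∈ s, 0 ≤ w i) {W j x : ℤ}
    (hW : ∑ i ∈ s, w i = W) (hj : 1 ≤ j) (h2 : 2 * j ≤ W) (h3 : (W - j) ^ 2 + j ^ 2 < x)
    (h4 : x < (W - j + 1) ^ 2 + (j - 1)) : ∑ i ∈ s, w i ^ 2 ≠ x := by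
  intro hx
  have hne : s.Nonempty := by
    rw [Finset.nonempty_iff_ne_empty]
    intro h
    rw [h, Finset.sum_empty] at hW
    omega
  obtain ⟨i0, hi0, hmax⟩ := s.exists_max_image w hne
  set m := w i0 with hm
  have hm0 : 0 ≤ m := h0 i0 hi0
  have e1 : w i0 + ∑ i ∈ s.erase i0, w i = W := by rw [Finset.add_sum_erase _ _ hi0, hW]
  have e2 : w i0 ^ 2 + ∑ i ∈ s.erase i0, w i ^ 2 = x := by
    rw [Finset.add_sum_erase _ (fun i => w i ^ 2) hi0, hx]
  have hnn : ∀ i ∈ s.erase i0, 0 ≤ w i := fun i hi => h0 i (Finset.mem_of_mem_erase hi)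
  have l1 : ∑ i ∈ s.erase i0, w i ≤ ∑ i ∈ s.erase i0, w i ^ 2 := by
    refine Finset.sum_le_sum fun i hi => ?_
    have := hnn i hi
    rcases eq_or_lt_of_le this with h | h
    · rw [← h]; norm_num
    · nlinarith
  have l2 : ∑ i ∈ s.erase i0, w i ^ 2 ≤ (∑ i ∈ s.erase i0, w i) ^ 2 := by
    rw [sq (∑ i ∈ s.erase i0, w i), Finset.sum_mul]
    refine Finset.sum_le_sum fun i hi => ?_
    have h5 := Finset.single_le_sum hnn hi
    have := hnn i hi
    nlinarith
  have l3 : ∑ i ∈ s, w i ^ 2 ≤ m * W := by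
    rw [← hW, Finset.mul_sum]
    refine Finset.sum_le_sum fun i hi => ?_
    have h5 := hmax i hi
    have := h0 i hi
    nlinarith
  have e3 : ∑ i ∈ s.erase i0, w i = W - m := by rw [← e1]; ring
  rw [e3] at l1 l2
  have e4 : ∑ i ∈ s.erase i0, w i ^ 2 = x - m ^ 2 := by rw [← e2]; ring
  rw [e4] at l1 l2
  rcases le_or_gt (W - j + 1) m with hc | hc
  · have h5 : 0 ≤ (m - (W - j + 1)) * (m + (W - j + 1) - 1) := by
      apply mul_nonneg <;> linarith
    have h6 : m ^ 2 + (W - m) - ((W - j + 1) ^ 2 + (j - 1))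
        = (m - (W - j + 1)) * (m + (W - j + 1) - 1) := by ring
    linarith
  · have hc' : m ≤ W - j := by omega
    rcases le_or_gt W (2 * m) with hd | hd
    · have h5 : 0 ≤ (W - j - m) * (2 * m - 2 * j) := by
        apply mul_nonneg <;> linarith
      have h6 : (W - j) ^ 2 + j ^ 2 - (m ^ 2 + (W - m) ^ 2) = (W - j - m) * (2 * m - 2 * j) := by
        ring
      linarith
    · rw [hx] at l3
      have h5 : 0 ≤ (W - 2 * m) * W := by
        apply mul_nonneg <;> linarith
      have h6 : 2 * ((W - j) ^ 2 + j ^ 2) = W * W + (W - 2 * j) ^ 2 := by ring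
      have h7 : (W - 2 * m) * W = W * W - 2 * (m * W) := by ring
      have h8 := sq_nonneg (W - 2 * j)
      linarith

/-- the polynomial of `p` along a line -/
private theorem exists_line_poly {d : ℕ} (p : MvPolynomial (Fin d) ℝ) (v w : Fin d → ℝ) :
    ∃ P : Polynomial ℝ, P.natDegree ≤ p.totalDegree ∧
      ∀ t : ℝ, P.eval t = MvPolynomial.eval (fun i => v i + t * w i) p := by
  refine ⟨MvPolynomial.aeval (fun i => Polynomial.C (v i) + Polynomial.X * Polynomial.C (w i)) p,
    ?_, ?_⟩
  · have h := MvPolynomial.aeval_natDegree_le p le_rfl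
      (fun i => Polynomial.C (v i) + Polynomial.X * Polynomial.C (w i)) (n := 1) (by
        intro i
        refine le_trans (Polynomial.natDegree_add_le _ _) ?_
        rw [Polynomial.natDegree_C]
        refine max_le (Nat.zero_le _) ?_
        refine le_trans Polynomial.natDegree_mul_le ?_
        simp)
    simpa using h
  · intro t
    have h1 : (Polynomial.evalRingHom t).comp
        (MvPolynomial.aeval (R := ℝ)
          (fun i => Polynomial.C (v i) + Polynomial.X * Polynomial.C (w i))).toRingHom =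
        MvPolynomial.eval (fun i => v i + t * w i) := by
      apply MvPolynomial.ringHom_ext
      · intro r
        simp
      · intro i
        simp
        ring
    have h2 := congrArg (fun f : MvPolynomial (Fin d) ℝ →+* ℝ => f p) h1
    simpa using h2

private theorem card_le_roots (P : Polynomial ℝ) (hP : P ≠ 0) (m : ℕ) (t : ℕ → ℝ)
    (ht : ∀ i j, i < j → j ≤ m → t i < t j) (C : Finset ℕ) (hC : ∀ i ∈ C, i < m)
    (hpar : ∀ i ∈ C, ∀ j ∈ C, i < j → i + 2 ≤ j)
    (r : ℕ → ℝ) (hr : ∀ i ∈ C, P.eval (r i) = 0 ∧ t i ≤ r i ∧ r i ≤ t (i + 1)) :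
    C.card ≤ P.natDegree := by
  have h1 : C.card ≤ P.roots.toFinset.card := by
    apply Finset.card_le_card_of_injOn r
    · intro i hi
      have hi' : i ∈ C := hi
      simp only [Finset.mem_coe, Multiset.mem_toFinset]
      rw [Polynomial.mem_roots hP]
      exact (hr i hi').1
    · have key : ∀ i ∈ C, ∀ j ∈ C, i < j → r i < r j := by
        intro i hi j hj hij
        have h2 := hpar i hi j hj hij
        have h3 : t (i + 1) < t j := ht _ _ (by omega) (le_of_lt (hC j hj))
        linarith [(hr i hi).2.2, (hr j hj).2.1]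
      intro i hi j hj hij
      have hi' : i ∈ C := hi
      have hj' : j ∈ C := hj
      rcases lt_trichotomy i j with h | h | h
      · exact absurd hij (ne_of_lt (key i hi' j hj' h))
      · exact h
      · exact absurd hij.symm (ne_of_lt (key j hj' i hi' h))
  exact h1.trans ((Multiset.toFinset_card_le _).trans (Polynomial.card_roots' P))

private theorem exists_root_between (P : Polynomial ℝ) {a b : ℝ} (hab : a ≤ b)
    (h : ¬ (0 < P.eval a ↔ 0 < P.eval b)) : ∃ r, P.eval r = 0 ∧ a ≤ r ∧ r ≤ b := by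
  have hc : ContinuousOn (fun x => P.eval x) (Set.Icc a b) := P.continuous.continuousOn
  by_cases ha : 0 < P.eval a
  · have hb : P.eval b ≤ 0 := by
      by_contra hb
      exact h ⟨fun _ => not_le.1 hb, fun _ => ha⟩
    obtain ⟨r, hr, hr0⟩ := intermediate_value_Icc' hab hc ⟨hb, le_of_lt ha⟩
    exact ⟨r, hr0, hr.1, hr.2⟩
  · have hb : 0 < P.eval b := by
      by_contra hb
      exact h ⟨fun h' => absurd h' ha, fun h' => absurd h' hb⟩
    obtain ⟨r, hr, hr0⟩ := intermediate_value_Icc hab hc ⟨not_lt.1 ha, le_of_lt hb⟩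
    exact ⟨r, hr0, hr.1, hr.2⟩

/-- the indices `i < m` at which membership of the points `x i` in `S` changes -/
private noncomputable def chg {d : ℕ} (S : Set (Fin d → ℝ)) (x : ℕ → (Fin d → ℝ)) (m : ℕ) :
    Finset ℕ :=
  (Finset.range m).filter fun i => ¬ (x i ∈ S ↔ x (i + 1) ∈ S)

private theorem mem_chg {d : ℕ} (S : Set (Fin d → ℝ)) (x : ℕ → (Fin d → ℝ)) (m i : ℕ) :
    i ∈ chg S x m ↔ i < m ∧ ¬ (x i ∈ S ↔ x (i + 1) ∈ S) := by
  simp only [chg, Finset.mem_filter, Finset.mem_range]

private theorem chg_bound {d : ℕ} {S : Set (Fin d → ℝ)} (hS : Semialg d S) :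
    ∃ K : ℕ, ∀ (v w : Fin d → ℝ) (m : ℕ) (t : ℕ → ℝ), (∀ i j, i < j → j ≤ m → t i < t j) →
      (chg S (fun i => fun k => v k + t i * w k) m).card ≤ K := by
  induction hS with
  | pos p =>
    refine ⟨2 * p.totalDegree, ?_⟩
    intro v w m t ht
    obtain ⟨P, hdeg, hP⟩ := exists_line_poly p v w
    set C := chg {x : Fin d → ℝ | 0 < MvPolynomial.eval x p} (fun i => fun k => v k + t i * w k) m
      with hC
    have hmem : ∀ i ∈ C, i < m ∧ ¬ (0 < P.eval (t i) ↔ 0 < P.eval (t (i + 1))) := by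
      intro i hi
      rw [hC, mem_chg] at hi
      refine ⟨hi.1, ?_⟩
      rw [hP, hP]
      exact hi.2
    by_cases hP0 : P = 0
    · have : C = ∅ := by
        rw [Finset.eq_empty_iff_forall_notMem]
        intro i hi
        exact (hmem i hi).2 (by rw [hP0]; simp)
      rw [this]
      simp
    have hex : ∀ i : ℕ, ∃ r : ℝ, i ∈ C → P.eval r = 0 ∧ t i ≤ r ∧ r ≤ t (i + 1) := by
      intro i
      by_cases hi : i ∈ C
      · obtain ⟨h1, h2⟩ := hmem i hi
        obtain ⟨r, hr⟩ := exists_root_between P (le_of_lt (ht i (i + 1) (Nat.lt_succ_self i) h1)) h2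
        exact ⟨r, fun _ => hr⟩
      · exact ⟨0, fun h => absurd h hi⟩
    choose r hr using hex
    have h1 : (C.filter Even).card ≤ P.natDegree := by
      refine card_le_roots P hP0 m t ht _ (fun i hi => (hmem i (Finset.mem_filter.1 hi).1).1) ?_ r
        (fun i hi => hr i (Finset.mem_filter.1 hi).1)
      intro i hi j hj hij
      obtain ⟨a, ha⟩ := (Finset.mem_filter.1 hi).2
      obtain ⟨b, hb⟩ := (Finset.mem_filter.1 hj).2
      omega
    have h2 : (C.filter fun i => ¬ Even i).card ≤ P.natDegree := by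
      refine card_le_roots P hP0 m t ht _ (fun i hi => (hmem i (Finset.mem_filter.1 hi).1).1) ?_ r
        (fun i hi => hr i (Finset.mem_filter.1 hi).1)
      intro i hi j hj hij
      obtain ⟨a, ha⟩ := Nat.not_even_iff_odd.1 (Finset.mem_filter.1 hi).2
      obtain ⟨b, hb⟩ := Nat.not_even_iff_odd.1 (Finset.mem_filter.1 hj).2
      omega
    have h3 : C.card ≤ (C.filter Even).card + (C.filter fun i => ¬ Even i).card := by
      refine le_trans (Finset.card_le_card ?_) (Finset.card_union_le _ _)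
      intro i hi
      rw [Finset.mem_union, Finset.mem_filter, Finset.mem_filter]
      by_cases he : Even i
      · exact Or.inl ⟨hi, he⟩
      · exact Or.inr ⟨hi, he⟩
    omega
  | @compl S _ ih =>
    obtain ⟨K, hK⟩ := ih
    refine ⟨K, ?_⟩
    intro v w m t ht
    refine le_trans (Finset.card_le_card ?_) (hK v w m t ht)
    intro i hi
    rw [mem_chg] at hi ⊢
    refine ⟨hi.1, ?_⟩
    intro h
    exact hi.2 (not_congr h)
  | @inter S T _ _ ih1 ih2 =>
    obtain ⟨K1, hK1⟩ := ih1
    obtain ⟨K2, hK2⟩ := ih2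
    refine ⟨K1 + K2, ?_⟩
    intro v w m t ht
    refine le_trans ?_ (Nat.add_le_add (hK1 v w m t ht) (hK2 v w m t ht))
    refine le_trans (Finset.card_le_card ?_) (Finset.card_union_le _ _)
    intro i hi
    rw [mem_chg] at hi
    rw [Finset.mem_union, mem_chg, mem_chg]
    by_contra hcon
    push Not at hcon
    have h1 : ((fun k => v k + t i * w k) ∈ S ↔ (fun k => v k + t (i + 1) * w k) ∈ S) :=
      hcon.1 hi.1
    have h2 : ((fun k => v k + t i * w k) ∈ T ↔ (fun k => v k + t (i + 1) * w k) ∈ T) :=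
      hcon.2 hi.1
    exact hi.2 (and_congr h1 h2)

/-- Along lines, membership in a semialgebraic set changes a bounded number of times. -/
theorem Semialg.alternation {d : ℕ} {S : Set (Fin d → ℝ)} (hS : Semialg d S) :
    ∃ K : ℕ, ∀ (v w : Fin d → ℝ) (m : ℕ) (t : ℕ → ℝ), (∀ i j, i < j → j ≤ m → t i < t j) →
      (∀ i ≤ m, ((fun k => v k + t i * w k) ∈ S ↔ Even i)) → m ≤ K := by
  obtain ⟨K, hK⟩ := chg_bound hS
  refine ⟨K, ?_⟩
  intro v w m t ht halt
  refine le_trans ?_ (hK v w m t ht)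
  have : chg S (fun i => fun k => v k + t i * w k) m = Finset.range m := by
    ext i
    rw [mem_chg, Finset.mem_range]
    refine ⟨fun h => h.1, fun hi' => ⟨hi', ?_⟩⟩
    intro h
    have h1 := halt i (le_of_lt hi')
    have h2 := halt (i + 1) hi'
    have h3 : Even i ↔ Even (i + 1) := by rw [← h1, ← h2]; exact h
    rw [Nat.even_add_one] at h3
    tauto
  rw [this, Finset.card_range]

end Pool.Agent.FV
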