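import Pool.Agent.Lib.MP_e9c977_fv.LiftF
import Pool.Agent.Lib.MP_e9c977_fv.Gap

/-!
# Row V8: the set of f-vectors of 5-polytopes is not semialgebraic
-/

namespace Pool.Agent.FV

open Module
open scoped Classical

/-- The integer parameters of the alternating points on the line. -/
private def tz (W J : ℤ) (n : ℕ) : ℤ :=
  (W - (J - (n / 2 : ℕ))) ^ 2 + (J - (n / 2 : ℕ)) ^ 2 + 2 * (n % 2 : ℕ)

private theorem tz_even (W J : ℤ) (i : ℕ) :
    tz W J (2 * i) = (W - (J - i)) ^ 2 + (J - i) ^ 2 := by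
  have h1 : (2 * i) / 2 = i := by omega
  have h2 : (2 * i) % 2 = 0 := by omega
  simp only [tz, h1, h2]
  push_cast
  ring

private theorem tz_odd (W J : ℤ) (i : ℕ) :
    tz W J (2 * i + 1) = (W - (J - i)) ^ 2 + (J - i) ^ 2 + 2 := by
  have h1 : (2 * i + 1) / 2 = i := by omega
  have h2 : (2 * i + 1) % 2 = 1 := by omega
  simp only [tz, h1, h2]
  push_cast
  ring

private theorem tz_succ {W J : ℤ} (hW : 2 * J < W) (n : ℕ) : tz W J n < tz W J (n + 1) := by
  obtain ⟨i, rfl | rfl⟩ := Nat.even_or_odd' n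
  · rw [tz_even, tz_odd]
    omega
  · have : 2 * i + 1 + 1 = 2 * (i + 1) := by ring
    rw [this, tz_even, tz_odd]
    push_cast
    have hi : (0 : ℤ) ≤ i := by positivity
    nlinarith

private theorem tz_mono {W J : ℤ} (hW : 2 * J < W) {i j : ℕ} (hij : i < j) :
    tz W J i < tz W J j :=
  strictMono_nat_of_lt_succ (fun n => tz_succ hW n) hij

/-- The base point of the line. -/
private noncomputable def vv (W : ℤ) : Fin 5 → ℝ :=
  ![W + 10, (W + 10) * (W + 9) / 2, (4 * W ^ 2 + 55 * W + 200) / 2,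
    (5 * (W + 7) * (W + 6) - 4 * W) / 2, (2 * (W + 7) * (W + 6) - 3 * W) / 2]

/-- The direction of the line. -/
private noncomputable def ww : Fin 5 → ℝ := ![0, 0, -(1 / 2), -1, -(1 / 2)]

private theorem vec5_line {W x : ℤ} {f : Fin 5 → ℕ} (h : Vec5 W x f) :
    (fun k => vv W k + (x : ℝ) * ww k) = fun k => (f k : ℝ) := by
  obtain ⟨h0, h1, h2, h3, h4⟩ := h
  have h0' : (f 0 : ℝ) = W + 10 := by exact_mod_cast h0
  have h1' : 2 * (f 1 : ℝ) = (W + 10) * (W + 9) := by exact_mod_cast h1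
  have h2' : 2 * (f 2 : ℝ) = 4 * (W : ℝ) ^ 2 + 55 * W + 200 - x := by exact_mod_cast h2
  have h3' : 2 * (f 3 : ℝ) = 5 * ((W : ℝ) + 7) * (W + 6) - 2 * x - 4 * W := by exact_mod_cast h3
  have h4' : 2 * (f 4 : ℝ) = 2 * ((W : ℝ) + 7) * (W + 6) - x - 3 * W := by exact_mod_cast h4
  funext k
  fin_cases k
  · simp [vv, ww, h0']
  · simp [vv, ww]
    linarith
  · simp [vv, ww]
    linarith
  · simp [vv, ww]
    linarith
  · simp [vv, ww]
    linarith

theorem not_semialgebraic_five :
    ¬ ∃ S : Set (Fin 5 → ℝ), Semialg 5 S ∧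
      ∀ f : Fin 5 → ℕ, IsFVector 5 f ↔ (fun i => (f i : ℝ)) ∈ S := by
  rintro ⟨S, hS, hf⟩
  obtain ⟨K, hK⟩ := hS.alternation
  -- parameters
  obtain ⟨J, hJ⟩ : ∃ J : ℕ, J = K + 1 := ⟨_, rfl⟩
  obtain ⟨W, hW⟩ : ∃ W : ℕ, W = J ^ 2 + 2 * J + 2 := ⟨_, rfl⟩
  have hJ1 : 1 ≤ J := by omega
  have hWJ : 2 * (J : ℤ) < (W : ℤ) := by
    rw [hW]
    push_cast
    nlinarith [sq_nonneg (J : ℤ)]
  have hWZ : (W : ℤ) = (J : ℤ) ^ 2 + 2 * J + 2 := by
    rw [hW]
    push_cast
    ring
  have key : 2 * J - 1 ≤ K := by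
    refine hK (vv W) ww (2 * J - 1) (fun n => (tz W J n : ℝ)) ?_ ?_
    · intro i j hij _
      exact_mod_cast tz_mono hWJ hij
    · intro n hn
      obtain ⟨i, hi⟩ := Nat.even_or_odd' n
      have hiJ : i + 1 ≤ J := by omega
      obtain ⟨j, hj⟩ : ∃ j : ℕ, J = i + j := ⟨J - i, by omega⟩
      have hj1 : 1 ≤ j := by omega
      have hjZ : (J : ℤ) - (i : ℤ) = j := by omega
      have hjJ : (j : ℤ) ≤ J := by omega
      have hj1' : (1 : ℤ) ≤ j := by exact_mod_cast hj1
      have hjW : j ≤ W := by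
        have : (j : ℤ) ≤ W := by linarith
        exact_mod_cast this
      have hsq : (j : ℤ) ^ 2 ≤ (J : ℤ) ^ 2 := by nlinarith
      rcases hi with rfl | rfl
      · -- an f-vector
        have hz : tz W J (2 * i) = ((W : ℤ) - j) ^ 2 + (j : ℤ) ^ 2 := by
          rw [tz_even, hjZ]
        obtain ⟨f, hfv⟩ := exists_vec5 (W := (W : ℤ)) (x := ((W : ℤ) - j) ^ 2 + (j : ℤ) ^ 2)
          (by positivity) (by nlinarith) (by
            have h := Int.even_mul_pred_self (W : ℤ)
            obtain ⟨r, hr⟩ := h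
            exact ⟨r - W * j + j ^ 2, by linarith [hr]⟩)
        have hF := isFVector_vec5 hjW hfv
        have hm := (hf f).1 hF
        have hl := vec5_line hfv
        simp only [hz]
        simp only [even_two, Even.mul_right, iff_true]
        rw [← hl] at hm
        exact_mod_cast hm
      · -- not an f-vector
        have hz : tz W J (2 * i + 1) = ((W : ℤ) - j) ^ 2 + (j : ℤ) ^ 2 + 2 := by
          rw [tz_odd, hjZ]
        obtain ⟨f, hfv⟩ := exists_vec5 (W := (W : ℤ)) (x := ((W : ℤ) - j) ^ 2 + (j : ℤ) ^ 2 + 2)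
          (by positivity) (by nlinarith) (by
            have h := Int.even_mul_pred_self (W : ℤ)
            obtain ⟨r, hr⟩ := h
            exact ⟨r - W * j + j ^ 2 + 1, by linarith [hr]⟩)
        have hF : ¬ IsFVector 5 f := by
          intro hF
          obtain ⟨V, hV0, hV1, hV2⟩ := exists_parts hF hfv
          exact gap (faces V 4) (fun F => (F.card : ℤ) - 5) hV0 hV1 hj1' (by linarith)
            (by linarith) (by nlinarith) hV2
        have hm := fun h => hF ((hf f).2 h)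
        have hl := vec5_line hfv
        have hodd : ¬ Even (2 * i + 1) := by
          rw [Nat.even_iff]
          omega
        simp only [hz, hodd, iff_false]
        rw [← hl] at hm
        intro h
        apply hm
        exact_mod_cast h
  omega

end Pool.Agent.FV
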