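import Pool.Agent.Lib.MP_e9c977_fv.LiftF
import Pool.Agent.Lib.MP_e9c977_fv.Gap
import Pool.Agent.Lib.MP_e9c977_fv.Cong

/-!
# The set of f-vectors of 5-polytopes is not defined by polynomial inequalities and congruences
-/

namespace Pool.Agent.FV

open Module
open scoped Classical

/-- The integer parameters of the alternating points on the line. -/
private def tz (W J L : ℤ) (n : ℕ) : ℤ :=
  (W - L * (J - (n / 2 : ℕ))) ^ 2 + (L * (J - (n / 2 : ℕ))) ^ 2 + L * (n % 2 : ℕ)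

private theorem tz_even (W J L : ℤ) (i : ℕ) :
    tz W J L (2 * i) = (W - L * (J - i)) ^ 2 + (L * (J - i)) ^ 2 := by
  have h1 : (2 * i) / 2 = i := by omega
  have h2 : (2 * i) % 2 = 0 := by omega
  simp only [tz, h1, h2]
  push_cast
  ring

private theorem tz_odd (W J L : ℤ) (i : ℕ) :
    tz W J L (2 * i + 1) = (W - L * (J - i)) ^ 2 + (L * (J - i)) ^ 2 + L := by
  have h1 : (2 * i + 1) / 2 = i := by omega
  have h2 : (2 * i + 1) % 2 = 1 := by omega
  simp only [tz, h1, h2]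
  push_cast
  ring

private theorem tz_dvd (W J L : ℤ) (n : ℕ) : L ∣ tz W J L n - W ^ 2 := by
  refine ⟨-2 * W * (J - (n / 2 : ℕ)) + 2 * L * (J - (n / 2 : ℕ)) ^ 2 + (n % 2 : ℕ), ?_⟩
  simp only [tz]
  ring

private theorem tz_succ {W J L : ℤ} (hL : 1 ≤ L) (hJ : 0 ≤ J) (hW : 2 * (L * J) + L < W) (n : ℕ) :
    tz W J L n < tz W J L (n + 1) := by
  obtain ⟨i, rfl | rfl⟩ := Nat.even_or_odd' n
  · rw [tz_even, tz_odd]
    omega
  · have : 2 * i + 1 + 1 = 2 * (i + 1) := by ring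
    rw [this, tz_even, tz_odd]
    push_cast
    have hi : (0 : ℤ) ≤ i := by positivity
    have h1 : (W - L * (J - (i + 1))) ^ 2 + (L * (J - (i + 1))) ^ 2
        - ((W - L * (J - i)) ^ 2 + (L * (J - i)) ^ 2 + L)
        = L * (2 * (W - 2 * (L * J)) + 4 * (L * i) + 2 * L - 1) := by ring
    have h2 : 0 ≤ L * i := mul_nonneg (by linarith) hi
    have h3 : 0 < L * (2 * (W - 2 * (L * J)) + 4 * (L * i) + 2 * L - 1) := by
      apply mul_pos (by linarith)
      linarith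
    linarith

private theorem tz_mono {W J L : ℤ} (hL : 1 ≤ L) (hJ : 0 ≤ J) (hW : 2 * (L * J) + L < W) {i j : ℕ}
    (hij : i < j) : tz W J L i < tz W J L j :=
  strictMono_nat_of_lt_succ (fun n => tz_succ hL hJ hW n) hij

/-- The base point of the line. -/
private noncomputable def vv (W : ℤ) : Fin 5 → ℝ :=
  ![W + 10, (W + 10) * (W + 9) / 2, (4 * W ^ 2 + 55 * W + 200) / 2,
    (5 * (W + 7) * (W + 6) - 4 * W) / 2, (2 * (W + 7) * (W + 6) - 3 * W) / 2]

/-- The direction of the line. -/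
private noncomputable def ww : Fin 5 → ℝ := ![0, 0, -(1 / 2), -1, -(1 / 2)]

private theorem vec5_line {W x : ℤ} {f : Fin 5 → ℕ} (h : Vec5 W x f) (k : Fin 5) :
    ((f k : ℤ) : ℝ) = vv W k + (x : ℝ) * ww k := by
  obtain ⟨h0, h1, h2, h3, h4⟩ := h
  have h0' : (f 0 : ℝ) = W + 10 := by exact_mod_cast h0
  have h1' : 2 * (f 1 : ℝ) = (W + 10) * (W + 9) := by exact_mod_cast h1
  have h2' : 2 * (f 2 : ℝ) = 4 * (W : ℝ) ^ 2 + 55 * W + 200 - x := by exact_mod_cast h2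
  have h3' : 2 * (f 3 : ℝ) = 5 * ((W : ℝ) + 7) * (W + 6) - 2 * x - 4 * W := by exact_mod_cast h3
  have h4' : 2 * (f 4 : ℝ) = 2 * ((W : ℝ) + 7) * (W + 6) - x - 3 * W := by exact_mod_cast h4
  fin_cases k
  · simp [vv, ww, h0']
  · simp [vv, ww]
    linarith
  · simp [vv, ww]
    linarith
  · simp [vv, ww]
    linarith
  · simp [vv, ww]
    linarith

private theorem vec5_dvd {W x x' : ℤ} {f f' : Fin 5 → ℕ} (h : Vec5 W x f) (h' : Vec5 W x' f')
    {M : ℤ} (hx : 2 * M ∣ x - x') (k : Fin 5) : M ∣ (f k : ℤ) - f' k := by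
  obtain ⟨h0, h1, h2, h3, h4⟩ := h
  obtain ⟨h0', h1', h2', h3', h4'⟩ := h'
  obtain ⟨r, hr⟩ := hx
  fin_cases k
  · refine ⟨0, ?_⟩
    simp only [Fin.zero_eta, mul_zero]
    linarith
  · refine ⟨0, ?_⟩
    simp only [Fin.mk_one, mul_zero]
    linarith
  · refine ⟨-r, ?_⟩
    simp only [Fin.reduceFinMk]
    linarith
  · refine ⟨-(2 * r), ?_⟩
    simp only [Fin.reduceFinMk]
    linarith
  · refine ⟨-r, ?_⟩
    simp only [Fin.reduceFinMk]
    linarith

theorem not_semialgCong_five :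
    ¬ ∃ S : Set (Fin 5 → ℤ), SemialgCong 5 S ∧
      ∀ f : Fin 5 → ℕ, IsFVector 5 f ↔ (fun i => (f i : ℤ)) ∈ S := by
  rintro ⟨S, hS, hf⟩
  obtain ⟨K, M, hM, hK⟩ := hS.alternation
  -- parameters
  obtain ⟨J, hJ⟩ : ∃ J : ℕ, J = K + 1 := ⟨_, rfl⟩
  obtain ⟨L, hL⟩ : ∃ L : ℕ, L = 2 * M := ⟨_, rfl⟩
  obtain ⟨W, hW⟩ : ∃ W : ℕ, W = (L * J) ^ 2 + 2 * (L * J) + L + 2 := ⟨_, rfl⟩
  have hJ1 : 1 ≤ J := by omega
  have hL1 : 2 ≤ L := by omega
  have hLZ : (L : ℤ) = 2 * (M : ℤ) := by rw [hL]; push_cast; ring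
  have hWZ : (W : ℤ) = ((L : ℤ) * J) ^ 2 + 2 * (L * J) + L + 2 := by
    rw [hW]
    push_cast
    ring
  have hWJ : 2 * ((L : ℤ) * (J : ℤ)) + L < (W : ℤ) := by
    rw [hWZ]
    nlinarith [sq_nonneg ((L : ℤ) * J)]
  have hL1Z : (2 : ℤ) ≤ L := by exact_mod_cast hL1
  have hJ1Z : (1 : ℤ) ≤ J := by exact_mod_cast hJ1
  have hpar : ∀ n, (2 : ℤ) ∣ tz W J L n - W := by
    intro n
    have h1 : (2 : ℤ) ∣ tz W J L n - (W : ℤ) ^ 2 :=
      (Dvd.intro (M : ℤ) hLZ.symm).trans (tz_dvd W J L n)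
    have h2 : (2 : ℤ) ∣ (W : ℤ) ^ 2 - W := by
      obtain ⟨r, hr⟩ := Int.even_mul_pred_self (W : ℤ)
      exact ⟨r, by linarith [hr]⟩
    have h3 := dvd_add h1 h2
    have h4 : tz W J L n - (W : ℤ) ^ 2 + ((W : ℤ) ^ 2 - W) = tz W J L n - W := by ring
    rwa [h4] at h3
  -- bounds for the parameter `j`
  have hj : ∀ i : ℕ, i + 1 ≤ J → ∃ j : ℕ, (L : ℤ) * ((J : ℤ) - i) = j ∧ (L : ℤ) ≤ j ∧
      (j : ℤ) ≤ L * J ∧ 1 ≤ j ∧ j ≤ W ∧ (j : ℤ) ^ 2 ≤ ((L : ℤ) * J) ^ 2 := by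
    intro i hi
    obtain ⟨j, hj⟩ : ∃ j : ℕ, J = i + j := ⟨J - i, by omega⟩
    have hj1 : (1 : ℤ) ≤ j := by exact_mod_cast (by omega : 1 ≤ j)
    have hjJ : (j : ℤ) ≤ J := by exact_mod_cast (by omega : j ≤ J)
    have hjZ : (J : ℤ) - (i : ℤ) = j := by omega
    have e1 : (L : ℤ) ≤ (L : ℤ) * j := by nlinarith
    have e2 : (L : ℤ) * j ≤ L * J := by nlinarith
    refine ⟨L * j, ?_, ?_, ?_, ?_, ?_, ?_⟩
    · rw [hjZ]
      push_cast
      ring
    · push_cast
      exact e1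
    · push_cast
      exact e2
    · have : (1 : ℤ) ≤ (L * j : ℕ) := by
        push_cast
        linarith
      exact_mod_cast this
    · have : ((L * j : ℕ) : ℤ) ≤ W := by
        push_cast
        linarith
      exact_mod_cast this
    · push_cast
      have e0 : (0 : ℤ) ≤ (L : ℤ) * j := by linarith
      nlinarith
  have hle : ∀ n, n ≤ 2 * J - 1 → tz W J L n ≤ (W : ℤ) ^ 2 := by
    intro n hn
    obtain ⟨i, hi⟩ := Nat.even_or_odd' n
    have hiJ : i + 1 ≤ J := by omega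
    obtain ⟨j, hjZ, hjL, hjJ, hj1, hjW, hsq⟩ := hj i hiJ
    have hj1' : (1 : ℤ) ≤ j := by exact_mod_cast hj1
    rcases hi with rfl | rfl
    · rw [tz_even, hjZ]
      nlinarith
    · rw [tz_odd, hjZ]
      nlinarith
  -- the integer points
  have hex : ∀ n, ∃ f : Fin 5 → ℕ, n ≤ 2 * J - 1 → Vec5 W (tz W J L n) f := by
    intro n
    by_cases hn : n ≤ 2 * J - 1
    · obtain ⟨f, hfv⟩ := exists_vec5 (W := (W : ℤ)) (x := tz W J L n) (by positivity)
        (hle n hn) (hpar n)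
      exact ⟨f, fun _ => hfv⟩
    · exact ⟨0, fun h => absurd h hn⟩
  choose F hF using hex
  have key : 2 * J - 1 ≤ K := by
    refine hK (vv W) ww (2 * J - 1) (fun n => (tz W J L n : ℝ)) (fun n k => (F n k : ℤ))
      ?_ ?_ ?_ ?_
    · intro i j hij _
      exact_mod_cast tz_mono (by linarith) (by linarith) hWJ hij
    · intro i hi k
      exact vec5_line (hF i hi) k
    · intro i hi k
      refine vec5_dvd (hF i hi.le) (hF (i + 1) hi) ?_ k
      rw [← hLZ]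
      have h1 := dvd_sub (tz_dvd W J L i) (tz_dvd W J L (i + 1))
      have h2 : tz W J L i - (W : ℤ) ^ 2 - (tz W J L (i + 1) - (W : ℤ) ^ 2)
          = tz W J L i - tz W J L (i + 1) := by ring
      rwa [h2] at h1
    · intro n hn
      have hfv := hF n hn
      obtain ⟨i, hi⟩ := Nat.even_or_odd' n
      have hiJ : i + 1 ≤ J := by omega
      obtain ⟨j, hjZ, hjL, hjJ, hj1, hjW, hsq⟩ := hj i hiJ
      have hj1' : (1 : ℤ) ≤ j := by exact_mod_cast hj1
      rcases hi with rfl | rfl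
      · -- an f-vector
        rw [tz_even, hjZ] at hfv
        have hFv := isFVector_vec5 hjW hfv
        have hm := (hf _).1 hFv
        simp only [even_two, Even.mul_right, iff_true]
        exact hm
      · -- not an f-vector
        rw [tz_odd, hjZ] at hfv
        have hFv : ¬ IsFVector 5 (F (2 * i + 1)) := by
          intro hFv
          obtain ⟨V, hV0, hV1, hV2⟩ := exists_parts hFv hfv
          exact gap (faces V 4) (fun F => (F.card : ℤ) - 5) hV0 hV1 hj1' (by linarith)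
            (by linarith) (by nlinarith) hV2
        have hm := fun h => hFv ((hf _).2 h)
        have hodd : ¬ Even (2 * i + 1) := by
          rw [Nat.even_iff]
          omega
        simp only [hodd, iff_false]
        exact hm
  omega

end Pool.Agent.FV
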