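import Pool.Agent.Lib.MP_e9c977_fv.Star

/-!
# Row FO: four-dimensional configurations are braced by their 2-faces
-/

namespace Pool.Agent.FV

open Module
open scoped Classical

variable {E : Type} [NormedAddCommGroup E] [InnerProductSpace ℝ E]

namespace FOAux

/-- Two different faces of codimension one with a common point span. -/
theorem sup_eq_top [FiniteDimensional ℝ E] (hE : finrank ℝ E = 4) {V : Finset E}
    {F G : Finset E} (hF : F ∈ faces V 3) (hG : G ∈ faces V 3) (hFG : F ≠ G) {u : E}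
    (huF : u ∈ F) (huG : u ∈ G) :
    vectorSpan ℝ (F : Set E) ⊔ vectorSpan ℝ (G : Set E) = ⊤ := by
  rw [mem_faces] at hF hG
  obtain ⟨hF, hF3⟩ := hF
  obtain ⟨hG, hG3⟩ := hG
  apply Submodule.eq_top_of_finrank_eq
  rw [hE]
  have h1 : finrank ℝ (vectorSpan ℝ (F : Set E)) = 3 := hF3
  have h2 : finrank ℝ (vectorSpan ℝ (G : Set E)) = 3 := hG3
  have h3 : vectorSpan ℝ (F : Set E) ≠ vectorSpan ℝ (F : Set E) ⊔ vectorSpan ℝ (G : Set E) := by
    intro h
    have h4 : vectorSpan ℝ (G : Set E) ≤ vectorSpan ℝ (F : Set E) := by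
      rw [h]
      exact le_sup_right
    have h5 : G ⊆ F := by
      intro x hx
      refine hF.mem_of_mem_affineSpan (hG.2.1 hx) ?_
      have h6 : x - u ∈ vectorSpan ℝ (F : Set E) :=
        h4 (vsub_mem_vectorSpan ℝ (Finset.mem_coe.2 hx) (Finset.mem_coe.2 huG))
      have h7 : u ∈ affineSpan ℝ (F : Set E) := subset_affineSpan ℝ _ (Finset.mem_coe.2 huF)
      have h8 : (x - u) +ᵥ u ∈ affineSpan ℝ (F : Set E) := by
        refine AffineSubspace.vadd_mem_of_mem_direction ?_ h7
        rw [direction_affineSpan]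
        exact h6
      rwa [vadd_eq_add, sub_add_cancel] at h8
    exact hFG (hG.eq_of_adim h5 hF.2.1 (by rw [hG3, hF3])).symm
  have h4 : vectorSpan ℝ (F : Set E) < vectorSpan ℝ (F : Set E) ⊔ vectorSpan ℝ (G : Set E) :=
    lt_of_le_of_ne le_sup_left h3
  have h5 := Submodule.finrank_lt_finrank_of_lt h4
  have h6 := Submodule.finrank_le (vectorSpan ℝ (F : Set E) ⊔ vectorSpan ℝ (G : Set E))
  omega

/-- In a facet through `u` the motion of the star of `u` is the motion of the facet. -/
theorem inner_facet {V : Finset E} (hV : ConvPos V) {q : E → E} {A : E →ₗ[ℝ] E} {u : E}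
    (hu : u ∈ V) (hA : ∀ x ∈ nbr V u, q x - q u = A (x - u)) {F : Finset E} (hF : FaceSet V F)
    (huF : u ∈ F) {B : E →ₗ[ℝ] E}
    (hB : ∀ x ∈ F, ∀ y ∈ F, ∀ z ∈ vectorSpan ℝ (F : Set E),
      inner ℝ (q x - q y - B (x - y)) z = 0) :
    ∀ w ∈ vectorSpan ℝ (F : Set E), ∀ z ∈ vectorSpan ℝ (F : Set E),
      inner ℝ ((A - B) w) z = 0 := by
  have hFV : ConvPos F := hV.mono hF.2.1
  intro w hw z hz
  have h1 := vectorSpan_insert_nbr hFV huF
  rw [← h1, vectorSpan_eq_span_vsub_set_right ℝ
    (show u ∈ ((insert u (nbr F u) : Finset E) : Set E) by simp)] at hw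
  induction hw using Submodule.span_induction with
  | mem x hx =>
    obtain ⟨y, hy, rfl⟩ := hx
    simp only [vsub_eq_sub]
    rw [Finset.mem_coe, Finset.mem_insert] at hy
    rcases hy with rfl | hy
    · simp
    · have hyF : y ∈ F := (Finset.mem_erase.1 (nbr_subset hy)).2
      have hyV : y ∈ nbr V u := by
        rw [nbr_face hF huF, Finset.mem_inter] at hy
        exact hy.2
      have h2 := hB y hyF u huF z hz
      rw [hA y hyV] at h2
      rw [LinearMap.sub_apply]
      exact h2
  | zero => simp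
  | add x y _ _ hx hy => rw [map_add, inner_add_left, hx, hy, add_zero]
  | smul c x _ hx => rw [map_smul, inner_smul_left, hx, mul_zero]

end FOAux

theorem braced_four [FiniteDimensional ℝ E] (hE : finrank ℝ E = 4) {V : Finset E}
    (hV : ConvPos V) (h4 : adim V = 4) {q : E → E} (hq : ∀ R ∈ faces V 2, Braced q R) :
    Braced q V := by
  have hVne : V.Nonempty := by
    by_contra h
    rw [Finset.not_nonempty_iff_eq_empty] at h
    rw [h, adim, Finset.coe_empty, vectorSpan_empty, finrank_bot] at h4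
    omega
  have htop : vectorSpan ℝ (V : Set E) = ⊤ := vectorSpan_eq_top (h4.trans hE.symm)
  have hVself : FaceSet V V := FaceSet.self hVne
  -- facets
  have hq3 : ∀ F ∈ faces V 3, Braced q F := by
    intro F hF
    have hF' := mem_faces.1 hF
    refine braced_three (hV.mono hF'.1.2.1) hF'.2 fun R hR => hq R ?_
    rw [faces_face hF'.1, Finset.mem_filter] at hR
    exact hR.1
  -- stars
  have hstar : ∀ u ∈ V, ∃ A : E →ₗ[ℝ] E, Skew A ∧ ∀ x ∈ nbr V u, q x - q u = A (x - u) := by
    intro u hu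
    obtain ⟨A, hA, h⟩ := exists_motion (braced_star hV h4 hq3 hu)
    refine ⟨A, hA, fun x hx => ?_⟩
    rw [vectorSpan_insert_nbr hV hu, htop] at h
    have h1 := h x (Finset.mem_insert_of_mem hx) u (Finset.mem_insert_self _ _)
      (q x - q u - A (x - u)) Submodule.mem_top
    rw [inner_self_eq_zero, sub_eq_zero] at h1
    exact h1
  choose! A hA hAq using hstar
  -- neighbours have the same motion
  have hadj : ∀ u ∈ V, ∀ v ∈ nbr V u, A u = A v := by
    intro u hu v hv
    have hvV : v ∈ V := (Finset.mem_erase.1 (nbr_subset hv)).2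
    obtain ⟨hvu, hface⟩ := mem_nbr.1 hv
    set C : E →ₗ[ℝ] E := A u - A v with hC
    have hCfacet : ∀ F ∈ faces V 3, u ∈ F → v ∈ F → ∀ w ∈ vectorSpan ℝ (F : Set E),
        ∀ z ∈ vectorSpan ℝ (F : Set E), inner ℝ (C w) z = 0 := by
      intro F hF huF hvF w hw z hz
      have hF' := mem_faces.1 hF
      obtain ⟨B, hB, hBq⟩ := exists_motion (hq3 F hF)
      have h1 := FOAux.inner_facet hV hu (hAq u hu) hF'.1 huF hBq w hw z hz
      have h2 := FOAux.inner_facet hV hvV (hAq v hvV) hF'.1 hvF hBq w hw z hz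
      have h3 : C w = (A u - B) w - (A v - B) w := by
        rw [hC]
        simp only [LinearMap.sub_apply]
        abel
      rw [h3, inner_sub_left, h1, h2, sub_zero]
    have h2face : ∀ R ∈ faces V 2, u ∈ R → v ∈ R → ∀ w ∈ vectorSpan ℝ (R : Set E), C w = 0 := by
      intro R hR huR hvR w hw
      have hR' := mem_faces.1 hR
      have hd := diamond hR'.1 hVself hR'.1.2.1 (by rw [h4, hR'.2])
      rw [hR'.2, Finset.card_eq_two] at hd
      obtain ⟨F, G, hFG, hset⟩ := hd
      have hF : F ∈ (faces V (2 + 1)).filter (fun S => R ⊆ S ∧ S ⊆ V) := by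
        rw [hset]; simp
      have hG : G ∈ (faces V (2 + 1)).filter (fun S => R ⊆ S ∧ S ⊆ V) := by
        rw [hset]; simp
      rw [Finset.mem_filter] at hF hG
      have hsup := FOAux.sup_eq_top hE hF.1 hG.1 hFG (hF.2.1 huR) (hG.2.1 huR)
      have hwF : w ∈ vectorSpan ℝ (F : Set E) :=
        vectorSpan_mono ℝ (Finset.coe_subset.2 hF.2.1) hw
      have hwG : w ∈ vectorSpan ℝ (G : Set E) :=
        vectorSpan_mono ℝ (Finset.coe_subset.2 hG.2.1) hw
      have hmem : C w ∈ vectorSpan ℝ (F : Set E) ⊔ vectorSpan ℝ (G : Set E) := by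
        rw [hsup]
        exact Submodule.mem_top
      obtain ⟨a, ha, b, hb, hab⟩ := Submodule.mem_sup.1 hmem
      have h1 := hCfacet F hF.1 (hF.2.1 huR) (hF.2.1 hvR) w hwF a ha
      have h2 := hCfacet G hG.1 (hG.2.1 huR) (hG.2.1 hvR) w hwG b hb
      rw [← inner_self_eq_zero (𝕜 := ℝ)]
      nth_rw 2 [← hab]
      rw [inner_add_right, h1, h2, add_zero]
    have hne : ({u, v} : Finset E) ≠ V := by
      intro h
      have h1 := adim_pair hvu.symm
      rw [h, h4] at h1
      omega
    have hspan := span_above hface hne (LinearMap.ker C) (by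
      intro T hT hsub w hw
      rw [adim_pair hvu.symm] at hT
      rw [LinearMap.mem_ker]
      exact h2face T hT (hsub (by simp)) (hsub (by simp)) w hw)
    rw [htop, top_le_iff, LinearMap.ker_eq_top] at hspan
    exact sub_eq_zero.1 hspan
  obtain ⟨x0, hx0⟩ := hVne
  set M : Finset E := V.filter (fun x => A x = A x0 ∧ q x - q x0 = A x0 (x - x0)) with hM
  have hMV : M = V := by
    refine eq_of_closed hV (Finset.filter_subset _ _) ⟨x0, ?_⟩ ?_
    · rw [hM, Finset.mem_filter]
      exact ⟨hx0, rfl, by simp⟩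
    · intro x hx w hw
      rw [hM, Finset.mem_filter] at hx ⊢
      obtain ⟨hxV, h1, h2⟩ := hx
      have hwV : w ∈ V := (Finset.mem_erase.1 (nbr_subset hw)).2
      refine ⟨hwV, ?_, ?_⟩
      · rw [← hadj x hxV w hw, h1]
      · have h3 := hAq x hxV w hw
        rw [h1] at h3
        have h4 : q w - q x0 = (q w - q x) + (q x - q x0) := by abel
        rw [h4, h3, h2, ← map_add]
        congr 1
        abel
  have hall : ∀ x ∈ V, q x - q x0 = A x0 (x - x0) := by
    intro x hx
    rw [← hMV, hM, Finset.mem_filter] at hx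
    exact hx.2.2
  intro x hx y hy
  have h1 : q x - q y = A x0 (x - y) := by
    have h2 : q x - q y = (q x - q x0) - (q y - q x0) := by abel
    rw [h2, hall x hx, hall y hy, ← map_sub]
    congr 1
    abel
  rw [h1, real_inner_comm]
  exact hA x0 hx0 (x - y)

end Pool.Agent.FV
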