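import Pool.Agent.Lib.MP_e9c977_fv.Comb

/-!
# Row GR: the graph
-/

namespace Pool.Agent.FV

open Module
open scoped Classical

variable {E : Type} [NormedAddCommGroup E] [InnerProductSpace ℝ E]

private theorem gr_edge {V : Finset E} (hV : ConvPos V) {u : E} {T : Finset E}
    (hT : T ∈ faces V (adim ({u} : Finset E) + 1)) (huT : ({u} : Finset E) ⊆ T) :
    ∃ w ∈ nbr V u, T = {u, w} := by
  rw [adim_singleton, zero_add] at hT
  obtain ⟨a, b, hab, rfl, hf⟩ := (mem_faces_one hV).1 hT
  have hu : u ∈ ({a, b} : Finset E) := huT (Finset.mem_singleton_self u)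
  rw [Finset.mem_insert, Finset.mem_singleton] at hu
  rcases hu with rfl | rfl
  · exact ⟨b, mem_nbr.2 ⟨hab.symm, hf⟩, rfl⟩
  · refine ⟨a, mem_nbr.2 ⟨hab, ?_⟩, ?_⟩
    · rw [Finset.pair_comm]; exact hf
    · rw [Finset.pair_comm]

private theorem gr_le_of_nbr {V : Finset E} (hV : ConvPos V) {u : E} (hu : u ∈ V)
    (l : E →ₗ[ℝ] ℝ) (h : ∀ w ∈ nbr V u, l w ≤ l u) : ∀ x ∈ V, l x ≤ l u := by
  intro x hx
  by_cases h1 : ({u} : Finset E) = V
  · rw [← h1, Finset.mem_singleton] at hx
    rw [hx]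
  · refine le_of_above (hV u hu) h1 l (c := l u) ?_ ?_ x hx
    · intro x hx
      rw [Finset.mem_singleton] at hx
      rw [hx]
    · intro T hT huT y hy
      obtain ⟨w, hw, rfl⟩ := gr_edge hV hT huT
      rw [Finset.mem_insert, Finset.mem_singleton] at hy
      rcases hy with rfl | rfl
      · exact le_rfl
      · exact h _ hw

theorem mem_nbr_iff_edge {V : Finset E} (hV : ConvPos V) {u w : E} (huw : u ≠ w) :
    w ∈ nbr V u ↔ ({u, w} : Finset E) ∈ faces V 1 := by
  rw [mem_nbr, mem_faces]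
  constructor
  · rintro ⟨_, h⟩
    exact ⟨h, adim_pair huw⟩
  · rintro ⟨h, _⟩
    exact ⟨huw.symm, h⟩

/-- The simplex method. -/
theorem exists_nbr_lt {V : Finset E} (hV : ConvPos V) (l : E →ₗ[ℝ] ℝ) {u v : E} (hu : u ∈ V)
    (hv : v ∈ V) (h : l u < l v) : ∃ w ∈ nbr V u, l u < l w := by
  by_contra hcon
  push Not at hcon
  exact absurd (gr_le_of_nbr hV hu l hcon v hv) (not_le.2 h)

/-- The graph is connected. -/
theorem eq_of_closed {V M : Finset E} (hV : ConvPos V) (hM : M ⊆ V) (h0 : M.Nonempty)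
    (h : ∀ x ∈ M, ∀ w ∈ nbr V x, w ∈ M) : M = V := by
  by_contra hne
  obtain ⟨v, hvV, hvM⟩ : ∃ v ∈ V, v ∉ M := by
    by_contra hcon
    push Not at hcon
    exact hne (Finset.Subset.antisymm hM hcon)
  obtain ⟨_, _, l, c, hle, heq⟩ := hV v hvV
  obtain ⟨x, hxM, hmax⟩ := M.exists_max_image (fun y => l y) h0
  have hxv : x ≠ v := fun e => hvM (e ▸ hxM)
  have hlv : l v = c := (heq v hvV).2 (Finset.mem_singleton_self v)
  have hlx : l x < l v := by
    rw [hlv]
    refine lt_of_le_of_ne (hle x (hM hxM)) fun e => hxv ?_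
    exact Finset.mem_singleton.1 ((heq x (hM hxM)).1 e)
  obtain ⟨w, hw, hlt⟩ := exists_nbr_lt hV l (hM hxM) hvV hlx
  exact absurd (hmax w (h x hxM w hw)) (not_le.2 hlt)

/-- The graph minus a face is connected. -/
theorem eq_of_closed_sdiff {V R M : Finset E} (hV : ConvPos V) (hR : FaceSet V R)
    (hM : M ⊆ V \ R) (h0 : M.Nonempty) (h : ∀ x ∈ M, ∀ w ∈ nbr V x, w ∉ R → w ∈ M) :
    M = V \ R := by
  obtain ⟨_, _, l, c, hle, heq⟩ := hR
  have hVne : V.Nonempty := h0.mono (hM.trans Finset.sdiff_subset)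
  obtain ⟨b, hbV, hmin⟩ := V.exists_min_image (fun y => l y) hVne
  set B : Finset E := V.filter (fun x => l x = l b) with hB
  have hbB : b ∈ B := by simp [hB, hbV]
  have hBV : B ⊆ V := Finset.filter_subset _ _
  have hBface : FaceSet V B := by
    refine ⟨⟨b, hbB⟩, hBV, -l, -(l b), ?_, ?_⟩
    · intro x hx
      have := hmin x hx
      simp only [LinearMap.neg_apply]
      linarith
    · intro x hx
      simp only [LinearMap.neg_apply, hB, Finset.mem_filter, hx, true_and]
      constructor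
      · intro e; linarith
      · intro e; linarith
  have hltc : ∀ x ∈ V, x ∉ R → l x < c := by
    intro x hx hxR
    exact lt_of_le_of_ne (hle x hx) fun e => hxR ((heq x hx).1 e)
  have hnotR : ∀ x ∈ V, l x < c → x ∉ R := by
    intro x hx hlt hxR
    exact absurd ((heq x hx).2 hxR) hlt.ne
  have hbc : l b < c := by
    obtain ⟨x, hx⟩ := h0
    have hx' := Finset.mem_sdiff.1 (hM hx)
    exact lt_of_le_of_lt (hmin x hx'.1) (hltc x hx'.1 hx'.2)
  -- every closed nonempty set contains B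
  have key : ∀ M' : Finset E, M' ⊆ V \ R → M'.Nonempty →
      (∀ x ∈ M', ∀ w ∈ nbr V x, w ∉ R → w ∈ M') → b ∈ M' := by
    intro M' hM' h0' h'
    obtain ⟨x, hxM, hxmin⟩ := M'.exists_min_image (fun y => l y) h0'
    have hxV := Finset.mem_sdiff.1 (hM' hxM)
    have hxB : x ∈ B := by
      rw [hB, Finset.mem_filter]
      refine ⟨hxV.1, ?_⟩
      by_contra hne
      have hlt : l b < l x := lt_of_le_of_ne (hmin x hxV.1) (Ne.symm hne)
      have hlt' : (-l) x < (-l) b := by simp only [LinearMap.neg_apply]; linarith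
      obtain ⟨w, hw, hwlt⟩ := exists_nbr_lt hV (-l) hxV.1 hbV hlt'
      simp only [LinearMap.neg_apply] at hwlt
      have hwV : w ∈ V := (Finset.mem_erase.1 (nbr_subset hw)).2
      have hwR : w ∉ R := hnotR w hwV (lt_trans (by linarith) (hltc x hxV.1 hxV.2))
      have := hxmin w (h' x hxM w hw hwR)
      linarith
    have hMB : M' ∩ B = B := by
      refine eq_of_closed (hV.mono hBV) Finset.inter_subset_right
        ⟨x, Finset.mem_inter.2 ⟨hxM, hxB⟩⟩ ?_
      intro y hy w hw
      rw [Finset.mem_inter] at hy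
      rw [nbr_face hBface hy.2, Finset.mem_inter] at hw
      have hwl : l w = l b := (Finset.mem_filter.1 hw.1).2
      have hwR : w ∉ R := hnotR w (hBV hw.1) (by rw [hwl]; exact hbc)
      exact Finset.mem_inter.2 ⟨h' y hy.1 w hw.2 hwR, hw.1⟩
    have : b ∈ M' ∩ B := by rw [hMB]; exact hbB
    exact (Finset.mem_inter.1 this).1
  by_contra hne
  have hM2 : ((V \ R) \ M).Nonempty := by
    rw [Finset.sdiff_nonempty]
    intro hsub
    exact hne (Finset.Subset.antisymm hM hsub)
  have h1 : b ∈ M := key M hM h0 h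
  have h2 : b ∈ (V \ R) \ M := by
    refine key _ Finset.sdiff_subset hM2 ?_
    intro x hx w hw hwR
    have hx' := Finset.mem_sdiff.1 hx
    have hxV := Finset.mem_sdiff.1 hx'.1
    have hwV : w ∈ V := (Finset.mem_erase.1 (nbr_subset hw)).2
    rw [Finset.mem_sdiff, Finset.mem_sdiff]
    refine ⟨⟨hwV, hwR⟩, fun hwM => hx'.2 ?_⟩
    exact h w hwM x (nbr_symm.1 hw) hxV.2
  exact (Finset.mem_sdiff.1 h2).2 h1

/-- The directions of the edges at `u` span. -/
theorem vectorSpan_insert_nbr {V : Finset E} (hV : ConvPos V) {u : E} (hu : u ∈ V) :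
    vectorSpan ℝ ((insert u (nbr V u) : Finset E) : Set E) = vectorSpan ℝ (V : Set E) := by
  have hsub : insert u (nbr V u) ⊆ V := by
    intro x hx
    rw [Finset.mem_insert] at hx
    rcases hx with rfl | hx
    · exact hu
    · exact (Finset.mem_erase.1 (nbr_subset hx)).2
  refine le_antisymm (vectorSpan_mono ℝ (by exact_mod_cast hsub)) ?_
  by_cases h1 : ({u} : Finset E) = V
  · refine vectorSpan_mono ℝ ?_
    rw [← h1]
    intro x hx
    simp only [Finset.coe_singleton, Set.mem_singleton_iff] at hx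
    rw [hx]
    exact Finset.mem_coe.2 (Finset.mem_insert_self _ _)
  · refine span_above (hV u hu) h1 _ ?_
    intro T hT huT
    obtain ⟨w, hw, rfl⟩ := gr_edge hV hT huT
    refine vectorSpan_mono ℝ ?_
    intro x hx
    rw [Finset.mem_coe, Finset.mem_insert, Finset.mem_singleton] at hx
    rw [Finset.mem_coe, Finset.mem_insert]
    rcases hx with rfl | rfl
    · exact Or.inl rfl
    · exact Or.inr hw

theorem adim_le_card_nbr {V : Finset E} (hV : ConvPos V) {u : E} (hu : u ∈ V) :
    adim V ≤ (nbr V u).card := by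
  have h1 : adim (insert u (nbr V u)) = adim V := by
    unfold adim
    rw [vectorSpan_insert_nbr hV hu]
  have h2 := adim_add_one_le_card (S := insert u (nbr V u)) (Finset.insert_nonempty _ _)
  have h3 := Finset.card_insert_le u (nbr V u)
  omega

/-- An affine functional which is at most its value at `u` on the neighbours of `u`. -/
theorem le_of_nbr {V : Finset E} (hV : ConvPos V) {u : E} (hu : u ∈ V) (l : E →ₗ[ℝ] ℝ)
    (h : ∀ w ∈ nbr V u, l w ≤ l u) : ∀ x ∈ V, l x ≤ l u :=
  gr_le_of_nbr hV hu l h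

end Pool.Agent.FV
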