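import Pool.Agent.Lib.MP_e9c977_fv.ClaimA

/-!
# Row KY: the key lemma
-/

namespace Pool.Agent.FV

open Module
open scoped Classical

noncomputable section

variable {E : Type} [NormedAddCommGroup E] [InnerProductSpace ℝ E]

variable {V : Finset E} {u v : E}

open CAAux

/-- At least three facets contain an edge. -/
theorem three_le_card_above (hV : ConvPos V) (h4 : adim V = 4)
    (he : ({u, v} : Finset E) ∈ faces V 1) : 3 ≤ (above V {u, v} 3).card := by
  rw [card_above h4 he]
  have huv := ne_of_edge he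
  have huV : u ∈ V := (mem_faces.1 he).1.2.1 (by simp)
  have hvu : v ∈ nbr V u := mem_nbr.2 ⟨huv.symm, (mem_faces.1 he).1⟩
  obtain ⟨g, hg⟩ := exists_cuts hV huV
  have hc := convPos_vfig hV huV hg
  have hd := adim_vfig hV huV hg (by omega)
  have hrv : rad g u v ∈ vfig g V u := Finset.mem_image_of_mem _ hvu
  have h3 := adim_le_card_nbr hc hrv
  have hle : (nbr (vfig g V u) (rad g u v)).card ≤ (above V {u, v} 2).card := by
    have key : ∀ y ∈ nbr (vfig g V u) (rad g u v), ∃ R, R ∈ above V {u, v} 2 ∧
        ∃ w ∈ nbr V u, w ∈ R ∧ w ≠ v ∧ rad g u w = y := by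
      intro y hy
      have hy1 := (Finset.mem_erase.1 (nbr_subset hy))
      obtain ⟨w, hw, rfl⟩ := Finset.mem_image.1 hy1.2
      have hwv : w ≠ v := by
        rintro rfl
        exact hy1.1 rfl
      rw [rad_mem_nbr hV huV hg hvu hw hwv.symm] at hy
      obtain ⟨R, hR, h1, h2, h3⟩ := hy
      refine ⟨R, mem_above.2 ⟨hR, ?_⟩, w, hw, h3, hwv, rfl⟩
      intro x hx
      rcases Finset.mem_insert.1 hx with rfl | hx
      · exact h1
      · rw [Finset.mem_singleton] at hx; subst hx; exact h2
    choose! f hf using key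
    refine Finset.card_le_card_of_injOn f (fun y hy => (hf y hy).1) ?_
    intro y hy y' hy' h
    rw [Finset.mem_coe] at hy hy'
    obtain ⟨a1, w, hw, hwR, hwv, hwy⟩ := hf y hy
    obtain ⟨b1, w', hw', hwR', hwv', hwy'⟩ := hf y' hy'
    have e1 := nbr_eq_pair hV he a1 hwR hw hwv
    have e2 := nbr_eq_pair hV he b1 hwR' hw' hwv'
    rw [← h, e1] at e2
    have : w ∈ ({v, w'} : Finset E) := by rw [← e2]; simp
    rw [Finset.mem_insert, Finset.mem_singleton] at this
    have hww := this.resolve_left hwv
    rw [← hwy, ← hwy', hww]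
  omega

/-- Four vertices all of whose triples are 2-faces have dimension three. -/
theorem adim_of_triples (hV : ConvPos V) {T : Finset E} (hT : T.card = 4)
    (h : ∀ x ∈ T, T.erase x ∈ faces V 2) : adim T = 3 := by
  have hTV : T ⊆ V := by
    intro t ht
    obtain ⟨x, hx, hxt⟩ : ∃ x ∈ T, x ≠ t := by
      by_contra hcon
      push Not at hcon
      have : T ⊆ {t} := fun x hx => by rw [Finset.mem_singleton]; exact hcon x hx
      have := Finset.card_le_card this
      rw [Finset.card_singleton] at this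
      omega
    exact (mem_faces.1 (h x hx)).1.2.1 (Finset.mem_erase.2 ⟨hxt.symm, ht⟩)
  have hne : T.Nonempty := by rw [← Finset.card_pos]; omega
  obtain ⟨x, hx⟩ := hne
  have h1 := (mem_faces.1 (h x hx)).1.adim_lt (Finset.erase_ssubset hx) hTV
  rw [(mem_faces.1 (h x hx)).2] at h1
  have h2 := adim_add_one_le_card (S := T) ⟨x, hx⟩
  omega

/-- An edge is in exactly three facets or in a missing tetrahedron. -/
theorem key_lemma [FiniteDimensional ℝ E] (hE : finrank ℝ E = 4) (hV : ConvPos V)
    (h4 : adim V = 4) (ht : Tight V) (he : ({u, v} : Finset E) ∈ faces V 1) :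
    (above V {u, v} 3).card = 3 ∨ ∃ T, Missing V T ∧ u ∈ T ∧ v ∈ T := by
  by_cases hq : (above V {u, v} 3).card = 3
  · exact Or.inl hq
  right
  have hq3 := three_le_card_above hV h4 he
  have hm := star_main hE hV h4 ht he
  have hpos : 0 < (newB V {u, v} u ∩ newB V {u, v} v).card := by omega
  obtain ⟨B, hB⟩ := Finset.card_pos.1 hpos
  have hBC := subset_of_mem_inter h4 he hB
  obtain ⟨R, hR, R', hR', h1, h2⟩ := exists_of_mem_inter h4 he hB
  rw [mem_outR] at hR hR'
  have hB2 : B.card = 2 := by rw [← h1]; exact card_nbr_two hV hR.1 hR.2.1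
  have huv := ne_of_edge he
  have hvu : v ∈ nbr V u := mem_nbr.2 ⟨huv.symm, (mem_faces.1 he).1⟩
  have hBR : B ⊆ R := by rw [← h1]; exact nbr_subset.trans (Finset.erase_subset _ _)
  have hBR' : B ⊆ R' := by rw [← h2]; exact nbr_subset.trans (Finset.erase_subset _ _)
  have hedge : B ∈ faces V 1 := by
    by_contra hne
    have s1 := subset_of_diagonal hV hR.1 (mem_faces.1 hR'.1).1 hB2 hBR hBR' hne
    exact not_both_mem h4 hR'.1 (s1 hR.2.1) hR'.2.1 hR'.2.2
  obtain ⟨w, w', hww, rfl⟩ := Finset.card_eq_two.1 hB2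
  have hwC := Finset.mem_inter.1 (hBC (show w ∈ ({w, w'} : Finset E) by simp))
  have hwC' := Finset.mem_inter.1 (hBC (show w' ∈ ({w, w'} : Finset E) by simp))
  have hwn : w' ∈ nbr V w := (mem_nbr_iff_edge hV hww).2 hedge
  have hwu := (mem_nbr.1 hwC.1).1
  have hwv := (mem_nbr.1 hwC.2).1
  have hwu' := (mem_nbr.1 hwC'.1).1
  have hwv' := (mem_nbr.1 hwC'.2).1
  have f1 : ({u, v, w} : Finset E) ∈ faces V 2 := three_cycle hE hV h4 ht hvu hwC.1 hwC.2
  have f2 : ({u, v, w'} : Finset E) ∈ faces V 2 := three_cycle hE hV h4 ht hvu hwC'.1 hwC'.2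
  have f3 : ({u, w, w'} : Finset E) ∈ faces V 2 := three_cycle hE hV h4 ht hwC.1 hwC'.1 hwn
  have f4 : ({v, w, w'} : Finset E) ∈ faces V 2 := three_cycle hE hV h4 ht hwC.2 hwC'.2 hwn
  set T : Finset E := {u, v, w, w'} with hT
  have hTc : T.card = 4 := by
    rw [hT, Finset.card_insert_of_notMem (by simp [huv, hwu.symm, hwu'.symm]),
      Finset.card_insert_of_notMem (by simp [hwv.symm, hwv'.symm]), Finset.card_pair hww]
  have herase : ∀ x ∈ T, T.erase x ∈ faces V 2 := by
    intro x hx
    simp only [hT, Finset.mem_insert, Finset.mem_singleton] at hx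
    rcases hx with rfl | rfl | rfl | rfl
    · convert f4 using 1
      rw [hT, Finset.erase_insert (by simp [huv, hwu.symm, hwu'.symm])]
    · convert f3 using 1
      ext t
      simp only [hT, Finset.mem_erase, Finset.mem_insert, Finset.mem_singleton]
      constructor
      · rintro ⟨a, rfl | b | c | d⟩
        · exact Or.inl rfl
        · exact absurd b a
        · exact Or.inr (Or.inl c)
        · exact Or.inr (Or.inr d)
      · rintro (rfl | rfl | rfl)
        · exact ⟨huv, Or.inl rfl⟩
        · exact ⟨hwv, Or.inr (Or.inr (Or.inl rfl))⟩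
        · exact ⟨hwv', Or.inr (Or.inr (Or.inr rfl))⟩
    · convert f2 using 1
      ext t
      simp only [hT, Finset.mem_erase, Finset.mem_insert, Finset.mem_singleton]
      constructor
      · rintro ⟨a, rfl | b | c | d⟩
        · exact Or.inl rfl
        · exact Or.inr (Or.inl b)
        · exact absurd c a
        · exact Or.inr (Or.inr d)
      · rintro (rfl | rfl | rfl)
        · exact ⟨hwu.symm, Or.inl rfl⟩
        · exact ⟨hwv.symm, Or.inr (Or.inl rfl)⟩
        · exact ⟨hww.symm, Or.inr (Or.inr (Or.inr rfl))⟩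
    · convert f1 using 1
      ext t
      simp only [hT, Finset.mem_erase, Finset.mem_insert, Finset.mem_singleton]
      constructor
      · rintro ⟨a, rfl | b | c | d⟩
        · exact Or.inl rfl
        · exact Or.inr (Or.inl b)
        · exact Or.inr (Or.inr c)
        · exact absurd d a
      · rintro (rfl | rfl | rfl)
        · exact ⟨hwu'.symm, Or.inl rfl⟩
        · exact ⟨hwv'.symm, Or.inr (Or.inl rfl)⟩
        · exact ⟨hww, Or.inr (Or.inr (Or.inl rfl))⟩
  refine ⟨T, ⟨hTc, ?_, herase⟩, by simp [hT], by simp [hT]⟩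
  intro hTf
  have hT3 := adim_of_triples hV hTc herase
  have hTa : T ∈ above V {u, v} 3 := by
    refine mem_above.2 ⟨mem_faces.2 ⟨hTf, hT3⟩, ?_⟩
    intro x hx
    rcases Finset.mem_insert.1 hx with rfl | hx
    · simp [hT]
    · rw [Finset.mem_singleton] at hx; subst hx; simp [hT]
  refine hR.2.2 T hTa ?_
  have := nbr_pair_mem_edges hV hR.1 hR.2.1 (by rw [h1]; exact hedge)
  rw [this, h1]
  intro x hx
  simp only [Finset.mem_insert, Finset.mem_singleton] at hx
  rcases hx with rfl | rfl | rfl <;> simp [hT]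

/-- Without missing tetrahedra all vertices have degree four. -/
theorem simple_of_no_missing [FiniteDimensional ℝ E] (hE : finrank ℝ E = 4) (hV : ConvPos V)
    (h4 : adim V = 4) (ht : Tight V) (hm : ∀ T, ¬ Missing V T) {x : E} (hx : x ∈ V) :
    (nbr V x).card = 4 := by
  have hs := ht.simpleFacets hE hV h4
  have h1 := card_two_faces_at hV h4 hs hx
  have h2 : ∑ w ∈ nbr V x, (above V {x, w} 2).card = 3 * (nbr V x).card := by
    have : ∀ w ∈ nbr V x, (above V {x, w} 2).card = 3 := by
      intro w hw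
      have he := edge_of_nbr hV hw
      rw [← card_above h4 he]
      rcases key_lemma hE hV h4 ht he with h | ⟨T, hT, _⟩
      · exact h
      · exact absurd hT (hm T)
    rw [Finset.sum_congr rfl this, Finset.sum_const, smul_eq_mul, mul_comm]
  have h3 : ∑ w ∈ nbr V x, (above V {x, w} 2).card
      = 2 * ((faces V 2).filter (fun R => x ∈ R)).card := by
    have e1 : ∀ w ∈ nbr V x, (above V {x, w} 2).card
        = ∑ R ∈ (faces V 2).filter (fun R => x ∈ R), (if w ∈ R then 1 else 0) := by
      intro w _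
      rw [← Finset.card_filter]
      congr 1
      ext R
      simp only [mem_above, Finset.mem_filter]
      constructor
      · rintro ⟨h1, h2⟩
        exact ⟨⟨h1, h2 (by simp)⟩, h2 (by simp)⟩
      · rintro ⟨⟨h1, h2⟩, h3⟩
        refine ⟨h1, ?_⟩
        intro t ht
        rcases Finset.mem_insert.1 ht with rfl | ht
        · exact h2
        · rw [Finset.mem_singleton] at ht; subst ht; exact h3
    rw [Finset.sum_congr rfl e1, Finset.sum_comm]
    have e2 : ∀ R ∈ (faces V 2).filter (fun R => x ∈ R),
        ∑ w ∈ nbr V x, (if w ∈ R then 1 else 0) = 2 := by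
      intro R hR
      rw [Finset.mem_filter] at hR
      rw [← Finset.card_filter, ← card_nbr_two hV hR.1 hR.2, nbr_face (mem_faces.1 hR.1).1 hR.2]
      congr 1
      ext w
      simp only [Finset.mem_filter, Finset.mem_inter]
      tauto
    rw [Finset.sum_congr rfl e2, Finset.sum_const, smul_eq_mul, mul_comm]
  omega

end

end Pool.Agent.FV
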