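import Pool.Agent.Lib.MP_e9c977_fv.Vec5

/-!
# Rows V4, V5: two-neighbourly 5-polytopes with two big facets

The points `(t, t², t³, t⁴, h)` with `h = 0` for `t < a` and `h = 1` for `a ≤ t < a + b`.
-/

namespace Pool.Agent.FV

open Module
open scoped Classical

noncomputable section

/-- The lifted moment curve. -/
def liftPt (a : ℕ) (t : ℕ) : EuclideanSpace ℝ (Fin 5) :=
  WithLp.toLp 2 ![(t : ℝ), (t : ℝ) ^ 2, (t : ℝ) ^ 3, (t : ℝ) ^ 4, if t < a then 0 else 1]

/-- The configuration. -/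
def liftV (a b : ℕ) : Finset (EuclideanSpace ℝ (Fin 5)) :=
  (Finset.range (a + b)).image (liftPt a)

theorem liftPt_injective (a : ℕ) : Function.Injective (liftPt a) := by
  intro s t h
  have h1 := congrArg (fun v : EuclideanSpace ℝ (Fin 5) => v 0) h
  simpa [liftPt] using h1

namespace V4Aux

/-- The functional with given coefficients. -/
def lf (c : Fin 5 → ℝ) : EuclideanSpace ℝ (Fin 5) →ₗ[ℝ] ℝ :=
  ∑ k, c k • (EuclideanSpace.proj (𝕜 := ℝ) k : EuclideanSpace ℝ (Fin 5) →L[ℝ] ℝ).toLinearMap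

theorem lf_apply (c : Fin 5 → ℝ) (x : EuclideanSpace ℝ (Fin 5)) : lf c x = ∑ k, c k * x k := by
  simp [lf]

theorem lf_liftPt (c : Fin 5 → ℝ) (a t : ℕ) : lf c (liftPt a t) =
    c 0 * t + c 1 * (t : ℝ) ^ 2 + c 2 * (t : ℝ) ^ 3 + c 3 * (t : ℝ) ^ 4 +
      c 4 * (if t < a then 0 else 1) := by
  rw [lf_apply, Fin.sum_univ_five]
  simp [liftPt]

theorem faceSet_pair {a b i j : ℕ} (hi : i < a + b) (hj : j < a + b) :
    FaceSet (liftV a b) {liftPt a i, liftPt a j} := by
  have key : ∀ t : ℕ, lf ![2 * i * j * (i + j), -((i : ℝ) ^ 2 + 4 * i * j + (j : ℝ) ^ 2),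
      2 * (i + j), -1, 0] (liftPt a t) =
      (i : ℝ) ^ 2 * (j : ℝ) ^ 2 - (((t : ℝ) - i) * ((t : ℝ) - j)) ^ 2 := by
    intro t
    rw [lf_liftPt]
    simp
    ring
  refine ⟨⟨liftPt a i, by simp⟩, ?_, lf ![2 * i * j * (i + j),
    -((i : ℝ) ^ 2 + 4 * i * j + (j : ℝ) ^ 2), 2 * (i + j), -1, 0],
    (i : ℝ) ^ 2 * (j : ℝ) ^ 2, ?_, ?_⟩
  · intro x hx
    rw [Finset.mem_insert, Finset.mem_singleton] at hx
    rcases hx with rfl | rfl
    · exact Finset.mem_image.2 ⟨i, Finset.mem_range.2 hi, rfl⟩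
    · exact Finset.mem_image.2 ⟨j, Finset.mem_range.2 hj, rfl⟩
  · intro x hx
    obtain ⟨t, -, rfl⟩ := Finset.mem_image.1 hx
    rw [key]
    nlinarith [sq_nonneg (((t : ℝ) - i) * ((t : ℝ) - j))]
  · intro x hx
    obtain ⟨t, -, rfl⟩ := Finset.mem_image.1 hx
    rw [key, Finset.mem_insert, Finset.mem_singleton, (liftPt_injective a).eq_iff,
      (liftPt_injective a).eq_iff]
    constructor
    · intro h
      have h1 : ((t : ℝ) - i) * ((t : ℝ) - j) = 0 := by
        have h2 : (((t : ℝ) - i) * ((t : ℝ) - j)) ^ 2 = 0 := by linarith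
        exact pow_eq_zero_iff (two_ne_zero) |>.1 h2
      rcases mul_eq_zero.1 h1 with h2 | h2
      · left
        exact_mod_cast sub_eq_zero.1 h2
      · right
        exact_mod_cast sub_eq_zero.1 h2
    · rintro (rfl | rfl) <;> simp

theorem insert_any {E : Type} (I J : DecidableEq E) (x y : E) :
    @insert E (Finset E) (@Finset.instInsert E I) x {y} =
      @insert E (Finset E) (@Finset.instInsert E J) x {y} := by
  rw [Subsingleton.elim I J]

end V4Aux

/-- Row V4: the functional `- (t - i)² (t - j)²`. -/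
theorem nbly_liftV (a b : ℕ) : Nbly (liftV a b) ∧ ConvPos (liftV a b) := by
  constructor
  · intro x hx y hy _
    obtain ⟨i, hi, rfl⟩ := Finset.mem_image.1 hx
    obtain ⟨j, hj, rfl⟩ := Finset.mem_image.1 hy
    have h := V4Aux.faceSet_pair (b := b) (Finset.mem_range.1 hi) (Finset.mem_range.1 hj)
    rw [V4Aux.insert_any _ _ (liftPt a i) (liftPt a j)] at h
    exact h
  · intro x hx
    obtain ⟨i, hi, rfl⟩ := Finset.mem_image.1 hx
    have h := V4Aux.faceSet_pair (b := b) (Finset.mem_range.1 hi) (Finset.mem_range.1 hi)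
    rwa [Finset.pair_eq_singleton] at h

namespace V5Aux

open Polynomial

/-- Rolle between consecutive points of a list. -/
theorem rolle (p : ℝ[X]) (c : ℝ) (n : ℕ) (x : Fin (n + 1) → ℝ) (hx : StrictMono x)
    (h : ∀ i, p.eval (x i) = c) : ∃ r : Fin n → ℝ, StrictMono r ∧
      ∀ i, p.derivative.eval (r i) = 0 ∧ x 0 < r i ∧ r i < x (Fin.last n) := by
  have h1 : ∀ i : Fin n, ∃ r : ℝ, x i.castSucc < r ∧ r < x i.succ ∧ p.derivative.eval r = 0 := by
    intro i
    obtain ⟨r, hr, hr0⟩ := exists_deriv_eq_zero (f := fun y => p.eval y)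
      (hx (Fin.castSucc_lt_succ (i := i))) p.continuous.continuousOn ((h _).trans (h _).symm)
    refine ⟨r, hr.1, hr.2, ?_⟩
    rw [← Polynomial.deriv]
    exact hr0
  choose r hr1 hr2 hr3 using h1
  refine ⟨r, ?_, fun i => ⟨hr3 i, ?_, ?_⟩⟩
  · intro i j hij
    refine (hr2 i).trans_le ((hx.monotone ?_).trans (hr1 j).le)
    exact Fin.succ_le_castSucc_iff.2 hij
  · exact (hx.monotone (Fin.zero_le _)).trans_lt (hr1 i)
  · exact (hr2 i).trans_le (hx.monotone (Fin.le_last _))

/-- The same for a finite set. -/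
theorem rolle_finset (p : ℝ[X]) (c : ℝ) (s : Finset ℕ) (h : ∀ t ∈ s, p.eval (t : ℝ) = c)
    {m M : ℝ} (hm : ∀ t ∈ s, m ≤ (t : ℝ)) (hM : ∀ t ∈ s, (t : ℝ) ≤ M) :
    ∃ r : Finset ℝ, s.card ≤ r.card + 1 ∧ ∀ y ∈ r, p.derivative.eval y = 0 ∧ m < y ∧ y < M := by
  rcases Nat.eq_zero_or_pos s.card with h0 | h0
  · exact ⟨∅, by omega, by simp⟩
  obtain ⟨n, hn⟩ : ∃ n, s.card = n + 1 := ⟨s.card - 1, by omega⟩
  set x : Fin (n + 1) → ℝ := fun i => ((s.orderEmbOfFin hn i : ℕ) : ℝ) with hx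
  have hmem : ∀ i, (s.orderEmbOfFin hn i : ℕ) ∈ s := fun i => s.orderEmbOfFin_mem hn i
  have hmono : StrictMono x := fun i j hij =>
    Nat.cast_lt.2 ((s.orderEmbOfFin hn).strictMono hij)
  obtain ⟨r, hr, hr'⟩ := rolle p c n x hmono fun i => h _ (hmem i)
  refine ⟨Finset.univ.image r, ?_, ?_⟩
  · rw [Finset.card_image_of_injective _ hr.injective, Finset.card_univ, Fintype.card_fin, hn]
  · intro y hy
    obtain ⟨i, -, rfl⟩ := Finset.mem_image.1 hy
    obtain ⟨h1, h2, h3⟩ := hr' i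
    exact ⟨h1, (hm _ (hmem 0)).trans_lt h2, h3.trans_le (hM _ (hmem (Fin.last n)))⟩

/-- The polynomial of a functional. -/
def pol (c : Fin 5 → ℝ) : ℝ[X] :=
  C (c 0) * X + C (c 1) * X ^ 2 + C (c 2) * X ^ 3 + C (c 3) * X ^ 4

theorem eval_pol (c : Fin 5 → ℝ) (x : ℝ) : (pol c).eval x =
    c 0 * x + c 1 * x ^ 2 + c 2 * x ^ 3 + c 3 * x ^ 4 := by
  simp [pol]

theorem natDegree_pol (c : Fin 5 → ℝ) : (pol c).natDegree ≤ 4 := by
  unfold pol
  compute_degree

theorem coeff_pol (c : Fin 5 → ℝ) : (pol c).coeff 1 = c 0 ∧ (pol c).coeff 2 = c 1 ∧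
    (pol c).coeff 3 = c 2 ∧ (pol c).coeff 4 = c 3 := by
  unfold pol
  simp [coeff_C]

theorem pol_eq_C {c : Fin 5 → ℝ} {d : ℝ} (h : pol c = C d) : c 0 = 0 ∧ c 1 = 0 ∧ c 2 = 0 ∧ c 3 = 0 := by
  obtain ⟨h1, h2, h3, h4⟩ := coeff_pol c
  rw [h] at h1 h2 h3 h4
  simp only [coeff_C] at h1 h2 h3 h4
  norm_num at h1 h2 h3 h4
  exact ⟨h1.symm, h2.symm, h3.symm, h4.symm⟩

theorem lf_liftPt' (c : Fin 5 → ℝ) (a t : ℕ) : V4Aux.lf c (liftPt a t) =
    (pol c).eval (t : ℝ) + c 4 * (if t < a then 0 else 1) := by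
  rw [V4Aux.lf_liftPt, eval_pol]

theorem exists_lf (f : EuclideanSpace ℝ (Fin 5) →ₗ[ℝ] ℝ) : ∃ c, f = V4Aux.lf c := by
  refine ⟨fun k => f (EuclideanSpace.single k 1), ?_⟩
  refine (EuclideanSpace.basisFun (Fin 5) ℝ).toBasis.ext fun i => ?_
  rw [OrthonormalBasis.coe_toBasis, EuclideanSpace.basisFun_apply, V4Aux.lf_apply]
  simp

/-- Functionals which vanish on the vector span are constant. -/
theorem const_of_vanish {s : Finset ℕ} {a : ℕ} {f : EuclideanSpace ℝ (Fin 5) →ₗ[ℝ] ℝ}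
    (hf : vectorSpan ℝ ((s.image (liftPt a) : Finset _) : Set (EuclideanSpace ℝ (Fin 5))) ≤
      LinearMap.ker f) {t u : ℕ} (ht : t ∈ s) (hu : u ∈ s) :
    f (liftPt a t) = f (liftPt a u) := by
  have h1 : liftPt a t - liftPt a u ∈
      vectorSpan ℝ ((s.image (liftPt a) : Finset _) : Set (EuclideanSpace ℝ (Fin 5))) :=
    vsub_mem_vectorSpan ℝ (Finset.mem_coe.2 (Finset.mem_image_of_mem _ ht))
      (Finset.mem_coe.2 (Finset.mem_image_of_mem _ hu))
  have h2 := LinearMap.mem_ker.1 (hf h1)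
  rw [map_sub] at h2
  linarith

end V5Aux

open V5Aux in
/-- Row V5: six points meeting both levels are affinely independent (Rolle). -/
theorem adim_six (a : ℕ) (s : Finset ℕ) (hs : s.card = 6) (h0 : ∃ t ∈ s, t < a)
    (h1 : ∃ t ∈ s, a ≤ t) : adim (s.image (liftPt a)) = 5 := by
  have htop : vectorSpan ℝ ((s.image (liftPt a) : Finset _) : Set (EuclideanSpace ℝ (Fin 5))) = ⊤ := by
    by_contra hne
    obtain ⟨f, hf0, hf⟩ := Submodule.exists_le_ker_of_lt_top _ (lt_top_iff_ne_top.2 hne)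
    obtain ⟨c, rfl⟩ := exists_lf f
    obtain ⟨t0, ht0, ht0a⟩ := h0
    obtain ⟨t1, ht1, ht1a⟩ := h1
    have hL : ∀ t ∈ s.filter (fun t => t < a), (pol c).eval (t : ℝ) = (pol c).eval (t0 : ℝ) := by
      intro t ht
      obtain ⟨ht, hta⟩ := Finset.mem_filter.1 ht
      have h2 := const_of_vanish hf ht ht0
      rw [lf_liftPt', lf_liftPt', if_pos hta, if_pos ht0a] at h2
      linarith
    have hR : ∀ t ∈ s.filter (fun t => ¬ t < a), (pol c).eval (t : ℝ) = (pol c).eval (t1 : ℝ) := by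
      intro t ht
      obtain ⟨ht, hta⟩ := Finset.mem_filter.1 ht
      have h2 := const_of_vanish hf ht ht1
      rw [lf_liftPt', lf_liftPt', if_neg hta, if_neg (not_lt.2 ht1a)] at h2
      linarith
    obtain ⟨r, hr, hr'⟩ := rolle_finset (pol c) _ _ hL (m := 0) (M := (a : ℝ))
      (fun t _ => Nat.cast_nonneg t) (fun t ht => Nat.cast_le.2 (Finset.mem_filter.1 ht).2.le)
    obtain ⟨r2, hr2, hr2'⟩ := rolle_finset (pol c) _ _ hR (m := (a : ℝ)) (M := ((s.sup id : ℕ) : ℝ))
      (fun t ht => Nat.cast_le.2 (not_lt.1 (Finset.mem_filter.1 ht).2))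
      (fun t ht => Nat.cast_le.2 (Finset.le_sup (f := id) (Finset.mem_filter.1 ht).1))
    have hcard := Finset.card_filter_add_card_filter_not (s := s) (fun t => t < a)
    have hdis : Disjoint r r2 := by
      rw [Finset.disjoint_left]
      intro y hy hy'
      exact absurd (hr' y hy).2.2 (not_lt.2 (hr2' y hy').2.1.le)
    have h4 : 4 ≤ (r ∪ r2).card := by
      rw [Finset.card_union_of_disjoint hdis]
      omega
    have hder : (pol c).derivative = 0 := by
      refine Polynomial.eq_zero_of_natDegree_lt_card_of_eval_eq_zero' _ (r ∪ r2) ?_ ?_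
      · intro y hy
        rcases Finset.mem_union.1 hy with h | h
        · exact (hr' y h).1
        · exact (hr2' y h).1
      · have h5 := Polynomial.natDegree_derivative_le (pol c)
        have h6 := natDegree_pol c
        omega
    have hconst := Polynomial.eq_C_of_derivative_eq_zero hder
    obtain ⟨c0, c1, c2, c3⟩ := pol_eq_C hconst
    have h5 := const_of_vanish hf ht0 ht1
    rw [lf_liftPt', lf_liftPt', if_pos ht0a, if_neg (not_lt.2 ht1a), eval_pol, eval_pol, c0, c1,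
      c2, c3] at h5
    have c4 : c 4 = 0 := by linarith
    apply hf0
    have hc : c = 0 := by
      funext k
      fin_cases k
      · exact c0
      · exact c1
      · exact c2
      · exact c3
      · exact c4
    rw [hc]
    simp [V4Aux.lf]
  unfold adim
  rw [htop, finrank_top, finrank_euclideanSpace_fin]

open V5Aux in
/-- Row V5: five points on one level span it. -/
theorem adim_five (a : ℕ) (s : Finset ℕ) (hs : s.card = 5) (h : (∀ t ∈ s, t < a) ∨ ∀ t ∈ s, a ≤ t) :
    adim (s.image (liftPt a)) = 4 := by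
  have hne : s.Nonempty := Finset.card_pos.1 (by omega)
  have hup := adim_add_one_le_card (hne.image (liftPt a))
  rw [Finset.card_image_of_injective _ (liftPt_injective a), hs] at hup
  set W := vectorSpan ℝ ((s.image (liftPt a) : Finset _) : Set (EuclideanSpace ℝ (Fin 5))) with hW
  set L := Submodule.span ℝ {(EuclideanSpace.single (4 : Fin 5) (1 : ℝ))} with hLdef
  have htop : W ⊔ L = ⊤ := by
    by_contra hnt
    obtain ⟨f, hf0, hf⟩ := Submodule.exists_le_ker_of_lt_top _ (lt_top_iff_ne_top.2 hnt)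
    obtain ⟨c, rfl⟩ := exists_lf f
    have hf1 : W ≤ LinearMap.ker (V4Aux.lf c) := le_sup_left.trans hf
    have c4 : c 4 = 0 := by
      have h1 : EuclideanSpace.single (4 : Fin 5) (1 : ℝ) ∈ LinearMap.ker (V4Aux.lf c) :=
        hf (le_sup_right (a := W) (Submodule.mem_span_singleton_self _))
      rw [LinearMap.mem_ker, V4Aux.lf_apply] at h1
      simpa using h1
    obtain ⟨t0, ht0⟩ := hne
    have hall : ∀ t ∈ s, (pol c - Polynomial.C ((pol c).eval (t0 : ℝ))).eval (t : ℝ) = 0 := by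
      intro t ht
      have h2 := const_of_vanish hf1 ht ht0
      rw [lf_liftPt', lf_liftPt', c4] at h2
      rw [Polynomial.eval_sub, Polynomial.eval_C]
      linarith
    have hz : pol c - Polynomial.C ((pol c).eval (t0 : ℝ)) = 0 := by
      refine Polynomial.eq_zero_of_natDegree_lt_card_of_eval_eq_zero' _
        (s.image (Nat.cast : ℕ → ℝ)) ?_ ?_
      · intro y hy
        obtain ⟨t, ht, rfl⟩ := Finset.mem_image.1 hy
        exact hall t ht
      · rw [Finset.card_image_of_injective _ Nat.cast_injective, hs, Polynomial.natDegree_sub_C]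
        have h6 := natDegree_pol c
        omega
    obtain ⟨c0, c1, c2, c3⟩ := pol_eq_C (sub_eq_zero.1 hz)
    apply hf0
    have hc : c = 0 := by
      funext k
      fin_cases k
      · exact c0
      · exact c1
      · exact c2
      · exact c3
      · exact c4
    rw [hc]
    simp [V4Aux.lf]
  have h1 := Submodule.finrank_add_le_finrank_add_finrank W L
  rw [htop, finrank_top, finrank_euclideanSpace_fin] at h1
  have h2 : finrank ℝ L ≤ 1 := by
    refine (finrank_span_le_card _).trans ?_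
    simp
  have h3 : finrank ℝ W = adim (s.image (liftPt a)) := rfl
  omega

end

end Pool.Agent.FV
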