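import Pool.Agent.Lib.MP_e9c977_fv.Lift

/-!
# Row V6: the facets of the lifted configuration
-/

namespace Pool.Agent.FV

open Module
open scoped Classical

noncomputable section

/-- the last coordinate -/
private def lfH : EuclideanSpace ℝ (Fin 5) →ₗ[ℝ] ℝ :=
  (EuclideanSpace.proj (4 : Fin 5) : EuclideanSpace ℝ (Fin 5) →L[ℝ] ℝ).toLinearMap

private theorem lfH_lt {a t : ℕ} (h : t < a) : lfH (liftPt a t) = 0 := by
  simp [lfH, liftPt, h]

private theorem lfH_ge {a t : ℕ} (h : a ≤ t) : lfH (liftPt a t) = 1 := by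
  simp [lfH, liftPt, Nat.not_lt.mpr h]

theorem exists_lift (a b : ℕ) (ha : 5 ≤ a) (hb : 5 ≤ b) :
    ∃ V : Finset (EuclideanSpace ℝ (Fin 5)), ConvPos V ∧ adim V = 5 ∧ Nbly V ∧
      V.card = a + b ∧ ∃ A ∈ faces V 4, ∃ B ∈ faces V 4, A ≠ B ∧ A.card = a ∧ B.card = b ∧
        ∀ F ∈ faces V 4, F ≠ A → F ≠ B → F.card = 5 := by
  obtain ⟨hN, hC⟩ := nbly_liftV a b
  have hinj := liftPt_injective a
  set V := liftV a b with hV
  set A : Finset (EuclideanSpace ℝ (Fin 5)) := (Finset.range a).image (liftPt a) with hA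
  set B : Finset (EuclideanSpace ℝ (Fin 5)) := (Finset.Ico a (a + b)).image (liftPt a) with hB
  have hAV : A ⊆ V := Finset.image_subset_image (Finset.range_subset_range.mpr (Nat.le_add_right a b))
  have hBV : B ⊆ V := by
    refine Finset.image_subset_image ?_
    intro t ht
    rw [Finset.mem_range]
    exact (Finset.mem_Ico.mp ht).2
  have hmemA : ∀ t, liftPt a t ∈ A ↔ t < a := by
    intro t
    rw [hA, Finset.mem_image]
    constructor
    · rintro ⟨s, hs, h⟩
      rw [← hinj h]
      exact Finset.mem_range.mp hs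
    · intro h
      exact ⟨t, Finset.mem_range.mpr h, rfl⟩
  have hmemB : ∀ t, liftPt a t ∈ B ↔ a ≤ t ∧ t < a + b := by
    intro t
    rw [hB, Finset.mem_image]
    constructor
    · rintro ⟨s, hs, h⟩
      rw [← hinj h]
      exact Finset.mem_Ico.mp hs
    · intro h
      exact ⟨t, Finset.mem_Ico.mpr h, rfl⟩
  have hmemV : ∀ x ∈ V, ∃ t, t < a + b ∧ x = liftPt a t := by
    intro x hx
    rw [hV, liftV, Finset.mem_image] at hx
    obtain ⟨t, ht, rfl⟩ := hx
    exact ⟨t, Finset.mem_range.mp ht, rfl⟩
  -- the dimension of `V`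
  have hV5 : adim V = 5 := by
    apply le_antisymm
    · have := adim_le_finrank V
      rwa [finrank_euclideanSpace_fin] at this
    · have h1 : (insert a (Finset.range 5)).card = 6 := by
        rw [Finset.card_insert_of_notMem, Finset.card_range]
        rw [Finset.mem_range]
        omega
      have h2 := adim_six a (insert a (Finset.range 5)) h1
        ⟨0, Finset.mem_insert_of_mem (Finset.mem_range.mpr (by omega)), by omega⟩
        ⟨a, Finset.mem_insert_self _ _, le_rfl⟩
      refine h2.symm.le.trans (adim_mono (Finset.image_subset_image ?_))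
      intro t ht
      rw [Finset.mem_range]
      rcases Finset.mem_insert.mp ht with rfl | ht
      · omega
      · have := Finset.mem_range.mp ht
        omega
  have hfA : FaceSet V A := by
    refine ⟨⟨liftPt a 0, (hmemA 0).mpr (by omega)⟩, hAV, -lfH, 0, ?_, ?_⟩
    · intro x hx
      obtain ⟨t, ht, rfl⟩ := hmemV x hx
      rw [LinearMap.neg_apply]
      rcases lt_or_ge t a with h | h
      · rw [lfH_lt h, neg_zero]
      · rw [lfH_ge h]; norm_num
    · intro x hx
      obtain ⟨t, ht, rfl⟩ := hmemV x hx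
      rw [LinearMap.neg_apply, hmemA]
      rcases lt_or_ge t a with h | h
      · rw [lfH_lt h, neg_zero]
        exact ⟨fun _ => h, fun _ => rfl⟩
      · rw [lfH_ge h]
        constructor
        · intro h'; norm_num at h'
        · intro h'; omega
  have hfB : FaceSet V B := by
    refine ⟨⟨liftPt a a, (hmemB a).mpr (by omega)⟩, hBV, lfH, 1, ?_, ?_⟩
    · intro x hx
      obtain ⟨t, ht, rfl⟩ := hmemV x hx
      rcases lt_or_ge t a with h | h
      · rw [lfH_lt h]; norm_num
      · rw [lfH_ge h]
    · intro x hx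
      obtain ⟨t, ht, rfl⟩ := hmemV x hx
      rw [hmemB]
      rcases lt_or_ge t a with h | h
      · rw [lfH_lt h]
        constructor
        · intro h'; norm_num at h'
        · intro h'; omega
      · rw [lfH_ge h]
        exact ⟨fun _ => ⟨h, ht⟩, fun _ => rfl⟩
  have hA4 : adim A = 4 := by
    apply le_antisymm
    · have hss : A ⊂ V := by
        refine Finset.ssubset_iff_subset_ne.mpr ⟨hAV, fun h => ?_⟩
        have h1 : liftPt a a ∈ A := by
          rw [h]
          exact hBV ((hmemB a).mpr (by omega))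
        have := (hmemA a).mp h1
        omega
      have := hfA.adim_lt hss subset_rfl
      omega
    · refine (adim_five a (Finset.range 5) (Finset.card_range 5)
        (Or.inl fun t ht => by have := Finset.mem_range.mp ht; omega)).symm.le.trans ?_
      apply adim_mono
      exact Finset.image_subset_image (Finset.range_subset_range.mpr ha)
  have hB4 : adim B = 4 := by
    apply le_antisymm
    · have hss : B ⊂ V := by
        refine Finset.ssubset_iff_subset_ne.mpr ⟨hBV, fun h => ?_⟩
        have h1 : liftPt a 0 ∈ B := by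
          rw [h]
          exact hAV ((hmemA 0).mpr (by omega))
        have := (hmemB 0).mp h1
        omega
      have := hfB.adim_lt hss subset_rfl
      omega
    · refine (adim_five a (Finset.Ico a (a + 5)) (by rw [Nat.card_Ico]; omega)
        (Or.inr fun t ht => (Finset.mem_Ico.mp ht).1)).symm.le.trans ?_
      apply adim_mono
      refine Finset.image_subset_image ?_
      intro t ht
      rw [Finset.mem_Ico] at ht ⊢
      omega
  refine ⟨V, hC, hV5, hN, ?_, A, mem_faces.mpr ⟨hfA, hA4⟩, B, mem_faces.mpr ⟨hfB, hB4⟩, ?_, ?_, ?_, ?_⟩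
  · rw [hV, liftV, Finset.card_image_of_injective _ hinj, Finset.card_range]
  · intro h
    have h1 : liftPt a 0 ∈ A := (hmemA 0).mpr (by omega)
    rw [h] at h1
    have := (hmemB 0).mp h1
    omega
  · rw [hA, Finset.card_image_of_injective _ hinj, Finset.card_range]
  · rw [hB, Finset.card_image_of_injective _ hinj, Nat.card_Ico]
    omega
  · intro F hF hFA hFB
    obtain ⟨hfF, hF4⟩ := mem_faces.mp hF
    have hne := hfF.1
    have hge := adim_add_one_le_card hne
    rw [hF4] at hge
    set T : Finset ℕ := (Finset.range (a + b)).filter (fun t => liftPt a t ∈ F) with hT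
    have hFT : F = T.image (liftPt a) := by
      ext x
      rw [Finset.mem_image]
      constructor
      · intro hx
        obtain ⟨t, ht, rfl⟩ := hmemV x (hfF.2.1 hx)
        exact ⟨t, Finset.mem_filter.mpr ⟨Finset.mem_range.mpr ht, hx⟩, rfl⟩
      · rintro ⟨t, ht, rfl⟩
        exact (Finset.mem_filter.mp ht).2
    have hcard : F.card = T.card := by
      rw [hFT, Finset.card_image_of_injective _ hinj]
    by_cases h0 : ∃ t ∈ T, t < a
    · by_cases h1 : ∃ t ∈ T, a ≤ t
      · obtain ⟨t0, ht0, hlt⟩ := h0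
        obtain ⟨t1, ht1, hle⟩ := h1
        by_contra hne5
        have h6 : 6 ≤ T.card := by omega
        have hsub : ({t0, t1} : Finset ℕ) ⊆ T := by
          intro t ht
          rcases Finset.mem_insert.mp ht with rfl | ht
          · exact ht0
          · rw [Finset.mem_singleton.mp ht]
            exact ht1
        obtain ⟨s, hs1, hs2, hs3⟩ := Finset.exists_subsuperset_card_eq hsub
          ((Finset.card_le_two).trans (by norm_num)) h6
        have h7 := adim_six a s hs3 ⟨t0, hs1 (Finset.mem_insert_self _ _), hlt⟩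
          ⟨t1, hs1 (Finset.mem_insert_of_mem (Finset.mem_singleton_self _)), hle⟩
        have h8 : adim (s.image (liftPt a)) ≤ adim F := by
          apply adim_mono
          rw [hFT]
          exact Finset.image_subset_image hs2
        omega
      · exfalso
        push Not at h1
        apply hFA
        refine hfF.eq_of_adim ?_ hAV (by rw [hA4, hF4])
        intro x hx
        rw [hFT, Finset.mem_image] at hx
        obtain ⟨t, ht, rfl⟩ := hx
        exact (hmemA t).mpr (h1 t ht)
    · exfalso
      push Not at h0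
      apply hFB
      refine hfF.eq_of_adim ?_ hBV (by rw [hB4, hF4])
      intro x hx
      rw [hFT, Finset.mem_image] at hx
      obtain ⟨t, ht, rfl⟩ := hx
      exact (hmemB t).mpr ⟨h0 t ht, Finset.mem_range.mp (Finset.mem_filter.mp ht).1⟩

/-- Sufficiency: all `x = (W - j)² + j²`. -/
theorem isFVector_vec5 {W j : ℕ} (hj : j ≤ W) {f : Fin 5 → ℕ}
    (h : Vec5 W (((W : ℤ) - j) ^ 2 + (j : ℤ) ^ 2) f) : IsFVector 5 f := by
  obtain ⟨V, hC, hV5, hN, hcard, A, hA, B, hB, hAB, hAc, hBc, hF⟩ :=
    exists_lift (W - j + 5) (j + 5) (by omega) (by omega)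
  have hAc' : (A.card : ℤ) - 5 = (W : ℤ) - j := by
    rw [hAc]
    push_cast [Nat.cast_sub hj]
    ring
  have hBc' : (B.card : ℤ) - 5 = (j : ℤ) := by
    rw [hBc]
    push_cast
    ring
  have hsub : ({A, B} : Finset _) ⊆ faces V 4 := by
    intro S hS
    rcases Finset.mem_insert.mp hS with rfl | hS
    · exact hA
    · rw [Finset.mem_singleton.mp hS]
      exact hB
  have hzero : ∀ F ∈ faces V 4, F ∉ ({A, B} : Finset _) → (F.card : ℤ) - 5 = 0 := by
    intro F hF4 hFn
    rw [Finset.mem_insert, Finset.mem_singleton, not_or] at hFn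
    rw [hF F hF4 hFn.1 hFn.2]
    norm_num
  have h1 : ∑ F ∈ faces V 4, ((F.card : ℤ) - 5) = (W : ℤ) := by
    rw [← Finset.sum_subset hsub hzero, Finset.sum_pair hAB, hAc', hBc']
    ring
  have h2 : ∑ F ∈ faces V 4, ((F.card : ℤ) - 5) ^ 2 = ((W : ℤ) - j) ^ 2 + (j : ℤ) ^ 2 := by
    rw [← Finset.sum_subset hsub (fun F hF4 hFn => by rw [hzero F hF4 hFn]; norm_num),
      Finset.sum_pair hAB, hAc', hBc']
  have hn : (V.card : ℤ) = (W : ℤ) + 10 := by
    rw [hcard]
    push_cast [Nat.cast_sub hj]
    ring
  have h3 := (vec5_iff hC hV5 hN hn).mpr ⟨h1, h2⟩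
  rw [isFVector_iff (by norm_num)]
  refine ⟨V, hC, hV5, ?_⟩
  obtain ⟨p0, p1, p2, p3, p4⟩ := h
  obtain ⟨q0, q1, q2, q3, q4⟩ := h3
  intro i
  fin_cases i
  · show (faces V 0).card = f 0
    have : ((faces V ((0 : Fin 5) : ℕ)).card : ℤ) = (faces V 0).card := rfl
    simp only [] at q0
    rw [this] at q0
    omega
  · show (faces V 1).card = f 1
    have : ((faces V ((1 : Fin 5) : ℕ)).card : ℤ) = (faces V 1).card := rfl
    rw [this] at q1
    omega
  · show (faces V 2).card = f 2
    have : ((faces V ((2 : Fin 5) : ℕ)).card : ℤ) = (faces V 2).card := rfl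
    rw [this] at q2
    omega
  · show (faces V 3).card = f 3
    have : ((faces V ((3 : Fin 5) : ℕ)).card : ℤ) = (faces V 3).card := rfl
    rw [this] at q3
    omega
  · show (faces V 4).card = f 4
    have : ((faces V ((4 : Fin 5) : ℕ)).card : ℤ) = (faces V 4).card := rfl
    rw [this] at q4
    omega

end

end Pool.Agent.FV
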