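import Pool.Agent.Lib.MP_e9c977_fv.Motion

/-!
# Row LI: cross products in `ℝ³` and the local identity around a vertex
-/

namespace Pool.Agent.FV

open Module
open scoped Classical

noncomputable section

/-- Euclidean three-space. -/
abbrev E3 := EuclideanSpace ℝ (Fin 3)

/-- The cross product. -/
def cr3 (x y : E3) : E3 :=
  WithLp.toLp 2 ![x 1 * y 2 - x 2 * y 1, x 2 * y 0 - x 0 * y 2, x 0 * y 1 - x 1 * y 0]

namespace LIAux

theorem inner3 (x y : E3) : inner ℝ x y = x 0 * y 0 + x 1 * y 1 + x 2 * y 2 := by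
  simp only [PiLp.inner_apply, Fin.sum_univ_three, RCLike.inner_apply, conj_trivial]
  ring

theorem cr3_0 (x y : E3) : cr3 x y 0 = x 1 * y 2 - x 2 * y 1 := by simp [cr3]

theorem cr3_1 (x y : E3) : cr3 x y 1 = x 2 * y 0 - x 0 * y 2 := by simp [cr3]

theorem cr3_2 (x y : E3) : cr3 x y 2 = x 0 * y 1 - x 1 * y 0 := by simp [cr3]

theorem ext3 {x y : E3} (h0 : x 0 = y 0) (h1 : x 1 = y 1) (h2 : x 2 = y 2) : x = y := by
  ext i
  fin_cases i
  · exact h0
  · exact h1
  · exact h2

theorem smul3 (s : ℝ) (x : E3) (i : Fin 3) : (s • x) i = s * x i := by simp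

theorem add3 (x y : E3) (i : Fin 3) : (x + y) i = x i + y i := by simp

theorem sub3 (x y : E3) (i : Fin 3) : (x - y) i = x i - y i := by simp

/-- expansion in the dual basis -/
theorem expand (e f v : E3) : (inner ℝ (cr3 e f) (cr3 e f) : ℝ) • v =
    (inner ℝ v (cr3 e f) : ℝ) • cr3 e f + (inner ℝ e v : ℝ) • cr3 f (cr3 e f)
      + (inner ℝ f v : ℝ) • cr3 (cr3 e f) e := by
  apply ext3 <;>
  · simp only [smul3, add3, inner3, cr3_0, cr3_1, cr3_2]
    ring

theorem cr3_smul_left (s : ℝ) (x y : E3) : cr3 (s • x) y = s • cr3 x y := by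
  apply ext3 <;>
  · simp only [smul3, cr3_0, cr3_1, cr3_2]
    ring

theorem cr3_add_left (x x' y : E3) : cr3 (x + x') y = cr3 x y + cr3 x' y := by
  apply ext3 <;>
  · simp only [add3, cr3_0, cr3_1, cr3_2]
    ring

theorem cr3_sub_left (x x' y : E3) : cr3 (x - x') y = cr3 x y - cr3 x' y := by
  apply ext3 <;>
  · simp only [sub3, cr3_0, cr3_1, cr3_2]
    ring

theorem cr3_sub_right (x y y' : E3) : cr3 x (y - y') = cr3 x y - cr3 x y' := by
  apply ext3 <;>
  · simp only [sub3, cr3_0, cr3_1, cr3_2]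
    ring

theorem cr3_self (x : E3) : cr3 x x = 0 := by
  apply ext3 <;>
  · simp only [cr3_0, cr3_1, cr3_2]
    simp
    try ring

theorem cr3_swap (x y : E3) : cr3 x y = - cr3 y x := by
  apply ext3 <;>
  · simp only [cr3_0, cr3_1, cr3_2, PiLp.neg_apply]
    ring

theorem cr3_zero_left (y : E3) : cr3 0 y = 0 := by
  apply ext3 <;>
  · simp only [cr3_0, cr3_1, cr3_2]
    simp

end LIAux

open LIAux

/-- A nondegenerate triangle moving rigidly to first order moves by a rotation vector. -/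
theorem exists_rot {e f E' F' : E3} (hn : cr3 e f ≠ 0) (h1 : inner ℝ e E' = 0)
    (h2 : inner ℝ f F' = 0) (h3 : inner ℝ e F' + inner ℝ f E' = 0) :
    ∃ a : E3, cr3 a e = E' ∧ cr3 a f = F' := by
  have hN : (inner ℝ (cr3 e f) (cr3 e f) : ℝ) ≠ 0 := by
    rw [Ne, inner_self_eq_zero]
    exact hn
  have hE := expand e f E'
  have hF := expand e f F'
  rw [h1, zero_smul, add_zero] at hE
  rw [h2, zero_smul, add_zero, show (inner ℝ e F' : ℝ) = - inner ℝ f E' by linarith] at hF
  generalize inner ℝ (cr3 e f) (cr3 e f) = N at hN hE hF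
  refine ⟨N⁻¹ • ((inner ℝ f E' : ℝ) • cr3 e f + (inner ℝ F' (cr3 e f) : ℝ) • e
    - (inner ℝ E' (cr3 e f) : ℝ) • f), ?_, ?_⟩
  · rw [cr3_smul_left, cr3_sub_left, cr3_add_left, cr3_smul_left, cr3_smul_left, cr3_smul_left,
      cr3_self, smul_zero, add_zero, cr3_swap f e, smul_neg, sub_neg_eq_add, add_comm, ← hE,
      smul_smul, inv_mul_cancel₀ hN, one_smul]
  · rw [cr3_smul_left, cr3_sub_left, cr3_add_left, cr3_smul_left, cr3_smul_left, cr3_smul_left,
      cr3_self, smul_zero, sub_zero, cr3_swap (cr3 e f) f, smul_neg, ← neg_smul, add_comm, ← hF,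
      smul_smul, inv_mul_cancel₀ hN, one_smul]

/-- A vector whose cross product with `x` vanishes is parallel to `x`. -/
theorem exists_smul_of_cr3 {x y : E3} (hx : x ≠ 0) (h : cr3 y x = 0) : ∃ s : ℝ, y = s • x := by
  have hN : (inner ℝ x x : ℝ) ≠ 0 := by
    rw [Ne, inner_self_eq_zero]
    exact hx
  have h1 : (inner ℝ x x : ℝ) • y - (inner ℝ x y : ℝ) • x = cr3 x (cr3 y x) := by
    apply ext3 <;>
    · simp only [smul3, sub3, inner3, cr3_0, cr3_1, cr3_2]
      ring
  have h2 : cr3 x (cr3 y x) = 0 := by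
    rw [h, cr3_swap, cr3_zero_left, neg_zero]
  rw [h2, sub_eq_zero] at h1
  refine ⟨(inner ℝ x x : ℝ)⁻¹ * inner ℝ x y, ?_⟩
  rw [← smul_smul, ← h1, smul_smul, inv_mul_cancel₀ hN, one_smul]

/-- A rotation field which vanishes on two independent vectors vanishes. -/
theorem eq_zero_of_cr3 {a x y : E3} (hxy : cr3 x y ≠ 0) (hx : cr3 a x = 0) (hy : cr3 a y = 0) :
    a = 0 := by
  have hx0 : x ≠ 0 := by
    rintro rfl
    exact hxy (cr3_zero_left y)
  obtain ⟨s, rfl⟩ := exists_smul_of_cr3 hx0 hx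
  rw [cr3_smul_left] at hy
  rcases smul_eq_zero.1 hy with h | h
  · rw [h, zero_smul]
  · exact absurd h hxy

theorem skew_cr3 (a x : E3) : inner ℝ (cr3 a x) x = 0 := by
  simp only [inner3, cr3_0, cr3_1, cr3_2]
  ring

/-- The local identity.  The triangles `p, u k, u (σ k)` run around the vertex `p`, `y k` is the
polar point of the plane of the `k`-th triangle, `v k` and `q` are the velocities. -/
theorem local_identity {ι : Type} [Fintype ι] (σ : Equiv.Perm ι) (p q : E3) (u v y : ι → E3)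
    (ρ : ι → ℝ) (hy : ∀ k, y (σ k) - y k = ρ (σ k) • cr3 p (u (σ k)))
    (hp : ∀ k, inner ℝ (y k) p = 1) (hu : ∀ k, inner ℝ (y k) (u k) = 1)
    (hu' : ∀ k, inner ℝ (y k) (u (σ k)) = 1)
    (hdet : ∀ k, inner ℝ (cr3 p (u k)) (u (σ k)) ≠ 0)
    (e1 : ∀ k, inner ℝ (p - u k) (q - v k) = 0)
    (e2 : ∀ k, inner ℝ (u k - u (σ k)) (v k - v (σ k)) = 0) :
    ∑ k, ρ k * (‖p‖ ^ 2 * inner ℝ (u k) (v k) - inner ℝ p (u k) * inner ℝ p q) = 0 := by
  have hrot : ∀ k, ∃ a : E3, cr3 a (u k - p) = v k - q ∧ cr3 a (u (σ k) - p) = v (σ k) - q := by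
    intro k
    have h1 : inner ℝ (u k - p) (v k - q) = 0 := by
      rw [← neg_sub p, ← neg_sub q, inner_neg_neg]
      exact e1 k
    have h2 : inner ℝ (u (σ k) - p) (v (σ k) - q) = 0 := by
      rw [← neg_sub p, ← neg_sub q, inner_neg_neg]
      exact e1 (σ k)
    refine exists_rot ?_ h1 h2 ?_
    · intro h0
      refine hdet k ?_
      have h3 : inner ℝ (cr3 p (u k)) (u (σ k)) = inner ℝ p (cr3 (u k - p) (u (σ k) - p)) := by
        simp only [sub3, inner3, cr3_0, cr3_1, cr3_2]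
        ring
      rw [h3, h0, inner_zero_right]
    · have h3 := e2 k
      have h4 : u k - u (σ k) = (u k - p) - (u (σ k) - p) := by abel
      have h5 : v k - v (σ k) = (v k - q) - (v (σ k) - q) := by abel
      rw [h4, h5, inner_sub_left, inner_sub_right _ (v k - q), inner_sub_right _ (v k - q),
        h1, h2] at h3
      linarith
  choose a ha1 ha2 using hrot
  have hne : ∀ k, u (σ k) - p ≠ 0 := by
    intro k h0
    refine hdet k ?_
    rw [sub_eq_zero.1 h0]
    simp only [inner3, cr3_0, cr3_1, cr3_2]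
    ring
  have hs : ∀ k, ∃ t : ℝ, a (σ k) - a k = t • (u (σ k) - p) := by
    intro k
    refine exists_smul_of_cr3 (hne k) ?_
    rw [cr3_sub_left, ha1 (σ k), ha2 k, sub_self]
  choose t ht using hs
  have hsum : ∑ k, t k * inner ℝ p (u (σ k) - p) = 0 := by
    have h1 : ∑ k, inner ℝ p (a (σ k) - a k) = (0 : ℝ) := by
      simp only [inner_sub_right, Finset.sum_sub_distrib]
      rw [Equiv.sum_comp σ (fun k => (inner ℝ p (a k) : ℝ)), sub_self]
    rw [← h1]
    refine Finset.sum_congr rfl (fun k _ => ?_)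
    rw [ht k, inner_smul_right]
  set b : ι → E3 := fun k => q - cr3 (a k) p with hb
  have hbσ : ∀ k, b (σ k) = b k + t k • cr3 p (u (σ k)) := by
    intro k
    have h1 : a (σ k) = a k + t k • (u (σ k) - p) := by rw [← ht k]; abel
    simp only [hb]
    rw [h1]
    apply ext3 <;>
    · simp only [smul3, add3, sub3, cr3_0, cr3_1, cr3_2]
      ring
  have hyσ : ∀ k, y (σ k) = y k + ρ (σ k) • cr3 p (u (σ k)) := by
    intro k
    rw [← hy k]
    abel
  have hD : ∀ k, inner ℝ p (cr3 (y (σ k)) (b (σ k))) - inner ℝ p (cr3 (y k) (b k)) =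
      - (t k * inner ℝ p (u (σ k) - p)) -
        ρ (σ k) * (‖p‖ ^ 2 * inner ℝ (u (σ k)) (v (σ k)) -
          inner ℝ p (u (σ k)) * inner ℝ p q) := by
    intro k
    have h1 : inner ℝ p (cr3 (y (σ k)) (b (σ k))) - inner ℝ p (cr3 (y k) (b k)) =
        t k * inner ℝ p (cr3 (y k) (cr3 p (u (σ k)))) -
          ρ (σ k) * inner ℝ p (cr3 (b k) (cr3 p (u (σ k)))) := by
      rw [hyσ k, hbσ k]
      simp only [smul3, add3, inner3, cr3_0, cr3_1, cr3_2]
      ring
    have h2 : ∀ z w : E3, inner ℝ p (cr3 z (cr3 p w)) =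
        inner ℝ p p * inner ℝ z w - inner ℝ p w * inner ℝ z p := by
      intro z w
      simp only [inner3, cr3_0, cr3_1, cr3_2]
      ring
    have h3 : inner ℝ (b k) p = inner ℝ p q := by
      simp only [hb]
      rw [inner_sub_left, skew_cr3, sub_zero, real_inner_comm]
    have h4 : inner ℝ (b k) (u (σ k)) = inner ℝ (u (σ k)) (v (σ k)) := by
      have h5 : v (σ k) = b k + cr3 (a k) (u (σ k)) := by
        have h6 := ha2 k
        rw [cr3_sub_right] at h6
        have h7 : v (σ k) = q + (v (σ k) - q) := by abel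
        rw [h7, ← h6]
        simp only [hb]
        abel
      rw [h5, inner_add_right, real_inner_comm (cr3 (a k) (u (σ k))) (u (σ k)), skew_cr3,
        add_zero, real_inner_comm]
    rw [h1, h2, h2, hp k, hu' k, h3, h4, inner_sub_right, real_inner_self_eq_norm_sq]
    ring
  have hDsum : ∑ k, (inner ℝ p (cr3 (y (σ k)) (b (σ k))) - inner ℝ p (cr3 (y k) (b k))) =
      (0 : ℝ) := by
    rw [Finset.sum_sub_distrib, Equiv.sum_comp σ (fun k => (inner ℝ p (cr3 (y k) (b k)) : ℝ)),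
      sub_self]
  rw [Finset.sum_congr rfl (fun k _ => hD k), Finset.sum_sub_distrib, Finset.sum_neg_distrib,
    hsum, neg_zero, zero_sub, neg_eq_zero, Equiv.sum_comp σ (fun k => ρ k * (‖p‖ ^ 2 *
      inner ℝ (u k) (v k) - inner ℝ p (u k) * inner ℝ p q))] at hDsum
  exact hDsum

end

end Pool.Agent.FV
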