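import Pool.Agent.Lib.MP_e9c977_fv.FanExists

/-!
# Rows MX, EG: the maximum principle and the end of the rigidity proof in `ℝ³`
-/

namespace Pool.Agent.FV

open Module
open scoped Classical

noncomputable section

section aux

variable {E : Type} [NormedAddCommGroup E] [InnerProductSpace ℝ E]

private theorem closed_sdiff_aux {V R M : Finset E} (hV : ConvPos V) (hR : FaceSet V R)
    (hM : ∀ x ∈ M, x ∈ V ∧ x ∉ R) (h0 : M.Nonempty)
    (h : ∀ x ∈ M, ∀ w ∈ nbr V x, w ∉ R → w ∈ M) : ∀ x ∈ V, x ∉ R → x ∈ M := by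
  have h1 : M = V \ R := eq_of_closed_sdiff hV hR
    (fun x hx => Finset.mem_sdiff.2 (hM x hx)) h0 h
  intro x hx hxR
  rw [h1]
  exact Finset.mem_sdiff.2 ⟨hx, hxR⟩

private theorem nbr_mem_aux {V : Finset E} {x y : E} (hy : y ∈ nbr V x) : y ∈ V :=
  Finset.mem_of_mem_erase (nbr_subset hy)

end aux

/-- A base point: in the hull of the face `R0`, outside the planes of the other faces. -/
def IsBase (V R0 : Finset E3) (c : E3) : Prop :=
  c ∈ convexHull ℝ (R0 : Set E3) ∧ ∀ R ∈ faces V 2, R ≠ R0 → c ∉ affineSpan ℝ (R : Set E3)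

/-- Row MX: the centroid of `R0` is a base point. -/
theorem exists_base {V R0 : Finset E3} (hR : R0 ∈ faces V 2) : ∃ c, IsBase V R0 c := by
  obtain ⟨hF, hd⟩ := mem_faces.1 hR
  have hne : R0.Nonempty := hF.1
  have hcard : (0 : ℝ) < (R0.card : ℝ) := by
    exact_mod_cast Finset.card_pos.2 hne
  refine ⟨∑ x ∈ R0, (1 / (R0.card : ℝ)) • x, ?_, ?_⟩
  · have h := Finset.centerMass_mem_convexHull (R := ℝ) (t := R0) (w := fun _ => (1 : ℝ) / R0.card)
      (z := fun x => x) (s := (R0 : Set E3)) (fun i _ => by positivity)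
      (by simp only [Finset.sum_const, nsmul_eq_mul]; positivity)
      (fun i hi => by simpa using hi)
    have h2 : R0.centerMass (fun _ => (1 : ℝ) / R0.card) (fun x => x)
        = ∑ x ∈ R0, (1 / (R0.card : ℝ)) • x := by
      rw [Finset.centerMass_eq_of_sum_1]
      simp only [Finset.sum_const, nsmul_eq_mul]
      field_simp
    rw [h2] at h
    exact h
  · intro R hR' hne' hmem
    obtain ⟨hF', hd'⟩ := mem_faces.1 hR'
    have hw : ∀ x ∈ V, 0 ≤ (if x ∈ R0 then (1 : ℝ) / R0.card else 0) := by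
      intro x _
      split_ifs
      · positivity
      · exact le_rfl
    have hs1 : ∑ x ∈ V, (if x ∈ R0 then (1 : ℝ) / R0.card else 0) = 1 := by
      rw [← Finset.sum_filter, Finset.filter_mem_eq_inter, Finset.inter_eq_right.2 hF.2.1]
      simp only [Finset.sum_const, nsmul_eq_mul]
      field_simp
    have hs2 : ∑ x ∈ V, (if x ∈ R0 then (1 : ℝ) / R0.card else 0) • x
        = ∑ x ∈ R0, (1 / (R0.card : ℝ)) • x := by
      have : ∀ x ∈ V, (if x ∈ R0 then (1 : ℝ) / R0.card else 0) • x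
          = if x ∈ R0 then ((1 : ℝ) / R0.card) • x else 0 := by
        intro x _
        split_ifs
        · rfl
        · simp
      rw [Finset.sum_congr rfl this, ← Finset.sum_filter, Finset.filter_mem_eq_inter,
        Finset.inter_eq_right.2 hF.2.1]
    have hsub : R0 ⊆ R := by
      intro x hx
      refine FaceSet.mem_of_sum_mem hF' (w := fun x => if x ∈ R0 then (1 : ℝ) / R0.card else 0)
        hw hs1 ?_ (hF.2.1 hx) ?_
      · rw [hs2]
        exact hmem
      · simp only [hx, if_true]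
        positivity
    exact hne' (FaceSet.eq_of_adim hF hsub hF'.2.1 (by rw [hd, hd'])).symm

/-- Row MX: the maximum principle. -/
theorem radial_const {V : Finset E3} (hV : ConvPos V) (h3 : adim V = 3) {R0 : Finset E3}
    (hR : R0 ∈ faces V 2) {c : E3} (hc : IsBase V R0 c) {n : E3}
    (hn0 : ∀ x ∈ R0, inner ℝ n (x - c) = 0) (hn : ∀ x ∈ V, x ∉ R0 → 0 < inner ℝ n (x - c))
    {q : E3 → E3} (hq : ∀ R ∈ faces V 2, Braced q R)
    (hq0 : ∀ x ∈ R0, inner ℝ (q x) (x - c) = 0) :
    ∃ m : ℝ, ∀ x ∈ V, inner ℝ (q x) (x - c) = m * inner ℝ n (x - c) := by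
  obtain ⟨hF, hd⟩ := mem_faces.1 hR
  have hVR : (V \ R0).Nonempty := by
    rw [Finset.nonempty_iff_ne_empty, Ne, Finset.sdiff_eq_empty_iff_subset]
    intro hsub
    have := adim_mono hsub
    omega
  obtain ⟨p, hp, hpmax⟩ := Finset.exists_max_image (V \ R0)
    (fun x => inner ℝ (q x) (x - c) / inner ℝ n (x - c)) hVR
  set m : ℝ := inner ℝ (q p) (p - c) / inner ℝ n (p - c) with hm
  have hpn : 0 < inner ℝ n (p - c) := by
    rw [Finset.mem_sdiff] at hp
    exact hn p hp.1 hp.2
  -- the radial part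
  have hY : ∀ x ∈ V, inner ℝ (q x) (x - c) - m * inner ℝ n (x - c) ≤ 0 := by
    intro x hx
    by_cases hxR : x ∈ R0
    · rw [hq0 x hxR, hn0 x hxR]
      simp
    · have h1 := hpmax x (Finset.mem_sdiff.2 ⟨hx, hxR⟩)
      have h2 := hn x hx hxR
      rw [div_le_iff₀ h2] at h1
      linarith
  have hYp : inner ℝ (q p) (p - c) - m * inner ℝ n (p - c) = 0 := by
    rw [hm]
    field_simp
    ring
  set M : Finset E3 := (V \ R0).filter
    (fun x => inner ℝ (q x) (x - c) - m * inner ℝ n (x - c) = 0) with hMdef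
  have hM0 : M.Nonempty := ⟨p, Finset.mem_filter.2 ⟨hp, hYp⟩⟩
  have hcV : c ∈ convexHull ℝ (V : Set E3) :=
    convexHull_mono (by exact_mod_cast hF.2.1) hc.1
  have hclosed : ∀ x ∈ M, ∀ w ∈ nbr V x, w ∉ R0 → w ∈ M := by
    intro x hx w hw hwR
    obtain ⟨hx1, hx2⟩ := Finset.mem_filter.1 hx
    obtain ⟨hxV, hxR⟩ := Finset.mem_sdiff.1 hx1
    obtain ⟨ρ, hρ, hid⟩ := exists_weights hV h3 hxV hcV (fun R hR1 hxR1 =>
      hc.2 R hR1 (fun he => hxR (he ▸ hxR1)))
    have hbr : ∀ R ∈ faces V 2, Braced (fun y => q y - ((0 : E3 →ₗ[ℝ] E3) y + m • n)) R := by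
      intro R hR1
      exact (braced_sub_motion (A := (0 : E3 →ₗ[ℝ] E3)) (by intro z; simp) (m • n)).2 (hq R hR1)
    have h0 := hid _ hbr
    have hterm : ∀ y ∈ nbr V x,
        ρ y * (‖x - c‖ ^ 2 * inner ℝ (y - c) (q y - ((0 : E3 →ₗ[ℝ] E3) y + m • n))
          - inner ℝ (x - c) (y - c) * inner ℝ (x - c) (q x - ((0 : E3 →ₗ[ℝ] E3) x + m • n)))
        = ρ y * (‖x - c‖ ^ 2 * (inner ℝ (q y) (y - c) - m * inner ℝ n (y - c))) := by
      intro y _
      have e1 : inner ℝ (x - c) (q x - ((0 : E3 →ₗ[ℝ] E3) x + m • n)) = 0 := by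
        rw [LinearMap.zero_apply, zero_add, inner_sub_right, inner_smul_right,
          real_inner_comm (q x), real_inner_comm n]
        exact hx2
      have e2 : inner ℝ (y - c) (q y - ((0 : E3 →ₗ[ℝ] E3) y + m • n))
          = inner ℝ (q y) (y - c) - m * inner ℝ n (y - c) := by
        rw [LinearMap.zero_apply, zero_add, inner_sub_right, inner_smul_right,
          real_inner_comm (q y), real_inner_comm n]
      rw [e1, e2]
      ring
    rw [Finset.sum_congr rfl hterm] at h0
    have hxc : 0 < ‖x - c‖ ^ 2 := by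
      have : x - c ≠ 0 := by
        intro h
        have := hn x hxV hxR
        rw [h] at this
        simp at this
      have := norm_pos_iff.2 this
      positivity
    have hle : ∀ y ∈ nbr V x, ρ y * (‖x - c‖ ^ 2 *
        (inner ℝ (q y) (y - c) - m * inner ℝ n (y - c))) ≤ 0 := by
      intro y hy
      have hyV : y ∈ V := nbr_mem_aux hy
      have := hY y hyV
      have h5 := (hρ y hy).le
      exact mul_nonpos_of_nonneg_of_nonpos h5 (mul_nonpos_of_nonneg_of_nonpos hxc.le this)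
    have hz := (Finset.sum_eq_zero_iff_of_nonpos hle).1 h0 w hw
    have hwV : w ∈ V := nbr_mem_aux hw
    have hYw : inner ℝ (q w) (w - c) - m * inner ℝ n (w - c) = 0 := by
      rcases mul_eq_zero.1 hz with h | h
      · exact absurd h (hρ w hw).ne'
      · rcases mul_eq_zero.1 h with h | h
        · exact absurd h hxc.ne'
        · exact h
    exact Finset.mem_filter.2 ⟨Finset.mem_sdiff.2 ⟨hwV, hwR⟩, hYw⟩
  have hMeq := closed_sdiff_aux hV hF (M := M)
    (fun x hx => Finset.mem_sdiff.1 (Finset.mem_filter.1 hx).1) hM0 hclosed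
  refine ⟨m, fun x hx => ?_⟩
  by_cases hxR : x ∈ R0
  · rw [hq0 x hxR, hn0 x hxR]
    simp
  · have : x ∈ M := hMeq x hx hxR
    have := (Finset.mem_filter.1 this).2
    linarith

end

end Pool.Agent.FV
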