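import Pool.Agent.Lib.MP_e9c977_fv.Four
import Pool.Agent.Lib.MP_e9c977_fv.Fan

/-!
# Row MO: counting motions
-/

namespace Pool.Agent.FV

open Module
open scoped Classical

noncomputable section

variable {E : Type} [NormedAddCommGroup E] [InnerProductSpace ℝ E]

/-- The bars at the 2-face `R`: the pairs `{a, x}`. -/
def fanBars (a : E) (R : Finset E) : Finset (Finset E) :=
  (R.erase a).image (fun x => {a, x})

/-- The bars: all edges, and in every 2-face all pairs containing its apex `a R`. -/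
def bars (V : Finset E) (a : Finset E → E) : Finset (Finset E) :=
  faces V 1 ∪ (faces V 2).biUnion (fun R => fanBars (a R) R)

/-- `q` preserves (to first order) the length of the bar `B`. -/
theorem braced_pair_iff {q : E → E} {x y : E} :
    Braced q {x, y} ↔ inner ℝ (x - y) (q x - q y) = 0 := by
  constructor
  · intro h
    exact h x (by simp) y (by simp)
  · intro h u hu v hv
    have h' : inner ℝ (y - x) (q y - q x) = 0 := by
      rw [← neg_sub x y, ← neg_sub (q x) (q y), inner_neg_neg]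
      exact h
    simp only [Finset.mem_insert, Finset.mem_singleton] at hu hv
    rcases hu with rfl | rfl <;> rcases hv with rfl | rfl
    · simp
    · exact h
    · exact h'
    · simp

/-- If all bars are preserved, everything is. -/
theorem braced_of_bars [FiniteDimensional ℝ E] (hE : finrank ℝ E = 4) {V : Finset E}
    (hV : ConvPos V) (h4 : adim V = 4) {a : Finset E → E} (ha : ∀ R ∈ faces V 2, a R ∈ R)
    {q : E → E} (hq : ∀ B ∈ bars V a, Braced q B) : Braced q V := by
  refine braced_four hE hV h4 fun R hR => ?_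
  have hRf := mem_faces.mp hR
  have hRV : R ⊆ V := hRf.1.2.1
  refine braced_fan (hV.mono hRV) hRf.2 (ha R hR) ?_ ?_
  · intro x hx
    by_cases hxa : x = a R
    · rw [hxa]
      simp
    · have h1 : ({a R, x} : Finset E) ∈ bars V a := by
        refine Finset.mem_union_right _ (Finset.mem_biUnion.mpr ⟨R, hR, ?_⟩)
        exact Finset.mem_image.mpr ⟨x, Finset.mem_erase.mpr ⟨hxa, hx⟩, rfl⟩
      exact hq _ h1 x (by simp) (a R) (by simp)
  · intro x hx y hy
    have hy' := mem_nbr.mp hy
    have h1 : ({x, y} : Finset E) ∈ bars V a := by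
      refine Finset.mem_union_left _ ?_
      have h2 : ({x, y} : Finset E) ∈ faces R 1 :=
        mem_faces.mpr ⟨hy'.2, adim_pair (Ne.symm hy'.1)⟩
      rw [faces_face hRf.1] at h2
      exact (Finset.mem_filter.mp h2).1
    exact hq _ h1 x (by simp) y (by simp)

namespace MOAux

/-- The space of skew maps. -/
def skewSub (E : Type) [NormedAddCommGroup E] [InnerProductSpace ℝ E] :
    Submodule ℝ (E →ₗ[ℝ] E) where
  carrier := {A | Skew A}
  add_mem' := by
    intro A B hA hB z
    rw [LinearMap.add_apply, inner_add_left, hA z, hB z, add_zero]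
  zero_mem' := by
    intro z
    rw [LinearMap.zero_apply, inner_zero_left]
  smul_mem' := by
    intro c A hA z
    rw [LinearMap.smul_apply, inner_smul_left, hA z, mul_zero]

theorem mem_skewSub {A : E →ₗ[ℝ] E} : A ∈ skewSub E ↔ Skew A := Iff.rfl

theorem finrank_skew [FiniteDimensional ℝ E] (hE : finrank ℝ E = 4) :
    finrank ℝ (skewSub E) = 6 := by
  let b : OrthonormalBasis (Fin 4) ℝ E := (stdOrthonormalBasis ℝ E).reindex (finCongr hE)
  let ι := {p : Fin 4 × Fin 4 // p.1 < p.2}
  let Λ : skewSub E →ₗ[ℝ] (ι → ℝ) :=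
    { toFun := fun A p => inner ℝ (A.1 (b p.1.1)) (b p.1.2)
      map_add' := fun A B => by
        funext p
        simp [inner_add_left]
      map_smul' := fun c A => by
        funext p
        simp [inner_smul_left] }
  have hΛ : ∀ (A : skewSub E) (p : ι), Λ A p = inner ℝ (A.1 (b p.1.1)) (b p.1.2) := fun _ _ => rfl
  have hb : ∀ i j, inner ℝ (b i) (b j) = if i = j then (1 : ℝ) else 0 :=
    fun i j => orthonormal_iff_ite.mp b.orthonormal i j
  have hinj : Function.Injective Λ := by
    rw [← LinearMap.ker_eq_bot, LinearMap.ker_eq_bot']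
    intro A hA
    have h1 : ∀ i j, i < j → inner ℝ (A.1 (b i)) (b j) = 0 := by
      intro i j hij
      have := congrFun hA ⟨(i, j), hij⟩
      exact this
    have h2 : ∀ i j, inner ℝ (A.1 (b i)) (b j) = 0 := by
      intro i j
      rcases lt_trichotomy i j with h | h | h
      · exact h1 i j h
      · rw [h]; exact A.2 _
      · rw [Skew.inner_left A.2, h1 j i h, neg_zero]
    refine Subtype.ext (b.toBasis.ext fun i => ?_)
    rw [OrthonormalBasis.coe_toBasis]
    refine ext_inner_right ℝ fun v => ?_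
    rw [← b.sum_repr v, inner_sum, inner_sum]
    refine Finset.sum_congr rfl fun j _ => ?_
    rw [inner_smul_right, h2 i j]
    simp
  have hsurj : Function.Surjective Λ := by
    intro c
    let A : E →ₗ[ℝ] E := ∑ p : ι, c p • ((innerₛₗ ℝ (b p.1.1)).smulRight (b p.1.2) -
      (innerₛₗ ℝ (b p.1.2)).smulRight (b p.1.1))
    have hA : ∀ x, A x = ∑ p : ι, c p • (inner ℝ (b p.1.1) x • b p.1.2 -
        inner ℝ (b p.1.2) x • b p.1.1) := fun x => by
      simp [A, LinearMap.sum_apply]
    have hsk : Skew A := by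
      intro z
      rw [hA, sum_inner]
      refine Finset.sum_eq_zero fun p _ => ?_
      rw [inner_smul_left, inner_sub_left, inner_smul_left, inner_smul_left]
      simp only [conj_trivial]
      ring
    refine ⟨⟨A, hsk⟩, ?_⟩
    funext p
    rw [hΛ]
    change inner ℝ (A (b p.1.1)) (b p.1.2) = c p
    rw [hA, sum_inner, Finset.sum_eq_single p]
    · rw [inner_smul_left, inner_sub_left, inner_smul_left, inner_smul_left, hb, hb, hb, hb,
        if_pos rfl, if_pos rfl, if_neg (ne_of_gt p.2), if_neg (ne_of_lt p.2)]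
      simp
    · intro r _ hr
      rw [inner_smul_left, inner_sub_left, inner_smul_left, inner_smul_left, hb, hb, hb, hb]
      have h1 : ¬ (r.1.1 = p.1.1 ∧ r.1.2 = p.1.2) := fun h =>
        hr (Subtype.ext (Prod.ext h.1 h.2))
      have h2 : ¬ (r.1.2 = p.1.1 ∧ r.1.1 = p.1.2) := fun h => by
        have h3 := p.2
        have h4 := r.2
        rw [← h.1, ← h.2] at h3
        exact lt_asymm h3 h4
      simp only [conj_trivial, mul_ite, mul_one, mul_zero]
      by_cases e1 : r.1.1 = p.1.1 <;> by_cases e2 : r.1.2 = p.1.2 <;>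
        by_cases e3 : r.1.2 = p.1.1 <;> by_cases e4 : r.1.1 = p.1.2 <;>
        simp_all
    · intro h
      exact absurd (Finset.mem_univ p) h
  have h1 := (LinearEquiv.ofBijective Λ ⟨hinj, hsurj⟩).finrank_eq
  rw [h1, Module.finrank_fintype_fun_eq_card]
  decide

theorem nonempty_of_adim {S : Finset E} {k : ℕ} (h : k + 1 ≤ adim S) : S.Nonempty := by
  by_contra hne
  rw [Finset.not_nonempty_iff_eq_empty] at hne
  rw [hne, adim, Finset.coe_empty, vectorSpan_empty, finrank_bot] at h
  omega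

/-- Extension by zero. -/
def ext0 (X : Finset E) : (X → E) →ₗ[ℝ] (E → E) where
  toFun q x := if h : x ∈ X then q ⟨x, h⟩ else 0
  map_add' p q := by
    funext x
    by_cases h : x ∈ X
    · simp [h]
    · simp [h]
  map_smul' c q := by
    funext x
    by_cases h : x ∈ X
    · simp [h]
    · simp [h]

theorem ext0_apply {X : Finset E} (q : X → E) {x : E} (h : x ∈ X) : ext0 X q x = q ⟨x, h⟩ := by
  simp [ext0, h]

/-- The stretching of the bar `B`. -/
def ell (B : Finset E) : (E → E) →ₗ[ℝ] ℝ where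
  toFun q := ∑ x ∈ B, ∑ y ∈ B, inner ℝ (x - y) (q x - q y)
  map_add' p q := by
    simp only [← Finset.sum_add_distrib]
    refine Finset.sum_congr rfl fun x _ => Finset.sum_congr rfl fun y _ => ?_
    rw [← inner_add_right, Pi.add_apply, Pi.add_apply]
    congr 1
    abel
  map_smul' c q := by
    simp only [RingHom.id_apply, smul_eq_mul, Finset.mul_sum]
    refine Finset.sum_congr rfl fun x _ => Finset.sum_congr rfl fun y _ => ?_
    rw [← inner_smul_right, Pi.smul_apply, Pi.smul_apply, smul_sub]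

theorem ell_apply (B : Finset E) (q : E → E) :
    ell B q = ∑ x ∈ B, ∑ y ∈ B, inner ℝ (x - y) (q x - q y) := rfl

theorem ell_braced {B : Finset E} {q : E → E} (h : Braced q B) : ell B q = 0 :=
  Finset.sum_eq_zero fun x hx => Finset.sum_eq_zero fun y hy => h x hx y hy

theorem ell_pair {x y : E} (hxy : x ≠ y) (q : E → E) :
    ell {x, y} q = 2 * inner ℝ (x - y) (q x - q y) := by
  rw [ell_apply, Finset.sum_pair hxy, Finset.sum_pair hxy, Finset.sum_pair hxy]
  have h' : inner ℝ (y - x) (q y - q x) = inner ℝ (x - y) (q x - q y) := by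
    rw [← neg_sub x y, ← neg_sub (q x) (q y), inner_neg_neg]
  rw [h']
  simp only [sub_self, inner_zero_left]
  ring

theorem ell_congr {B : Finset E} {p q : E → E} (h : ∀ x ∈ B, p x = q x) : ell B p = ell B q := by
  rw [ell_apply, ell_apply]
  refine Finset.sum_congr rfl fun x hx => Finset.sum_congr rfl fun y hy => ?_
  rw [h x hx, h y hy]

theorem bar_pair {V : Finset E} (hV : ConvPos V) {a : Finset E → E} {B : Finset E}
    (ha : ∀ R ∈ faces V 2, a R ∈ R) (hB : B ∈ bars V a) :
    ∃ x y, x ≠ y ∧ B = {x, y} ∧ x ∈ V ∧ y ∈ V := by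
  rcases Finset.mem_union.mp hB with h | h
  · obtain ⟨x, y, hxy, rfl, hf⟩ := (mem_faces_one hV).mp h
    exact ⟨x, y, hxy, rfl, hf.2.1 (by simp), hf.2.1 (by simp)⟩
  · obtain ⟨R, hR, h1⟩ := Finset.mem_biUnion.mp h
    obtain ⟨x, hx, rfl⟩ := Finset.mem_image.mp h1
    have hRV := (mem_faces.mp hR).1.2.1
    have hx' := Finset.mem_erase.mp hx
    exact ⟨a R, x, Ne.symm hx'.1, rfl, hRV (ha R hR), hRV hx'.2⟩

/-- The rigidity map. -/
def rig (X : Finset E) (ℬ : Finset (Finset E)) : (X → E) →ₗ[ℝ] (ℬ → ℝ) :=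
  LinearMap.pi fun B => (ell B.1).comp (ext0 X)

theorem rig_apply (X : Finset E) (ℬ : Finset (Finset E)) (q : X → E) (B : ℬ) :
    rig X ℬ q B = ell B.1 (ext0 X q) := rfl

/-- The rigid motions. -/
def mot (X : Finset E) : (E × skewSub E) →ₗ[ℝ] (X → E) where
  toFun p x := p.2.1 x.1 + p.1
  map_add' p q := by
    funext x
    simp only [Prod.fst_add, Prod.snd_add, Submodule.coe_add, LinearMap.add_apply, Pi.add_apply]
    abel
  map_smul' c p := by
    funext x
    simp only [Prod.smul_fst, Prod.smul_snd, Submodule.coe_smul, LinearMap.smul_apply,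
      Pi.smul_apply, RingHom.id_apply, smul_add]

theorem finrank_motions [FiniteDimensional ℝ E] (hE : finrank ℝ E = 4) :
    finrank ℝ (E × skewSub E) = 10 := by
  rw [Module.finrank_prod, hE, finrank_skew hE]

theorem finrank_fields [FiniteDimensional ℝ E] (hE : finrank ℝ E = 4) (X : Finset E) :
    finrank ℝ (X → E) = 4 * X.card := by
  rw [Module.finrank_pi_fintype]
  simp [hE, mul_comm]

theorem ker_rig_le [FiniteDimensional ℝ E] (hE : finrank ℝ E = 4) {V : Finset E}
    (hV : ConvPos V) (h4 : adim V = 4) {a : Finset E → E} (ha : ∀ R ∈ faces V 2, a R ∈ R) :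
    LinearMap.ker (rig V (bars V a)) ≤ LinearMap.range (mot V) := by
  intro q hq
  rw [LinearMap.mem_ker] at hq
  have h1 : Braced (ext0 V q) V := by
    refine braced_of_bars hE hV h4 ha fun B hB => ?_
    obtain ⟨x, y, hxy, rfl, -, -⟩ := bar_pair hV ha hB
    rw [braced_pair_iff]
    have h2 := congrFun hq ⟨_, hB⟩
    rw [rig_apply] at h2
    have h3 : ell {x, y} (ext0 V q) = 0 := h2
    rw [ell_pair hxy] at h3
    linarith
  obtain ⟨A, hA, hAq⟩ := exists_motion h1
  have hVn : V.Nonempty := nonempty_of_adim (k := 3) (by omega)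
  obtain ⟨x0, hx0⟩ := hVn
  have htop : vectorSpan ℝ (V : Set E) = ⊤ := vectorSpan_eq_top (by rw [h4, hE])
  refine ⟨(q ⟨x0, hx0⟩ - A x0, ⟨A, hA⟩), ?_⟩
  funext x
  change A x.1 + (q ⟨x0, hx0⟩ - A x0) = q x
  have h2 := hAq x.1 x.2 x0 hx0
  rw [ext0_apply q x.2, ext0_apply q hx0, htop] at h2
  have h3 := h2 _ (Submodule.mem_top (x := q ⟨x.1, x.2⟩ - q ⟨x0, hx0⟩ - A (x.1 - x0)))
  rw [inner_self_eq_zero, map_sub, sub_eq_zero] at h3
  have h4 : q x = q ⟨x.1, x.2⟩ := rfl
  rw [h4, ← sub_eq_zero]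
  rw [← sub_eq_zero] at h3
  rw [← neg_eq_zero, ← h3]
  abel

theorem finrank_ker_le [FiniteDimensional ℝ E] (hE : finrank ℝ E = 4) {V : Finset E}
    (hV : ConvPos V) (h4 : adim V = 4) {a : Finset E → E} (ha : ∀ R ∈ faces V 2, a R ∈ R) :
    finrank ℝ (LinearMap.ker (rig V (bars V a))) ≤ 10 := by
  rw [← finrank_motions hE]
  exact (Submodule.finrank_mono (ker_rig_le hE hV h4 ha)).trans (LinearMap.finrank_range_le _)

end MOAux

open MOAux in
/-- The first inequality (Kalai): `4 f₀ - 10 ≤` number of bars. -/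
theorem four_mul_card_le [FiniteDimensional ℝ E] (hE : finrank ℝ E = 4) {V : Finset E}
    (hV : ConvPos V) (h4 : adim V = 4) {a : Finset E → E} (ha : ∀ R ∈ faces V 2, a R ∈ R) :
    4 * V.card ≤ (bars V a).card + 10 := by
  have h1 := LinearMap.finrank_range_add_finrank_ker (rig V (bars V a))
  rw [finrank_fields hE] at h1
  have h2 := finrank_ker_le hE hV h4 ha
  have h3 := Submodule.finrank_le (LinearMap.range (rig V (bars V a)))
  rw [Module.finrank_fintype_fun_eq_card, Fintype.card_coe] at h3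
  omega

namespace MOAux

theorem skew_eq_zero [FiniteDimensional ℝ E] (hE : finrank ℝ E = 4) {A : E →ₗ[ℝ] E}
    (hA : Skew A) {W : Submodule ℝ E} (hW : 3 ≤ finrank ℝ W) (h : ∀ w ∈ W, A w = 0) : A = 0 := by
  have h1 := Submodule.finrank_add_finrank_orthogonal W
  rw [hE] at h1
  have h2 : ∀ n ∈ Wᗮ, A n = 0 := by
    intro n hn
    have h3 : A n ∈ Wᗮ := by
      rw [Submodule.mem_orthogonal]
      intro w hw
      rw [real_inner_comm, Skew.inner_left hA, h w hw, inner_zero_left, neg_zero]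
    by_cases hn0 : n = 0
    · rw [hn0, map_zero]
    have h4 : finrank ℝ Wᗮ = 1 := by
      have h5 : 0 < finrank ℝ Wᗮ := by
        rw [Module.finrank_pos_iff_exists_ne_zero]
        exact ⟨⟨n, hn⟩, fun hh => hn0 (congrArg Subtype.val hh)⟩
      omega
    obtain ⟨c, hc⟩ := (finrank_eq_one_iff_of_nonzero' (⟨n, hn⟩ : Wᗮ)
      (fun hh => hn0 (congrArg Subtype.val hh))).mp h4 ⟨A n, h3⟩
    have h5 : c • n = A n := congrArg Subtype.val hc
    have h6 := hA n
    rw [← h5, inner_smul_left] at h6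
    rcases mul_eq_zero.mp h6 with h7 | h7
    · have : c = 0 := by simpa using h7
      rw [← h5, this, zero_smul]
    · exact absurd (inner_self_eq_zero.mp h7) hn0
  ext x
  obtain ⟨y, hy, z, hz, rfl⟩ := Submodule.exists_add_mem_mem_orthogonal (K := W) x
  rw [map_add, h y hy, h2 z hz, add_zero, LinearMap.zero_apply]

/-- The motions and the free directions. -/
def mot2 (X D : Finset E) (n : E → E) : ((E × skewSub E) × (D → ℝ)) →ₗ[ℝ] (X → E) where
  toFun p x := mot X p.1 x + if h : x.1 ∈ D then p.2 ⟨x.1, h⟩ • n x.1 else 0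
  map_add' p q := by
    funext x
    by_cases h : x.1 ∈ D
    · simp only [h, Prod.fst_add, Prod.snd_add, map_add, Pi.add_apply, dite_true, add_smul]
      abel
    · simp only [h, Prod.fst_add, map_add, Pi.add_apply, dite_false, add_zero]
  map_smul' c p := by
    funext x
    by_cases h : x.1 ∈ D
    · simp only [h, Prod.smul_fst, Prod.smul_snd, map_smul, Pi.smul_apply, dite_true,
        RingHom.id_apply, smul_add, smul_assoc]
    · simp only [h, Prod.smul_fst, map_smul, Pi.smul_apply, dite_false, add_zero,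
        RingHom.id_apply]

theorem mot2_injective [FiniteDimensional ℝ E] (hE : finrank ℝ E = 4) {X D : Finset E}
    {n : E → E} (hD : D ⊆ X) (h3 : 3 ≤ adim (X \ D)) (hn : ∀ d ∈ D, n d ≠ 0) :
    Function.Injective (mot2 X D n) := by
  rw [← LinearMap.ker_eq_bot, LinearMap.ker_eq_bot']
  rintro ⟨⟨b, A⟩, t⟩ hp
  have h1 : ∀ x (hx : x ∈ X), A.1 x + b + (if h : x ∈ D then t ⟨x, h⟩ • n x else 0) = 0 :=
    fun x hx => congrFun hp ⟨x, hx⟩
  have h2 : ∀ x ∈ X \ D, A.1 x + b = 0 := by
    intro x hx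
    have h3 := Finset.mem_sdiff.mp hx
    have h4 := h1 x h3.1
    rwa [dif_neg h3.2, add_zero] at h4
  have hA : A.1 = 0 := by
    refine skew_eq_zero hE A.2 (W := vectorSpan ℝ ((X \ D : Finset E) : Set E)) h3 ?_
    intro w hw
    have h4 : vectorSpan ℝ ((X \ D : Finset E) : Set E) ≤ LinearMap.ker A.1 := by
      rw [vectorSpan_def, Submodule.span_le]
      rintro _ ⟨x, hx, y, hy, rfl⟩
      change A.1 (x - y) = 0
      rw [map_sub]
      have h5 := h2 x hx
      have h6 := h2 y hy
      rw [← add_sub_add_right_eq_sub (A.1 x) (A.1 y) b, h5, h6, sub_self]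
    exact h4 hw
  have hne : (X \ D).Nonempty := nonempty_of_adim (k := 2) h3
  obtain ⟨x, hx⟩ := hne
  have hb : b = 0 := by
    have := h2 x hx
    rwa [hA, LinearMap.zero_apply, zero_add] at this
  have ht : t = 0 := by
    funext d
    have h4 := h1 d.1 (hD d.2)
    rw [hA, hb, LinearMap.zero_apply, zero_add, zero_add, dif_pos d.2] at h4
    exact (smul_eq_zero.mp h4).resolve_right (hn d.1 d.2)
  rw [Prod.mk_eq_zero, Prod.mk_eq_zero]
  exact ⟨⟨hb, Subtype.ext hA⟩, ht⟩

theorem mot2_mem_ker {X D : Finset E} {n : E → E} {ℬ : Finset (Finset E)}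
    (hℬX : ∀ B ∈ ℬ, B ⊆ X)
    (hn : ∀ d ∈ D, ∀ B ∈ ℬ, d ∈ B → ∀ x ∈ B, inner ℝ (n d) (x - d) = 0)
    (p : (E × skewSub E) × (D → ℝ)) : rig X ℬ (mot2 X D n p) = 0 := by
  funext B
  rw [rig_apply, Pi.zero_apply, ell_apply]
  have h0 : ∀ x ∈ B.1, ext0 X (mot2 X D n p) x = p.1.2.1 x + p.1.1 +
      (if h : x ∈ D then p.2 ⟨x, h⟩ • n x else 0) := fun x hx =>
    ext0_apply _ (hℬX B.1 B.2 hx)
  refine Finset.sum_eq_zero fun x hx => Finset.sum_eq_zero fun y hy => ?_
  rw [h0 x hx, h0 y hy]
  have e1 : p.1.2.1 x + p.1.1 + (if h : x ∈ D then p.2 ⟨x, h⟩ • n x else 0) -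
      (p.1.2.1 y + p.1.1 + (if h : y ∈ D then p.2 ⟨y, h⟩ • n y else 0)) =
      p.1.2.1 (x - y) + (if h : x ∈ D then p.2 ⟨x, h⟩ • n x else 0) -
        (if h : y ∈ D then p.2 ⟨y, h⟩ • n y else 0) := by
    rw [map_sub]
    abel
  rw [e1, inner_sub_right, inner_add_right]
  have e2 : inner ℝ (x - y) (p.1.2.1 (x - y)) = 0 := by
    rw [real_inner_comm]
    exact p.1.2.2 _
  have e3 : inner ℝ (x - y) (if h : x ∈ D then p.2 ⟨x, h⟩ • n x else 0) = 0 := by
    by_cases h : x ∈ D
    · rw [dif_pos h, inner_smul_right, ← neg_sub y x, inner_neg_left, real_inner_comm,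
        hn x h B.1 B.2 hx y hy, neg_zero, mul_zero]
    · rw [dif_neg h, inner_zero_right]
  have e4 : inner ℝ (x - y) (if h : y ∈ D then p.2 ⟨y, h⟩ • n y else 0) = 0 := by
    by_cases h : y ∈ D
    · rw [dif_pos h, inner_smul_right, real_inner_comm, hn y h B.1 B.2 hy x hx, mul_zero]
    · rw [dif_neg h, inner_zero_right]
  rw [e2, e3, e4]
  ring

end MOAux

open MOAux in
/-- The count in a stress free configuration: a set `X` of vertices, a set `ℬ` of bars in `X`, a
set `D` of vertices of `X` each of which may be moved freely in one direction. -/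
theorem count_stressfree [FiniteDimensional ℝ E] (hE : finrank ℝ E = 4) {V : Finset E}
    (hV : ConvPos V) (h4 : adim V = 4) {a : Finset E → E} (ha : ∀ R ∈ faces V 2, a R ∈ R)
    (htight : 4 * V.card = (bars V a).card + 10) {X : Finset E} (hX : X ⊆ V)
    {ℬ : Finset (Finset E)} (hℬ : ℬ ⊆ bars V a) (hℬX : ∀ B ∈ ℬ, B ⊆ X) {D : Finset E}
    (hD : D ⊆ X) (h3 : 3 ≤ adim (X \ D))
    (hn : ∀ d ∈ D, ∃ n : E, n ≠ 0 ∧ ∀ B ∈ ℬ, d ∈ B → ∀ x ∈ B, inner ℝ n (x - d) = 0) :
    ℬ.card + D.card + 10 ≤ 4 * X.card := by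
  -- the rigidity map of `V` is onto
  have h5 := LinearMap.finrank_range_add_finrank_ker (rig V (bars V a))
  rw [finrank_fields hE] at h5
  have h6 := finrank_ker_le hE hV h4 ha
  have h7 : finrank ℝ (bars V a → ℝ) = (bars V a).card := by
    rw [Module.finrank_fintype_fun_eq_card, Fintype.card_coe]
  have hsurj : LinearMap.range (rig V (bars V a)) = ⊤ := by
    apply Submodule.eq_top_of_finrank_eq
    have h8 := Submodule.finrank_le (LinearMap.range (rig V (bars V a)))
    omega
  -- so is the rigidity map of `X`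
  have hsurjX : LinearMap.range (rig X ℬ) = ⊤ := by
    rw [LinearMap.range_eq_top] at hsurj ⊢
    intro t
    obtain ⟨q, hq⟩ := hsurj fun B => if h : B.1 ∈ ℬ then t ⟨B.1, h⟩ else 0
    refine ⟨fun x => q ⟨x.1, hX x.2⟩, ?_⟩
    funext B
    have h8 := congrFun hq ⟨B.1, hℬ B.2⟩
    rw [rig_apply] at h8 ⊢
    simp only [B.2, dite_true] at h8
    rw [← h8]
    refine ell_congr fun x hx => ?_
    rw [ext0_apply _ (hℬX B.1 B.2 hx), ext0_apply _ (hX (hℬX B.1 B.2 hx))]
  have h8 := LinearMap.finrank_range_add_finrank_ker (rig X ℬ)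
  rw [finrank_fields hE, hsurjX, finrank_top, Module.finrank_fintype_fun_eq_card,
    Fintype.card_coe] at h8
  -- the kernel
  let n : E → E := fun d => if h : d ∈ D then (hn d h).choose else 0
  have hn' : ∀ d (h : d ∈ D), n d = (hn d h).choose := fun d h => dif_pos h
  have h9 : LinearMap.range (mot2 X D n) ≤ LinearMap.ker (rig X ℬ) := by
    rintro _ ⟨p, rfl⟩
    rw [LinearMap.mem_ker]
    refine mot2_mem_ker hℬX (fun d hd B hB hdB x hx => ?_) p
    rw [hn' d hd]
    exact (hn d hd).choose_spec.2 B hB hdB x hx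
  have h10 := Submodule.finrank_mono h9
  rw [LinearMap.finrank_range_of_inj (mot2_injective hE hD h3 fun d hd => by
    rw [hn' d hd]
    exact (hn d hd).choose_spec.1), Module.finrank_prod, finrank_motions hE,
    Module.finrank_fintype_fun_eq_card, Fintype.card_coe] at h10
  omega

end

end Pool.Agent.FV
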