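import Pool.Agent.Lib.MP_e9c977_fv.Euler5
import Pool.Agent.Lib.MP_e9c977_fv.DPrime

/-!
# Row V2: two-neighbourly configurations
-/

namespace Pool.Agent.FV

open Module
open scoped Classical

variable {E : Type} [NormedAddCommGroup E] [InnerProductSpace ℝ E]

/-- Any two vertices are adjacent. -/
def Nbly (V : Finset E) : Prop := ∀ x ∈ V, ∀ y ∈ V, x ≠ y → FaceSet V {x, y}

theorem faces_one_subset_powersetCard {V : Finset E} (hV : ConvPos V) :
    faces V 1 ⊆ Finset.powersetCard 2 V := by
  intro S hS
  obtain ⟨x, y, hxy, rfl, hf⟩ := (mem_faces_one hV).1 hS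
  exact Finset.mem_powersetCard.2 ⟨hf.2.1, Finset.card_pair hxy⟩

theorem two_mul_choose_two_add (n : ℕ) : 2 * n.choose 2 + n = n ^ 2 := by
  induction n with
  | zero => simp
  | succ k ih =>
    have h : (k + 1).choose 2 = k + k.choose 2 := by
      rw [Nat.choose_succ_succ' k 1, Nat.choose_one_right]
    rw [h]
    nlinarith [ih]

theorem nbly_iff_card {V : Finset E} (hV : ConvPos V) :
    Nbly V ↔ 2 * (faces V 1).card + V.card = V.card ^ 2 := by
  have hc : (Finset.powersetCard 2 V).card = V.card.choose 2 := Finset.card_powersetCard 2 V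
  have h2 := two_mul_choose_two_add V.card
  constructor
  · intro h
    have : faces V 1 = Finset.powersetCard 2 V := by
      apply Finset.Subset.antisymm (faces_one_subset_powersetCard hV)
      intro S hS
      obtain ⟨hSV, hS2⟩ := Finset.mem_powersetCard.1 hS
      obtain ⟨x, y, hxy, rfl⟩ := Finset.card_eq_two.1 hS2
      exact (mem_faces_one hV).2 ⟨x, y, hxy, rfl, h x (hSV (by simp)) y (hSV (by simp)) hxy⟩
    rw [this, hc]
    exact h2
  · intro h x hx y hy hxy
    have hcard : (faces V 1).card = (Finset.powersetCard 2 V).card := by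
      rw [hc]; omega
    have heq : faces V 1 = Finset.powersetCard 2 V :=
      Finset.eq_of_subset_of_card_le (faces_one_subset_powersetCard hV) hcard.ge
    have hm : ({x, y} : Finset E) ∈ faces V 1 := by
      rw [heq]
      refine Finset.mem_powersetCard.2 ⟨?_, Finset.card_pair hxy⟩
      intro z hz
      rcases Finset.mem_insert.1 hz with rfl | hz
      · exact hx
      · rw [Finset.mem_singleton.1 hz]; exact hy
    exact (mem_faces.1 hm).1

theorem Nbly.face {V F : Finset E} (h : Nbly V) (hF : FaceSet V F) : Nbly F := by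
  intro x hx y hy hxy
  refine (h x (hF.2.1 hx) y (hF.2.1 hy) hxy).of_subset hF.2.1 ?_
  intro z hz
  rcases Finset.mem_insert.1 hz with rfl | hz
  · exact hx
  · rw [Finset.mem_singleton.1 hz]; exact hy

theorem Nbly.card_two {R : Finset E} (hR : ConvPos R) (h2 : adim R = 2) (hN : Nbly R) :
    R.card = 3 := by
  have h3 := three_le_card_polygon hR h2
  obtain ⟨u, hu⟩ : R.Nonempty := Finset.card_pos.1 (by omega)
  have hn := card_nbr_polygon hR h2 hu
  have he : nbr R u = R.erase u := by
    apply Finset.Subset.antisymm nbr_subset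
    intro w hw
    obtain ⟨hwu, hwR⟩ := Finset.mem_erase.1 hw
    exact mem_nbr.2 ⟨hwu, hN u hu w hwR (Ne.symm hwu)⟩
  rw [he, Finset.card_erase_of_mem hu] at hn
  omega

theorem faceSet_convPos {V F : Finset E} (hV : ConvPos V) (hF : FaceSet V F) : ConvPos F :=
  hV.mono hF.2.1

/-- The numbers of a tetrahedron. -/
theorem Nbly.three_aux {G : Finset E} (hG : ConvPos G) (h3 : adim G = 3) (hN : Nbly G)
    (hne : G.Nonempty) : G.card = 4 ∧ (faces G 2).card = 4 := by
  have h1 := (nbly_iff_card hG).1 hN
  have hsum := sum_card_two_faces hG h3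
  have hR : ∀ R ∈ faces G 2, R.card = 3 := by
    intro R hR
    obtain ⟨hf, hd⟩ := mem_faces.1 hR
    exact Nbly.card_two (faceSet_convPos hG hf) hd (hN.face hf)
  rw [Finset.sum_congr rfl hR, Finset.sum_const, smul_eq_mul] at hsum
  have he := euler_three hG h3
  have h4 := adim_add_one_le_card hne
  rw [h3] at h4
  have hv : G.card = 4 := by
    have hz : ((G.card : ℤ) - 3) * ((G.card : ℤ) - 4) = 0 := by
      have h1' : 2 * ((faces G 1).card : ℤ) + G.card = (G.card : ℤ) ^ 2 := by exact_mod_cast h1
      have hs' : ((faces G 2).card : ℤ) * 3 = 2 * (faces G 1).card := by exact_mod_cast hsum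
      nlinarith
    rcases mul_eq_zero.1 hz with h | h
    · have : (4 : ℤ) ≤ G.card := by exact_mod_cast h4
      omega
    · have : (G.card : ℤ) = 4 := by linarith
      exact_mod_cast this
  refine ⟨hv, ?_⟩
  rw [hv] at h1 he
  push_cast at he
  omega

theorem nonempty_of_adim {G : Finset E} {n : ℕ} (h : adim G = n + 1) : G.Nonempty := by
  by_contra hne
  rw [Finset.not_nonempty_iff_eq_empty] at hne
  rw [hne] at h
  have h0 : vectorSpan ℝ ((∅ : Finset E) : Set E) = ⊥ := by
    rw [Finset.coe_empty, vectorSpan_empty]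
  rw [adim, h0, finrank_bot] at h
  omega

theorem Nbly.card_three {G : Finset E} (hG : ConvPos G) (h3 : adim G = 3) (hN : Nbly G) :
    G.card = 4 :=
  (Nbly.three_aux hG h3 hN (nonempty_of_adim h3)).1

theorem Nbly.card_four {F : Finset E} (hF : ConvPos F) (h4 : adim F = 4) (hN : Nbly F) :
    2 * (faces F 3).card + 3 * F.card = F.card ^ 2 := by
  have h1 := (nbly_iff_card hF).1 hN
  have hsum := sum_card_facets (V := F) h4
  have hG : ∀ G ∈ faces F 3, (faces G 2).card = 4 := by
    intro G hG
    obtain ⟨hf, hd⟩ := mem_faces.1 hG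
    exact (Nbly.three_aux (faceSet_convPos hF hf) hd (hN.face hf) hf.1).2
  rw [Finset.sum_congr rfl hG, Finset.sum_const, smul_eq_mul] at hsum
  have he := euler_four hF h4
  have h1' : 2 * ((faces F 1).card : ℤ) + F.card = (F.card : ℤ) ^ 2 := by exact_mod_cast h1
  have hs' : ((faces F 3).card : ℤ) * 4 = 2 * (faces F 2).card := by exact_mod_cast hsum
  have : 2 * ((faces F 3).card : ℤ) + 3 * F.card = (F.card : ℤ) ^ 2 := by nlinarith
  exact_mod_cast this

/-- Double counting of the pairs `S ⊆ F`. -/
theorem sum_card_faces_three {V : Finset E} (h5 : adim V = 5) :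
    ∑ F ∈ faces V 4, (faces F 3).card = 2 * (faces V 3).card := by
  have hVne : V.Nonempty := nonempty_of_adim h5
  have hself : FaceSet V V := FaceSet.self hVne
  have h := Finset.sum_card_bipartiteAbove_eq_sum_card_bipartiteBelow
    (s := faces V 4) (t := faces V 3) (fun F S => S ⊆ F)
  have hl : ∀ F ∈ faces V 4,
      (Finset.bipartiteAbove (fun F S => S ⊆ F) (faces V 3) F).card = (faces F 3).card := by
    intro F hF
    rw [faces_face (mem_faces.1 hF).1]
    rfl
  have hr : ∀ S ∈ faces V 3,
      (Finset.bipartiteBelow (fun F S => S ⊆ F) (faces V 4) S).card = 2 := by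
    intro S hS
    obtain ⟨hf, hd⟩ := mem_faces.1 hS
    have hdi := diamond hf hself hf.2.1 (by rw [h5, hd])
    rw [hd] at hdi
    rw [← hdi]
    congr 1
    ext F
    simp only [Finset.mem_bipartiteBelow, Finset.mem_filter]
    constructor
    · rintro ⟨h1, h2⟩
      exact ⟨h1, h2, (mem_faces.1 h1).1.2.1⟩
    · rintro ⟨h1, h2, _⟩
      exact ⟨h1, h2⟩
  rw [Finset.sum_congr rfl hl, Finset.sum_congr rfl hr, Finset.sum_const, smul_eq_mul] at h
  rw [h, mul_comm]

/-- Every 3-face is in two facets. -/
theorem Nbly.sum_sq {V : Finset E} (hV : ConvPos V) (h5 : adim V = 5) (hN : Nbly V) :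
    4 * (faces V 3).card + 3 * ∑ F ∈ faces V 4, F.card = ∑ F ∈ faces V 4, F.card ^ 2 := by
  have h := sum_card_faces_three h5
  have hF : ∀ F ∈ faces V 4, 2 * (faces F 3).card + 3 * F.card = F.card ^ 2 := by
    intro F hF
    obtain ⟨hf, hd⟩ := mem_faces.1 hF
    exact Nbly.card_four (faceSet_convPos hV hf) hd (hN.face hf)
  rw [← Finset.sum_congr rfl hF, Finset.sum_add_distrib, ← Finset.mul_sum, ← Finset.mul_sum, h]
  ring

/-- Double counting of the pairs `x ∈ S`. -/
theorem sum_card_filter_mem (V : Finset E) (i : ℕ) :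
    ∑ x ∈ V, ((faces V i).filter (fun S => x ∈ S)).card = ∑ S ∈ faces V i, S.card := by
  have h := Finset.sum_card_bipartiteAbove_eq_sum_card_bipartiteBelow
    (s := V) (t := faces V i) (fun x S => x ∈ S)
  have hr : ∀ S ∈ faces V i,
      (Finset.bipartiteBelow (fun x S => x ∈ S) V S).card = S.card := by
    intro S hS
    congr 1
    ext x
    simp only [Finset.mem_bipartiteBelow]
    exact ⟨fun h => h.2, fun h => ⟨(mem_faces.1 hS).1.2.1 h, h⟩⟩
  rw [Finset.sum_congr rfl hr] at h
  exact h

/-- The sum of Euler's relation over the vertex figures. -/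
theorem Nbly.sum_vfig {V : Finset E} (hV : ConvPos V) (h5 : adim V = 5) (hN : Nbly V) :
    2 * (faces V 1).card + 4 * (faces V 3).card
      = 3 * (faces V 2).card + ∑ F ∈ faces V 4, F.card := by
  have hx : ∀ x ∈ V, ((nbr V x).card : ℤ)
      + ((faces V 3).filter (fun S => x ∈ S)).card
      = ((faces V 2).filter (fun S => x ∈ S)).card
        + ((faces V 4).filter (fun S => x ∈ S)).card := by
    intro x hx
    obtain ⟨g, hg⟩ := exists_cuts hV hx
    have hd := adim_vfig hV hx hg (by omega)
    have he := euler_four (convPos_vfig hV hx hg) (by omega)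
    rw [card_vfig hV hx hg, card_faces_vfig hV hx hg, card_faces_vfig hV hx hg,
      card_faces_vfig hV hx hg] at he
    norm_num at he
    linarith
  have hx' : ∀ x ∈ V, (nbr V x).card
      + ((faces V 3).filter (fun S => x ∈ S)).card
      = ((faces V 2).filter (fun S => x ∈ S)).card
        + ((faces V 4).filter (fun S => x ∈ S)).card := by
    intro x hxV
    exact_mod_cast hx x hxV
  have hs := Finset.sum_congr rfl hx'
  rw [Finset.sum_add_distrib, Finset.sum_add_distrib, sum_card_filter_mem, sum_card_filter_mem,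
    sum_card_filter_mem, sum_card_nbr hV] at hs
  have h3 : ∀ S ∈ faces V 3, S.card = 4 := by
    intro S hS
    obtain ⟨hf, hd⟩ := mem_faces.1 hS
    exact Nbly.card_three (faceSet_convPos hV hf) hd (hN.face hf)
  have h2 : ∀ S ∈ faces V 2, S.card = 3 := by
    intro S hS
    obtain ⟨hf, hd⟩ := mem_faces.1 hS
    exact Nbly.card_two (faceSet_convPos hV hf) hd (hN.face hf)
  rw [Finset.sum_congr rfl h3, Finset.sum_congr rfl h2, Finset.sum_const, Finset.sum_const,
    smul_eq_mul, smul_eq_mul] at hs
  omega

end Pool.Agent.FV
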