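import Pool.Agent.Lib.MP_e9c977_fv.CardBars

/-!
# Row SF: configurations with simple facets
-/

namespace Pool.Agent.FV

open Module
open scoped Classical

noncomputable section

variable {E : Type} [NormedAddCommGroup E] [InnerProductSpace ℝ E]

/-- In a 3-dimensional configuration, at a vertex with three neighbours any two of them lie with
it in a 2-face. -/
theorem exists_two_face_of_simple {F : Finset E} (hF : ConvPos F) (h3 : adim F = 3) {x y z : E}
    (hx : x ∈ F) (hs : (nbr F x).card = 3) (hy : y ∈ nbr F x) (hz : z ∈ nbr F x) (hyz : y ≠ z) :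
    ∃ R ∈ faces F 2, x ∈ R ∧ y ∈ R ∧ z ∈ R := by
  obtain ⟨g, hg⟩ := exists_cuts hF hx
  have hW := convPos_vfig hF hx hg
  have h2 : adim (vfig g F x) = 2 := by
    have := adim_vfig hF hx hg (by omega)
    omega
  have hc : (vfig g F x).card = 3 := by rw [card_vfig hF hx hg, hs]
  have hry : rad g x y ∈ vfig g F x := Finset.mem_image_of_mem _ hy
  have hrz : rad g x z ∈ vfig g F x := Finset.mem_image_of_mem _ hz
  have hne : rad g x z ≠ rad g x y := by
    intro h
    exact hyz (rad_injOn hF hx hg (by exact_mod_cast hz) (by exact_mod_cast hy) h).symm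
  have hmem : rad g x z ∈ nbr (vfig g F x) (rad g x y) := by
    rw [nbr_triangle hW h2 hc hry]
    exact Finset.mem_erase.mpr ⟨hne, hrz⟩
  exact (rad_mem_nbr hF hx hg hy hz hyz).mp hmem

/-- and there are three 2-faces at it. -/
theorem card_two_faces_of_simple {F : Finset E} (hF : ConvPos F) (h3 : adim F = 3) {x : E}
    (hx : x ∈ F) (hs : (nbr F x).card = 3) : ((faces F 2).filter (fun R => x ∈ R)).card = 3 := by
  obtain ⟨g, hg⟩ := exists_cuts hF hx
  have hW := convPos_vfig hF hx hg
  have h2 : adim (vfig g F x) = 2 := by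
    have := adim_vfig hF hx hg (by omega)
    omega
  have h := card_faces_vfig hF hx hg 1
  rw [card_edges_polygon hW h2, card_vfig hF hx hg, hs] at h
  exact h.symm

/-- A vertex with its neighbours spans. -/
theorem adim_insert_nbr {F : Finset E} (hF : ConvPos F) {x : E} (hx : x ∈ F) :
    adim (insert x (nbr F x)) = adim F := by
  unfold adim
  rw [vectorSpan_insert_nbr hF hx]

private theorem vfig_counts {V : Finset E} (hV : ConvPos V) (h4 : adim V = 4)
    (hs : SimpleFacets V) {u : E} (hu : u ∈ V) :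
    3 * ((faces V 3).filter (fun F => u ∈ F)).card = 2 * ((faces V 2).filter (fun R => u ∈ R)).card
      ∧ (nbr V u).card + ((faces V 3).filter (fun F => u ∈ F)).card
        = ((faces V 2).filter (fun R => u ∈ R)).card + 2 := by
  obtain ⟨g, hg⟩ := exists_cuts hV hu
  have hW := convPos_vfig hV hu hg
  have h3 : adim (vfig g V u) = 3 := by
    have := adim_vfig hV hu hg (by omega)
    omega
  have e1 := card_faces_vfig hV hu hg 1
  have e2 := card_faces_vfig hV hu hg 2
  have hc := card_vfig hV hu hg
  have hsum := sum_card_two_faces hW h3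
  have h3c : ∀ R ∈ faces (vfig g V u) 2, R.card = 3 := by
    intro R hR
    obtain ⟨hRf, hRd⟩ := mem_faces.mp hR
    obtain ⟨S, hS, huS, h1, rfl⟩ := exists_vface hV hu hg hRf
    have hSd : adim S = 3 := by
      have := adim_vface hV hu hg hS huS h1
      omega
    rw [card_vface hV hu hg hS huS]
    exact hs S (mem_faces.mpr ⟨hS, hSd⟩) u huS
  rw [Finset.sum_congr rfl h3c, Finset.sum_const, smul_eq_mul] at hsum
  have he := euler_three hW h3
  constructor
  · rw [← e1, ← e2]
    omega
  · rw [← e1, ← e2, ← hc]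
    omega

/-- The number of 2-faces at a vertex of a 4-dimensional configuration with simple facets:
`3 deg u - 6`. -/
theorem card_two_faces_at {V : Finset E} (hV : ConvPos V) (h4 : adim V = 4)
    (hs : SimpleFacets V) {u : E} (hu : u ∈ V) :
    ((faces V 2).filter (fun R => u ∈ R)).card + 6 = 3 * (nbr V u).card := by
  have := vfig_counts hV h4 hs hu
  omega

/-- The number of facets at a vertex of a 4-dimensional configuration with simple facets:
`2 deg u - 4`. -/
theorem card_facets_at {V : Finset E} (hV : ConvPos V) (h4 : adim V = 4)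
    (hs : SimpleFacets V) {u : E} (hu : u ∈ V) :
    ((faces V 3).filter (fun F => u ∈ F)).card + 4 = 2 * (nbr V u).card := by
  have := vfig_counts hV h4 hs hu
  omega

private theorem nbr_two {V : Finset E} (hV : ConvPos V) {R : Finset E} (hR : R ∈ faces V 2)
    {u : E} (hu : u ∈ R) : (nbr R u).card = 2 := by
  obtain ⟨hRf, hRd⟩ := mem_faces.mp hR
  exact card_nbr_polygon (hV.mono hRf.2.1) hRd hu

/-- A 2-face is determined by a vertex of it and the two neighbours in it. -/
theorem two_face_eq_of_nbr {V : Finset E} (hV : ConvPos V) {R R' : Finset E}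
    (hR : R ∈ faces V 2) (hR' : R' ∈ faces V 2) {u : E} (hu : u ∈ R) (hu' : u ∈ R')
    (h : nbr R u = nbr R' u) : R = R' := by
  obtain ⟨hRf, hRd⟩ := mem_faces.mp hR
  obtain ⟨hRf', hRd'⟩ := mem_faces.mp hR'
  obtain ⟨w, w', hww, hnb⟩ := Finset.card_eq_two.mp (nbr_two hV hR hu)
  have hw : w ∈ nbr R u := by rw [hnb]; simp
  have hw' : w' ∈ nbr R u := by rw [hnb]; simp
  have hwR := Finset.mem_erase.mp (nbr_subset hw)
  have hwR' := Finset.mem_erase.mp (nbr_subset hw')
  have hwQ := Finset.mem_erase.mp (nbr_subset (h ▸ hw))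
  have hwQ' := Finset.mem_erase.mp (nbr_subset (h ▸ hw'))
  have hint : FaceSet V (R ∩ R') := hRf.inter hRf' ⟨u, Finset.mem_inter.mpr ⟨hu, hu'⟩⟩
  have htri : adim {u, w, w'} = 2 :=
    hV.adim_triple (hRf.2.1 hu) (hRf.2.1 hwR.2) (hRf.2.1 hwR'.2) (Ne.symm hwR.1)
      (Ne.symm hwR'.1) hww
  have hsub : ({u, w, w'} : Finset E) ⊆ R ∩ R' := by
    intro y hy
    simp only [Finset.mem_insert, Finset.mem_singleton] at hy
    rcases hy with rfl | rfl | rfl
    · exact Finset.mem_inter.mpr ⟨hu, hu'⟩
    · exact Finset.mem_inter.mpr ⟨hwR.2, hwQ.2⟩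
    · exact Finset.mem_inter.mpr ⟨hwR'.2, hwQ'.2⟩
  have h2 : 2 ≤ adim (R ∩ R') := by
    rw [← htri]
    exact adim_mono hsub
  have e1 : R ∩ R' = R := hint.eq_of_adim Finset.inter_subset_left hRf.2.1 (by omega)
  have e2 : R ∩ R' = R' := hint.eq_of_adim Finset.inter_subset_right hRf'.2.1 (by omega)
  rw [← e1, e2]

/-- The neighbours of `u` in a 2-face form a bar if the apex is one of them. -/
theorem nbr_mem_bars {V : Finset E} (hV : ConvPos V) {a : Finset E → E} {R : Finset E}
    (hR : R ∈ faces V 2) {u : E} (hu : u ∈ R) (ha : a R ∈ nbr R u) : nbr R u ∈ bars V a := by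
  obtain ⟨w, w', hww, hnb⟩ := Finset.card_eq_two.mp (nbr_two hV hR hu)
  have hw : w ∈ nbr R u := by rw [hnb]; simp
  have hw' : w' ∈ nbr R u := by rw [hnb]; simp
  have hwR := Finset.mem_erase.mp (nbr_subset hw)
  have hwR' := Finset.mem_erase.mp (nbr_subset hw')
  unfold bars
  apply Finset.mem_union_right
  apply Finset.mem_biUnion.mpr
  refine ⟨R, hR, ?_⟩
  unfold fanBars
  rw [Finset.mem_image]
  have hcase : a R = w ∨ a R = w' := by
    rw [hnb] at ha
    simpa using ha
  rcases hcase with h | h
  · refine ⟨w', Finset.mem_erase.mpr ⟨?_, hwR'.2⟩, ?_⟩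
    · rw [h]; exact hww.symm
    · rw [h, hnb]
  · refine ⟨w, Finset.mem_erase.mpr ⟨?_, hwR.2⟩, ?_⟩
    · rw [h]; exact hww
    · rw [h, hnb, Finset.pair_comm]

/-- Three vertices of a polygon, pairwise adjacent: the polygon is a triangle. -/
theorem nbr_pair_mem_edges {V : Finset E} (hV : ConvPos V) {R : Finset E} (hR : R ∈ faces V 2)
    {u : E} (hu : u ∈ R) (h : nbr R u ∈ faces V 1) : R = insert u (nbr R u) := by
  obtain ⟨hRf, hRd⟩ := mem_faces.mp hR
  have hRc : ConvPos R := hV.mono hRf.2.1
  obtain ⟨w, w', hww, hnb⟩ := Finset.card_eq_two.mp (nbr_two hV hR hu)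
  have hw : w ∈ nbr R u := by rw [hnb]; simp
  have hw' : w' ∈ nbr R u := by rw [hnb]; simp
  have hwR := Finset.mem_erase.mp (nbr_subset hw)
  have hwR' := Finset.mem_erase.mp (nbr_subset hw')
  have hedge : FaceSet R {w, w'} := by
    have h1 := (mem_faces.mp h).1
    rw [hnb] at h1
    apply h1.of_subset hRf.2.1
    intro y hy
    simp only [Finset.mem_insert, Finset.mem_singleton] at hy
    rcases hy with rfl | rfl
    · exact hwR.2
    · exact hwR'.2
  have n1 : w' ∈ nbr R w := mem_nbr.mpr ⟨hww.symm, hedge⟩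
  have n2 : w ∈ nbr R w' := nbr_symm.mp n1
  have n3 : u ∈ nbr R w := nbr_symm.mp hw
  have n4 : u ∈ nbr R w' := nbr_symm.mp hw'
  have e1 : nbr R w = {u, w'} := by
    symm
    apply Finset.eq_of_subset_of_card_le
    · intro y hy
      simp only [Finset.mem_insert, Finset.mem_singleton] at hy
      rcases hy with rfl | rfl
      · exact n3
      · exact n1
    · rw [nbr_two hV hR hwR.2, Finset.card_pair (Ne.symm hwR'.1)]
  have e2 : nbr R w' = {u, w} := by
    symm
    apply Finset.eq_of_subset_of_card_le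
    · intro y hy
      simp only [Finset.mem_insert, Finset.mem_singleton] at hy
      rcases hy with rfl | rfl
      · exact n4
      · exact n2
    · rw [nbr_two hV hR hwR'.2, Finset.card_pair (Ne.symm hwR.1)]
  symm
  apply eq_of_closed hRc
  · intro y hy
    rw [hnb] at hy
    simp only [Finset.mem_insert, Finset.mem_singleton] at hy
    rcases hy with rfl | rfl | rfl
    · exact hu
    · exact hwR.2
    · exact hwR'.2
  · exact ⟨u, Finset.mem_insert_self _ _⟩
  · intro x hx y hy
    rw [hnb] at hx ⊢
    simp only [Finset.mem_insert, Finset.mem_singleton] at hx ⊢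
    rcases hx with rfl | rfl | rfl
    · rw [hnb] at hy
      simp only [Finset.mem_insert, Finset.mem_singleton] at hy
      tauto
    · rw [e1] at hy
      simp only [Finset.mem_insert, Finset.mem_singleton] at hy
      tauto
    · rw [e2] at hy
      simp only [Finset.mem_insert, Finset.mem_singleton] at hy
      tauto

end

end Pool.Agent.FV
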