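import Pool.Agent.Lib.MP_e9c977_fv.Three

/-!
# Row ST: the star of a vertex of a four-dimensional configuration
-/

namespace Pool.Agent.FV

open Module
open scoped Classical

variable {E : Type} [NormedAddCommGroup E] [InnerProductSpace ℝ E]

theorem braced_star {V : Finset E} (hV : ConvPos V) (h4 : adim V = 4) {q : E → E}
    (hq : ∀ F ∈ faces V 3, Braced q F) {u : E} (hu : u ∈ V) : Braced q (insert u (nbr V u)) := by
  obtain ⟨g, hg⟩ := exists_cuts hV hu
  have hnbrV : ∀ w ∈ nbr V u, w ∈ V ∧ w ≠ u := by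
    intro w hw
    have h1 := nbr_subset hw
    rw [Finset.mem_erase] at h1
    exact ⟨h1.2, h1.1⟩
  have hpos : ∀ w ∈ nbr V u, 0 < g (w - u) := fun w hw => hg w (hnbrV w hw).1 (hnbrV w hw).2
  let q' : E → E := fun z => if h : ∃ w ∈ nbr V u, rad g u w = z then
    (g (h.choose - u))⁻¹ • (q h.choose - q u) else 0
  have hinj := rad_injOn hV hu hg
  have hq' : ∀ w ∈ nbr V u, q' (rad g u w) = (g (w - u))⁻¹ • (q w - q u) := by
    intro w hw
    have h : ∃ w' ∈ nbr V u, rad g u w' = rad g u w := ⟨w, hw, rfl⟩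
    have h1 : h.choose = w := hinj h.choose_spec.1 hw h.choose_spec.2
    show (if h : ∃ w' ∈ nbr V u, rad g u w' = rad g u w then
      (g (h.choose - u))⁻¹ • (q h.choose - q u) else 0) = _
    rw [dif_pos h, h1]
  -- the symmetric form
  set B : E → E → ℝ := fun x y => inner ℝ (x - u) (q y - q u) + inner ℝ (y - u) (q x - q u) with hB
  have hB' : ∀ x ∈ nbr V u, ∀ y ∈ nbr V u,
      inner ℝ (rad g u x - rad g u y) (q' (rad g u x) - q' (rad g u y)) =
        (g (x - u))⁻¹ * (g (x - u))⁻¹ * (B x x / 2) + (g (y - u))⁻¹ * (g (y - u))⁻¹ * (B y y / 2) -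
          (g (x - u))⁻¹ * (g (y - u))⁻¹ * B x y := by
    intro x hx y hy
    rw [hq' x hx, hq' y hy]
    simp only [rad, hB, inner_sub_left, inner_sub_right, inner_smul_left, inner_smul_right,
      RCLike.conj_to_real]
    ring
  have hfacet : ∀ F ∈ faces V 3, u ∈ F → ∀ x ∈ F, ∀ y ∈ F, B x y = 0 := by
    intro F hF huF x hx y hy
    have h1 : Braced q (insert u F) := by
      rw [Finset.insert_eq_of_mem huF]
      exact hq F hF
    exact (braced_insert_iff.1 h1) x hx y hy
  have hdiag : ∀ x ∈ nbr V u, B x x = 0 := by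
    intro x hx
    have h1 := mem_nbr.1 hx
    have hadim : adim ({u, x} : Finset E) = 1 := adim_pair h1.1.symm
    obtain ⟨F, hF, hsub⟩ := exists_face_between (i := 3) h1.2 (by omega) (by omega)
    exact hfacet F hF (hsub (by simp)) x (hsub (by simp)) x (hsub (by simp))
  have hbr : Braced q' (vfig g V u) := by
    apply braced_three (convPos_vfig hV hu hg)
    · have := adim_vfig hV hu hg (by omega)
      omega
    · intro U hU
      rw [mem_faces] at hU
      obtain ⟨S, hS, huS, hS1, hSU⟩ := exists_vface hV hu hg hU.1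
      have hadimS : adim S = 3 := by
        have := adim_vface hV hu hg hS huS hS1
        rw [hSU] at this
        omega
      have hSF : S ∈ faces V 3 := mem_faces.2 ⟨hS, hadimS⟩
      rw [← hSU]
      intro x' hx' y' hy'
      obtain ⟨x, hx, rfl⟩ := Finset.mem_image.1 hx'
      obtain ⟨y, hy, rfl⟩ := Finset.mem_image.1 hy'
      rw [Finset.mem_inter] at hx hy
      rw [hB' x hx.2 y hy.2, hfacet S hSF huS x hx.1 x hx.1, hfacet S hSF huS y hy.1 y hy.1,
        hfacet S hSF huS x hx.1 y hy.1]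
      ring
  rw [braced_insert_iff]
  intro x hx y hy
  have h1 := hbr (rad g u x) (Finset.mem_image_of_mem _ hx) (rad g u y)
    (Finset.mem_image_of_mem _ hy)
  rw [hB' x hx y hy, hdiag x hx, hdiag y hy] at h1
  have h2 : (g (x - u))⁻¹ * (g (y - u))⁻¹ ≠ 0 :=
    mul_ne_zero (inv_ne_zero (hpos x hx).ne') (inv_ne_zero (hpos y hy).ne')
  have h3 : (g (x - u))⁻¹ * (g (y - u))⁻¹ * B x y = 0 := by linarith
  exact (mul_eq_zero.1 h3).resolve_left h2

end Pool.Agent.FV
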