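import Pool.Agent.Lib.MP_e9c977_fv.StarU
import Pool.Agent.Lib.MP_e9c977_fv.DPrime

/-!
# Rows SM, CA, KY: the count for the edge star, three-cycles, the key lemma
-/

namespace Pool.Agent.FV

open Module
open scoped Classical

noncomputable section

variable {E : Type} [NormedAddCommGroup E] [InnerProductSpace ℝ E]

variable {V : Finset E} {u v : E}

/-- A good choice of apices for the edge `u v`. -/
theorem exists_apex (hV : ConvPos V) (u v : E) :
    ∃ a : Finset E → E, (∀ R ∈ faces V 2, a R ∈ R) ∧
      (∀ R ∈ faces V 2, u ∈ R → v ∉ R → a R ∈ nbr R u) ∧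
      (∀ R ∈ faces V 2, v ∈ R → u ∉ R → a R ∈ nbr R v) := by
  have hnb : ∀ R ∈ faces V 2, ∀ x ∈ R, (nbr R x).Nonempty := by
    intro R hR x hx
    have hRf := mem_faces.mp hR
    rw [← Finset.card_pos, card_nbr_polygon (hV.mono hRf.1.2.1) hRf.2 hx]
    norm_num
  have hsub : ∀ (R : Finset E) (x y : E), y ∈ nbr R x → y ∈ R := fun R x y hy =>
    Finset.mem_of_mem_erase (nbr_subset hy)
  have key : ∀ R : Finset E, ∃ y : E, R ∈ faces V 2 →
      (y ∈ R ∧ (u ∈ R → v ∉ R → y ∈ nbr R u) ∧ (v ∈ R → u ∉ R → y ∈ nbr R v)) := by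
    intro R
    by_cases hR : R ∈ faces V 2
    · by_cases hu : u ∈ R
      · by_cases hv : v ∈ R
        · exact ⟨u, fun _ => ⟨hu, fun _ h => absurd hv h, fun _ h => absurd hu h⟩⟩
        · obtain ⟨y, hy⟩ := hnb R hR u hu
          exact ⟨y, fun _ => ⟨hsub R u y hy, fun _ _ => hy, fun h => absurd h hv⟩⟩
      · by_cases hv : v ∈ R
        · obtain ⟨y, hy⟩ := hnb R hR v hv
          exact ⟨y, fun _ => ⟨hsub R v y hy, fun h => absurd h hu, fun _ _ => hy⟩⟩
        · obtain ⟨y, hy⟩ := (mem_faces.mp hR).1.1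
          exact ⟨y, fun _ => ⟨hy, fun h => absurd h hu, fun h => absurd h hv⟩⟩
    · exact ⟨u, fun h => absurd h hR⟩
  choose a ha using key
  exact ⟨a, fun R hR => (ha R hR).1, fun R hR => (ha R hR).2.1, fun R hR => (ha R hR).2.2⟩

namespace SMAux

theorem exists_above (h4 : adim V = 4) {S : Finset E} (hS : FaceSet V S) (h3 : adim S ≤ 3) :
    ∃ F ∈ faces V 3, S ⊆ F :=
  exists_face_between hS h3 (by omega)

theorem outR_not_mem (h4 : adim V = 4) {R : Finset E} (hR : R ∈ outR V {u, v} u) : v ∉ R := by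
  intro hv
  rw [outR, Finset.mem_filter] at hR
  obtain ⟨hR2, hu, hF⟩ := hR
  obtain ⟨F, hF3, hRF⟩ := exists_above h4 (mem_faces.mp hR2).1
    ((mem_faces.mp hR2).2.le.trans (by norm_num))
  refine hF F ?_ hRF
  rw [above, Finset.mem_filter]
  refine ⟨hF3, fun x hx => hRF ?_⟩
  simp only [Finset.mem_insert, Finset.mem_singleton] at hx
  rcases hx with rfl | rfl
  · exact hu
  · exact hv

theorem exists_normal [FiniteDimensional ℝ E] (hE : finrank ℝ E = 4) {F : Finset E}
    (hF : adim F = 3) : ∃ n : E, n ≠ 0 ∧ ∀ x ∈ F, ∀ y ∈ F, inner ℝ n (x - y) = 0 := by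
  have h1 := Submodule.finrank_add_finrank_orthogonal (vectorSpan ℝ (F : Set E))
  have h2 : finrank ℝ (vectorSpan ℝ (F : Set E)) = 3 := hF
  have h3 : 0 < finrank ℝ (vectorSpan ℝ (F : Set E))ᗮ := by omega
  rw [Module.finrank_pos_iff_exists_ne_zero] at h3
  obtain ⟨⟨n, hn⟩, hn0⟩ := h3
  refine ⟨n, fun h => hn0 (Subtype.ext h), fun x hx y hy => ?_⟩
  exact Submodule.inner_left_of_mem_orthogonal
    (vsub_mem_vectorSpan ℝ (Finset.mem_coe.mpr hx) (Finset.mem_coe.mpr hy)) hn

theorem starV_subset {e : Finset E} : starV V e ⊆ V := by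
  intro x hx
  rw [starV, Finset.mem_biUnion] at hx
  obtain ⟨F, hF, hx⟩ := hx
  rw [above, Finset.mem_filter] at hF
  exact (mem_faces.mp hF.1).1.2.1 hx

theorem subset_starV {e F : Finset E} (hF : F ∈ above V e 3) : F ⊆ starV V e := fun x hx =>
  Finset.mem_biUnion.mpr ⟨F, hF, hx⟩

end SMAux

open SMAux in
/-- Row SM: the count for the star of an edge. -/
theorem star_main [FiniteDimensional ℝ E] (hE : finrank ℝ E = 4) (hV : ConvPos V)
    (h4 : adim V = 4) (ht : Tight V) (he : ({u, v} : Finset E) ∈ faces V 1) :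
    (above V {u, v} 3).card + 4 * (badC V u v).card
      ≤ 3 + (newB V {u, v} u ∩ newB V {u, v} v).card := by
  have hs := ht.simpleFacets hE hV h4
  obtain ⟨a, ha, hau, hav⟩ := exists_apex hV u v
  have hvu : ({v, u} : Finset E) = {u, v} := Finset.pair_comm v u
  have he' : ({v, u} : Finset E) ∈ faces V 1 := by rw [hvu]; exact he
  -- the ends
  have hef := mem_faces.mp he
  have huV : u ∈ V := hef.1.2.1 (by simp)
  have hvV : v ∈ V := hef.1.2.1 (by simp)
  obtain ⟨F0, hF0, heF0⟩ := exists_above h4 hef.1 (hef.2.le.trans (by norm_num))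
  have hF0a : F0 ∈ above V {u, v} 3 := Finset.mem_filter.mpr ⟨hF0, heF0⟩
  have huS : u ∈ starV V {u, v} := subset_starV hF0a (heF0 (by simp))
  have hvS : v ∈ starV V {u, v} := subset_starV hF0a (heF0 (by simp))
  have hnbu : nbr V u ⊆ V := nbr_subset.trans (Finset.erase_subset _ _)
  have hnbv : nbr V v ⊆ V := nbr_subset.trans (Finset.erase_subset _ _)
  -- the sets
  set X := starV V {u, v} ∪ (outN V {u, v} u ∪ outN V {u, v} v) with hXdef
  set ℬ := starB V {u, v} a ∪ (newB V {u, v} u ∪ newB V {u, v} v) with hBdef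
  have hnuX : insert u (nbr V u) ⊆ X := by
    intro x hx
    rcases Finset.mem_insert.mp hx with rfl | hx
    · exact Finset.mem_union_left _ huS
    · by_cases hxS : x ∈ starV V {u, v}
      · exact Finset.mem_union_left _ hxS
      · exact Finset.mem_union_right _ (Finset.mem_union_left _ (Finset.mem_sdiff.mpr ⟨hx, hxS⟩))
  have hnvX : insert v (nbr V v) ⊆ X := by
    intro x hx
    rcases Finset.mem_insert.mp hx with rfl | hx
    · exact Finset.mem_union_left _ hvS
    · by_cases hxS : x ∈ starV V {u, v}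
      · exact Finset.mem_union_left _ hxS
      · exact Finset.mem_union_right _ (Finset.mem_union_right _ (Finset.mem_sdiff.mpr ⟨hx, hxS⟩))
  have hXV : X ⊆ V := by
    refine Finset.union_subset starV_subset (Finset.union_subset ?_ ?_)
    · exact Finset.sdiff_subset.trans hnbu
    · exact Finset.sdiff_subset.trans hnbv
  have hBu : newB V {u, v} u ⊆ bars V a := newB_subset hV h4 fun R hR =>
    hau R (Finset.mem_filter.mp hR).1 (Finset.mem_filter.mp hR).2.1 (outR_not_mem h4 hR)
  have hBv : newB V {u, v} v ⊆ bars V a := by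
    rw [← hvu]
    refine newB_subset hV h4 fun R hR => ?_
    exact hav R (Finset.mem_filter.mp hR).1 (Finset.mem_filter.mp hR).2.1 (outR_not_mem h4 hR)
  have hBs : starB V {u, v} a ⊆ bars V a := Finset.filter_subset _ _
  have hsubu : ∀ B ∈ newB V {u, v} u, B ⊆ insert u (nbr V u) := fun B hB => subset_of_mem_newB hB
  have hsubv : ∀ B ∈ newB V {u, v} v, B ⊆ insert v (nbr V v) := fun B hB => by
    rw [← hvu] at hB
    exact subset_of_mem_newB hB
  have hdDu : Disjoint (insert u (nbr V u)) (starD V {u, v}) := disjoint_starD hV h4 hs he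
  have hdDv : Disjoint (insert v (nbr V v)) (starD V {u, v}) := by
    have := disjoint_starD (u := v) (v := u) hV h4 hs he'
    rwa [hvu] at this
  have hDS : starD V {u, v} ⊆ starV V {u, v} := Finset.filter_subset _ _
  have hDX : starD V {u, v} ⊆ X := hDS.trans Finset.subset_union_left
  have hcount : ℬ.card + (starD V {u, v}).card + 10 ≤ 4 * X.card := by
    refine count_stressfree hE hV h4 ha (ht.bars hE hV h4 ha) hXV ?_ ?_ hDX ?_ ?_
    · exact Finset.union_subset hBs (Finset.union_subset hBu hBv)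
    · intro B hB
      rcases Finset.mem_union.mp hB with hB | hB
      · rw [starB, Finset.mem_filter] at hB
        obtain ⟨-, F, hF, hBF⟩ := hB
        exact hBF.trans ((subset_starV hF).trans Finset.subset_union_left)
      · rcases Finset.mem_union.mp hB with hB | hB
        · exact (hsubu B hB).trans hnuX
        · exact (hsubv B hB).trans hnvX
    · have h1 : insert u (nbr V u) ⊆ X \ starD V {u, v} := by
        intro x hx
        exact Finset.mem_sdiff.mpr ⟨hnuX hx, Finset.disjoint_left.mp hdDu hx⟩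
      have h2 := adim_mono h1
      rw [adim_insert_nbr hV huV, h4] at h2
      omega
    · intro d hd
      obtain ⟨F, hF, hdF, hFu⟩ := exists_unique_of_mem_starD h4 he hd
      obtain ⟨n, hn0, hn⟩ := exists_normal hE
        (mem_faces.mp (Finset.mem_filter.mp hF).1).2
      refine ⟨n, hn0, fun B hB hdB x hx => ?_⟩
      rcases Finset.mem_union.mp hB with hB | hB
      · rw [starB, Finset.mem_filter] at hB
        obtain ⟨-, F', hF', hBF⟩ := hB
        have h1 := hFu F' hF' (hBF hdB)
        rw [h1] at hBF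
        exact hn x (hBF hx) d hdF
      · exfalso
        rcases Finset.mem_union.mp hB with hB | hB
        · exact Finset.disjoint_left.mp hdDu (hsubu B hB hdB) hd
        · exact Finset.disjoint_left.mp hdDv (hsubv B hB hdB) hd
  -- the numbers
  have c1 := card_starV hV h4 he
  have c2 := card_starD hV h4 he
  have c3 := card_starB (a := a) hV h4 he ha
  have c4 := card_newB hV h4 hs he
  have c5 := card_newB (u := v) (v := u) hV h4 hs he'
  have c6 := card_outN hV h4 hs he
  have c7 := card_outN (u := v) (v := u) hV h4 hs he'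
  have c8 := card_above h4 he
  rw [hvu] at c5 c7
  have d1 : Disjoint (starV V {u, v}) (outN V {u, v} u ∪ outN V {u, v} v) := by
    rw [Finset.disjoint_union_right]
    exact ⟨Finset.disjoint_sdiff, Finset.disjoint_sdiff⟩
  have d2 : Disjoint (starB V {u, v} a) (newB V {u, v} u ∪ newB V {u, v} v) := by
    rw [Finset.disjoint_union_right]
    refine ⟨(disjoint_newB hV h4 hs he).symm, ?_⟩
    have := disjoint_newB (u := v) (v := u) (a := a) hV h4 hs he'
    rw [hvu] at this
    exact this.symm
  have x1 : X.card = (starV V {u, v}).card + (outN V {u, v} u ∪ outN V {u, v} v).card :=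
    Finset.card_union_of_disjoint d1
  have x2 : ℬ.card = (starB V {u, v} a).card + (newB V {u, v} u ∪ newB V {u, v} v).card :=
    Finset.card_union_of_disjoint d2
  have x3 := Finset.card_union_add_card_inter (outN V {u, v} u) (outN V {u, v} v)
  have x4 := Finset.card_union_add_card_inter (newB V {u, v} u) (newB V {u, v} v)
  have x5 : outN V {u, v} u ∩ outN V {u, v} v = badC V u v := by
    ext x
    simp only [outN, badC, Finset.mem_inter, Finset.mem_sdiff]
    tauto
  rw [x5] at x3
  omega

end

end Pool.Agent.FV
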