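import Pool.Agent.Lib.MP_e9c977_fv.EdgeStar

/-!
# Row SU: the bars at an end point of the edge outside the star
-/

namespace Pool.Agent.FV

open Module
open scoped Classical

noncomputable section

variable {E : Type} [NormedAddCommGroup E] [InnerProductSpace ℝ E]

/-- The 2-faces at `u` outside the star of `e`. -/
def outR (V e : Finset E) (u : E) : Finset (Finset E) :=
  (faces V 2).filter (fun R => u ∈ R ∧ ∀ F ∈ above V e 3, ¬ R ⊆ F)

/-- The neighbours of `u` outside the star of `e`. -/
def outN (V e : Finset E) (u : E) : Finset E := nbr V u \ starV V e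

/-- The bars at `u` outside the star of `e`. -/
def newB (V e : Finset E) (u : E) : Finset (Finset E) :=
  (outN V e u).image (fun w => {u, w}) ∪ (outR V e u).image (fun R => nbr R u)

/-- The common neighbours of the end points which are not in the star. -/
def badC (V : Finset E) (u v : E) : Finset E := (nbr V u ∩ nbr V v) \ starV V {u, v}

variable {V : Finset E} {u v : E} {a : Finset E → E}

private theorem su_mem_above {e : Finset E} {T : Finset E} {i : ℕ} :
    T ∈ above V e i ↔ FaceSet V T ∧ adim T = i ∧ e ⊆ T := by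
  simp only [above, Finset.mem_filter, mem_faces, and_assoc]

private theorem su_mem_starV {e : Finset E} {x : E} :
    x ∈ starV V e ↔ ∃ F ∈ above V e 3, x ∈ F := by
  simp [starV]

private theorem su_ne (he : ({u, v} : Finset E) ∈ faces V 1) : u ≠ v := by
  rintro rfl
  have h := (mem_faces.1 he).2
  rw [Finset.pair_eq_singleton, adim_singleton] at h
  omega

private theorem su_nbr (he : ({u, v} : Finset E) ∈ faces V 1) : v ∈ nbr V u :=
  mem_nbr.2 ⟨(su_ne he).symm, (mem_faces.1 he).1⟩

private theorem su_above_nonempty (h4 : adim V = 4) {e : Finset E} (he : e ∈ faces V 1) {i : ℕ}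
    (h1 : 1 ≤ i) (h2 : i ≤ 4) : (above V e i).Nonempty := by
  obtain ⟨he1, he2⟩ := mem_faces.1 he
  obtain ⟨T, hT, hST⟩ := exists_face_between he1 (i := i) (by omega) (by omega)
  exact ⟨T, su_mem_above.2 ⟨(mem_faces.1 hT).1, (mem_faces.1 hT).2, hST⟩⟩

private theorem su_self_face (h4 : adim V = 4) : FaceSet V V := by
  refine FaceSet.self ?_
  rw [Finset.nonempty_iff_ne_empty]
  rintro rfl
  rw [adim, Finset.coe_empty, vectorSpan_empty, finrank_bot] at h4
  omega

/-- Facets above a 2-face. -/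
private theorem su_card_facets_above (h4 : adim V = 4) {R : Finset E} (hR : FaceSet V R)
    (hR2 : adim R = 2) : ((faces V 3).filter (fun F => R ⊆ F)).card = 2 := by
  have h := diamond hR (su_self_face h4) hR.2.1 (by omega)
  rw [hR2] at h
  rw [← h]
  congr 1
  refine Finset.filter_congr fun F hF => ?_
  have := (mem_faces.1 hF).1.2.1
  tauto

/-- A neighbour of `u` in the star lies in a 2-face of the star. -/
theorem exists_above_two_of_nbr (hV : ConvPos V) (h4 : adim V = 4) (hs : SimpleFacets V)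
    (he : ({u, v} : Finset E) ∈ faces V 1) {w : E} (hw : w ∈ nbr V u)
    (hwS : w ∈ starV V {u, v}) : ∃ R ∈ above V {u, v} 2, w ∈ R := by
  obtain ⟨F, hF, hwF⟩ := su_mem_starV.1 hwS
  rw [su_mem_above] at hF
  obtain ⟨hF, hF3, heF⟩ := hF
  have huF : u ∈ F := heF (by simp)
  have hvF : v ∈ F := heF (by simp)
  by_cases hwv : v = w
  · obtain ⟨R, hR⟩ := su_above_nonempty h4 he (i := 2) (by omega) (by omega)
    refine ⟨R, hR, ?_⟩
    have h1 := (su_mem_above.1 hR).2.2
    rw [← hwv]
    exact h1 (by simp)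
  · have hFm : F ∈ faces V 3 := mem_faces.2 ⟨hF, hF3⟩
    have hw' : w ∈ nbr F u := by
      rw [nbr_face hF huF]
      exact Finset.mem_inter.2 ⟨hwF, hw⟩
    have hv' : v ∈ nbr F u := by
      rw [nbr_face hF huF]
      exact Finset.mem_inter.2 ⟨hvF, su_nbr he⟩
    obtain ⟨R, hR, hu, hv, hw''⟩ := exists_two_face_of_simple (hV.mono hF.2.1) hF3 huF
      (hs F hFm u huF) hv' hw' hwv
    rw [faces_face hF, Finset.mem_filter] at hR
    refine ⟨R, su_mem_above.2 ⟨(mem_faces.1 hR.1).1, (mem_faces.1 hR.1).2, ?_⟩, hw''⟩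
    intro x hx
    rw [Finset.mem_insert, Finset.mem_singleton] at hx
    rcases hx with rfl | rfl
    · exact hu
    · exact hv

theorem card_outN (hV : ConvPos V) (h4 : adim V = 4) (hs : SimpleFacets V)
    (he : ({u, v} : Finset E) ∈ faces V 1) :
    (outN V {u, v} u).card + (above V {u, v} 3).card + 1 = (nbr V u).card := by
  have hne := su_ne he
  have h1 : (outN V {u, v} u).card + (nbr V u ∩ starV V {u, v}).card = (nbr V u).card := by
    rw [outN, add_comm]
    exact Finset.card_inter_add_card_sdiff _ _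
  have hv : v ∈ nbr V u ∩ starV V {u, v} := by
    obtain ⟨F, hF⟩ := su_above_nonempty h4 he (i := 3) (by omega) (by omega)
    refine Finset.mem_inter.2 ⟨su_nbr he, su_mem_starV.2 ⟨F, hF, ?_⟩⟩
    exact (su_mem_above.1 hF).2.2 (by simp)
  have h2 := Finset.card_erase_add_one hv
  have h3 : (above V {u, v} 2).card * 1 = ((nbr V u ∩ starV V {u, v}).erase v).card * 1 := by
    refine Finset.card_mul_eq_card_mul (fun R w => w ∈ R) (fun R hR => ?_) (fun w hw => ?_)
    · have hR' := su_mem_above.1 hR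
      have huR : u ∈ R := hR'.2.2 (by simp)
      have hvR : v ∈ R := hR'.2.2 (by simp)
      have h4' := card_nbr_polygon (hV.mono hR'.1.2.1) hR'.2.1 huR
      have hvn : v ∈ nbr R u := by
        rw [nbr_face hR'.1 huR]
        exact Finset.mem_inter.2 ⟨hvR, su_nbr he⟩
      have h5 := Finset.card_erase_add_one hvn
      have h6 : Finset.bipartiteAbove (fun (R : Finset E) w => w ∈ R)
          ((nbr V u ∩ starV V {u, v}).erase v) R = (nbr R u).erase v := by
        ext w
        rw [Finset.bipartiteAbove, Finset.mem_filter, Finset.mem_erase, Finset.mem_erase,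
          Finset.mem_inter, nbr_face hR'.1 huR, Finset.mem_inter]
        constructor
        · rintro ⟨⟨h1, h2, h3⟩, h4⟩
          exact ⟨h1, h4, h2⟩
        · rintro ⟨h1, h2, h3⟩
          refine ⟨⟨h1, h3, ?_⟩, h2⟩
          obtain ⟨T, hT, hRT⟩ := exists_face_between hR'.1 (i := 3) (by omega) (by omega)
          exact su_mem_starV.2 ⟨T, su_mem_above.2 ⟨(mem_faces.1 hT).1, (mem_faces.1 hT).2,
            hR'.2.2.trans hRT⟩, hRT h2⟩
      rw [h6]
      omega
    · rw [Finset.mem_erase, Finset.mem_inter] at hw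
      obtain ⟨hwv, hwn, hwS⟩ := hw
      have hwu : w ≠ u := (mem_nbr.1 hwn).1
      obtain ⟨R, hR, hwR⟩ := exists_above_two_of_nbr hV h4 hs he hwn hwS
      obtain ⟨F, hF, hwF⟩ := su_mem_starV.1 hwS
      have h5 := (star_count h4 he (Y := {w}) (by simp [hwu, hwv]) hF (by simpa using hwF)).2
      have h6 : Finset.bipartiteBelow (fun (R : Finset E) w => w ∈ R) (above V {u, v} 2) w
          = (above V {u, v} 2).filter (fun R => {w} ⊆ R) := by
        ext R
        simp [Finset.bipartiteBelow]
      rw [h6]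
      have h7 : 0 < ((above V {u, v} 2).filter (fun R => {w} ⊆ R)).card :=
        Finset.card_pos.2 ⟨R, Finset.mem_filter.2 ⟨hR, by simpa using hwR⟩⟩
      omega
  have h8 := card_above h4 he
  omega

theorem card_outR (hV : ConvPos V) (h4 : adim V = 4) (hs : SimpleFacets V)
    (he : ({u, v} : Finset E) ∈ faces V 1) :
    (outR V {u, v} u).card + 2 * (above V {u, v} 3).card + 6 = 3 * (nbr V u).card := by
  have hne := su_ne he
  have huV : u ∈ V := (mem_faces.1 he).1.2.1 (by simp)
  rw [← card_two_faces_at hV h4 hs huV]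
  -- the 2-faces at `u` inside facets of the star
  obtain ⟨t, ht⟩ : ∃ t : Finset (Finset E), t = ((faces V 2).filter (fun R => u ∈ R)).filter
    (fun R => ∃ F ∈ above V {u, v} 3, R ⊆ F) := ⟨_, rfl⟩
  have h1 : ((faces V 2).filter (fun R => u ∈ R)).card = t.card + (outR V {u, v} u).card := by
    rw [← Finset.card_filter_add_card_filter_not (s := (faces V 2).filter (fun R => u ∈ R))
      (fun R => ∃ F ∈ above V {u, v} 3, R ⊆ F), ht]
    congr 2
    ext R
    simp only [outR, Finset.mem_filter, not_exists, not_and]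
    tauto
  have htm : ∀ R, R ∈ t ↔ (R ∈ faces V 2 ∧ u ∈ R) ∧ ∃ F ∈ above V {u, v} 3, R ⊆ F := fun R => by
    rw [ht, Finset.mem_filter, Finset.mem_filter]
  have h2 : t.filter (fun R => v ∈ R) = above V {u, v} 2 := by
    ext R
    rw [Finset.mem_filter, htm,
      show R ∈ above V {u, v} 2 ↔ R ∈ faces V 2 ∧ {u, v} ⊆ R from Finset.mem_filter]
    constructor
    · rintro ⟨⟨⟨hR, hu⟩, -⟩, hv⟩
      exact ⟨hR, by simp [Finset.insert_subset_iff, hu, hv]⟩
    · rintro ⟨hR, hsub⟩
      refine ⟨⟨⟨hR, hsub (by simp)⟩, ?_⟩, hsub (by simp)⟩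
      have hR' := mem_faces.1 hR
      obtain ⟨T, hT, hRT⟩ := exists_face_between hR'.1 (i := 3) (by omega) (by omega)
      exact ⟨T, su_mem_above.2 ⟨(mem_faces.1 hT).1, (mem_faces.1 hT).2, hsub.trans hRT⟩, hRT⟩
  have h3 : ∑ F ∈ above V {u, v} 3, (Finset.bipartiteAbove (fun (F R : Finset E) => R ⊆ F) t F).card
      = ∑ R ∈ t, (Finset.bipartiteBelow (fun (F R : Finset E) => R ⊆ F)
        (above V {u, v} 3) R).card :=
    Finset.sum_card_bipartiteAbove_eq_sum_card_bipartiteBelow _
  have h5 : ∀ F ∈ above V {u, v} 3,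
      (Finset.bipartiteAbove (fun (F R : Finset E) => R ⊆ F) t F).card = 3 := by
    intro F hF
    have hF' := su_mem_above.1 hF
    have huF : u ∈ F := hF'.2.2 (by simp)
    rw [← card_two_faces_of_simple (hV.mono hF'.1.2.1) hF'.2.1 huF
      (hs F (mem_faces.2 ⟨hF'.1, hF'.2.1⟩) u huF)]
    congr 1
    ext R
    rw [Finset.bipartiteAbove, Finset.mem_filter, htm, Finset.mem_filter, faces_face hF'.1,
      Finset.mem_filter]
    constructor
    · rintro ⟨⟨⟨h1, h2⟩, -⟩, h3⟩
      exact ⟨⟨h1, h3⟩, h2⟩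
    · rintro ⟨⟨h1, h3⟩, h2⟩
      exact ⟨⟨⟨h1, h2⟩, F, hF, h3⟩, h3⟩
  have h6 : ∀ R ∈ t, (Finset.bipartiteBelow (fun (F R : Finset E) => R ⊆ F)
        (above V {u, v} 3) R).card = if v ∈ R then 2 else 1 := by
    intro R hR
    obtain ⟨⟨hR2, huR⟩, F, hF, hRF⟩ := (htm R).1 hR
    have hR' := mem_faces.1 hR2
    by_cases hv : v ∈ R
    · rw [if_pos hv, ← su_card_facets_above h4 hR'.1 hR'.2]
      congr 1
      ext F'
      rw [Finset.bipartiteBelow, Finset.mem_filter, Finset.mem_filter, above, Finset.mem_filter]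
      constructor
      · rintro ⟨⟨h1, -⟩, h2⟩
        exact ⟨h1, h2⟩
      · rintro ⟨h1, h2⟩
        exact ⟨⟨h1, by simp [Finset.insert_subset_iff, h2 huR, h2 hv]⟩, h2⟩
    · rw [if_neg hv]
      have hnot : ¬ R ⊆ {u, v} := by
        intro h
        have h7 := adim_mono h
        rw [adim_pair hne, hR'.2] at h7
        omega
      have h8 := (star_count h4 he hnot hF hRF).1
      have h9 : (above V {u, v} 2).filter (fun R' => R ⊆ R') = ∅ := by
        rw [Finset.eq_empty_iff_forall_notMem]
        intro R' hR'2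
        rw [Finset.mem_filter, su_mem_above] at hR'2
        obtain ⟨⟨h10, h11, h12⟩, h13⟩ := hR'2
        have := hR'.1.eq_of_adim h13 h10.2.1 (by omega)
        rw [this] at hv
        exact hv (h12 (by simp))
      rw [h9, Finset.card_empty, zero_add] at h8
      exact h8
  rw [Finset.sum_congr rfl h5, Finset.sum_congr rfl h6, Finset.sum_ite, Finset.sum_const,
    Finset.sum_const, Finset.sum_const, h2, smul_eq_mul, smul_eq_mul, smul_eq_mul] at h3
  have h7 := Finset.card_filter_add_card_filter_not (s := t) (fun R => v ∈ R)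
  rw [h2] at h7
  have h8 := card_above h4 he
  omega

private theorem su_disjoint : Disjoint ((outN V {u, v} u).image (fun w => ({u, w} : Finset E)))
    ((outR V {u, v} u).image (fun R => nbr R u)) := by
  rw [Finset.disjoint_left]
  intro B hB hB'
  rw [Finset.mem_image] at hB hB'
  obtain ⟨w, -, rfl⟩ := hB
  obtain ⟨R, -, h⟩ := hB'
  have h1 : u ∈ nbr R u := by
    rw [h]
    simp
  exact (mem_nbr.1 h1).1 rfl

theorem card_newB (hV : ConvPos V) (h4 : adim V = 4) (hs : SimpleFacets V)
    (he : ({u, v} : Finset E) ∈ faces V 1) :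
    (newB V {u, v} u).card + 3 * (above V {u, v} 3).card + 7 = 4 * (nbr V u).card := by
  have h1 : (newB V {u, v} u).card = (outN V {u, v} u).card + (outR V {u, v} u).card := by
    rw [newB, Finset.card_union_of_disjoint su_disjoint, Finset.card_image_of_injOn,
      Finset.card_image_of_injOn]
    · intro R hR R' hR' h
      have hR1 := Finset.mem_filter.1 (Finset.mem_coe.1 hR)
      have hR1' := Finset.mem_filter.1 (Finset.mem_coe.1 hR')
      exact two_face_eq_of_nbr hV hR1.1 hR1'.1 hR1.2.1 hR1'.2.1 h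
    · intro w hw w' hw' h
      have hwu : w ≠ u := (mem_nbr.1 (Finset.mem_sdiff.1 (Finset.mem_coe.1 hw)).1).1
      have h2 : w ∈ ({u, w'} : Finset E) := by
        have h3 : ({u, w} : Finset E) = {u, w'} := h
        rw [← h3]
        simp
      rw [Finset.mem_insert, Finset.mem_singleton] at h2
      rcases h2 with h2 | h2
      · exact absurd h2 hwu
      · exact h2
  have h2 := card_outN hV h4 hs he
  have h3 := card_outR hV h4 hs he
  omega

/-- The new bars are indeed bars if the apices are chosen well. -/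
theorem newB_subset (hV : ConvPos V) (h4 : adim V = 4)
    (ha : ∀ R ∈ outR V {u, v} u, a R ∈ nbr R u) : newB V {u, v} u ⊆ bars V a := by
  intro B hB
  rw [newB, Finset.mem_union, Finset.mem_image, Finset.mem_image] at hB
  rcases hB with ⟨w, hw, rfl⟩ | ⟨R, hR, rfl⟩
  · have hw' := (Finset.mem_sdiff.1 hw).1
    exact Finset.mem_union_left _ ((mem_nbr_iff_edge hV (mem_nbr.1 hw').1.symm).1 hw')
  · have hR' := Finset.mem_filter.1 hR
    exact nbr_mem_bars hV hR'.1 hR'.2.1 (ha R hR)

theorem subset_of_mem_newB {B : Finset E} (hB : B ∈ newB V {u, v} u) :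
    B ⊆ insert u (nbr V u) := by
  rw [newB, Finset.mem_union, Finset.mem_image, Finset.mem_image] at hB
  rcases hB with ⟨w, hw, rfl⟩ | ⟨R, hR, rfl⟩
  · have hw' := (Finset.mem_sdiff.1 hw).1
    intro x hx
    rw [Finset.mem_insert, Finset.mem_singleton] at hx
    rcases hx with rfl | rfl
    · exact Finset.mem_insert_self _ _
    · exact Finset.mem_insert_of_mem hw'
  · have hR' := Finset.mem_filter.1 hR
    rw [nbr_face (mem_faces.1 hR'.1).1 hR'.2.1]
    exact fun x hx => Finset.mem_insert_of_mem (Finset.mem_inter.1 hx).2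

theorem disjoint_newB (hV : ConvPos V) (h4 : adim V = 4) (hs : SimpleFacets V)
    (he : ({u, v} : Finset E) ∈ faces V 1) :
    Disjoint (newB V {u, v} u) (starB V {u, v} a) := by
  rw [Finset.disjoint_left]
  intro B hB hB'
  obtain ⟨-, F, hF, hBF⟩ := Finset.mem_filter.1 hB'
  have hF' := su_mem_above.1 hF
  have huF : u ∈ F := hF'.2.2 (by simp)
  rw [newB, Finset.mem_union, Finset.mem_image, Finset.mem_image] at hB
  rcases hB with ⟨w, hw, rfl⟩ | ⟨R, hR, rfl⟩
  · exact (Finset.mem_sdiff.1 hw).2 (su_mem_starV.2 ⟨F, hF, hBF (by simp)⟩)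
  · obtain ⟨hR2, huR, hRn⟩ := Finset.mem_filter.1 hR
    obtain ⟨hRf, hRd⟩ := mem_faces.1 hR2
    refine hRn F hF ?_
    have h1 : insert u (nbr R u) ⊆ R ∩ F := by
      intro x hx
      rw [Finset.mem_insert] at hx
      rcases hx with rfl | hx
      · exact Finset.mem_inter.2 ⟨huR, huF⟩
      · exact Finset.mem_inter.2 ⟨Finset.mem_of_mem_erase (nbr_subset hx), hBF hx⟩
    have h2 : FaceSet V (R ∩ F) := hRf.inter hF'.1 ⟨u, h1 (Finset.mem_insert_self _ _)⟩
    have h3 := adim_mono h1
    rw [adim_insert_nbr (hV.mono hRf.2.1) huR] at h3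
    exact Finset.inter_eq_left.1 (h2.eq_of_adim Finset.inter_subset_left hRf.2.1 h3)

theorem disjoint_starD (hV : ConvPos V) (h4 : adim V = 4) (hs : SimpleFacets V)
    (he : ({u, v} : Finset E) ∈ faces V 1) :
    Disjoint (insert u (nbr V u)) (starD V {u, v}) := by
  rw [Finset.disjoint_left]
  intro x hx hx'
  obtain ⟨hxS, hxR⟩ := Finset.mem_filter.1 hx'
  rw [Finset.mem_insert] at hx
  rcases hx with rfl | hx
  · obtain ⟨R, hR⟩ := su_above_nonempty h4 he (i := 2) (by omega) (by omega)
    exact hxR R hR ((su_mem_above.1 hR).2.2 (by simp))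
  · obtain ⟨R, hR, hxR'⟩ := exists_above_two_of_nbr hV h4 hs he hx hxS
    exact hxR R hR hxR'

end

end Pool.Agent.FV
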