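import Pool.Agent.Lib.MP_e9c977_fv.EndGame

/-!
# Row TH: three-dimensional configurations in any space are braced by their 2-faces
-/

namespace Pool.Agent.FV

open Module
open scoped Classical

variable {E : Type} [NormedAddCommGroup E] [InnerProductSpace ℝ E]

namespace THAux

/-- Differences of points of `S`, as elements of the direction of `V`. -/
def dif (V S : Finset E) : Set (vectorSpan ℝ (V : Set E)) :=
  {z | ∃ x ∈ S, ∃ y ∈ S, (z : E) = x - y}

theorem vectorSpan_eq_map {V S : Finset E} (hS : S ⊆ V) :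
    vectorSpan ℝ (S : Set E) =
      (Submodule.span ℝ (dif V S)).map (vectorSpan ℝ (V : Set E)).subtype := by
  rw [Submodule.map_span, vectorSpan_def]
  congr 1
  ext v
  constructor
  · rintro ⟨x, hx, y, hy, rfl⟩
    exact ⟨⟨x -ᵥ y, vsub_mem_vectorSpan ℝ (hS hx) (hS hy)⟩, ⟨x, hx, y, hy, rfl⟩, rfl⟩
  · rintro ⟨z, ⟨x, hx, y, hy, hz⟩, rfl⟩
    exact ⟨x, hx, y, hy, hz.symm⟩

theorem vectorSpan_image_eq_map {E' : Type} [NormedAddCommGroup E'] [InnerProductSpace ℝ E']
    {V S : Finset E} (hS : S ⊆ V) (φ : E → E') (L : vectorSpan ℝ (V : Set E) ≃ₗᵢ[ℝ] E')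
    (hφ : ∀ x ∈ V, ∀ y ∈ V, ∀ z : vectorSpan ℝ (V : Set E), (z : E) = x - y →
      φ x - φ y = L z) :
    vectorSpan ℝ ((S.image φ : Finset E') : Set E') =
      (Submodule.span ℝ (dif V S)).map (L.toLinearEquiv : vectorSpan ℝ (V : Set E) →ₗ[ℝ] E') := by
  rw [Submodule.map_span, vectorSpan_def]
  congr 1
  ext v
  constructor
  · rintro ⟨x', hx', y', hy', rfl⟩
    obtain ⟨x, hx, rfl⟩ := Finset.mem_image.1 (Finset.mem_coe.1 hx')
    obtain ⟨y, hy, rfl⟩ := Finset.mem_image.1 (Finset.mem_coe.1 hy')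
    refine ⟨⟨x -ᵥ y, vsub_mem_vectorSpan ℝ (hS hx) (hS hy)⟩, ⟨x, hx, y, hy, rfl⟩, ?_⟩
    exact (hφ x (hS hx) y (hS hy) _ rfl).symm
  · rintro ⟨z, ⟨x, hx, y, hy, hz⟩, rfl⟩
    refine ⟨φ x, Finset.mem_coe.2 (Finset.mem_image_of_mem _ hx), φ y,
      Finset.mem_coe.2 (Finset.mem_image_of_mem _ hy), ?_⟩
    exact hφ x (hS hx) y (hS hy) z hz

instance finiteDimensional_vectorSpan_finset (V : Finset E) :
    FiniteDimensional ℝ (vectorSpan ℝ (V : Set E)) :=
  finiteDimensional_vectorSpan_of_finite ℝ V.finite_toSet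

end THAux

open THAux

/-- Transport along an affine isometry. -/
theorem faceSet_image {E' : Type} [NormedAddCommGroup E'] [InnerProductSpace ℝ E']
    {V : Finset E} (φ : E → E') (L : vectorSpan ℝ (V : Set E) ≃ₗᵢ[ℝ] E')
    (hφ : ∀ x ∈ V, ∀ y ∈ V, ∀ z : vectorSpan ℝ (V : Set E), (z : E) = x - y → φ x - φ y = L z) :
    Set.InjOn φ (V : Set E) ∧ (∀ S ⊆ V, adim (S.image φ) = adim S) ∧
      ∀ S ⊆ V, (FaceSet (V.image φ) (S.image φ) ↔ FaceSet V S) := by
  have hinj : Set.InjOn φ (V : Set E) := by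
    intro x hx y hy hxy
    have h1 := hφ x hx y hy ⟨x -ᵥ y, vsub_mem_vectorSpan ℝ hx hy⟩ rfl
    rw [hxy, sub_self] at h1
    have h2 : (⟨x -ᵥ y, vsub_mem_vectorSpan ℝ hx hy⟩ : vectorSpan ℝ (V : Set E)) = 0 := by
      apply L.injective
      rw [← h1, map_zero]
    have h3 : x -ᵥ y = 0 := by
      have := congrArg Subtype.val h2
      exact this
    exact vsub_eq_zero_iff_eq.1 h3
  refine ⟨hinj, ?_, ?_⟩
  · intro S hS
    unfold adim
    rw [vectorSpan_image_eq_map hS φ L hφ, vectorSpan_eq_map hS]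
    rw [LinearEquiv.finrank_map_eq]
    exact (LinearEquiv.finrank_eq (Submodule.equivMapOfInjective
      (vectorSpan ℝ (V : Set E)).subtype (Submodule.injective_subtype _) _))
  · intro S hS
    have hmem : ∀ x ∈ V, (φ x ∈ S.image φ ↔ x ∈ S) := by
      intro x hx
      constructor
      · intro h
        obtain ⟨y, hy, hyx⟩ := Finset.mem_image.1 h
        rwa [← hinj (hS hy) hx hyx]
      · exact fun h => Finset.mem_image_of_mem _ h
    constructor
    · rintro ⟨hne, -, l', c', hle, hiff⟩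
      have hSne : S.Nonempty := Finset.image_nonempty.1 hne
      obtain ⟨x0, hx0⟩ := hSne
      let P : E →ₗ[ℝ] vectorSpan ℝ (V : Set E) :=
        ((vectorSpan ℝ (V : Set E)).orthogonalProjectionOnto : E →L[ℝ] _)
      let l : E →ₗ[ℝ] ℝ := l' ∘ₗ (L.toLinearEquiv : vectorSpan ℝ (V : Set E) →ₗ[ℝ] E') ∘ₗ P
      have hl : ∀ x ∈ V, l x = l x0 + (l' (φ x) - l' (φ x0)) := by
        intro x hx
        have h1 : P (x - x0) = ⟨x -ᵥ x0, vsub_mem_vectorSpan ℝ hx (hS hx0)⟩ :=
          Submodule.orthogonalProjectionOnto_mem_subspace_eq_self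
            (⟨x -ᵥ x0, vsub_mem_vectorSpan ℝ hx (hS hx0)⟩ : vectorSpan ℝ (V : Set E))
        have h2 : l (x - x0) = l' (φ x - φ x0) := by
          show l' (L (P (x - x0))) = _
          rw [h1, hφ x hx x0 (hS hx0) ⟨x -ᵥ x0, vsub_mem_vectorSpan ℝ hx (hS hx0)⟩ rfl]
        rw [map_sub, map_sub] at h2
        linarith
      refine ⟨⟨x0, hx0⟩, hS, l, l x0 + (c' - l' (φ x0)), ?_, ?_⟩
      · intro x hx
        have h1 := hle (φ x) (Finset.mem_image_of_mem _ hx)
        rw [hl x hx]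
        linarith
      · intro x hx
        rw [hl x hx, ← hmem x hx, ← hiff (φ x) (Finset.mem_image_of_mem _ hx)]
        constructor
        · intro h; linarith
        · intro h; linarith
    · rintro ⟨hne, -, l, c, hle, hiff⟩
      obtain ⟨x0, hx0⟩ := hne
      let l' : E' →ₗ[ℝ] ℝ := l ∘ₗ (vectorSpan ℝ (V : Set E)).subtype ∘ₗ
        (L.symm.toLinearEquiv : E' →ₗ[ℝ] vectorSpan ℝ (V : Set E))
      have hl : ∀ x ∈ V, l' (φ x) = l' (φ x0) + (l x - l x0) := by
        intro x hx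
        have h1 := hφ x hx x0 (hS hx0) ⟨x -ᵥ x0, vsub_mem_vectorSpan ℝ hx (hS hx0)⟩ rfl
        have h2 : l' (φ x - φ x0) = l (x - x0) := by
          rw [h1]
          show l ((L.symm (L _) : vectorSpan ℝ (V : Set E)) : E) = _
          rw [L.symm_apply_apply]
          rfl
        rw [map_sub, map_sub] at h2
        linarith
      refine ⟨⟨φ x0, Finset.mem_image_of_mem _ hx0⟩, Finset.image_subset_image hS, l',
        l' (φ x0) + (c - l x0), ?_, ?_⟩
      · intro y hy
        obtain ⟨x, hx, rfl⟩ := Finset.mem_image.1 hy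
        have h1 := hle x hx
        rw [hl x hx]
        linarith
      · intro y hy
        obtain ⟨x, hx, rfl⟩ := Finset.mem_image.1 hy
        rw [hl x hx, hmem x hx, ← hiff x hx]
        constructor
        · intro h; linarith
        · intro h; linarith

theorem THAux.transport {E' : Type} [NormedAddCommGroup E'] [InnerProductSpace ℝ E']
    (hE' : ∀ V' : Finset E', ConvPos V' → adim V' = 3 → ∀ q' : E' → E',
      (∀ R ∈ faces V' 2, Braced q' R) → Braced q' V')
    {V : Finset E} (hV : ConvPos V) (h3 : adim V = 3)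
    (L : vectorSpan ℝ (V : Set E) ≃ₗᵢ[ℝ] E') {q : E → E}
    (hq : ∀ R ∈ faces V 2, Braced q R) : Braced q V := by
  let P : E →ₗ[ℝ] vectorSpan ℝ (V : Set E) :=
    ((vectorSpan ℝ (V : Set E)).orthogonalProjectionOnto : E →L[ℝ] _)
  have hP : ∀ z : vectorSpan ℝ (V : Set E), P (z : E) = z := fun z =>
    Submodule.orthogonalProjectionOnto_mem_subspace_eq_self z
  let φ : E → E' := fun x => L (P x)
  have hφ : ∀ x ∈ V, ∀ y ∈ V, ∀ z : vectorSpan ℝ (V : Set E), (z : E) = x - y →
      φ x - φ y = L z := by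
    intro x _ y _ z hz
    show L (P x) - L (P y) = L z
    rw [← map_sub, ← map_sub, ← hz, hP]
  obtain ⟨hinj, hadim, hface⟩ := faceSet_image φ L hφ
  let q' : E' → E' := fun y => if h : ∃ x ∈ V, φ x = y then L (P (q h.choose)) else 0
  have hq' : ∀ x ∈ V, q' (φ x) = L (P (q x)) := by
    intro x hx
    have h : ∃ x' ∈ V, φ x' = φ x := ⟨x, hx, rfl⟩
    have h1 : h.choose = x := hinj h.choose_spec.1 hx h.choose_spec.2
    show (if h : ∃ x' ∈ V, φ x' = φ x then L (P (q h.choose)) else 0) = _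
    rw [dif_pos h, h1]
  have hinner : ∀ x ∈ V, ∀ y ∈ V,
      inner ℝ (φ x - φ y) (q' (φ x) - q' (φ y)) = inner ℝ (x - y) (q x - q y) := by
    intro x hx y hy
    rw [hq' x hx, hq' y hy, hφ x hx y hy ⟨x -ᵥ y, vsub_mem_vectorSpan ℝ hx hy⟩ rfl, ← map_sub,
      ← map_sub, LinearIsometryEquiv.inner_map_map]
    exact Submodule.inner_orthogonalProjectionOnto_eq_of_mem_left
      (⟨x -ᵥ y, vsub_mem_vectorSpan ℝ hx hy⟩ : vectorSpan ℝ (V : Set E)) (q x - q y)
  have hbr : ∀ S ⊆ V, (Braced q' (S.image φ) ↔ Braced q S) := by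
    intro S hS
    constructor
    · intro h x hx y hy
      rw [← hinner x (hS hx) y (hS hy)]
      exact h _ (Finset.mem_image_of_mem _ hx) _ (Finset.mem_image_of_mem _ hy)
    · intro h x' hx' y' hy'
      obtain ⟨x, hx, rfl⟩ := Finset.mem_image.1 hx'
      obtain ⟨y, hy, rfl⟩ := Finset.mem_image.1 hy'
      rw [hinner x (hS hx) y (hS hy)]
      exact h x hx y hy
  have hmain : Braced q' (V.image φ) := by
    apply hE'
    · intro y hy
      obtain ⟨x, hx, rfl⟩ := Finset.mem_image.1 hy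
      have h1 := (hface {x} (by simpa using hx)).2 (hV x hx)
      rwa [Finset.image_singleton] at h1
    · rw [hadim V (Finset.Subset.refl _), h3]
    · intro R' hR'
      rw [mem_faces] at hR'
      have hR'V : R' ⊆ V.image φ := hR'.1.2.1
      have hR : R' = (V.filter (fun x => φ x ∈ R')).image φ := by
        ext y
        constructor
        · intro hy
          obtain ⟨x, hx, rfl⟩ := Finset.mem_image.1 (hR'V hy)
          exact Finset.mem_image_of_mem _ (Finset.mem_filter.2 ⟨hx, hy⟩)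
        · intro hy
          obtain ⟨x, hx, rfl⟩ := Finset.mem_image.1 hy
          exact (Finset.mem_filter.1 hx).2
      rw [hR] at hR' ⊢
      have hsub : V.filter (fun x => φ x ∈ R') ⊆ V := Finset.filter_subset _ _
      rw [hbr _ hsub]
      apply hq
      rw [mem_faces]
      exact ⟨(hface _ hsub).1 hR'.1, by rw [← hadim _ hsub]; exact hR'.2⟩
  exact (hbr V (Finset.Subset.refl _)).1 hmain

theorem braced_three {V : Finset E} (hV : ConvPos V) (h3 : adim V = 3) {q : E → E}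
    (hq : ∀ R ∈ faces V 2, Braced q R) : Braced q V := by
  have hdim : finrank ℝ (vectorSpan ℝ (V : Set E)) = 3 := h3
  let L : vectorSpan ℝ (V : Set E) ≃ₗᵢ[ℝ] E3 :=
    ((stdOrthonormalBasis ℝ (vectorSpan ℝ (V : Set E))).reindex (finCongr hdim)).repr
  exact THAux.transport (fun V' h1 h2 q' h3 => braced_E3 h1 h2 h3) hV h3 L hq

end Pool.Agent.FV
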