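import Pool.Agent.Lib.MP_e9c977_fv.Graph

/-!
# Row VF: vertex figures
-/

namespace Pool.Agent.FV

open Module
open scoped Classical

noncomputable section

variable {E : Type} [NormedAddCommGroup E] [InnerProductSpace ℝ E]

/-- Radial projection from `u`. -/
def rad (g : E →ₗ[ℝ] ℝ) (u x : E) : E := (g (x - u))⁻¹ • (x - u)

/-- The vertex figure at `u`. -/
def vfig (g : E →ₗ[ℝ] ℝ) (V : Finset E) (u : E) : Finset E := (nbr V u).image (rad g u)

/-- `g` cuts off the vertex `u`. -/
def Cuts (g : E →ₗ[ℝ] ℝ) (V : Finset E) (u : E) : Prop := ∀ x ∈ V, x ≠ u → 0 < g (x - u)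

theorem exists_cuts {V : Finset E} (hV : ConvPos V) {u : E} (hu : u ∈ V) :
    ∃ g : E →ₗ[ℝ] ℝ, Cuts g V u := by
  obtain ⟨_, _, l, c, hle, heq⟩ := hV u hu
  refine ⟨-l, fun x hx hxu => ?_⟩
  have h1 : l u = c := (heq u hu).2 (Finset.mem_singleton_self u)
  have h2 : l x < c := lt_of_le_of_ne (hle x hx) fun e =>
    hxu (Finset.mem_singleton.1 ((heq x hx).1 e))
  simp only [LinearMap.neg_apply, map_sub]
  linarith

private theorem vf_mem {V : Finset E} {u w : E} (hw : w ∈ nbr V u) : w ∈ V ∧ w ≠ u :=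
  ⟨(Finset.mem_erase.1 (nbr_subset hw)).2, (Finset.mem_erase.1 (nbr_subset hw)).1⟩

private theorem vf_pos {V : Finset E} {u w : E} {g : E →ₗ[ℝ] ℝ} (hg : Cuts g V u)
    (hw : w ∈ nbr V u) : 0 < g (w - u) :=
  hg w (vf_mem hw).1 (vf_mem hw).2

private theorem vf_height {V : Finset E} {u w : E} {g : E →ₗ[ℝ] ℝ} (hg : Cuts g V u)
    (hw : w ∈ nbr V u) : g (rad g u w) = 1 := by
  have h := vf_pos hg hw
  simp only [rad, map_smul, smul_eq_mul]
  exact inv_mul_cancel₀ h.ne'

private theorem vf_rad {V : Finset E} {u w : E} {g : E →ₗ[ℝ] ℝ} (hg : Cuts g V u)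
    (hw : w ∈ nbr V u) : w - u = g (w - u) • rad g u w := by
  have h := vf_pos hg hw
  rw [rad, smul_smul, mul_inv_cancel₀ h.ne', one_smul]

private theorem vf_adim_eq {S : Finset E} {u : E} (hu : u ∈ S) :
    adim S = finrank ℝ (Submodule.span ℝ ((fun x => x - u) '' (S : Set E))) := by
  unfold adim
  rw [vectorSpan_eq_span_vsub_set_right ℝ (Finset.mem_coe.2 hu)]
  rfl

private theorem vf_span_height {P : Finset E} (hP : P.Nonempty) (g : E →ₗ[ℝ] ℝ)
    (h : ∀ p ∈ P, g p = 1) :
    finrank ℝ (Submodule.span ℝ (P : Set E)) = adim P + 1 := by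
  obtain ⟨p, hp⟩ := hP
  have hle : vectorSpan ℝ (P : Set E) ≤ LinearMap.ker g := by
    rw [vectorSpan, Submodule.span_le]
    rintro _ ⟨x, hx, y, hy, rfl⟩
    simp only [vsub_eq_sub, SetLike.mem_coe, LinearMap.mem_ker, map_sub]
    rw [h x hx, h y hy, sub_self]
  have hsup : Submodule.span ℝ (P : Set E) = vectorSpan ℝ (P : Set E) ⊔ Submodule.span ℝ {p} := by
    refine le_antisymm ?_ (sup_le ?_ ?_)
    · rw [Submodule.span_le]
      intro x hx
      have h1 : x - p ∈ vectorSpan ℝ (P : Set E) :=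
        vsub_mem_vectorSpan ℝ hx (Finset.mem_coe.2 hp)
      have h2 : x = (x - p) + p := by abel
      rw [h2]
      exact Submodule.add_mem_sup h1 (Submodule.mem_span_singleton_self p)
    · rw [vectorSpan, Submodule.span_le]
      rintro _ ⟨x, hx, y, hy, rfl⟩
      exact Submodule.sub_mem _ (Submodule.subset_span hx) (Submodule.subset_span hy)
    · exact Submodule.span_mono (by simpa using hp)
  have hfd : FiniteDimensional ℝ (vectorSpan ℝ (P : Set E)) :=
    finiteDimensional_vectorSpan_of_finite ℝ P.finite_toSet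
  have hp0 : p ≠ 0 := by
    intro e
    have := h p hp
    rw [e, map_zero] at this
    exact zero_ne_one this
  have hinf : vectorSpan ℝ (P : Set E) ⊓ Submodule.span ℝ {p} = ⊥ := by
    rw [eq_bot_iff]
    intro x hx
    obtain ⟨h1, h2⟩ := Submodule.mem_inf.1 hx
    obtain ⟨a, rfl⟩ := Submodule.mem_span_singleton.1 h2
    have h3 : g (a • p) = 0 := hle h1
    rw [map_smul, h p hp, smul_eq_mul, mul_one] at h3
    rw [h3, zero_smul]
    exact Submodule.zero_mem _
  have hdim := Submodule.finrank_sup_add_finrank_inf_eq (vectorSpan ℝ (P : Set E))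
    (Submodule.span ℝ {p})
  rw [hinf, finrank_bot, add_zero, ← hsup, finrank_span_singleton hp0] at hdim
  exact hdim

private theorem vf_span_eq {V : Finset E} {u : E} {g : E →ₗ[ℝ] ℝ} (hV : ConvPos V) (hu : u ∈ V)
    (hg : Cuts g V u) :
    Submodule.span ℝ (((nbr V u).image (rad g u) : Finset E) : Set E)
      = vectorSpan ℝ (V : Set E) := by
  rw [← vectorSpan_insert_nbr hV hu,
    vectorSpan_eq_span_vsub_set_right ℝ (Finset.mem_coe.2 (Finset.mem_insert_self u (nbr V u)))]
  refine le_antisymm ?_ ?_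
  · rw [Submodule.span_le]
    intro y hy
    obtain ⟨w, hw, rfl⟩ := Finset.mem_image.1 (Finset.mem_coe.1 hy)
    refine Submodule.smul_mem _ _ (Submodule.subset_span ⟨w, ?_, rfl⟩)
    exact Finset.mem_coe.2 (Finset.mem_insert_of_mem hw)
  · rw [Submodule.span_le]
    rintro _ ⟨x, hx, rfl⟩
    rw [Finset.mem_coe, Finset.mem_insert] at hx
    rcases hx with rfl | hx
    · simp only [vsub_self]
      exact Submodule.zero_mem _
    · show x - u ∈ _
      rw [vf_rad hg hx]
      exact Submodule.smul_mem _ _ (Submodule.subset_span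
        (Finset.mem_coe.2 (Finset.mem_image_of_mem _ hx)))

variable {V : Finset E} {u : E} {g : E →ₗ[ℝ] ℝ}

theorem rad_injOn (hV : ConvPos V) (hu : u ∈ V) (hg : Cuts g V u) :
    Set.InjOn (rad g u) (nbr V u : Set E) := by
  intro w hw w' hw' he
  by_contra hne
  rw [Finset.mem_coe] at hw hw'
  have h2 := hV.adim_triple hu (vf_mem hw).1 (vf_mem hw').1 (vf_mem hw).2.symm
    (vf_mem hw').2.symm hne
  rw [vf_adim_eq (Finset.mem_insert_self u {w, w'})] at h2
  have hle : Submodule.span ℝ ((fun x => x - u) '' (({u, w, w'} : Finset E) : Set E))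
      ≤ Submodule.span ℝ {rad g u w} := by
    rw [Submodule.span_le]
    rintro _ ⟨x, hx, rfl⟩
    rw [Finset.mem_coe, Finset.mem_insert, Finset.mem_insert, Finset.mem_singleton] at hx
    rcases hx with rfl | rfl | rfl
    · simp only [sub_self]
      exact Submodule.zero_mem _
    · show x - u ∈ _
      rw [vf_rad hg hw]
      exact Submodule.smul_mem _ _ (Submodule.mem_span_singleton_self _)
    · show x - u ∈ _
      rw [vf_rad hg hw', ← he]
      exact Submodule.smul_mem _ _ (Submodule.mem_span_singleton_self _)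
  have h3 := Submodule.finrank_mono hle
  have h4 := finrank_span_le_card (R := ℝ) ({rad g u w} : Set E)
  simp only [Set.toFinset_singleton, Finset.card_singleton] at h4
  omega

theorem card_vfig (hV : ConvPos V) (hu : u ∈ V) (hg : Cuts g V u) :
    (vfig g V u).card = (nbr V u).card :=
  Finset.card_image_of_injOn (rad_injOn hV hu hg)

private theorem vf_mem_vface {V : Finset E} {u : E} {g : E →ₗ[ℝ] ℝ} (hV : ConvPos V)
    (hu : u ∈ V) (hg : Cuts g V u) {S : Finset E} {w : E} (hw : w ∈ nbr V u) :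
    rad g u w ∈ (S ∩ nbr V u).image (rad g u) ↔ w ∈ S := by
  constructor
  · intro h
    obtain ⟨x, hx, he⟩ := Finset.mem_image.1 h
    rw [Finset.mem_inter] at hx
    rw [← rad_injOn hV hu hg (Finset.mem_coe.2 hx.2) (Finset.mem_coe.2 hw) he]
    exact hx.1
  · intro h
    exact Finset.mem_image_of_mem _ (Finset.mem_inter.2 ⟨h, hw⟩)

private theorem vf_face {V : Finset E} {u : E} {g : E →ₗ[ℝ] ℝ} (hV : ConvPos V)
    (hu : u ∈ V) (hg : Cuts g V u) {S : Finset E} (hS : FaceSet V S) (huS : u ∈ S)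
    (hne : (S ∩ nbr V u).Nonempty) :
    FaceSet (vfig g V u) ((S ∩ nbr V u).image (rad g u)) := by
  obtain ⟨_, hSV, m, d, hle, heq⟩ := hS
  have hmu : m u = d := (heq u hu).2 huS
  refine ⟨hne.image _, Finset.image_subset_image Finset.inter_subset_right, m, 0, ?_, ?_⟩
  · intro y hy
    obtain ⟨w, hw, rfl⟩ := Finset.mem_image.1 hy
    have h1 := vf_pos hg hw
    have h2 := hle w (vf_mem hw).1
    simp only [rad, map_smul, smul_eq_mul]
    refine mul_nonpos_of_nonneg_of_nonpos (inv_nonneg.2 h1.le) ?_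
    rw [map_sub]
    linarith
  · intro y hy
    obtain ⟨w, hw, rfl⟩ := Finset.mem_image.1 hy
    rw [vf_mem_vface hV hu hg hw, ← heq w (vf_mem hw).1]
    have h1 := vf_pos hg hw
    simp only [rad, map_smul, smul_eq_mul, mul_eq_zero, inv_eq_zero, h1.ne', false_or]
    rw [map_sub]
    constructor
    · intro e; linarith
    · intro e; linarith

theorem convPos_vfig (hV : ConvPos V) (hu : u ∈ V) (hg : Cuts g V u) : ConvPos (vfig g V u) := by
  intro y hy
  obtain ⟨w, hw, rfl⟩ := Finset.mem_image.1 hy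
  have hS : FaceSet V {u, w} := (mem_nbr.1 hw).2
  have hinter : ({u, w} : Finset E) ∩ nbr V u = {w} := by
    ext x
    simp only [Finset.mem_inter, Finset.mem_insert, Finset.mem_singleton]
    constructor
    · rintro ⟨rfl | rfl, hx⟩
      · exact absurd rfl (vf_mem hx).2
      · rfl
    · rintro rfl
      exact ⟨Or.inr rfl, hw⟩
  have h := vf_face hV hu hg hS (Finset.mem_insert_self u {w})
    (by rw [hinter]; exact Finset.singleton_nonempty w)
  rw [hinter, Finset.image_singleton] at h
  exact h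

theorem adim_vfig (hV : ConvPos V) (hu : u ∈ V) (hg : Cuts g V u) (h : 1 ≤ adim V) :
    adim (vfig g V u) + 1 = adim V := by
  have hne : (vfig g V u).Nonempty := by
    rw [← Finset.card_pos, card_vfig hV hu hg]
    have := adim_le_card_nbr hV hu
    omega
  have h1 := vf_span_height hne g (by
    intro p hp
    obtain ⟨w, hw, rfl⟩ := Finset.mem_image.1 hp
    exact vf_height hg hw)
  have h2 : Submodule.span ℝ ((vfig g V u : Finset E) : Set E) = vectorSpan ℝ (V : Set E) :=
    vf_span_eq hV hu hg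
  rw [h2] at h1
  exact h1.symm

/-- The face of the vertex figure belonging to the face `S` of `V`. -/
def vface (g : E →ₗ[ℝ] ℝ) (V : Finset E) (u : E) (S : Finset E) : Finset E :=
  (S ∩ nbr V u).image (rad g u)

theorem vface_eq (hV : ConvPos V) (hu : u ∈ V) (hg : Cuts g V u) {S : Finset E}
    (hS : FaceSet V S) (huS : u ∈ S) : vface g V u S = vfig g S u := by
  unfold vface vfig
  rw [nbr_face hS huS]

private theorem vf_cuts {V S : Finset E} {u : E} {g : E →ₗ[ℝ] ℝ} (hg : Cuts g V u)
    (h : S ⊆ V) : Cuts g S u := fun x hx => hg x (h hx)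

theorem faceSet_vface (hV : ConvPos V) (hu : u ∈ V) (hg : Cuts g V u) {S : Finset E}
    (hS : FaceSet V S) (huS : u ∈ S) (h : 1 ≤ adim S) : FaceSet (vfig g V u) (vface g V u S) := by
  refine vf_face hV hu hg hS huS ?_
  rw [← nbr_face hS huS, ← Finset.card_pos]
  have := adim_le_card_nbr (hV.mono hS.2.1) huS
  omega

theorem adim_vface (hV : ConvPos V) (hu : u ∈ V) (hg : Cuts g V u) {S : Finset E}
    (hS : FaceSet V S) (huS : u ∈ S) (h : 1 ≤ adim S) : adim (vface g V u S) + 1 = adim S := by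
  rw [vface_eq hV hu hg hS huS]
  exact adim_vfig (hV.mono hS.2.1) huS (vf_cuts hg hS.2.1) h

theorem card_vface (hV : ConvPos V) (hu : u ∈ V) (hg : Cuts g V u) {S : Finset E}
    (hS : FaceSet V S) (huS : u ∈ S) : (vface g V u S).card = (nbr S u).card := by
  rw [vface_eq hV hu hg hS huS]
  exact card_vfig (hV.mono hS.2.1) huS (vf_cuts hg hS.2.1)

private theorem vf_subset_iff {V : Finset E} {u : E} {g : E →ₗ[ℝ] ℝ} (hV : ConvPos V)
    (hu : u ∈ V) (hg : Cuts g V u) {S T : Finset E}
    (hS : FaceSet V S) (huS : u ∈ S) (hT : FaceSet V T) (huT : u ∈ T) :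
    vface g V u S ⊆ vface g V u T ↔ S ⊆ T := by
  constructor
  · intro h
    have h1 : nbr S u ⊆ T := by
      intro w hw
      have hw' := hw
      rw [nbr_face hS huS, Finset.mem_inter] at hw'
      have h2 : rad g u w ∈ vface g V u T :=
        h ((vf_mem_vface hV hu hg hw'.2).2 hw'.1)
      exact (vf_mem_vface hV hu hg hw'.2).1 h2
    have h2 : vectorSpan ℝ (S : Set E) ≤ vectorSpan ℝ (T : Set E) := by
      rw [← vectorSpan_insert_nbr (hV.mono hS.2.1) huS]
      refine vectorSpan_mono ℝ ?_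
      intro x hx
      rw [Finset.mem_coe, Finset.mem_insert] at hx
      rcases hx with rfl | hx
      · exact Finset.mem_coe.2 huT
      · exact Finset.mem_coe.2 (h1 hx)
    intro x hx
    refine hT.mem_of_mem_affineSpan (hS.2.1 hx) ?_
    have h3 : x - u ∈ (affineSpan ℝ (T : Set E)).direction := by
      rw [direction_affineSpan]
      exact h2 (vsub_mem_vectorSpan ℝ (Finset.mem_coe.2 hx) (Finset.mem_coe.2 huS))
    have h4 := AffineSubspace.vadd_mem_of_mem_direction h3
      (subset_affineSpan ℝ _ (Finset.mem_coe.2 huT))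
    simpa using h4
  · intro h
    exact Finset.image_subset_image (Finset.inter_subset_inter_right h)

theorem vface_injOn (hV : ConvPos V) (hu : u ∈ V) (hg : Cuts g V u) {S T : Finset E}
    (hS : FaceSet V S) (huS : u ∈ S) (hT : FaceSet V T) (huT : u ∈ T)
    (h : vface g V u S = vface g V u T) : S = T :=
  Finset.Subset.antisymm ((vf_subset_iff hV hu hg hS huS hT huT).1 h.le)
    ((vf_subset_iff hV hu hg hT huT hS huS).1 h.ge)

theorem vface_subset_iff (hV : ConvPos V) (hu : u ∈ V) (hg : Cuts g V u) {S T : Finset E}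
    (hS : FaceSet V S) (huS : u ∈ S) (hT : FaceSet V T) (huT : u ∈ T) :
    vface g V u S ⊆ vface g V u T ↔ S ⊆ T :=
  vf_subset_iff hV hu hg hS huS hT huT

theorem exists_vface (hV : ConvPos V) (hu : u ∈ V) (hg : Cuts g V u) {U : Finset E}
    (hU : FaceSet (vfig g V u) U) : ∃ S, FaceSet V S ∧ u ∈ S ∧ 1 ≤ adim S ∧ vface g V u S = U := by
  obtain ⟨⟨y0, hy0⟩, hUV, m, d, hle, heq⟩ := hU
  have hval : ∀ w ∈ nbr V u, (m - d • g) (w - u) = g (w - u) * (m (rad g u w) - d) := by
    intro w hw
    conv_lhs => rw [vf_rad hg hw]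
    simp only [LinearMap.sub_apply, LinearMap.smul_apply, map_smul, smul_eq_mul,
      vf_height hg hw]
    ring
  have hnb : ∀ w ∈ nbr V u, (m - d • g) w ≤ (m - d • g) u := by
    intro w hw
    have h1 := hval w hw
    have h2 := hle (rad g u w) (Finset.mem_image_of_mem _ hw)
    have h3 := vf_pos hg hw
    have h4 : g (w - u) * (m (rad g u w) - d) ≤ 0 :=
      mul_nonpos_of_nonneg_of_nonpos h3.le (by linarith)
    rw [map_sub] at h1
    linarith
  have hall := le_of_nbr hV hu (m - d • g) hnb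
  set S : Finset E := V.filter (fun x => (m - d • g) x = (m - d • g) u) with hSdef
  have huS : u ∈ S := by simp only [hSdef, Finset.mem_filter, and_true]; exact hu
  have hS : FaceSet V S := by
    refine ⟨⟨u, huS⟩, Finset.filter_subset _ _, m - d • g, (m - d • g) u, hall, ?_⟩
    intro x hx
    simp only [hSdef, Finset.mem_filter, hx, true_and]
  have hmem : ∀ w ∈ nbr V u, (w ∈ S ↔ rad g u w ∈ U) := by
    intro w hw
    rw [← heq (rad g u w) (Finset.mem_image_of_mem _ hw), hSdef, Finset.mem_filter]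
    have h1 := hval w hw
    have h3 := vf_pos hg hw
    rw [map_sub] at h1
    constructor
    · rintro ⟨_, h⟩
      rw [h, sub_self] at h1
      have h5 : m (rad g u w) - d = 0 := by
        rcases mul_eq_zero.1 h1.symm with h6 | h6
        · exact absurd h6 h3.ne'
        · exact h6
      linarith
    · intro h
      refine ⟨(vf_mem hw).1, ?_⟩
      rw [h, sub_self, mul_zero] at h1
      linarith
  have hface : vface g V u S = U := by
    ext y
    constructor
    · intro hy
      obtain ⟨w, hw, rfl⟩ := Finset.mem_image.1 hy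
      rw [Finset.mem_inter] at hw
      exact (hmem w hw.2).1 hw.1
    · intro hy
      obtain ⟨w, hw, rfl⟩ := Finset.mem_image.1 (hUV hy)
      exact Finset.mem_image_of_mem _ (Finset.mem_inter.2 ⟨(hmem w hw).2 hy, hw⟩)
  refine ⟨S, hS, huS, ?_, hface⟩
  obtain ⟨w, hw, rfl⟩ := Finset.mem_image.1 (hUV hy0)
  have hwS := (hmem w hw).2 hy0
  rw [← adim_pair (vf_mem hw).2.symm]
  refine adim_mono ?_
  intro x hx
  rw [Finset.mem_insert, Finset.mem_singleton] at hx
  rcases hx with rfl | rfl
  · exact huS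
  · exact hwS

/-- The faces of the vertex figure, counted. -/
theorem card_faces_vfig (hV : ConvPos V) (hu : u ∈ V) (hg : Cuts g V u) (i : ℕ) :
    (faces (vfig g V u) i).card = ((faces V (i + 1)).filter (fun S => u ∈ S)).card := by
  symm
  refine Finset.card_bij (fun S _ => vface g V u S) ?_ ?_ ?_
  · intro S hS
    rw [Finset.mem_filter, mem_faces] at hS
    obtain ⟨⟨hS, hd⟩, huS⟩ := hS
    rw [mem_faces]
    refine ⟨faceSet_vface hV hu hg hS huS (by omega), ?_⟩
    have := adim_vface hV hu hg hS huS (by omega)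
    omega
  · intro S hS T hT h
    rw [Finset.mem_filter, mem_faces] at hS hT
    exact vface_injOn hV hu hg hS.1.1 hS.2 hT.1.1 hT.2 h
  · intro U hU
    rw [mem_faces] at hU
    obtain ⟨S, hS, huS, h1, h2⟩ := exists_vface hV hu hg hU.1
    refine ⟨S, ?_, h2⟩
    rw [Finset.mem_filter, mem_faces]
    have := adim_vface hV hu hg hS huS h1
    rw [h2, hU.2] at this
    exact ⟨⟨hS, this.symm⟩, huS⟩

/-- Adjacency in the vertex figure: the edge belongs to a two-dimensional face of `V`. -/
theorem rad_mem_nbr (hV : ConvPos V) (hu : u ∈ V) (hg : Cuts g V u) {w w' : E}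
    (hw : w ∈ nbr V u) (hw' : w' ∈ nbr V u) (hne : w ≠ w') :
    rad g u w' ∈ nbr (vfig g V u) (rad g u w) ↔
      ∃ R ∈ faces V 2, u ∈ R ∧ w ∈ R ∧ w' ∈ R := by
  have hrad : rad g u w ≠ rad g u w' := fun e =>
    hne (rad_injOn hV hu hg (Finset.mem_coe.2 hw) (Finset.mem_coe.2 hw') e)
  rw [mem_nbr]
  constructor
  · rintro ⟨_, hF⟩
    obtain ⟨S, hS, huS, h1, h2⟩ := exists_vface hV hu hg hF
    have h3 := adim_vface hV hu hg hS huS h1
    rw [h2, adim_pair hrad] at h3
    refine ⟨S, mem_faces.2 ⟨hS, h3.symm⟩, huS, ?_, ?_⟩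
    · refine (vf_mem_vface hV hu hg hw).1 ?_
      show rad g u w ∈ vface g V u S
      rw [h2]
      exact Finset.mem_insert_self _ _
    · refine (vf_mem_vface hV hu hg hw').1 ?_
      show rad g u w' ∈ vface g V u S
      rw [h2]
      exact Finset.mem_insert_of_mem (Finset.mem_singleton_self _)
  · rintro ⟨R, hR, huR, hwR, hwR'⟩
    rw [mem_faces] at hR
    refine ⟨hrad.symm, ?_⟩
    have h1 := faceSet_vface hV hu hg hR.1 huR (by omega)
    have h2 := adim_vface hV hu hg hR.1 huR (by omega)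
    have h3 : adim (vface g V u R) = 1 := by omega
    obtain ⟨x, y, hxy, he⟩ := ((convPos_vfig hV hu hg).mono h1.2.1).card_eq_two h3
    have hm : rad g u w ∈ vface g V u R := (vf_mem_vface hV hu hg hw).2 hwR
    have hm' : rad g u w' ∈ vface g V u R := (vf_mem_vface hV hu hg hw').2 hwR'
    have h4 : vface g V u R = {rad g u w, rad g u w'} := by
      symm
      refine Finset.eq_of_subset_of_card_le ?_ ?_
      · intro z hz
        rw [Finset.mem_insert, Finset.mem_singleton] at hz
        rcases hz with rfl | rfl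
        · exact hm
        · exact hm'
      · rw [he, Finset.card_pair hxy, Finset.card_pair hrad]
    rw [← h4]
    exact h1

end

end Pool.Agent.FV
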