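import Pool.Agent.Lib.MP_e9c977_fv.Neigh
import Pool.Agent.Lib.MP_e9c977_fv.Bridge

/-!
# Row V3: the vectors `Vec5 W x`
-/

namespace Pool.Agent.FV

open Module
open scoped Classical

/-- The f-vector of a two-neighbourly 5-polytope with `W + 10` vertices whose facets have
`5 + w` vertices with `∑ w = W`, `∑ w² = x`. -/
def Vec5 (W x : ℤ) (f : Fin 5 → ℕ) : Prop :=
  (f 0 : ℤ) = W + 10 ∧ 2 * (f 1 : ℤ) = (W + 10) * (W + 9) ∧
    2 * (f 2 : ℤ) = 4 * W ^ 2 + 55 * W + 200 - x ∧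
    2 * (f 3 : ℤ) = 5 * (W + 7) * (W + 6) - 2 * x - 4 * W ∧
    2 * (f 4 : ℤ) = 2 * (W + 7) * (W + 6) - x - 3 * W

theorem vec5_exists_nat_half {m : ℤ} (h0 : 0 ≤ m) (h2 : 2 ∣ m) : ∃ k : ℕ, 2 * (k : ℤ) = m := by
  obtain ⟨j, rfl⟩ := h2
  refine ⟨j.toNat, ?_⟩
  rw [Int.toNat_of_nonneg (by omega)]

theorem exists_vec5 {W x : ℤ} (h0 : 0 ≤ W) (hx : x ≤ W ^ 2) (h2 : 2 ∣ x - W) :
    ∃ f, Vec5 W x f := by
  obtain ⟨j, hj⟩ := h2
  obtain ⟨m, hm⟩ : (2 : ℤ) ∣ W * (W + 1) := (Int.even_mul_succ_self W).two_dvd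
  have hxj : x = W + 2 * j := by linarith
  obtain ⟨k1, h1⟩ := vec5_exists_nat_half (m := (W + 10) * (W + 9)) (by positivity)
    ⟨m + 9 * W + 45, by linear_combination hm⟩
  obtain ⟨k2, h2⟩ := vec5_exists_nat_half (m := 4 * W ^ 2 + 55 * W + 200 - x) (by nlinarith)
    ⟨2 * W ^ 2 + 27 * W + 100 - j, by rw [hxj]; ring⟩
  obtain ⟨k3, h3⟩ := vec5_exists_nat_half (m := 5 * (W + 7) * (W + 6) - 2 * x - 4 * W)
    (by nlinarith) ⟨5 * (m + 6 * W + 21) - x - 2 * W, by linear_combination 5 * hm⟩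
  obtain ⟨k4, h4⟩ := vec5_exists_nat_half (m := 2 * (W + 7) * (W + 6) - x - 3 * W)
    (by nlinarith) ⟨(W + 7) * (W + 6) - 2 * W - j, by rw [hxj]; ring⟩
  obtain ⟨k0, hk0⟩ : ∃ k : ℕ, (k : ℤ) = W + 10 := ⟨(W + 10).toNat, Int.toNat_of_nonneg (by omega)⟩
  refine ⟨![k0, k1, k2, k3, k4], ?_, ?_, ?_, ?_, ?_⟩
  · simpa using hk0
  · simpa using h1
  · simpa using h2
  · simpa using h3
  · simpa using h4

theorem vec5_iff {E : Type} [NormedAddCommGroup E] [InnerProductSpace ℝ E] {V : Finset E}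
    (hV : ConvPos V) (h5 : adim V = 5) (hN : Nbly V) {W x : ℤ} (hn : (V.card : ℤ) = W + 10) :
    Vec5 W x (fun i => (faces V (i : ℕ)).card) ↔
      ∑ F ∈ faces V 4, ((F.card : ℤ) - 5) = W ∧ ∑ F ∈ faces V 4, ((F.card : ℤ) - 5) ^ 2 = x := by
  have h0 := card_faces_zero hV
  have h1 := (nbly_iff_card hV).1 hN
  have hsq := Nbly.sum_sq hV h5 hN
  have hvf := Nbly.sum_vfig hV h5 hN
  have he := euler_five hV h5
  have e1 : ∑ F ∈ faces V 4, ((F.card : ℤ) - 5)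
      = (∑ F ∈ faces V 4, F.card : ℕ) - 5 * ((faces V 4).card : ℤ) := by
    rw [Finset.sum_sub_distrib, Finset.sum_const]
    push_cast
    simp
    ring
  have e2 : ∑ F ∈ faces V 4, ((F.card : ℤ) - 5) ^ 2
      = (∑ F ∈ faces V 4, F.card ^ 2 : ℕ) - 10 * (∑ F ∈ faces V 4, F.card : ℕ)
        + 25 * ((faces V 4).card : ℤ) := by
    have : ∀ F ∈ faces V 4, ((F.card : ℤ) - 5) ^ 2
        = (F.card : ℤ) ^ 2 - 10 * (F.card : ℤ) + 25 := fun F _ => by ring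
    rw [Finset.sum_congr rfl this, Finset.sum_add_distrib, Finset.sum_sub_distrib,
      ← Finset.mul_sum, Finset.sum_const]
    push_cast
    simp
    ring
  rw [e1, e2]
  generalize hS1 : (∑ F ∈ faces V 4, F.card) = S1 at *
  generalize hS2 : (∑ F ∈ faces V 4, F.card ^ 2) = S2 at *
  have h1' : 2 * ((faces V 1).card : ℤ) + V.card = (V.card : ℤ) ^ 2 := by exact_mod_cast h1
  have hsq' : 4 * ((faces V 3).card : ℤ) + 3 * (S1 : ℤ) = (S2 : ℤ) := by exact_mod_cast hsq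
  have hvf' : 2 * ((faces V 1).card : ℤ) + 4 * ((faces V 3).card : ℤ)
      = 3 * ((faces V 2).card : ℤ) + (S1 : ℤ) := by exact_mod_cast hvf
  have h0' : ((faces V 0).card : ℤ) = W + 10 := by rw [h0, hn]
  rw [hn] at h1' he
  have hf1 : 2 * ((faces V 1).card : ℤ) = (W + 10) * (W + 9) := by linear_combination h1'
  simp only [Vec5, Fin.val_zero, Fin.val_one, Fin.val_two]
  have v3 : ((3 : Fin 5) : ℕ) = 3 := rfl
  have v4 : ((4 : Fin 5) : ℕ) = 4 := rfl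
  rw [v3, v4]
  constructor
  · rintro ⟨-, -, a2, a3, a4⟩
    constructor <;> linarith
  · rintro ⟨b1, b2⟩
    refine ⟨h0', hf1, ?_, ?_, ?_⟩ <;> linarith

/-- Necessity. -/
theorem exists_parts {f : Fin 5 → ℕ} (hf : IsFVector 5 f) {W x : ℤ} (h : Vec5 W x f) :
    ∃ (V : Finset (EuclideanSpace ℝ (Fin 5))),
      (∀ F ∈ faces V 4, 0 ≤ (F.card : ℤ) - 5) ∧
      ∑ F ∈ faces V 4, ((F.card : ℤ) - 5) = W ∧ ∑ F ∈ faces V 4, ((F.card : ℤ) - 5) ^ 2 = x := by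
  obtain ⟨V, hV, h5, hc⟩ := (isFVector_iff (by norm_num) f).1 hf
  have hfun : (fun i : Fin 5 => (faces V (i : ℕ)).card) = f := funext hc
  have hn : (V.card : ℤ) = W + 10 := by
    rw [← card_faces_zero hV]
    have := hc 0
    simp only [Fin.val_zero] at this
    rw [this]
    exact h.1
  have h1 : (faces V 1).card = f 1 := by
    have := hc 1
    simpa using this
  have hN : Nbly V := by
    rw [nbly_iff_card hV]
    have h21 := h.2.1
    have : 2 * ((faces V 1).card : ℤ) + V.card = (V.card : ℤ) ^ 2 := by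
      rw [h1, hn]
      linear_combination h21
    exact_mod_cast this
  have hv := (vec5_iff hV h5 hN hn (x := x)).1 (by rw [hfun]; exact h)
  refine ⟨V, ?_, hv⟩
  intro F hF
  obtain ⟨hf4, hd⟩ := mem_faces.1 hF
  have := adim_add_one_le_card hf4.1
  rw [hd] at this
  have h' : (5 : ℤ) ≤ F.card := by exact_mod_cast this
  linarith

end Pool.Agent.FV
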