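import Pool.Agent.Lib.MP_e9c977_fv.Basic

/-!
# Row VE: the vertices of an arbitrary finite point configuration
-/

namespace Pool.Agent.FV

open Module
open scoped Classical

variable {E : Type} [NormedAddCommGroup E] [InnerProductSpace ℝ E]

/-- A point of `V` which is not in the hull of the others is a vertex. -/
theorem faceSet_singleton_iff {V : Finset E} {x : E} (hx : x ∈ V) :
    FaceSet V {x} ↔ x ∉ convexHull ℝ ((V.erase x : Finset E) : Set E) := by
  constructor
  · rintro ⟨_, _, l, c, h1, h1'⟩ hmem
    have hsub : convexHull ℝ ((V.erase x : Finset E) : Set E) ⊆ {y | l y < c} := by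
      refine convexHull_min ?_ (convex_halfSpace_lt l.isLinear c)
      intro y hy
      rw [Finset.mem_coe, Finset.mem_erase] at hy
      exact lt_of_le_of_ne (h1 y hy.2) (fun h => hy.1 (by simpa using (h1' y hy.2).1 h))
    have h2 : l x < c := hsub hmem
    have h3 : l x = c := (h1' x hx).2 (by simp)
    linarith
  · intro hmem
    obtain ⟨f, u, hf1, hf2⟩ := geometric_hahn_banach_closed_point
      (convex_convexHull ℝ ((V.erase x : Finset E) : Set E))
      ((V.erase x).finite_toSet.isClosed_convexHull (𝕜 := ℝ)) hmem
    have hlt : ∀ y ∈ V, y ≠ x → f y < f x := by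
      intro y hy hyx
      have h1 := hf1 y (subset_convexHull ℝ _ (by
        rw [Finset.mem_coe, Finset.mem_erase]
        exact ⟨hyx, hy⟩))
      linarith
    refine ⟨by simp, by simpa using hx, f.toLinearMap, f x, fun y hy => ?_, fun y hy => ?_⟩
    · by_cases hyx : y = x
      · subst hyx
        exact le_rfl
      · exact (hlt y hy hyx).le
    · rw [Finset.mem_singleton]
      constructor
      · intro h
        by_contra hyx
        exact (hlt y hy hyx).ne h
      · rintro rfl
        rfl

theorem convexHull_verts (V : Finset E) :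
    convexHull ℝ ((verts V : Finset E) : Set E) = convexHull ℝ (V : Set E) := by
  refine Set.Subset.antisymm (convexHull_mono (by
    intro x hx
    exact Finset.mem_of_mem_filter x hx)) ?_
  have hcl : IsClosed (convexHull ℝ ((verts V : Finset E) : Set E)) :=
    (verts V).finite_toSet.isClosed_convexHull (𝕜 := ℝ)
  have h1 := closure_convexHull_extremePoints (V.finite_toSet.isCompact_convexHull (𝕜 := ℝ))
    (convex_convexHull ℝ (V : Set E))
  rw [← h1]
  refine closure_minimal (convexHull_mono ?_) hcl
  intro x hx
  have hxV : x ∈ V := extremePoints_convexHull_subset hx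
  rw [Finset.mem_coe, mem_verts, faceSet_singleton_iff hxV]
  rw [(convex_convexHull ℝ (V : Set E)).mem_extremePoints_iff_mem_sdiff_convexHull_sdiff] at hx
  intro hmem
  refine hx.2 (convexHull_mono ?_ hmem)
  intro y hy
  rw [Finset.mem_coe, Finset.mem_erase] at hy
  exact ⟨subset_convexHull ℝ _ hy.2, by simpa using hy.1⟩

theorem verts_subset (V : Finset E) : verts V ⊆ V :=
  Finset.filter_subset _ _

theorem verts_nonempty {V : Finset E} (hV : V.Nonempty) : (verts V).Nonempty := by
  have h := convexHull_verts V
  rw [Finset.nonempty_iff_ne_empty]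
  intro he
  rw [he, Finset.coe_empty, convexHull_empty] at h
  have h2 : (V : Set E) = ∅ := convexHull_eq_empty.1 h.symm
  exact hV.ne_empty (by exact_mod_cast h2)

theorem convPos_verts (V : Finset E) : ConvPos (verts V) :=
  fun x hx => (mem_verts.1 hx).of_subset (verts_subset V) (by simpa using hx)

private theorem affineSpan_verts (V : Finset E) :
    affineSpan ℝ ((verts V : Finset E) : Set E) = affineSpan ℝ (V : Set E) := by
  rw [← affineSpan_convexHull, convexHull_verts, affineSpan_convexHull]

theorem adim_verts (V : Finset E) : adim (verts V) = adim V := by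
  rw [adim, adim, ← direction_affineSpan, affineSpan_verts, direction_affineSpan]

/-- A linear functional which is at most `c` at the vertices is at most `c` everywhere. -/
theorem le_of_verts {V : Finset E} (l : E →ₗ[ℝ] ℝ) {c : ℝ} (h : ∀ x ∈ verts V, l x ≤ c) :
    ∀ x ∈ V, l x ≤ c := by
  intro x hx
  have h1 : x ∈ convexHull ℝ (V : Set E) := subset_convexHull ℝ _ hx
  rw [← convexHull_verts] at h1
  have h2 : convexHull ℝ ((verts V : Finset E) : Set E) ⊆ {y | l y ≤ c} :=
    convexHull_min (fun y hy => h y hy) (convex_halfSpace_le l.isLinear c)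
  exact h2 h1

/-- The vertices of a face. -/
theorem verts_face {V S : Finset E} (hS : FaceSet V S) : verts S = S ∩ verts V := by
  ext x
  rw [Finset.mem_inter, mem_verts, mem_verts]
  constructor
  · intro h
    exact ⟨h.2.1 (by simp), hS.trans h⟩
  · rintro ⟨h1, h2⟩
    exact h2.of_subset hS.2.1 (by simpa using h1)

theorem FaceSet.inter_verts {V S : Finset E} (hS : FaceSet V S) : FaceSet (verts V) (S ∩ verts V) := by
  refine hS.restrict (verts_subset V) ?_
  rw [← verts_face hS]
  exact verts_nonempty hS.1

/-- Every face of `verts V` comes from a face of `V`. -/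
theorem exists_faceSet_of_verts {V U : Finset E} (hU : FaceSet (verts V) U) :
    ∃ S, FaceSet V S ∧ S ∩ verts V = U := by
  obtain ⟨hUn, hUV, l, c, h1, h1'⟩ := hU
  refine ⟨V.filter (fun x => l x = c), ⟨?_, Finset.filter_subset _ _, l, c, le_of_verts l h1,
    fun x hx => ?_⟩, ?_⟩
  · obtain ⟨u, hu⟩ := hUn
    exact ⟨u, Finset.mem_filter.2 ⟨verts_subset V (hUV hu), (h1' u (hUV hu)).2 hu⟩⟩
  · rw [Finset.mem_filter]
    exact ⟨fun h => ⟨hx, h⟩, fun h => h.2⟩
  · ext x
    rw [Finset.mem_inter, Finset.mem_filter]
    constructor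
    · rintro ⟨⟨_, h2⟩, h3⟩
      exact (h1' x h3).1 h2
    · intro h
      exact ⟨⟨verts_subset V (hUV h), (h1' x (hUV h)).2 h⟩, hUV h⟩

private theorem subset_of_inter_verts {V S T : Finset E} (hS : FaceSet V S) (hT : FaceSet V T)
    (h : S ∩ verts V = T ∩ verts V) : S ⊆ T := by
  intro x hx
  refine hT.mem_of_mem_affineSpan (hS.2.1 hx) ?_
  have h1 : x ∈ affineSpan ℝ (S : Set E) := mem_affineSpan ℝ hx
  rw [← affineSpan_verts, verts_face hS, h] at h1
  refine affineSpan_mono ℝ ?_ h1
  intro y hy
  exact (Finset.mem_inter.1 hy).1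

/-- A face is determined by its vertices. -/
theorem FaceSet.eq_of_inter_verts {V S T : Finset E} (hS : FaceSet V S) (hT : FaceSet V T)
    (h : S ∩ verts V = T ∩ verts V) : S = T :=
  Finset.Subset.antisymm (subset_of_inter_verts hS hT h) (subset_of_inter_verts hT hS h.symm)

/-- A configuration of dimension one has exactly two vertices. -/
theorem card_verts_of_adim_one {V : Finset E} (h : adim V = 1) : (verts V).card = 2 := by
  obtain ⟨x, y, hxy, he⟩ := (convPos_verts V).card_eq_two (by rw [adim_verts, h])
  rw [he, Finset.card_pair hxy]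

end Pool.Agent.FV
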